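import Pool.Agent.H96.TN.Defs

/-!
Module ANTI: no rank has probability bounded away from 0.

Proof (a different one from the one suggested in the specification). Let `f` be uniform in
`Fin n → Fin n`, `U = n - #(im f)` the number of missed points and `μ = n (1 - 1/n)^n = E U`.

* Far ranks, `|n - r - μ| ≥ n/20`: `Var U ≤ n` (the events `y` is missed are negatively
  correlated: `(n(n-2))^n ≤ ((n-1)^2)^n`), so by Chebyshev the probability is at most `400/n`.
* Near ranks: reveal the values of `f` at the first `n - k` points, with image `I`. If `f` is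
  injective on the last `k` points (which fails with probability at most `k^2/n`), then
  `#(im f) = #I + #{t | f t ∉ I}`, and `#{t | f t ∉ I}` is binomial `(k, q)` with
  `q = (n - #I)/n`, where `1/20 ≤ q ≤ 1/2` as `r - k ≤ #I ≤ r`. A binomial `(k, q)` variable is a
  binomial `(d, 1/2)` variable with `d` binomial `(k, 2q)`; its point probabilities are therefore
  at most `E √(2/(d+1)) ≤ λ/2 + (1/λ) E 1/(d+1) ≤ λ/2 + 1/(2 q λ (k+1))`.

So every rank has probability at most `k^2/n + λ/2 + 10/(λ(k+1))`; take `λ` small, then `k`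
large, then `n` large.
-/

namespace H96.TN

open Finset

theorem anti_central (m : ℕ) : (2 * (m : ℝ) + 1) * (Nat.centralBinom m : ℝ) ^ 2 ≤ 16 ^ m := by
  induction m with
  | zero => simp
  | succ m ih =>
    have h := Nat.succ_mul_centralBinom_succ m
    have h' : ((m : ℝ) + 1) * (Nat.centralBinom (m + 1) : ℝ) =
        2 * (2 * m + 1) * Nat.centralBinom m := by exact_mod_cast h
    have key : ((m : ℝ) + 1) ^ 2 * ((2 * ((m + 1 : ℕ) : ℝ) + 1) *
        (Nat.centralBinom (m + 1) : ℝ) ^ 2) ≤ ((m : ℝ) + 1) ^ 2 * 16 ^ (m + 1) := by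
      have e1 : ((m : ℝ) + 1) ^ 2 * ((2 * ((m + 1 : ℕ) : ℝ) + 1) *
          (Nat.centralBinom (m + 1) : ℝ) ^ 2)
          = (2 * m + 3) * (((m : ℝ) + 1) * (Nat.centralBinom (m + 1) : ℝ)) ^ 2 := by
        push_cast; ring
      rw [e1, h']
      have e2 : (2 * (m : ℝ) + 3) * (2 * (2 * m + 1) * (Nat.centralBinom m : ℝ)) ^ 2 =
          4 * (2 * m + 3) * (2 * m + 1) *
            ((2 * (m : ℝ) + 1) * (Nat.centralBinom m : ℝ) ^ 2) := by ring
      rw [e2, pow_succ (16 : ℝ) m]
      have e3 : 4 * (2 * (m : ℝ) + 3) * (2 * m + 1) *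
          ((2 * (m : ℝ) + 1) * (Nat.centralBinom m : ℝ) ^ 2) ≤
          4 * (2 * (m : ℝ) + 3) * (2 * m + 1) * 16 ^ m :=
        mul_le_mul_of_nonneg_left ih (by positivity)
      have e4 : 4 * (2 * (m : ℝ) + 3) * (2 * m + 1) ≤ ((m : ℝ) + 1) ^ 2 * 16 := by nlinarith
      have e5 : 4 * (2 * (m : ℝ) + 3) * (2 * m + 1) * 16 ^ m ≤
          ((m : ℝ) + 1) ^ 2 * 16 * 16 ^ m := mul_le_mul_of_nonneg_right e4 (by positivity)
      calc _ ≤ _ := e3
        _ ≤ _ := e5
        _ = _ := by ring
    exact le_of_mul_le_mul_left key (by positivity)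

theorem anti_choose (d j : ℕ) : ((d : ℝ) + 1) * ((d.choose j : ℝ) / 2 ^ d) ^ 2 ≤ 2 := by
  rcases Nat.even_or_odd' d with ⟨m, rfl | rfl⟩
  · have h1 : ((2 * m).choose j : ℝ) ≤ Nat.centralBinom m := by
      exact_mod_cast Nat.choose_le_centralBinom j m
    have h2 := anti_central m
    have h3 : ((2 : ℝ) ^ (2 * m)) ^ 2 = 16 ^ m := by
      rw [← pow_mul, show 2 * m * 2 = 4 * m by ring, pow_mul]
      norm_num
    have h4 : ((2 * m).choose j : ℝ) ^ 2 ≤ (Nat.centralBinom m : ℝ) ^ 2 :=
      pow_le_pow_left₀ (by positivity) h1 2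
    rw [div_pow, h3, ← mul_div_assoc, div_le_iff₀ (by positivity)]
    push_cast
    have h5 : (2 * (m : ℝ) + 1) * ((2 * m).choose j : ℝ) ^ 2 ≤
        (2 * (m : ℝ) + 1) * (Nat.centralBinom m : ℝ) ^ 2 :=
      mul_le_mul_of_nonneg_left h4 (by positivity)
    have h6 : (0 : ℝ) < 16 ^ m := by positivity
    linarith
  · have h1 : (2 * m + 1).choose j ≤ 2 * Nat.centralBinom m := by
      cases j with
      | zero =>
        have := Nat.centralBinom_pos m
        rw [Nat.choose_zero_right]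
        omega
      | succ j =>
        rw [Nat.choose_succ_succ]
        have h7 := Nat.choose_le_centralBinom j m
        have h8 := Nat.choose_le_centralBinom (j + 1) m
        simp only [Nat.succ_eq_add_one]
        omega
    have h1' : ((2 * m + 1).choose j : ℝ) ≤ 2 * Nat.centralBinom m := by exact_mod_cast h1
    have h2 := anti_central m
    have h3 : ((2 : ℝ) ^ (2 * m + 1)) ^ 2 = 4 * 16 ^ m := by
      rw [← pow_mul, show (2 * m + 1) * 2 = 4 * m + 2 by ring, pow_add, pow_mul]
      norm_num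
      ring
    have h4 : ((2 * m + 1).choose j : ℝ) ^ 2 ≤ (2 * (Nat.centralBinom m : ℝ)) ^ 2 :=
      pow_le_pow_left₀ (by positivity) h1' 2
    rw [div_pow, h3, ← mul_div_assoc, div_le_iff₀ (by positivity)]
    push_cast
    have h5 : (2 * (m : ℝ) + 1 + 1) * ((2 * m + 1).choose j : ℝ) ^ 2 ≤
        (2 * (m : ℝ) + 1 + 1) * (2 * (Nat.centralBinom m : ℝ)) ^ 2 :=
      mul_le_mul_of_nonneg_left h4 (by positivity)
    have h6 : (2 * (m : ℝ) + 1 + 1) * (2 * (Nat.centralBinom m : ℝ)) ^ 2 ≤
        8 * ((2 * (m : ℝ) + 1) * (Nat.centralBinom m : ℝ) ^ 2) := by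
      have h7 : (0 : ℝ) ≤ (m : ℝ) * (Nat.centralBinom m : ℝ) ^ 2 := by positivity
      nlinarith
    linarith

theorem anti_sum_one (k : ℕ) (p : ℝ) :
    ∑ d ∈ range (k + 1), ((k.choose d : ℝ) * p ^ d * (1 - p) ^ (k - d)) = 1 := by
  have h := add_pow p (1 - p) k
  rw [add_sub_cancel, one_pow] at h
  refine Eq.trans (Finset.sum_congr rfl fun d _ => ?_) h.symm
  ring

theorem anti_sum_div (k : ℕ) {p : ℝ} (hp0 : 0 < p) (hp1 : p ≤ 1) :
    ∑ d ∈ range (k + 1), ((k.choose d : ℝ) * p ^ d * (1 - p) ^ (k - d)) * (1 / ((d : ℝ) + 1)) ≤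
      1 / (((k : ℝ) + 1) * p) := by
  have h := anti_sum_one (k + 1) p
  rw [Finset.sum_range_succ'] at h
  have h0 : 0 ≤ ((k + 1).choose 0 : ℝ) * p ^ 0 * (1 - p) ^ (k + 1 - 0) := by
    have : 0 ≤ 1 - p := by linarith
    positivity
  have h1 : ∀ d ∈ range (k + 1), ((k.choose d : ℝ) * p ^ d * (1 - p) ^ (k - d)) *
      (1 / ((d : ℝ) + 1)) = (((k + 1).choose (d + 1) : ℝ) * p ^ (d + 1) *
      (1 - p) ^ (k + 1 - (d + 1))) * (1 / (((k : ℝ) + 1) * p)) := by
    intro d _
    have h2 : ((k : ℝ) + 1) * (k.choose d : ℝ) = ((k + 1).choose (d + 1) : ℝ) * ((d : ℝ) + 1) := by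
      exact_mod_cast Nat.add_one_mul_choose_eq k d
    have h3 : k + 1 - (d + 1) = k - d := by omega
    rw [h3]
    have h4 : (0 : ℝ) < (d : ℝ) + 1 := by positivity
    have h5 : (0 : ℝ) < (k : ℝ) + 1 := by positivity
    rw [pow_succ]
    field_simp
    linear_combination ((1 - p) ^ (k - d)) * h2
  rw [Finset.sum_congr rfl h1, ← Finset.sum_mul]
  have h6 : (0 : ℝ) ≤ 1 / (((k : ℝ) + 1) * p) := by positivity
  calc _ ≤ 1 * (1 / (((k : ℝ) + 1) * p)) := mul_le_mul_of_nonneg_right (by linarith) h6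
    _ = _ := one_mul _

theorem anti_ident (m j : ℕ) (q : ℝ) :
    ∑ d ∈ range (j + m + 1), (((j + m).choose d : ℝ) * (2 * q) ^ d *
      (1 - 2 * q) ^ (j + m - d)) * ((d.choose j : ℝ) / 2 ^ d)
      = ((j + m).choose j : ℝ) * q ^ j * (1 - q) ^ m := by
  rw [add_assoc j m 1, Finset.sum_range_add]
  have h1 : ∑ x ∈ range j, (((j + m).choose x : ℝ) * (2 * q) ^ x *
      (1 - 2 * q) ^ (j + m - x)) * ((x.choose j : ℝ) / 2 ^ x) = 0 := by
    refine Finset.sum_eq_zero fun x hx => ?_
    rw [Nat.choose_eq_zero_of_lt (Finset.mem_range.1 hx)]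
    simp
  have h2 : ∀ i ∈ range (m + 1), (((j + m).choose (j + i) : ℝ) * (2 * q) ^ (j + i) *
      (1 - 2 * q) ^ (j + m - (j + i))) * (((j + i).choose j : ℝ) / 2 ^ (j + i)) =
      ((j + m).choose j : ℝ) * q ^ j * (q ^ i * (1 - 2 * q) ^ (m - i) * (m.choose i : ℝ)) := by
    intro i _
    have h3 := Nat.choose_mul (n := j + m) (k := j + i) (s := j) (Nat.le_add_right j i)
    rw [Nat.add_sub_cancel_left, Nat.add_sub_cancel_left] at h3
    have h3' : ((j + m).choose (j + i) : ℝ) * ((j + i).choose j : ℝ) =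
        ((j + m).choose j : ℝ) * (m.choose i : ℝ) := by exact_mod_cast h3
    have h4 : j + m - (j + i) = m - i := by omega
    have h5 : (2 * q) ^ (j + i) / 2 ^ (j + i) = q ^ (j + i) := by
      rw [mul_pow]
      field_simp
    rw [h4]
    calc _ = (((j + m).choose (j + i) : ℝ) * ((j + i).choose j : ℝ)) *
          ((2 * q) ^ (j + i) / 2 ^ (j + i)) * (1 - 2 * q) ^ (m - i) := by ring
      _ = _ := by rw [h3', h5, pow_add]; ring
  rw [h1, zero_add, Finset.sum_congr rfl h2, ← Finset.mul_sum, ← add_pow]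
  congr 2
  ring

theorem anti_bin (k j : ℕ) {q : ℝ} (hq0 : 0 < q) (hq1 : q ≤ 1 / 2) {lam : ℝ} (hl : 0 < lam) :
    (k.choose j : ℝ) * q ^ j * (1 - q) ^ (k - j) ≤
      lam / 2 + 1 / lam * (1 / (((k : ℝ) + 1) * (2 * q))) := by
  rcases lt_or_ge k j with h | h
  · rw [Nat.choose_eq_zero_of_lt h]
    simp only [Nat.cast_zero, zero_mul]
    positivity
  · obtain ⟨m, rfl⟩ := Nat.exists_eq_add_of_le h
    rw [Nat.add_sub_cancel_left, ← anti_ident m j q]
    have hw : ∀ d, 0 ≤ ((j + m).choose d : ℝ) * (2 * q) ^ d * (1 - 2 * q) ^ (j + m - d) := by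
      intro d
      have : 0 ≤ 1 - 2 * q := by linarith
      positivity
    have hx : ∀ d : ℕ, ((d.choose j : ℝ) / 2 ^ d) ≤ lam / 2 + 1 / lam * (1 / ((d : ℝ) + 1)) := by
      intro d
      have h1 := anti_choose d j
      have hd : (0 : ℝ) < (d : ℝ) + 1 := by positivity
      set x : ℝ := (d.choose j : ℝ) / 2 ^ d
      have h2 : x ^ 2 ≤ 2 / ((d : ℝ) + 1) := by
        rw [le_div_iff₀ hd]
        linarith
      have h3 : 0 ≤ (lam - x) ^ 2 := sq_nonneg _
      have h4 : x ≤ lam / 2 + 1 / (2 * lam) * x ^ 2 := by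
        have h5 : lam / 2 + 1 / (2 * lam) * x ^ 2 - x = (lam - x) ^ 2 / (2 * lam) := by
          field_simp
          ring
        have h6 : 0 ≤ (lam - x) ^ 2 / (2 * lam) := by positivity
        linarith
      have h7 : 1 / (2 * lam) * x ^ 2 ≤ 1 / (2 * lam) * (2 / ((d : ℝ) + 1)) :=
        mul_le_mul_of_nonneg_left h2 (by positivity)
      have h8 : 1 / (2 * lam) * (2 / ((d : ℝ) + 1)) = 1 / lam * (1 / ((d : ℝ) + 1)) := by
        field_simp
      linarith
    calc _ ≤ ∑ d ∈ range (j + m + 1), (((j + m).choose d : ℝ) * (2 * q) ^ d *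
          (1 - 2 * q) ^ (j + m - d)) * (lam / 2 + 1 / lam * (1 / ((d : ℝ) + 1))) :=
          Finset.sum_le_sum fun d _ => mul_le_mul_of_nonneg_left (hx d) (hw d)
      _ = lam / 2 * ∑ d ∈ range (j + m + 1), (((j + m).choose d : ℝ) * (2 * q) ^ d *
          (1 - 2 * q) ^ (j + m - d)) + 1 / lam * ∑ d ∈ range (j + m + 1),
          (((j + m).choose d : ℝ) * (2 * q) ^ d * (1 - 2 * q) ^ (j + m - d)) *
            (1 / ((d : ℝ) + 1)) := by
          rw [Finset.mul_sum, Finset.mul_sum, ← Finset.sum_add_distrib]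
          exact Finset.sum_congr rfl fun d _ => by ring
      _ ≤ _ := by
          rw [anti_sum_one, mul_one]
          have h9 := anti_sum_div (j + m) (p := 2 * q) (by linarith) (by linarith)
          have h10 : (0 : ℝ) ≤ 1 / lam := by positivity
          have h11 := mul_le_mul_of_nonneg_left h9 h10
          linarith

theorem anti_fiber (n k j : ℕ) (I : Finset (Fin n)) :
    #{g : Fin k → Fin n | #{t | g t ∉ I} = j} =
      k.choose j * ((n - #I) ^ j * #I ^ (k - j)) := by
  classical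
  have hmap : Set.MapsTo (fun g : Fin k → Fin n => ({t | g t ∉ I} : Finset (Fin k)))
      (({g : Fin k → Fin n | #{t | g t ∉ I} = j} : Finset (Fin k → Fin n)) : Set (Fin k → Fin n))
      ((powersetCard j (univ : Finset (Fin k)) : Finset (Finset (Fin k))) :
        Set (Finset (Fin k))) := by
    intro g hg
    simp only [coe_filter, mem_univ, true_and] at hg
    simp only [mem_coe, mem_powersetCard, subset_univ, true_and]
    exact hg
  rw [card_eq_sum_card_fiberwise hmap]
  have h : ∀ S ∈ powersetCard j (univ : Finset (Fin k)),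
      #({g ∈ ({g : Fin k → Fin n | #{t | g t ∉ I} = j} : Finset (Fin k → Fin n)) |
        ({t | g t ∉ I} : Finset (Fin k)) = S}) = (n - #I) ^ j * #I ^ (k - j) := by
    intro S hS
    have hS' : #S = j := (mem_powersetCard.1 hS).2
    have h1 : ({g ∈ ({g : Fin k → Fin n | #{t | g t ∉ I} = j} : Finset (Fin k → Fin n)) |
        ({t | g t ∉ I} : Finset (Fin k)) = S}) =
        Fintype.piFinset (fun t => if t ∈ S then Iᶜ else I) := by
      ext g
      simp only [mem_filter, mem_univ, true_and, Fintype.mem_piFinset]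
      constructor
      · rintro ⟨_, h2⟩ t
        by_cases ht : t ∈ S
        · rw [if_pos ht, mem_compl]
          rw [← h2] at ht
          exact (mem_filter.1 ht).2
        · rw [if_neg ht]
          by_contra h3
          exact ht (by rw [← h2]; exact mem_filter.2 ⟨mem_univ _, h3⟩)
      · intro h2
        have h3 : ({t | g t ∉ I} : Finset (Fin k)) = S := by
          ext t
          simp only [mem_filter, mem_univ, true_and]
          have h4 := h2 t
          constructor
          · intro h5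
            by_contra h6
            rw [if_neg h6] at h4
            exact h5 h4
          · intro h5
            rw [if_pos h5] at h4
            exact mem_compl.1 h4
        exact ⟨by rw [h3, hS'], h3⟩
    rw [h1, Fintype.card_piFinset]
    have h2 : ∀ t : Fin k, #(if t ∈ S then Iᶜ else I) = if t ∈ S then #Iᶜ else #I := by
      intro t
      split_ifs <;> rfl
    simp only [h2]
    rw [prod_ite]
    simp only [prod_const]
    have h3 : ({x | x ∈ S} : Finset (Fin k)) = S := by ext; simp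
    have h4 : ({x | ¬ x ∈ S} : Finset (Fin k)) = Sᶜ := by ext; simp
    rw [h3, h4, card_compl, card_compl, hS', Fintype.card_fin, Fintype.card_fin]
  rw [sum_congr rfl h, sum_const, card_powersetCard, card_univ, Fintype.card_fin, smul_eq_mul]

theorem anti_count (n k r : ℕ) (I : Finset (Fin n)) :
    #{g : Fin k → Fin n | #(I ∪ univ.image g) = r} ≤
      #{g : Fin k → Fin n | ¬ Function.Injective g} +
        #{g : Fin k → Fin n | #I + #{t | g t ∉ I} = r} := by
  classical
  refine le_trans (card_le_card ?_) (card_union_le _ _)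
  intro g hg
  rw [mem_union]
  by_cases hi : Function.Injective g
  · right
    rw [mem_filter] at hg ⊢
    refine ⟨mem_univ _, ?_⟩
    rw [← hg.2]
    have h1 : I ∪ univ.image g = I ∪ (({t | g t ∉ I} : Finset (Fin k)).image g) := by
      ext y
      simp only [mem_union, mem_image, mem_univ, true_and, mem_filter]
      constructor
      · rintro (h | ⟨t, ht⟩)
        · exact Or.inl h
        · by_cases h2 : y ∈ I
          · exact Or.inl h2
          · exact Or.inr ⟨t, by rw [ht]; exact h2, ht⟩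
      · rintro (h | ⟨t, _, ht⟩)
        · exact Or.inl h
        · exact Or.inr ⟨t, ht⟩
    rw [h1, card_union_of_disjoint, card_image_of_injective _ hi]
    rw [disjoint_left]
    intro y hy hy2
    obtain ⟨t, ht, rfl⟩ := mem_image.1 hy2
    exact (mem_filter.1 ht).2 hy
  · left
    exact mem_filter.2 ⟨mem_univ _, hi⟩

theorem anti_inj (n k : ℕ) (hk : k ≤ n) (hn : 0 < n) :
    (#{g : Fin k → Fin n | ¬ Function.Injective g} : ℝ) ≤
      (n : ℝ) ^ k * ((k : ℝ) ^ 2 / n) := by
  classical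
  have h1 := card_filter_add_card_filter_not (s := (univ : Finset (Fin k → Fin n)))
    (fun g => Function.Injective g)
  have h2 : #{g : Fin k → Fin n | Function.Injective g} = n.descFactorial k := by
    rw [← Fintype.card_subtype, Fintype.card_congr (Equiv.subtypeInjectiveEquivEmbedding _ _),
      Fintype.card_embedding_eq, Fintype.card_fin, Fintype.card_fin]
  have h3 : #(univ : Finset (Fin k → Fin n)) = n ^ k := by
    rw [card_univ, Fintype.card_fun, Fintype.card_fin, Fintype.card_fin]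
  rw [h2, h3] at h1
  have h4 : ((n.descFactorial k : ℕ) : ℝ) +
      (#{g : Fin k → Fin n | ¬ Function.Injective g} : ℝ) = (n : ℝ) ^ k := by
    exact_mod_cast h1
  have h5 : (n - k) ^ k ≤ n.descFactorial k :=
    le_trans (Nat.pow_le_pow_left (by omega) k) (Nat.pow_sub_le_descFactorial n k)
  have h6 : ((n : ℝ) - k) ^ k ≤ n.descFactorial k := by
    have : (((n - k) ^ k : ℕ) : ℝ) ≤ n.descFactorial k := by exact_mod_cast h5
    rw [Nat.cast_pow, Nat.cast_sub hk] at this
    exact this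
  have hn' : (0 : ℝ) < n := by exact_mod_cast hn
  have hk' : (k : ℝ) ≤ n := by exact_mod_cast hk
  have h7 : 1 + (k : ℝ) * (-(k / n)) ≤ (1 + (-((k : ℝ) / n))) ^ k := by
    apply one_add_mul_le_pow
    have : (k : ℝ) / n ≤ 1 := by rw [div_le_one hn']; exact hk'
    linarith
  have h8 : ((n : ℝ) - k) ^ k = (n : ℝ) ^ k * (1 + (-((k : ℝ) / n))) ^ k := by
    rw [← mul_pow]
    congr 1
    field_simp
    ring
  have h9 : (n : ℝ) ^ k * (1 + (k : ℝ) * (-(k / n))) ≤ ((n : ℝ) - k) ^ k := by
    rw [h8]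
    exact mul_le_mul_of_nonneg_left h7 (by positivity)
  have h10 : (n : ℝ) ^ k * (1 + (k : ℝ) * (-(k / n))) =
      (n : ℝ) ^ k - (n : ℝ) ^ k * ((k : ℝ) ^ 2 / n) := by
    field_simp
    ring
  linarith

theorem anti_split (m k r : ℕ) :
    #{f : Fin (m + k) → Fin (m + k) | #(univ.image f) = r} =
      ∑ a : Fin m → Fin (m + k),
        #{g : Fin k → Fin (m + k) | #(univ.image a ∪ univ.image g) = r} := by
  classical
  have himg : ∀ (a : Fin m → Fin (m + k)) (g : Fin k → Fin (m + k)),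
      univ.image (Fin.append a g) = univ.image a ∪ univ.image g := by
    intro a g
    ext y
    simp only [mem_union, mem_image, mem_univ, true_and]
    constructor
    · rintro ⟨x, hx⟩
      induction x using Fin.addCases with
      | left x => exact Or.inl ⟨x, by rw [← hx, Fin.append_left]⟩
      | right x => exact Or.inr ⟨x, by rw [← hx, Fin.append_right]⟩
    · rintro (⟨x, hx⟩ | ⟨x, hx⟩)
      · exact ⟨Fin.castAdd k x, by rw [Fin.append_left]; exact hx⟩
      · exact ⟨Fin.natAdd m x, by rw [Fin.append_right]; exact hx⟩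
  have h1 : #{f : Fin (m + k) → Fin (m + k) | #(univ.image f) = r} =
      #{p : (Fin m → Fin (m + k)) × (Fin k → Fin (m + k)) |
        #(univ.image p.1 ∪ univ.image p.2) = r} := by
    symm
    refine card_equiv (Fin.appendEquiv m k) ?_
    intro p
    simp only [mem_filter, mem_univ, true_and]
    rw [← himg]
    rfl
  rw [h1, card_filter, Fintype.sum_prod_type]
  exact sum_congr rfl fun a _ => (card_filter _ _).symm

theorem anti_moment (n : ℕ) (hn : 2 ≤ n) (r : ℕ) :
    (#{f : Fin n → Fin n | #(univ.image f) = r} : ℝ) *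
      ((n : ℝ) - r - n * (1 - 1 / (n : ℝ)) ^ n) ^ 2 ≤ n * (n : ℝ) ^ n := by
  classical
  set μ : ℝ := n * (1 - 1 / (n : ℝ)) ^ n with hμ
  have hn0 : (0 : ℝ) < n := by
    have : 0 < n := by omega
    exact_mod_cast this
  let U : (Fin n → Fin n) → ℝ := fun f => ∑ y : Fin n, if (∀ x, f x ≠ y) then 1 else 0
  have hU : ∀ f : Fin n → Fin n, U f = n - #(univ.image f) := by
    intro f
    have h1 : U f = (#((univ.image f)ᶜ) : ℝ) := by
      have h2 : ((univ.image f)ᶜ : Finset (Fin n)) = ({y | ∀ x, f x ≠ y} : Finset (Fin n)) := by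
        ext y
        simp
      rw [h2, card_filter]
      push_cast
      rfl
    rw [h1, card_compl, Fintype.card_fin, Nat.cast_sub]
    exact le_trans (card_le_univ _) (by rw [Fintype.card_fin])
  -- counting functions avoiding a set
  have hcnt : ∀ T : Finset (Fin n), (#{f : Fin n → Fin n | ∀ x, f x ∉ T} : ℝ) =
      ((n : ℝ) - #T) ^ n := by
    intro T
    have h1 : ({f : Fin n → Fin n | ∀ x, f x ∉ T} : Finset (Fin n → Fin n)) =
        Fintype.piFinset (fun _ => Tᶜ) := by
      ext f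
      simp [Fintype.mem_piFinset]
    rw [h1, Fintype.card_piFinset, prod_const, card_univ, Fintype.card_fin, card_compl,
      Fintype.card_fin, Nat.cast_pow, Nat.cast_sub]
    exact le_trans (card_le_univ _) (by rw [Fintype.card_fin])
  have hS1 : ∑ f : Fin n → Fin n, U f = n * ((n : ℝ) - 1) ^ n := by
    rw [sum_comm]
    have h1 : ∀ y : Fin n, (∑ f : Fin n → Fin n, if (∀ x, f x ≠ y) then (1 : ℝ) else 0) =
        ((n : ℝ) - 1) ^ n := by
      intro y
      have h2 := hcnt {y}
      rw [card_singleton, card_filter] at h2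
      push_cast at h2
      rw [← h2]
      refine sum_congr rfl fun f _ => ?_
      simp only [mem_singleton, ne_eq]
    rw [sum_congr rfl fun y _ => h1 y, sum_const, card_univ, Fintype.card_fin, nsmul_eq_mul]
  have hS2 : ∑ f : Fin n → Fin n, (U f) ^ 2 = n * ((n : ℝ) - 1) ^ n +
      n * ((n : ℝ) - 1) * ((n : ℝ) - 2) ^ n := by
    have h0 : ∀ f : Fin n → Fin n, (U f) ^ 2 =
        ∑ y : Fin n, ∑ z : Fin n, if (∀ x, f x ∉ ({y, z} : Finset (Fin n))) then (1 : ℝ) else 0 := by
      intro f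
      rw [sq, sum_mul_sum]
      refine sum_congr rfl fun y _ => sum_congr rfl fun z _ => ?_
      by_cases hy : ∀ x, f x ≠ y
      · by_cases hz : ∀ x, f x ≠ z
        · rw [if_pos hy, if_pos hz, if_pos, mul_one]
          intro x hx
          rcases mem_insert.1 hx with h | h
          · exact hy x h
          · exact hz x (mem_singleton.1 h)
        · rw [if_neg hz, mul_zero, if_neg]
          intro h
          exact hz fun x hx => h x (by rw [hx]; exact mem_insert_of_mem (mem_singleton_self z))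
      · rw [if_neg hy, zero_mul, if_neg]
        intro h
        exact hy fun x hx => h x (by rw [hx]; exact mem_insert_self y _)
    rw [sum_congr rfl fun f _ => h0 f, sum_comm]
    have h1 : ∀ y : Fin n, (∑ f : Fin n → Fin n, ∑ z : Fin n,
        if (∀ x, f x ∉ ({y, z} : Finset (Fin n))) then (1 : ℝ) else 0) =
        ((n : ℝ) - 1) ^ n + ((n : ℝ) - 1) * ((n : ℝ) - 2) ^ n := by
      intro y
      rw [sum_comm]
      have h2 : ∀ z : Fin n, (∑ f : Fin n → Fin n,
          if (∀ x, f x ∉ ({y, z} : Finset (Fin n))) then (1 : ℝ) else 0) =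
          if z = y then ((n : ℝ) - 1) ^ n else ((n : ℝ) - 2) ^ n := by
        intro z
        have h3 := hcnt {y, z}
        rw [card_filter] at h3
        push_cast at h3
        rw [h3]
        by_cases hz : z = y
        · rw [if_pos hz, hz]
          simp
        · rw [if_neg hz, card_pair (fun h => hz h.symm)]
          norm_num
      rw [sum_congr rfl fun z _ => h2 z, sum_ite, sum_const, sum_const]
      have h4 : #({x | x = y} : Finset (Fin n)) = 1 := by
        rw [filter_eq' univ y, if_pos (mem_univ y), card_singleton]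
      have h5 : (#({x | ¬ x = y} : Finset (Fin n)) : ℝ) = n - 1 := by
        have h6 := card_filter_add_card_filter_not (s := (univ : Finset (Fin n)))
          (fun x => x = y)
        rw [h4, card_univ, Fintype.card_fin] at h6
        have h7 : (1 : ℝ) + (#({x | ¬ x = y} : Finset (Fin n)) : ℝ) = n := by exact_mod_cast h6
        linarith
      rw [nsmul_eq_mul, nsmul_eq_mul, h4, h5]
      push_cast
      ring
    rw [sum_congr rfl fun y _ => h1 y, sum_const, card_univ, Fintype.card_fin, nsmul_eq_mul]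
    ring
  have hN : ∑ _f : Fin n → Fin n, (1 : ℝ) = (n : ℝ) ^ n := by
    rw [sum_const, card_univ, Fintype.card_fun, Fintype.card_fin, nsmul_eq_mul]
    push_cast
    ring
  have hμ1 : n * ((n : ℝ) - 1) ^ n = μ * (n : ℝ) ^ n := by
    rw [hμ, mul_assoc, ← mul_pow]
    congr 2
    field_simp
  have hpow : (n : ℝ) ^ n * ((n : ℝ) - 2) ^ n ≤ (((n : ℝ) - 1) ^ n) ^ 2 := by
    rw [← mul_pow, ← pow_mul, mul_comm n 2, pow_mul]
    have h2 : (2 : ℝ) ≤ n := by exact_mod_cast hn
    refine pow_le_pow_left₀ (by nlinarith) (by nlinarith) n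
  have hvar : ∑ f : Fin n → Fin n, (U f - μ) ^ 2 ≤ n * (n : ℝ) ^ n := by
    have h1 : ∑ f : Fin n → Fin n, (U f - μ) ^ 2 = ∑ f : Fin n → Fin n, (U f) ^ 2 -
        2 * μ * ∑ f : Fin n → Fin n, U f + μ ^ 2 * ∑ _f : Fin n → Fin n, (1 : ℝ) := by
      rw [mul_sum, mul_sum, ← sum_sub_distrib, ← sum_add_distrib]
      exact sum_congr rfl fun f _ => by ring
    rw [h1, hS1, hS2, hN, hμ1]
    have hp : (0 : ℝ) < (n : ℝ) ^ n := by positivity
    have h2 : n * ((n : ℝ) - 1) * ((n : ℝ) - 2) ^ n ≤ μ ^ 2 * (n : ℝ) ^ n := by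
      have h3 : (n : ℝ) ^ n * (n * ((n : ℝ) - 1) * ((n : ℝ) - 2) ^ n) ≤
          (n : ℝ) ^ n * (μ ^ 2 * (n : ℝ) ^ n) := by
        have h4 : (n : ℝ) ^ n * (μ ^ 2 * (n : ℝ) ^ n) = (μ * (n : ℝ) ^ n) ^ 2 := by ring
        rw [h4, ← hμ1]
        have h5 : (n : ℝ) ^ n * (n * ((n : ℝ) - 1) * ((n : ℝ) - 2) ^ n) =
          (n * ((n : ℝ) - 1)) * ((n : ℝ) ^ n * ((n : ℝ) - 2) ^ n) := by ring
        have h2' : (2 : ℝ) ≤ n := by exact_mod_cast hn
        rw [h5, mul_pow]
        have h6 : (n : ℝ) * ((n : ℝ) - 1) ≤ (n : ℝ) ^ 2 := by nlinarith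
        have h7 : 0 ≤ (n : ℝ) ^ n * ((n : ℝ) - 2) ^ n := by
          have : 0 ≤ (n : ℝ) - 2 := by linarith
          positivity
        calc _ ≤ (n : ℝ) ^ 2 * ((n : ℝ) ^ n * ((n : ℝ) - 2) ^ n) :=
              mul_le_mul_of_nonneg_right h6 h7
          _ ≤ _ := mul_le_mul_of_nonneg_left hpow (by positivity)
      exact le_of_mul_le_mul_left h3 hp
    have h8 : μ ≤ n := by
      rw [hμ]
      have h9 : (1 - 1 / (n : ℝ)) ^ n ≤ 1 := by
        apply pow_le_one₀
        · have : 1 / (n : ℝ) ≤ 1 := by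
            rw [div_le_one hn0]
            have h2' : (2 : ℝ) ≤ n := by exact_mod_cast hn
            linarith
          linarith
        · have : 0 ≤ 1 / (n : ℝ) := by positivity
          linarith
      nlinarith
    have h10 : μ * (n : ℝ) ^ n ≤ n * (n : ℝ) ^ n := mul_le_mul_of_nonneg_right h8 hp.le
    nlinarith
  refine le_trans ?_ hvar
  have h1 : ∑ f ∈ ({f : Fin n → Fin n | #(univ.image f) = r} : Finset (Fin n → Fin n)),
      (U f - μ) ^ 2 ≤ ∑ f : Fin n → Fin n, (U f - μ) ^ 2 :=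
    sum_le_sum_of_subset_of_nonneg (filter_subset _ _) fun _ _ _ => sq_nonneg _
  refine le_trans (le_of_eq ?_) h1
  have h2 : ∀ f ∈ ({f : Fin n → Fin n | #(univ.image f) = r} : Finset (Fin n → Fin n)),
      (U f - μ) ^ 2 = ((n : ℝ) - r - μ) ^ 2 := by
    intro f hf
    rw [hU f, (mem_filter.1 hf).2]
  rw [sum_congr rfl h2, sum_const, nsmul_eq_mul]

theorem anti_bd (n k r : ℕ) (I : Finset (Fin n)) {lam : ℝ} (hl : 0 < lam) (hn : 0 < n)
    (hk : k ≤ n)
    (hR : ∀ R : ℕ, R ≤ r → r ≤ R + k →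
      1 / 20 ≤ ((n : ℝ) - R) / n ∧ ((n : ℝ) - R) / n ≤ 1 / 2) :
    (#{g : Fin k → Fin n | #(I ∪ univ.image g) = r} : ℝ) ≤
      (n : ℝ) ^ k * ((k : ℝ) ^ 2 / n + (lam / 2 + 10 / (lam * ((k : ℝ) + 1)))) := by
  classical
  have h1 : (#{g : Fin k → Fin n | #(I ∪ univ.image g) = r} : ℝ) ≤
      (#{g : Fin k → Fin n | ¬ Function.Injective g} : ℝ) +
        (#{g : Fin k → Fin n | #I + #{t | g t ∉ I} = r} : ℝ) := by
    exact_mod_cast anti_count n k r I
  have h2 := anti_inj n k hk hn
  have hn' : (0 : ℝ) < n := by exact_mod_cast hn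
  have hpos : (0 : ℝ) < lam / 2 + 10 / (lam * ((k : ℝ) + 1)) := by positivity
  have h3 : (#{g : Fin k → Fin n | #I + #{t | g t ∉ I} = r} : ℝ) ≤
      (n : ℝ) ^ k * (lam / 2 + 10 / (lam * ((k : ℝ) + 1))) := by
    by_cases hI : #I ≤ r ∧ r ≤ #I + k
    · obtain ⟨j, hj⟩ := Nat.exists_eq_add_of_le hI.1
      have hjk : j ≤ k := by omega
      have e1 : ({g : Fin k → Fin n | #I + #{t | g t ∉ I} = r} : Finset (Fin k → Fin n)) =
          ({g : Fin k → Fin n | #{t | g t ∉ I} = j} : Finset (Fin k → Fin n)) := by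
        ext g
        simp only [mem_filter, mem_univ, true_and]
        omega
      rw [e1, anti_fiber]
      obtain ⟨hq1, hq2⟩ := hR #I hI.1 hI.2
      set q : ℝ := ((n : ℝ) - #I) / n with hq
      have hq0 : 0 < q := by linarith
      have e2 := anti_bin k j hq0 hq2 hl
      have hIn : #I ≤ n := le_trans (card_le_univ _) (by rw [Fintype.card_fin])
      have e3 : ((k.choose j * ((n - #I) ^ j * #I ^ (k - j)) : ℕ) : ℝ) =
          (n : ℝ) ^ k * ((k.choose j : ℝ) * q ^ j * (1 - q) ^ (k - j)) := by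
        push_cast
        rw [Nat.cast_sub hIn]
        have e4 : (n : ℝ) - #I = n * q := by
          rw [hq]
          field_simp
        have e5 : (#I : ℝ) = n * (1 - q) := by
          rw [hq]
          field_simp
          ring
        have e6 : (n : ℝ) ^ k = (n : ℝ) ^ j * (n : ℝ) ^ (k - j) := by
          rw [← pow_add]
          congr 1
          omega
        rw [e4, e6, mul_pow]
        rw [e5, mul_pow]
        ring
      rw [e3]
      refine mul_le_mul_of_nonneg_left (le_trans e2 ?_) (by positivity)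
      have e7 : 1 / lam * (1 / (((k : ℝ) + 1) * (2 * q))) ≤ 10 / (lam * ((k : ℝ) + 1)) := by
        rw [one_div_mul_one_div, div_le_div_iff₀ (by positivity) (by positivity)]
        have e8 : 0 < lam * ((k : ℝ) + 1) := by positivity
        nlinarith
      linarith
    · have e1 : ({g : Fin k → Fin n | #I + #{t | g t ∉ I} = r} : Finset (Fin k → Fin n)) = ∅ := by
        rw [filter_eq_empty_iff]
        intro g _ hg
        apply hI
        have e2 : #{t | g t ∉ I} ≤ k :=
          le_trans (card_le_univ _) (by rw [Fintype.card_fin])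
        omega
      rw [e1, card_empty, Nat.cast_zero]
      positivity
  have h4 : (n : ℝ) ^ k * ((k : ℝ) ^ 2 / n + (lam / 2 + 10 / (lam * ((k : ℝ) + 1)))) =
    (n : ℝ) ^ k * ((k : ℝ) ^ 2 / n) +
      (n : ℝ) ^ k * (lam / 2 + 10 / (lam * ((k : ℝ) + 1))) := by ring
  linarith

theorem anti_exp (n : ℕ) (hn : 2 ≤ n) :
    1 / 8 ≤ (1 - 1 / (n : ℝ)) ^ n ∧ (1 - 1 / (n : ℝ)) ^ n ≤ 37 / 100 := by
  have hn2 : (2 : ℝ) ≤ n := by exact_mod_cast hn
  have hn0 : (0 : ℝ) < n := by linarith
  have hn1 : (0 : ℝ) < (n : ℝ) - 1 := by linarith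
  have h0 : 0 < 1 - 1 / (n : ℝ) := by
    rw [sub_pos, div_lt_one hn0]
    linarith
  constructor
  · have h1 : (1 / (1 - 1 / (n : ℝ))) ≤ Real.exp (1 / ((n : ℝ) - 1)) := by
      refine le_trans (le_of_eq ?_) (Real.add_one_le_exp _)
      field_simp
      ring
    have h2 : (1 / (1 - 1 / (n : ℝ))) ^ n ≤ Real.exp 2 := by
      refine le_trans (pow_le_pow_left₀ (by positivity) h1 n) ?_
      rw [← Real.exp_nat_mul]
      apply Real.exp_le_exp.2
      rw [mul_one_div, div_le_iff₀ hn1]
      linarith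
    have h3 : Real.exp 2 ≤ 8 := by
      have h4 : Real.exp 2 = Real.exp 1 * Real.exp 1 := by
        rw [← Real.exp_add]
        norm_num
      have h5 := Real.exp_one_lt_d9
      have h6 := Real.exp_pos 1
      rw [h4]
      nlinarith
    have h7 : (1 / (1 - 1 / (n : ℝ))) ^ n ≤ 8 := le_trans h2 h3
    rw [one_div_pow, div_le_iff₀ (by positivity)] at h7
    linarith
  · have h1 : 1 - 1 / (n : ℝ) ≤ Real.exp (-(1 / (n : ℝ))) := by
      have := Real.add_one_le_exp (-(1 / (n : ℝ)))
      linarith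
    have h2 : (1 - 1 / (n : ℝ)) ^ n ≤ Real.exp (-1) := by
      refine le_trans (pow_le_pow_left₀ h0.le h1 n) (le_of_eq ?_)
      rw [← Real.exp_nat_mul]
      congr 1
      field_simp
    have h3 := Real.exp_neg_one_lt_d9
    linarith

theorem anti (η : ℝ) (hη : 0 < η) : ∃ n0 : ℕ, ∀ n ≥ n0, ∀ r : ℕ,
    (#{f : Fin n → Fin n | #(im f) = r} : ℝ) ≤ η * (n : ℝ) ^ n := by
  classical
  obtain ⟨k, hk⟩ := exists_nat_ge (80 / η ^ 2)
  obtain ⟨n1, hn1⟩ := exists_nat_ge (4 * (k : ℝ) ^ 2 / η)
  obtain ⟨n2, hn2⟩ := exists_nat_ge (400 / η)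
  refine ⟨n1 + n2 + 100 * k + 2, fun n hn r => ?_⟩
  have hnpos : 0 < n := by omega
  have hn0 : (0 : ℝ) < n := by exact_mod_cast hnpos
  have hkn : k ≤ n := by omega
  have hn1' : 4 * (k : ℝ) ^ 2 / η ≤ n := le_trans hn1 (by exact_mod_cast (by omega : n1 ≤ n))
  have hn2' : 400 / η ≤ n := le_trans hn2 (by exact_mod_cast (by omega : n2 ≤ n))
  have hk' : 100 * (k : ℝ) ≤ n := by exact_mod_cast (by omega : 100 * k ≤ n)
  have hN : (0 : ℝ) < (n : ℝ) ^ n := by positivity
  obtain ⟨hP1, hP2⟩ := anti_exp n (by omega)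
  have hmom := anti_moment n (by omega) r
  unfold im
  set P : ℝ := (1 - 1 / (n : ℝ)) ^ n with hP
  by_cases hfar : (n : ℝ) / 20 ≤ |(n : ℝ) - r - n * P|
  · have h1 : ((n : ℝ) / 20) ^ 2 ≤ ((n : ℝ) - r - n * P) ^ 2 := by
      rw [← sq_abs ((n : ℝ) - r - n * P)]
      exact pow_le_pow_left₀ (by positivity) hfar 2
    have h2 : (#{f : Fin n → Fin n | #(univ.image f) = r} : ℝ) * ((n : ℝ) / 20) ^ 2 ≤
        n * (n : ℝ) ^ n := le_trans (mul_le_mul_of_nonneg_left h1 (by positivity)) hmom
    have h3 : 400 ≤ η * n := by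
      rw [div_le_iff₀ hη] at hn2'
      linarith
    have h4 : (#{f : Fin n → Fin n | #(univ.image f) = r} : ℝ) * n ^ 2 ≤
        (η * (n : ℝ) ^ n) * n ^ 2 := by
      have h5 : (#{f : Fin n → Fin n | #(univ.image f) = r} : ℝ) * n ^ 2 =
        400 * ((#{f : Fin n → Fin n | #(univ.image f) = r} : ℝ) * ((n : ℝ) / 20) ^ 2) := by ring
      rw [h5]
      calc _ ≤ 400 * (n * (n : ℝ) ^ n) := by linarith
        _ ≤ (η * n) * (n * (n : ℝ) ^ n) := mul_le_mul_of_nonneg_right h3 (by positivity)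
        _ = _ := by ring
    exact le_of_mul_le_mul_right h4 (by positivity)
  · rw [not_le, abs_lt] at hfar
    obtain ⟨hf1, hf2⟩ := hfar
    have hR : ∀ R : ℕ, R ≤ r → r ≤ R + k →
        1 / 20 ≤ ((n : ℝ) - R) / n ∧ ((n : ℝ) - R) / n ≤ 1 / 2 := by
      intro R h1 h2
      have h1' : (R : ℝ) ≤ r := by exact_mod_cast h1
      have h2' : (r : ℝ) ≤ R + k := by exact_mod_cast h2
      have h3 : (n : ℝ) * (1 / 8) ≤ n * P := mul_le_mul_of_nonneg_left hP1 hn0.le
      have h4 : (n : ℝ) * P ≤ n * (37 / 100) := mul_le_mul_of_nonneg_left hP2 hn0.le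
      constructor
      · rw [le_div_iff₀ hn0]
        linarith
      · rw [div_le_iff₀ hn0]
        linarith
    have hl : 0 < η / 2 := by linarith
    have hb := fun I : Finset (Fin n) => anti_bd n k r I hl hnpos hkn hR
    obtain ⟨m, rfl⟩ := Nat.exists_eq_add_of_le' hkn
    rw [anti_split]
    rw [Nat.cast_sum]
    refine le_trans (sum_le_sum fun a _ => hb (univ.image a)) ?_
    rw [sum_const, card_univ, Fintype.card_fun, Fintype.card_fin, Fintype.card_fin,
      nsmul_eq_mul, Nat.cast_pow, ← mul_assoc, ← pow_add, mul_comm]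
    refine mul_le_mul_of_nonneg_right ?_ (by positivity)
    have h1 : (k : ℝ) ^ 2 / ((m + k : ℕ) : ℝ) ≤ η / 4 := by
      rw [div_le_iff₀ hn0]
      rw [div_le_iff₀ hη] at hn1'
      linarith
    have h2 : 10 / (η / 2 * ((k : ℝ) + 1)) ≤ η / 4 := by
      rw [div_le_iff₀ (by positivity)]
      rw [div_le_iff₀ (by positivity)] at hk
      have h3 : 0 < η ^ 2 := by positivity
      nlinarith
    linarith

end H96.TN
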