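import Pool.Agent.H96.TN.Defs

/-!
Module CHAIN.

The second moment of `X = ∑_r a(T_r)` over a random maximal chain `T_0 ⊂ T_1 ⊂ ...` of subsets is
computed by conditional expectations (`chain_dn_erase`): `M T = E[X | T_{|T|} = T]`,
`S T = E[X^2 | T_{|T|} = T]`, and `M T ^ 2 ≤ S T` by induction on `|T|`.
-/

namespace H96.TN

open Finset

section aux

variable {α : Type*} [DecidableEq α]

theorem chain_dn_erase (T : Finset α) (g : Finset α → ℝ) {r : ℕ} (hr : r < #T) :
    ∑ x ∈ T, dn (T.erase x) r g = #T * dn T r g := by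
  obtain ⟨m, hm⟩ : ∃ m, #T = m + 1 := ⟨#T - 1, by omega⟩
  have h1 : ∀ x ∈ T, dn (T.erase x) r g =
      (∑ S ∈ T.powersetCard r, if x ∉ S then g S else 0) / (m.choose r : ℝ) := by
    intro x hx
    unfold dn
    rw [card_erase_of_mem hx, hm, Nat.add_sub_cancel]
    congr 1
    rw [← sum_filter]
    refine sum_congr ?_ (fun _ _ => rfl)
    ext S
    simp only [mem_powersetCard, mem_filter, subset_erase]
    tauto
  rw [sum_congr rfl h1, ← sum_div, sum_comm]
  have h2 : ∀ S ∈ T.powersetCard r, (∑ x ∈ T, if x ∉ S then g S else 0) =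
      ((m : ℝ) + 1 - r) * g S := by
    intro S hS
    rw [mem_powersetCard] at hS
    rw [← sum_filter, sum_const, nsmul_eq_mul]
    have h3 : #(T.filter (fun x => x ∉ S)) = m + 1 - r := by
      rw [← sdiff_eq_filter, card_sdiff_of_subset hS.1, hm, hS.2]
    rw [h3, Nat.cast_sub (by omega)]
    push_cast
    rfl
  rw [sum_congr rfl h2, ← mul_sum]
  unfold dn
  rw [hm]
  have h4 := Nat.choose_mul_succ_eq m r
  have h5 : (m.choose r : ℝ) * (m + 1) = ((m + 1).choose r : ℝ) * ((m : ℝ) + 1 - r) := by
    have h6 : ((m.choose r * (m + 1) : ℕ) : ℝ) = (((m + 1).choose r * (m + 1 - r) : ℕ) : ℝ) := by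
      rw [h4]
    rw [Nat.cast_mul, Nat.cast_mul, Nat.cast_sub (by omega)] at h6
    push_cast at h6
    exact h6
  have h7 : (0 : ℝ) < m.choose r := by
    exact_mod_cast Nat.choose_pos (by omega)
  have h8 : (0 : ℝ) < (m + 1).choose r := by
    exact_mod_cast Nat.choose_pos (by omega)
  push_cast
  rw [div_eq_iff h7.ne', mul_div_assoc', div_mul_eq_mul_div, eq_div_iff h8.ne']
  linear_combination (-(∑ S ∈ T.powersetCard r, g S)) * h5

omit [DecidableEq α] in
theorem chain_dn_self (T : Finset α) (g : Finset α → ℝ) : dn T #T g = g T := by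
  unfold dn
  rw [powersetCard_self, sum_singleton, Nat.choose_self, Nat.cast_one, div_one]

/-- conditional expectation of `∑_{r ≤ |T|} g(T_r)` -/
noncomputable def chainM (g : Finset α → ℝ) (T : Finset α) : ℝ := ∑ r ∈ range (#T + 1), dn T r g

theorem chainM_eq (g : Finset α → ℝ) {T : Finset α} (hT : T.Nonempty) :
    chainM g T = (∑ x ∈ T, chainM g (T.erase x)) / #T + g T := by
  unfold chainM
  rw [sum_range_succ, chain_dn_self]
  congr 1
  have h1 : ∀ x ∈ T, ∑ r ∈ range (#(T.erase x) + 1), dn (T.erase x) r g =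
      ∑ r ∈ range #T, dn (T.erase x) r g := by
    intro x hx
    rw [card_erase_add_one hx]
  have hc : (0 : ℝ) < #T := by exact_mod_cast hT.card_pos
  rw [sum_congr rfl h1, sum_comm, eq_div_iff hc.ne', sum_mul]
  refine sum_congr rfl (fun r hr => ?_)
  rw [chain_dn_erase T g (mem_range.1 hr)]
  ring

theorem chainM_lt (g : Finset α → ℝ) {T : Finset α} (hT : T.Nonempty) :
    ∑ r ∈ range #T, dn T r g = (∑ x ∈ T, chainM g (T.erase x)) / #T := by
  have h := chainM_eq g hT
  unfold chainM at h ⊢
  rw [sum_range_succ, chain_dn_self] at h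
  linarith

theorem chain_second_moment (a : Finset α → ℝ) (T : Finset α) :
    chainM a T ^ 2 ≤ chainM (fun J => a J ^ 2 + 2 * a J * ∑ r ∈ range #J, dn J r a) T := by
  induction T using Finset.strongInduction with
  | H T ih =>
    rcases T.eq_empty_or_nonempty with rfl | hT
    · unfold chainM dn
      simp
    · have hc : (0 : ℝ) < #T := by exact_mod_cast hT.card_pos
      rw [chainM_eq _ hT, chainM_eq _ hT, chainM_lt a hT]
      have h1 : ∑ x ∈ T, chainM a (T.erase x) ^ 2 ≤ ∑ x ∈ T,
          chainM (fun J => a J ^ 2 + 2 * a J * ∑ r ∈ range #J, dn J r a) (T.erase x) :=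
        sum_le_sum (fun x hx => ih _ (erase_ssubset hx))
      have h2 := sq_sum_le_card_mul_sum_sq (s := T) (f := fun x => chainM a (T.erase x))
      have h3 : ((∑ x ∈ T, chainM a (T.erase x)) / #T) ^ 2 ≤
          (∑ x ∈ T, chainM (fun J => a J ^ 2 + 2 * a J * ∑ r ∈ range #J, dn J r a)
            (T.erase x)) / #T := by
        rw [div_pow, div_le_div_iff₀ (by positivity) hc]
        calc (∑ x ∈ T, chainM a (T.erase x)) ^ 2 * #T
            ≤ (#T * ∑ x ∈ T, chainM a (T.erase x) ^ 2) * #T := by gcongr
          _ ≤ (#T * ∑ x ∈ T, chainM (fun J => a J ^ 2 + 2 * a J * ∑ r ∈ range #J, dn J r a)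
            (T.erase x)) * #T := by gcongr
          _ = _ := by ring
      nlinarith [h3]

/-- averages of averages -/
theorem chain_dn_dn (g : Finset α → ℝ) {s r : ℕ} (hsr : s ≤ r) (T : Finset α) (hr : r ≤ #T) :
    dn T r (fun J => dn J s g) = dn T s g := by
  induction T using Finset.strongInduction with
  | H T ih =>
    rcases hr.eq_or_lt with h | h
    · rw [h, chain_dn_self]
    · have hT : T.Nonempty := by
        rw [← card_pos]
        omega
      have hc : (0 : ℝ) < #T := by exact_mod_cast hT.card_pos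
      have h1 := chain_dn_erase T (fun J => dn J s g) h
      have h2 := chain_dn_erase T g (lt_of_le_of_lt hsr h)
      have h3 : ∀ x ∈ T, dn (T.erase x) r (fun J => dn J s g) = dn (T.erase x) s g := by
        intro x hx
        refine ih _ (erase_ssubset hx) ?_
        rw [card_erase_of_mem hx]
        omega
      rw [sum_congr rfl h3, h2] at h1
      exact (mul_left_cancel₀ hc.ne' h1).symm

omit [DecidableEq α] in
theorem chain_dn_mono {U : Finset α} {s : ℕ} {f g : Finset α → ℝ}
    (h : ∀ S ∈ U.powersetCard s, f S ≤ g S) : dn U s f ≤ dn U s g := by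
  unfold dn
  exact div_le_div_of_nonneg_right (sum_le_sum h) (Nat.cast_nonneg _)

omit [DecidableEq α] in
theorem chain_dn_mul {U : Finset α} {s : ℕ} (c : ℝ) (f : Finset α → ℝ) :
    dn U s (fun S => c * f S) = c * dn U s f := by
  unfold dn
  rw [← mul_sum, mul_div_assoc]

omit [DecidableEq α] in
theorem chain_dn_nonneg {U : Finset α} {s : ℕ} {f : Finset α → ℝ}
    (h : ∀ S ∈ U.powersetCard s, 0 ≤ f S) : 0 ≤ dn U s f := by
  unfold dn
  exact div_nonneg (sum_nonneg h) (Nat.cast_nonneg _)

omit [DecidableEq α] in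
theorem chain_dn_const {U : Finset α} {s : ℕ} (c : ℝ) (h : s ≤ #U) :
    dn U s (fun _ => c) = c := by
  unfold dn
  have h7 : (0 : ℝ) < (#U).choose s := by
    exact_mod_cast Nat.choose_pos h
  rw [sum_const, card_powersetCard, nsmul_eq_mul, mul_div_cancel_left₀ _ h7.ne']

omit [DecidableEq α] in
theorem chain_dn_congr {U : Finset α} {s : ℕ} {f g : Finset α → ℝ}
    (h : ∀ S ∈ U.powersetCard s, f S = g S) : dn U s f = dn U s g := by
  unfold dn
  rw [sum_congr rfl h]

omit [DecidableEq α] in
theorem chain_dn_add {U : Finset α} {s : ℕ} (f g : Finset α → ℝ) :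
    dn U s (fun S => f S + g S) = dn U s f + dn U s g := by
  unfold dn
  rw [sum_add_distrib, add_div]

omit [DecidableEq α] in
theorem chain_dn_sum {U : Finset α} {s : ℕ} {ι : Type*} (A : Finset ι) (f : ι → Finset α → ℝ) :
    dn U s (fun S => ∑ i ∈ A, f i S) = ∑ i ∈ A, dn U s (f i) := by
  unfold dn
  rw [sum_comm, sum_div]

/-- indicator of `B` -/
noncomputable def chainB (B : Finset (Finset α)) (J : Finset α) : ℝ := if J ∈ B then 1 else 0

theorem chainB_nonneg (B : Finset (Finset α)) (J : Finset α) : 0 ≤ chainB B J := by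
  unfold chainB
  split_ifs <;> norm_num

theorem chainB_le (B : Finset (Finset α)) (J : Finset α) : chainB B J ≤ 1 := by
  unfold chainB
  split_ifs <;> norm_num

theorem chain_dn_B (B : Finset (Finset α)) (U : Finset α) (s : ℕ) :
    dn U s (chainB B) = (#{I ∈ B | #I = s ∧ I ⊆ U} : ℝ) / (#U).choose s := by
  unfold dn chainB
  congr 1
  rw [← sum_filter, sum_const, nsmul_eq_mul, mul_one]
  congr 2
  ext S
  simp only [mem_filter, mem_powersetCard]
  tauto

end aux

theorem chain {n : ℕ} (p : ℕ → ℝ) (hp : ∀ r, 0 ≤ p r) (hp1 : ∑ r ∈ range (n + 1), p r ≤ 1)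
    (η β : ℝ) (hη : ∀ r, p r ≤ η) (B : Finset (Finset (Fin n))) (G : Finset ℕ)
    (hG : ∀ r ∈ G, r ≤ n) (j0 : ℕ) (hj : 1 ≤ j0) (hβ : 0 < β) (hηj : 2 * j0 * η ≤ β ^ 2 / 2)
    (hB : β ≤ ∑ r ∈ G, p r * ((#{I ∈ B | #I = r} : ℝ) / n.choose r)) :
    ∃ r ∈ G, ∃ r' ∈ G, r + j0 ≤ r' ∧ β ^ 2 / 4 * n.choose r ≤ #{I ∈ B | #I = r} ∧
      ∃ T ∈ B, #T = r' ∧ β ^ 2 / 4 * r'.choose r ≤ #{I ∈ B | #I = r ∧ I ⊆ T} := by
  classical
  -- the joint probabilities
  let Pr : ℕ → ℕ → ℝ := fun s r => dn (univ : Finset (Fin n)) r
    (fun J => chainB B J * dn J s (chainB B))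
  -- it suffices to find a pair with large joint probability
  suffices hmain : ∃ s ∈ G, ∃ r ∈ G, s + j0 ≤ r ∧ β ^ 2 / 4 ≤ Pr s r by
    obtain ⟨s, hs, r, hr, hsr, hP⟩ := hmain
    have hrn : r ≤ #(univ : Finset (Fin n)) := by
      rw [card_univ, Fintype.card_fin]
      exact hG r hr
    have hβ4 : 0 < β ^ 2 / 4 := by positivity
    refine ⟨s, hs, r, hr, hsr, ?_, ?_⟩
    · have h1 : Pr s r ≤ dn (univ : Finset (Fin n)) r (fun J => dn J s (chainB B)) := by
        refine chain_dn_mono (fun J _ => ?_)
        have h2 := chain_dn_nonneg (U := J) (s := s) (fun S _ => chainB_nonneg B S)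
        nlinarith [chainB_le B J, chainB_nonneg B J]
      rw [chain_dn_dn _ (by omega) _ hrn, chain_dn_B] at h1
      have h2 : #{I ∈ B | #I = s ∧ I ⊆ (univ : Finset (Fin n))} = #{I ∈ B | #I = s} := by
        congr 1
        ext S
        simp
      rw [h2, card_univ, Fintype.card_fin] at h1
      have h3 : (0 : ℝ) < n.choose s := by
        exact_mod_cast Nat.choose_pos (hG s hs)
      exact (le_div_iff₀ h3).1 (hP.trans h1)
    · by_contra hcon
      push Not at hcon
      have h1 : ∀ J ∈ (univ : Finset (Fin n)).powersetCard r,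
          chainB B J * dn J s (chainB B) ≤ (β ^ 2 / 4) * chainB B J := by
        intro J hJ
        rw [mem_powersetCard] at hJ
        by_cases hJB : J ∈ B
        · have h2 := hcon J hJB hJ.2
          rw [mul_comm]
          refine mul_le_mul_of_nonneg_right ?_ (chainB_nonneg B J)
          rw [chain_dn_B, hJ.2]
          have h3 : (0 : ℝ) < r.choose s := by
            exact_mod_cast Nat.choose_pos (by omega)
          rw [div_le_iff₀ h3]
          exact h2.le
        · have h2 : chainB B J = 0 := if_neg hJB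
          rw [h2]
          simp
      by_cases hex : ∃ J ∈ B, #J = r
      · obtain ⟨J0, hJ0, hJ0r⟩ := hex
        have h2 : Pr s r < dn (univ : Finset (Fin n)) r (fun J => (β ^ 2 / 4) * 1) := by
          have hpos : (0 : ℝ) < (#(univ : Finset (Fin n))).choose r := by
            exact_mod_cast Nat.choose_pos hrn
          refine div_lt_div_of_pos_right (sum_lt_sum (fun J hJ => ?_) ⟨J0, ?_, ?_⟩) hpos
          · refine (h1 J hJ).trans ?_
            have := chainB_le B J
            gcongr
          · rw [mem_powersetCard]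
            exact ⟨subset_univ _, hJ0r⟩
          · have h3 : chainB B J0 = 1 := if_pos hJ0
            simp only [h3]
            rw [one_mul, mul_one, chain_dn_B, hJ0r]
            have h4 : (0 : ℝ) < r.choose s := by
              exact_mod_cast Nat.choose_pos (by omega)
            rw [div_lt_iff₀ h4]
            exact hcon J0 hJ0 hJ0r
        rw [chain_dn_const _ hrn, mul_one] at h2
        exact absurd hP (not_le.2 h2)
      · push Not at hex
        have h2 : Pr s r ≤ 0 := by
          have h3 : Pr s r = dn (univ : Finset (Fin n)) r (fun J => 0) := by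
            refine chain_dn_congr (fun J hJ => ?_)
            rw [mem_powersetCard] at hJ
            have h4 : chainB B J = 0 := if_neg (fun h => hex J h hJ.2)
            rw [h4, zero_mul]
          rw [h3]
          unfold dn
          simp
        linarith
  -- second moment
  by_contra hcon
  push Not at hcon
  have hη0 : 0 ≤ η := (hp 0).trans (hη 0)
  let q : ℕ → ℝ := fun r => if r ∈ G then p r else 0
  have hq0 : ∀ r, 0 ≤ q r := by
    intro r
    simp only [q]
    split_ifs
    · exact hp r
    · exact le_rfl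
  have hqp : ∀ r, q r ≤ p r := by
    intro r
    simp only [q]
    split_ifs
    · exact le_rfl
    · exact hp r
  have hqη : ∀ r, q r ≤ η := fun r => (hqp r).trans (hη r)
  have hq1 : ∑ r ∈ range (n + 1), q r ≤ 1 := (sum_le_sum fun r _ => hqp r).trans hp1
  let a : Finset (Fin n) → ℝ := fun J => q #J * chainB B J
  have hcard : #(univ : Finset (Fin n)) = n := by rw [card_univ, Fintype.card_fin]
  have hdna : ∀ (J : Finset (Fin n)) (s : ℕ), dn J s a = q s * dn J s (chainB B) := by
    intro J s
    rw [← chain_dn_mul]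
    refine chain_dn_congr (fun S hS => ?_)
    rw [mem_powersetCard] at hS
    simp only [a]
    rw [hS.2]
  -- first moment
  have hM : β ≤ chainM a univ := by
    refine hB.trans (le_of_eq ?_)
    unfold chainM
    rw [hcard]
    have h1 : G = (range (n + 1)).filter (fun r => r ∈ G) := by
      ext r
      simp only [mem_filter, mem_range]
      constructor
      · intro h
        exact ⟨by have := hG r h; omega, h⟩
      · exact fun h => h.2
    rw [h1, sum_filter]
    refine sum_congr rfl (fun r _ => ?_)
    rw [hdna, chain_dn_B, hcard]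
    have h2 : #{I ∈ B | #I = r ∧ I ⊆ (univ : Finset (Fin n))} = #{I ∈ B | #I = r} := by
      congr 1
      ext S
      simp
    rw [h2]
    simp only [q]
    split_ifs
    · rfl
    · rw [zero_mul]
  have hS := chain_second_moment a univ
  -- upper bound for the second moment
  have hPr1 : ∀ s r, r ≤ n → s ≤ r → Pr s r ≤ 1 := by
    intro s r hrn hsr
    have h1 : Pr s r ≤ dn (univ : Finset (Fin n)) r (fun J => 1) := by
      refine chain_dn_mono (fun J hJ => ?_)
      rw [mem_powersetCard] at hJ
      have h2 : dn J s (chainB B) ≤ 1 := by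
        have h3 : dn J s (chainB B) ≤ dn J s (fun _ => 1) := chain_dn_mono (fun S _ => chainB_le B S)
        rwa [chain_dn_const _ (by rw [hJ.2]; exact hsr)] at h3
      have h4 := chain_dn_nonneg (U := J) (s := s) (fun S _ => chainB_nonneg B S)
      exact mul_le_one₀ (chainB_le B J) h4 h2
    rwa [chain_dn_const _ (by rw [hcard]; exact hrn)] at h1
  have hub : chainM (fun J => a J ^ 2 + 2 * a J * ∑ r ∈ range #J, dn J r a) univ ≤
      ∑ r ∈ range (n + 1), (q r * η + 2 * (q r * ∑ s ∈ range r, q s *
        (β ^ 2 / 4 + if r < s + j0 then 1 else 0))) := by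
    unfold chainM
    rw [hcard]
    refine sum_le_sum (fun r hr => ?_)
    have hrn : r ≤ n := by
      have := mem_range.1 hr
      omega
    have h1 : dn (univ : Finset (Fin n)) r
        (fun J => a J ^ 2 + 2 * a J * ∑ s ∈ range #J, dn J s a) =
        dn (univ : Finset (Fin n)) r (fun J => a J ^ 2) +
          2 * (q r * ∑ s ∈ range r, q s * Pr s r) := by
      rw [chain_dn_add]
      congr 1
      rw [mul_sum, mul_sum]
      have h2 : dn (univ : Finset (Fin n)) r (fun J => 2 * a J * ∑ s ∈ range #J, dn J s a) =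
          dn (univ : Finset (Fin n)) r (fun J => ∑ s ∈ range r,
            (2 * (q r * q s)) * (chainB B J * dn J s (chainB B))) := by
        refine chain_dn_congr (fun J hJ => ?_)
        rw [mem_powersetCard] at hJ
        rw [hJ.2, mul_sum]
        refine sum_congr rfl (fun s _ => ?_)
        rw [hdna]
        simp only [a]
        rw [hJ.2]
        ring
      rw [h2, chain_dn_sum]
      refine sum_congr rfl (fun s _ => ?_)
      rw [chain_dn_mul]
      ring
    rw [h1]
    refine add_le_add ?_ ?_
    · have h3 : dn (univ : Finset (Fin n)) r (fun J => a J ^ 2) ≤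
          dn (univ : Finset (Fin n)) r (fun J => q r * η) := by
        refine chain_dn_mono (fun J hJ => ?_)
        rw [mem_powersetCard] at hJ
        simp only [a]
        rw [hJ.2]
        have h4 : q r * chainB B J ≤ q r := by
          nlinarith [chainB_le B J, hq0 r]
        have h5 : 0 ≤ q r * chainB B J := mul_nonneg (hq0 r) (chainB_nonneg B J)
        calc (q r * chainB B J) ^ 2 ≤ q r ^ 2 := by gcongr
          _ = q r * q r := by ring
          _ ≤ q r * η := mul_le_mul_of_nonneg_left (hqη r) (hq0 r)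
      rwa [chain_dn_const _ (by rw [hcard]; exact hrn)] at h3
    · by_cases hrG : r ∈ G
      · have h3 : ∑ s ∈ range r, q s * Pr s r ≤ ∑ s ∈ range r, q s *
            (β ^ 2 / 4 + if r < s + j0 then 1 else 0) := by
          refine sum_le_sum (fun s hs => ?_)
          have hsr : s < r := mem_range.1 hs
          by_cases hsG : s ∈ G
          · refine mul_le_mul_of_nonneg_left ?_ (hq0 s)
            split_ifs with h
            · have := hPr1 s r hrn hsr.le
              have := sq_nonneg β
              linarith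
            · rw [add_zero]
              exact (hcon s hsG r hrG (by omega)).le
          · have h4 : q s = 0 := if_neg hsG
            rw [h4, zero_mul, zero_mul]
        have := hq0 r
        gcongr
      · have h4 : q r = 0 := if_neg hrG
        rw [h4, zero_mul, zero_mul]
  have hsq : ∀ N : ℕ, ∑ r ∈ range N, 2 * (q r * ∑ s ∈ range r, q s) ≤
      (∑ r ∈ range N, q r) ^ 2 := by
    intro N
    induction N with
    | zero => simp
    | succ N ih =>
      rw [sum_range_succ, sum_range_succ (fun r => q r)]
      nlinarith [sq_nonneg (q N)]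
  have hnear : ∀ r : ℕ, ∑ s ∈ range r, q s * (if r < s + j0 then (1 : ℝ) else 0) ≤
      ((j0 : ℝ) - 1) * η := by
    intro r
    have h1 : ∑ s ∈ range r, q s * (if r < s + j0 then (1 : ℝ) else 0) =
        ∑ s ∈ (range r).filter (fun s => r < s + j0), q s := by
      rw [sum_filter]
      refine sum_congr rfl (fun s _ => ?_)
      split_ifs <;> ring
    rw [h1]
    have h2 : (range r).filter (fun s => r < s + j0) ⊆ Ico (r + 1 - j0) r := by
      intro s hs
      rw [mem_filter, mem_range] at hs
      rw [mem_Ico]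
      omega
    have h3 : #((range r).filter (fun s => r < s + j0)) ≤ j0 - 1 := by
      refine (card_le_card h2).trans ?_
      rw [Nat.card_Ico]
      omega
    calc ∑ s ∈ (range r).filter (fun s => r < s + j0), q s
        ≤ ∑ s ∈ (range r).filter (fun s => r < s + j0), η := sum_le_sum (fun s _ => hqη s)
      _ = (#((range r).filter (fun s => r < s + j0)) : ℝ) * η := by
          rw [sum_const, nsmul_eq_mul]
      _ ≤ ((j0 - 1 : ℕ) : ℝ) * η := by
          refine mul_le_mul_of_nonneg_right ?_ hη0
          exact_mod_cast h3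
      _ = ((j0 : ℝ) - 1) * η := by
          rw [Nat.cast_sub hj, Nat.cast_one]
  have hfin : ∑ r ∈ range (n + 1), (q r * η + 2 * (q r * ∑ s ∈ range r, q s *
        (β ^ 2 / 4 + if r < s + j0 then 1 else 0))) ≤ 2 * j0 * η + β ^ 2 / 4 := by
    have h1 : ∀ r ∈ range (n + 1), (q r * η + 2 * (q r * ∑ s ∈ range r, q s *
        (β ^ 2 / 4 + if r < s + j0 then 1 else 0))) ≤
        q r * (2 * j0 * η) + (β ^ 2 / 4) * (2 * (q r * ∑ s ∈ range r, q s)) := by
      intro r _
      have h2 : ∑ s ∈ range r, q s * (β ^ 2 / 4 + if r < s + j0 then (1 : ℝ) else 0) =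
          (β ^ 2 / 4) * ∑ s ∈ range r, q s +
            ∑ s ∈ range r, q s * (if r < s + j0 then (1 : ℝ) else 0) := by
        rw [mul_sum, ← sum_add_distrib]
        refine sum_congr rfl (fun s _ => ?_)
        ring
      rw [h2]
      have h3 := mul_le_mul_of_nonneg_left (hnear r) (hq0 r)
      have h4 := mul_nonneg (hq0 r) hη0
      nlinarith
    refine (sum_le_sum h1).trans ?_
    rw [sum_add_distrib, ← sum_mul, ← mul_sum]
    have h5 : 0 ≤ ∑ r ∈ range (n + 1), q r := sum_nonneg (fun r _ => hq0 r)
    have h6 : (∑ r ∈ range (n + 1), q r) ^ 2 ≤ 1 := by nlinarith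
    have h7 := (hsq (n + 1)).trans h6
    have h8 : (0 : ℝ) ≤ 2 * j0 * η := by positivity
    have h9 := sq_nonneg β
    nlinarith
  have h10 : β ^ 2 ≤ chainM a univ ^ 2 := by gcongr
  have h11 : 0 < β ^ 2 := by positivity
  linarith [hS.trans (hub.trans hfin)]

end H96.TN
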