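import Pool.Agent.H96.TN.DnB

/-!
Module ELB (~200 lines): basic properties of `EL` (random injective sequences).
-/

namespace H96.TN

open Finset

variable {X : Type*} [DecidableEq X]

theorem ind_nonneg (P : Prop) : 0 ≤ ind P := by
  unfold ind
  split_ifs
  · exact zero_le_one
  · exact le_rfl

theorem ind_le_one (P : Prop) : ind P ≤ 1 := by
  unfold ind
  split_ifs
  · exact le_rfl
  · exact zero_le_one

theorem elb_ind_pos {P : Prop} (h : P) : ind P = 1 := by
  unfold ind
  rw [if_pos h]

theorem elb_ind_neg {P : Prop} (h : ¬ P) : ind P = 0 := by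
  unfold ind
  rw [if_neg h]

theorem ind_mono {P Q : Prop} (h : P → Q) : ind P ≤ ind Q := by
  by_cases hP : P
  · rw [elb_ind_pos hP, elb_ind_pos (h hP)]
  · rw [elb_ind_neg hP]
    exact ind_nonneg Q

theorem ind_or_le (P Q : Prop) : ind (P ∨ Q) ≤ ind P + ind Q := by
  by_cases hP : P
  · rw [elb_ind_pos hP, elb_ind_pos (Or.inl hP)]
    linarith [ind_nonneg Q]
  · by_cases hQ : Q
    · rw [elb_ind_pos hQ, elb_ind_pos (Or.inr hQ)]
      linarith [ind_nonneg P]
    · rw [elb_ind_neg (fun h => h.elim hP hQ)]
      linarith [ind_nonneg P, ind_nonneg Q]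

theorem elb_zero (U : Finset X) (f : List X → ℝ) : EL 0 U f = f [] := rfl

theorem elb_succ (k : ℕ) (U : Finset X) (f : List X → ℝ) :
    EL (k + 1) U f = (∑ z ∈ U, EL k (U.erase z) (fun l => f (z :: l))) / (#U : ℝ) := rfl

/-- only duplicate-free sequences of points of `U` of length `k` matter. -/
theorem EL_mono (k : ℕ) (U : Finset X) (f g : List X → ℝ)
    (h : ∀ l : List X, l.Nodup → l.length = k → (∀ x ∈ l, x ∈ U) → f l ≤ g l) :
    EL k U f ≤ EL k U g := by
  induction k generalizing U f g with
  | zero =>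
    rw [elb_zero, elb_zero]
    exact h [] List.nodup_nil rfl (fun x hx => absurd hx List.not_mem_nil)
  | succ k ih =>
    rw [elb_succ, elb_succ]
    refine div_le_div_of_nonneg_right (Finset.sum_le_sum fun z hz => ?_) (Nat.cast_nonneg _)
    refine ih _ _ _ fun l hl hlk hlU => ?_
    refine h (z :: l) ?_ ?_ ?_
    · rw [List.nodup_cons]
      exact ⟨fun hzl => Finset.notMem_erase z U (hlU z hzl), hl⟩
    · rw [List.length_cons, hlk]
    · intro x hx
      rcases List.mem_cons.1 hx with rfl | hx
      · exact hz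
      · exact Finset.mem_of_mem_erase (hlU x hx)

theorem EL_congr (k : ℕ) (U : Finset X) (f g : List X → ℝ)
    (h : ∀ l : List X, l.Nodup → l.length = k → (∀ x ∈ l, x ∈ U) → f l = g l) :
    EL k U f = EL k U g :=
  le_antisymm (EL_mono k U f g fun l h1 h2 h3 => (h l h1 h2 h3).le)
    (EL_mono k U g f fun l h1 h2 h3 => (h l h1 h2 h3).ge)

theorem EL_const (k : ℕ) (U : Finset X) (hk : k ≤ #U) (c : ℝ) : EL k U (fun _ => c) = c := by
  induction k generalizing U with
  | zero => rfl
  | succ k ih =>
    rw [elb_succ]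
    have h1 : ∀ z ∈ U, EL k (U.erase z) (fun _ => c) = c := by
      intro z hz
      refine ih _ ?_
      rw [Finset.card_erase_of_mem hz]
      omega
    rw [Finset.sum_congr rfl h1, Finset.sum_const, nsmul_eq_mul]
    have h2 : (#U : ℝ) ≠ 0 := by
      have : 0 < #U := by omega
      positivity
    field_simp

theorem EL_add (k : ℕ) (U : Finset X) (f g : List X → ℝ) :
    EL k U (fun l => f l + g l) = EL k U f + EL k U g := by
  induction k generalizing U f g with
  | zero => rfl
  | succ k ih =>
    rw [elb_succ, elb_succ, elb_succ, ← add_div, ← Finset.sum_add_distrib]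
    congr 1
    exact Finset.sum_congr rfl fun z _ => ih _ _ _

theorem EL_mul (k : ℕ) (U : Finset X) (c : ℝ) (f : List X → ℝ) :
    EL k U (fun l => c * f l) = c * EL k U f := by
  induction k generalizing U f with
  | zero => rfl
  | succ k ih =>
    rw [elb_succ, elb_succ, ← mul_div_assoc, Finset.mul_sum]
    congr 1
    exact Finset.sum_congr rfl fun z _ => ih _ _

theorem EL_sum {ι : Type*} (k : ℕ) (U : Finset X) (s : Finset ι) (f : ι → List X → ℝ) :
    EL k U (fun l => ∑ i ∈ s, f i l) = ∑ i ∈ s, EL k U (f i) := by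
  induction k generalizing U f with
  | zero => rfl
  | succ k ih =>
    rw [elb_succ]
    simp only [elb_succ]
    rw [← Finset.sum_div, Finset.sum_comm]
    congr 1
    exact Finset.sum_congr rfl fun z _ => ih _ _

/-- tower property. -/
theorem EL_append (a b : ℕ) (U : Finset X) (f : List X → ℝ) :
    EL (a + b) U f = EL a U (fun l => EL b (U \ l.toFinset) (fun l' => f (l ++ l'))) := by
  induction a generalizing U f with
  | zero =>
    rw [zero_add, elb_zero]
    simp
  | succ a ih =>
    have h0 : a + 1 + b = (a + b) + 1 := by omega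
    rw [h0, elb_succ, elb_succ]
    congr 1
    refine Finset.sum_congr rfl fun z _ => ?_
    rw [ih]
    congr 1
    funext l
    rw [List.toFinset_cons, Finset.sdiff_insert, Finset.erase_sdiff_comm]
    rfl

/-- the set of the first `k` points is a uniform `k`-subset. -/
theorem EL_toFinset (k : ℕ) (U : Finset X) (hk : k ≤ #U) (F : Finset X → ℝ) :
    EL k U (fun l => F l.toFinset) = dn U k F := by
  induction k generalizing U F with
  | zero =>
    rw [elb_zero]
    unfold dn
    simp
  | succ k ih =>
    rw [elb_succ]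
    have h1 : ∀ z ∈ U, EL k (U.erase z) (fun l => F (z :: l).toFinset) =
        dn (U.erase z) (k + 1 - 1) (inn z F) := by
      intro z hz
      rw [Nat.add_sub_cancel, ← ih]
      · congr 1
        funext l
        rw [List.toFinset_cons]
        rfl
      · rw [Finset.card_erase_of_mem hz]
        omega
    rw [Finset.sum_congr rfl h1, dn_in_sum U (k + 1) (by omega) hk F]
    have h2 : (#U : ℝ) ≠ 0 := by
      have : 0 < #U := by omega
      positivity
    field_simp

/-- relabelling the points. -/
theorem EL_map (k : ℕ) (U : Finset X) (σ : Equiv.Perm X) (f : List X → ℝ) :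
    EL k (U.image σ) f = EL k U (fun l => f (l.map σ)) := by
  induction k generalizing U f with
  | zero => rfl
  | succ k ih =>
    rw [elb_succ, elb_succ, Finset.card_image_of_injective U σ.injective,
      Finset.sum_image (fun x _ y _ h => σ.injective h)]
    congr 1
    refine Finset.sum_congr rfl fun z _ => ?_
    have h1 : (U.image σ).erase (σ z) = (U.erase z).image σ := by
      ext x
      simp only [Finset.mem_erase, Finset.mem_image]
      constructor
      · rintro ⟨h1, y, hy, rfl⟩
        exact ⟨y, ⟨fun h => h1 (by rw [h]), hy⟩, rfl⟩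
      · rintro ⟨y, ⟨h1, hy⟩, rfl⟩
        exact ⟨fun h => h1 (σ.injective h), y, hy, rfl⟩
    rw [h1, ih]
    rfl

theorem EL_markov (k : ℕ) (U : Finset X) (hk : k ≤ #U) (f : List X → ℝ) (hf : ∀ l, 0 ≤ f l)
    (t : ℝ) (ht : 0 < t) : EL k U (fun l => ind (t ≤ f l)) ≤ EL k U f / t := by
  have h1 : EL k U f / t = EL k U (fun l => t⁻¹ * f l) := by
    rw [EL_mul, div_eq_inv_mul]
  rw [h1]
  refine EL_mono k U _ _ fun l _ _ _ => ?_
  by_cases h : t ≤ f l
  · rw [elb_ind_pos h, ← div_eq_inv_mul, le_div_iff₀ ht, one_mul]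
    exact h
  · rw [elb_ind_neg h]
    exact mul_nonneg (inv_nonneg.2 ht.le) (hf l)

end H96.TN
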