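import Pool.Agent.H96.TN.Step
import Pool.Agent.H96.TN.ELB

/-!
Module EXPL (~200 lines): the sequential exposure (stage A). Uses `step_in`, `step_out` (STEP) and
basic lemmas of ELB.

Induction on `nslot its` (or on the length of the list of points). Write `κ = 16 n / w^2`,
`q = nslot its`, `L = -log (dn U s f) ≥ 0`,
`A(its, d) = (1+κ)^q (1/Λ + κ (nout its + (k0-d) R) + (κ/k0) q)`; the claim is
`P(¬ Ok) ≤ A(its, |D|) L + (|B|+|D|)/k0 + εB`.
* `its = []`: if `dn U s f ≥ exp(-Λ)` use `hΦ`, else `L/Λ ≥ 1`.
* Note `w ≤ s` and `s + w ≤ #U` always follow from `hs`, `hU`, `hm` (`nsgl its ≤ nslot its`).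
* `out :: its'`: with `Bad` of `step_out`: for `z ∈ Bad` bound by 1, for `z ∉ Bad` use the
  induction hypothesis for `(U.erase z, s, f, B, D)`. Average over `z` (definition of `EL`):
  `≤ κ L + A(its') (1+κ) L + (|B|+|D|)/k0 + εB` (the terms of `Bad` in the sum of `step_out` are
  `≥ 0`), and `A(out::its') ≥ (1+κ) A(its') + κ`.
* `sgl y :: its'`: if `|B| = k0` the right side is `≥ 1`. Otherwise with `Bad` of `step_in`: for
  `z ∉ Bad` use the first alternative of `Ok`, induction hypothesis for
  `(U.erase z, s-1, inn z f, B, D)`; for `z ∈ Bad` the second alternative,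
  `(U.erase z, s, f, y :: B, D)` (density `≥ φ`), costing `1/k0` more. Average:
  `≤ A(its')(1+κ)L + κ L/k0 + ...`.
* `ext y r :: its'`: if `|D| = k0` the right side is `≥ 1`. Otherwise with `Bad` of `step_out`: for
  `z ∉ Bad` the first alternative, items `nxt y r its'`, `(U.erase z, s, f, B, D)`; for `z ∈ Bad` the
  second, items `replicate r out ++ its'`, state `(U.erase z, s-1, inn z f, B, y :: D)`. In both
  cases the new `A` is at most
  `(1+κ)^(q-1) (1/Λ + κ (nout its' + (k0-|D|) R) + (κ/k0)(q-1))` (`r ≤ R`).
-/

namespace H96.TN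

open Finset

variable {X Y : Type*} [DecidableEq X]

/-- The averaging step. -/
theorem expl_avg (U Bad : Finset X) (P D1 D2 : X → ℝ) (K L α c δ : ℝ) (hU : 0 < #U)
    (hsub : Bad ⊆ U) (hBad : (#Bad : ℝ) ≤ #U * (K * L)) (hα : 0 ≤ α) (hδ : 0 ≤ δ)
    (h1 : ∀ z ∈ U \ Bad, P z ≤ α * D1 z + c)
    (h2 : ∀ z ∈ Bad, P z ≤ α * D2 z + (c + δ))
    (hsum : ∑ z ∈ U \ Bad, D1 z + ∑ z ∈ Bad, D2 z ≤ #U * ((1 + K) * L)) :
    (∑ z ∈ U, P z) / (#U : ℝ) ≤ (α * (1 + K) + K * δ) * L + c := by
  have hu : (0 : ℝ) < #U := by exact_mod_cast hU
  rw [div_le_iff₀ hu, ← sum_sdiff hsub]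
  have e1 : ∑ z ∈ U \ Bad, P z ≤ α * ∑ z ∈ U \ Bad, D1 z + #(U \ Bad) * c := by
    refine (sum_le_sum h1).trans ?_
    rw [sum_add_distrib, ← mul_sum, sum_const, nsmul_eq_mul]
  have e2 : ∑ z ∈ Bad, P z ≤ α * ∑ z ∈ Bad, D2 z + #Bad * (c + δ) := by
    refine (sum_le_sum h2).trans ?_
    rw [sum_add_distrib, ← mul_sum, sum_const, nsmul_eq_mul]
  have e3 : (#(U \ Bad) : ℝ) = #U - #Bad := by
    rw [card_sdiff_of_subset hsub, Nat.cast_sub (card_le_card hsub)]
  have e4 := mul_le_mul_of_nonneg_left hsum hα
  have e5 := mul_le_mul_of_nonneg_right hBad hδ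
  rw [e3] at e1
  have e6 : (#U : ℝ) * (K * L) * δ + α * (#U * ((1 + K) * L)) + c * #U =
      ((α * (1 + K) + K * δ) * L + c) * #U := by ring
  linarith

/-- the coefficient of `L` -/
noncomputable def explA (K Λ R k0 : ℝ) (q : ℕ) (o d : ℝ) : ℝ :=
  (1 + K) ^ q * (1 / Λ + K * (o + (k0 - d) * R) + K / k0 * q)

theorem explA_nonneg (K Λ R k0 : ℝ) (q : ℕ) (o d : ℝ) (hK : 0 ≤ K) (hΛ : 0 < Λ) (hR : 0 ≤ R)
    (hk : 0 < k0) (hd : d ≤ k0) (ho : 0 ≤ o) : 0 ≤ explA K Λ R k0 q o d := by
  have h1 : 0 ≤ k0 - d := by linarith
  unfold explA
  positivity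

theorem explA_out (K Λ R k0 : ℝ) (q : ℕ) (o d : ℝ) (hK : 0 ≤ K) (hk : 0 < k0) :
    explA K Λ R k0 q o d * (1 + K) + K * 1 ≤ explA K Λ R k0 (q + 1) (o + 1) d := by
  have h1 : (1 : ℝ) ≤ (1 + K) ^ (q + 1) := one_le_pow₀ (by linarith)
  have h2 : explA K Λ R k0 (q + 1) (o + 1) d =
      explA K Λ R k0 q o d * (1 + K) + (1 + K) ^ (q + 1) * K + (1 + K) ^ (q + 1) * (K / k0) := by
    unfold explA
    push_cast
    ring
  have h3 : K * 1 ≤ (1 + K) ^ (q + 1) * K := by nlinarith
  have h4 : 0 ≤ (1 + K) ^ (q + 1) * (K / k0) := by positivity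
  linarith

theorem explA_in (K Λ R k0 : ℝ) (q : ℕ) (o d : ℝ) (hK : 0 ≤ K) (hk : 0 < k0) :
    explA K Λ R k0 q o d * (1 + K) + K * (1 / k0) ≤ explA K Λ R k0 (q + 1) o d := by
  have h1 : (1 : ℝ) ≤ (1 + K) ^ (q + 1) := one_le_pow₀ (by linarith)
  have h2 : explA K Λ R k0 (q + 1) o d =
      explA K Λ R k0 q o d * (1 + K) + (1 + K) ^ (q + 1) * (K / k0) := by
    unfold explA
    push_cast
    ring
  have h3 : K * (1 / k0) ≤ (1 + K) ^ (q + 1) * (K / k0) := by
    have h4 : 0 ≤ K / k0 := by positivity
    have h5 : K * (1 / k0) = K / k0 := by ring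
    rw [h5]
    nlinarith
  linarith

theorem explA_com (K Λ R k0 : ℝ) (q : ℕ) (o d r : ℝ) (hK : 0 ≤ K) (hr : r ≤ R) :
    explA K Λ R k0 q (r + o) (d + 1) ≤ explA K Λ R k0 q o d := by
  unfold explA
  refine mul_le_mul_of_nonneg_left ?_ (by positivity)
  have : K * (r + o + (k0 - (d + 1)) * R) ≤ K * (o + (k0 - d) * R) := by
    refine mul_le_mul_of_nonneg_left ?_ hK
    nlinarith
  linarith

theorem expl_nslot_nxt (y : Y) (r : ℕ) (its : List (Item Y)) :
    nslot (nxt y r its) = nslot its + r := by
  cases r with
  | zero => rfl
  | succ r => rfl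

theorem expl_nsgl_nxt (y : Y) (r : ℕ) (its : List (Item Y)) :
    nsgl (nxt y r its) = nsgl its := by
  cases r with
  | zero => rfl
  | succ r => rfl

theorem expl_nout_nxt (y : Y) (r : ℕ) (its : List (Item Y)) :
    nout (nxt y r its) = nout its := by
  cases r with
  | zero => rfl
  | succ r => rfl

theorem expl_nslot_rep (r : ℕ) (its : List (Item Y)) :
    nslot (List.replicate r Item.out ++ its) = nslot its + r := by
  induction r with
  | zero => rfl
  | succ r ih =>
    rw [List.replicate_succ, List.cons_append]
    show nslot (List.replicate r Item.out ++ its) + 1 = _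
    rw [ih]
    ring

theorem expl_nsgl_rep (r : ℕ) (its : List (Item Y)) :
    nsgl (List.replicate r Item.out ++ its) = nsgl its := by
  induction r with
  | zero => rfl
  | succ r ih =>
    rw [List.replicate_succ, List.cons_append]
    show nsgl (List.replicate r Item.out ++ its) = _
    rw [ih]

theorem expl_nout_rep (r : ℕ) (its : List (Item Y)) :
    nout (List.replicate r Item.out ++ its) = r + nout its := by
  induction r with
  | zero =>
    rw [List.replicate_zero, List.nil_append, zero_add]
  | succ r ih =>
    rw [List.replicate_succ, List.cons_append]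
    show nout (List.replicate r Item.out ++ its) + 1 = _
    rw [ih]
    ring

theorem expl_nsgl_le (its : List (Item Y)) : nsgl its ≤ nslot its := by
  induction its with
  | nil => exact le_rfl
  | cons a its ih =>
    cases a with
    | out =>
      show nsgl its ≤ nslot its + 1
      omega
    | sgl y =>
      show nsgl its + 1 ≤ nslot its + 1
      omega
    | ext y r =>
      show nsgl its ≤ nslot its + (r + 1)
      omega

theorem expl_EL_le_one (k : ℕ) (U : Finset X) (hk : k ≤ #U) (P : List X → Prop) :
    EL k U (fun l => ind (P l)) ≤ 1 := by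
  calc EL k U (fun l => ind (P l)) ≤ EL k U (fun _ => (1 : ℝ)) :=
        EL_mono k U _ _ fun l _ _ _ => ind_le_one _
    _ = 1 := EL_const k U hk 1

/-- The induction statement. -/
theorem expl_aux (Φ : List X → (Finset X → ℝ) → List Y → List Y → Prop) (m j0 k0 n w R : ℕ)
    (Λ εB : ℝ) (hw : 1 ≤ w) (hk0 : 1 ≤ k0) (hΛ : 0 < Λ) (hεB : 0 ≤ εB) (hm : w + k0 + j0 ≤ m)
    (hΦ : ∀ (U : Finset X) (s : ℕ) (f : Finset X → ℝ) (B D : List Y), #U = 2 * m →
      s + j0 + D.length = m + B.length → B.length ≤ k0 → D.length ≤ k0 →
      (∀ S, 0 ≤ f S) → (∀ S, f S ≤ 1) → Real.exp (-Λ) ≤ dn U s f →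
      EL (2 * m) U (fun l => ind (¬ Φ l f B D)) ≤ εB) (K : ℝ)
    (hKdef : K = 16 * n / (w : ℝ) ^ 2) (N : ℕ) :
    ∀ (its : List (Item Y)), nslot its = N → (∀ y r, Item.ext y r ∈ its → r ≤ R) →
    ∀ (U : Finset X) (s : ℕ) (f : Finset X → ℝ) (B D : List Y), #U = 2 * m + nslot its →
    #U ≤ n → s + j0 + D.length = nsgl its + m + B.length → B.length ≤ k0 →
    D.length ≤ k0 → (∀ S, 0 ≤ f S) → (∀ S, f S ≤ 1) → 0 < dn U s f →
    EL #U U (fun l => ind (¬ Ok Φ l its f B D)) ≤
      explA K Λ R k0 (nslot its) (nout its) D.length * (-Real.log (dn U s f)) +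
      (((B.length : ℝ) + D.length) / k0 + εB) := by
  have hK : 0 ≤ K := by rw [hKdef]; positivity
  have hk0R : (0 : ℝ) < k0 := by exact_mod_cast hk0
  have hRR : (0 : ℝ) ≤ R := Nat.cast_nonneg _
  induction N with
  | zero =>
    intro its hN hR U s f B D hU hUn hs hB hD hf0 hf1 hφ
    have hDR : (D.length : ℝ) ≤ k0 := by exact_mod_cast hD
    have hφ1 := dn_le_one U s f hf1
    have hL : 0 ≤ -Real.log (dn U s f) := by
      have := Real.log_nonpos hφ.le hφ1
      linarith
    cases its with
    | cons a its =>
      exfalso
      cases a with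
      | out => exact absurd hN (Nat.succ_ne_zero _)
      | sgl y => exact absurd hN (Nat.succ_ne_zero _)
      | ext y r =>
        have h : nslot its + (r + 1) = 0 := hN
        omega
    | nil =>
      have hU' : #U = 2 * m := hU
      have hs' : s + j0 + D.length = m + B.length := by
        have : s + j0 + D.length = 0 + m + B.length := hs
        omega
      have hOk : ∀ l, Ok Φ l [] f B D ↔ Φ l f B D := by
        intro l
        cases l <;> simp only [Ok]
      simp only [hOk]
      rw [hU']
      have hA0 := explA_nonneg K Λ R k0 0 0 D.length hK hΛ hRR hk0R hDR le_rfl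
      have hq : explA K Λ R k0 (nslot ([] : List (Item Y))) (nout ([] : List (Item Y)))
          D.length = explA K Λ R k0 0 0 D.length := by
        simp only [nslot, nout, Nat.cast_zero]
      rw [hq]
      have hBD : 0 ≤ ((B.length : ℝ) + D.length) / k0 := by positivity
      by_cases hlow : Real.exp (-Λ) ≤ dn U s f
      · have := hΦ U s f B D hU' hs' hB hD hf0 hf1 hlow
        have h3 := mul_nonneg hA0 hL
        linarith
      · have h1 : Λ ≤ -Real.log (dn U s f) := by
          have h2 := Real.log_le_log hφ (le_of_lt (not_le.1 hlow))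
          rw [Real.log_exp] at h2
          linarith
        have h3 : 1 / Λ ≤ explA K Λ R k0 0 0 D.length := by
          unfold explA
          have h4 : 0 ≤ K * (0 + ((k0 : ℝ) - D.length) * R) := by
            have : 0 ≤ (k0 : ℝ) - D.length := by linarith
            positivity
          simp only [pow_zero, one_mul, Nat.cast_zero, mul_zero, add_zero]
          linarith
        have h5 : 1 ≤ explA K Λ R k0 0 0 D.length * (-Real.log (dn U s f)) := by
          calc (1 : ℝ) = 1 / Λ * Λ := by field_simp
            _ ≤ _ := mul_le_mul h3 h1 hΛ.le hA0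
        have h6 := expl_EL_le_one (2 * m) U hU'.ge (fun l => ¬ Φ l f B D)
        linarith
  | succ N ih =>
    intro its hN hR U s f B D hU hUn hs hB hD hf0 hf1 hφ
    have hDR : (D.length : ℝ) ≤ k0 := by exact_mod_cast hD
    have hφ1 := dn_le_one U s f hf1
    have hL : 0 ≤ -Real.log (dn U s f) := by
      have := Real.log_nonpos hφ.le hφ1
      linarith
    have hsgl := expl_nsgl_le its
    have hws : w ≤ s := by omega
    have hsU : s + w ≤ #U := by omega
    have hUpos : 0 < #U := by omega
    have hUe : #U = (2 * m + N) + 1 := by omega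
    have hcard : ∀ z ∈ U, #(U.erase z) = 2 * m + N := by
      intro z hz
      rw [card_erase_of_mem hz]
      omega
    have hin0 : ∀ z S, 0 ≤ inn z f S := fun z S => hf0 _
    have hin1 : ∀ z S, inn z f S ≤ 1 := fun z S => hf1 _
    have hA0 : 0 ≤ explA K Λ R k0 (nslot its) (nout its) D.length :=
      explA_nonneg _ _ _ _ _ _ _ hK hΛ hRR hk0R hDR (Nat.cast_nonneg _)
    have hBD : 0 ≤ ((B.length : ℝ) + D.length) / k0 := by positivity
    have hEL1 := expl_EL_le_one (#U) U le_rfl (fun l => ¬ Ok Φ l its f B D)
    have hAL := mul_nonneg hA0 hL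
    -- trivial cases
    have htriv : (k0 ≤ B.length ∨ k0 ≤ D.length) →
        EL #U U (fun l => ind (¬ Ok Φ l its f B D)) ≤
      explA K Λ R k0 (nslot its) (nout its) D.length * (-Real.log (dn U s f)) +
      (((B.length : ℝ) + D.length) / k0 + εB) := by
      intro h
      have h1 : 1 ≤ ((B.length : ℝ) + D.length) / k0 := by
        rw [le_div_iff₀ hk0R, one_mul]
        rcases h with h | h
        · have : (k0 : ℝ) ≤ B.length := by exact_mod_cast h
          have h2 : (0 : ℝ) ≤ D.length := Nat.cast_nonneg _
          linarith
        · have : (k0 : ℝ) ≤ D.length := by exact_mod_cast h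
          have h2 : (0 : ℝ) ≤ B.length := Nat.cast_nonneg _
          linarith
      linarith
    have hlog : ∀ (V : Finset X) (t : ℕ) (g : Finset X → ℝ), (∀ S, g S ≤ 1) → 0 < dn V t g →
        0 ≤ -Real.log (dn V t g) := by
      intro V t g hg h0
      have := Real.log_nonpos h0.le (dn_le_one V t g hg)
      linarith
    cases its with
    | nil => exact absurd hN (Nat.succ_ne_zero _).symm
    | cons a its =>
      cases a with
      | out =>
        have hN' : nslot its = N := by
          have : nslot its + 1 = N + 1 := hN
          omega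
        have hR' : ∀ y r, Item.ext y r ∈ its → r ≤ R := fun y r h => hR y r (List.mem_cons_of_mem _ h)
        have hs' : s + j0 + D.length = nsgl its + m + B.length := hs
        obtain ⟨Bad, hsub, hBadc, hBad2, hgood, hsum⟩ :=
          step_out U s f hf0 hf1 n w hw hws hsU hUn hφ
        rw [← hKdef] at hBadc hsum
        have key := expl_avg U Bad
          (fun z => EL (#(U.erase z)) (U.erase z) (fun l => ind (¬ Ok Φ l its f B D)))
          (fun z => -Real.log (dn (U.erase z) s f))
          (fun z => -Real.log (dn (U.erase z) (s - 1) (inn z f))) K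
          (-Real.log (dn U s f)) (explA K Λ R k0 (nslot its) (nout its) D.length)
          (((B.length : ℝ) + D.length) / k0 + εB) 1 hUpos hsub hBadc
          (explA_nonneg _ _ _ _ _ _ _ hK hΛ hRR hk0R hDR (Nat.cast_nonneg _)) zero_le_one
          ?_ ?_ hsum
        · have hEL : EL #U U (fun l => ind (¬ Ok Φ l (Item.out :: its) f B D)) =
              (∑ z ∈ U, EL (#(U.erase z)) (U.erase z) (fun l => ind (¬ Ok Φ l its f B D))) /
                (#U : ℝ) := by
            conv_lhs => rw [hUe]
            rw [elb_succ]
            congr 1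
            refine sum_congr rfl fun z hz => ?_
            rw [hcard z hz]
            simp only [Ok]
          rw [hEL]
          refine key.trans ?_
          have h1 := explA_out K Λ R k0 (nslot its) (nout its) D.length hK hk0R
          have h2 : explA K Λ R k0 (nslot (Item.out :: its)) (nout (Item.out :: its)) D.length =
              explA K Λ R k0 (nslot its + 1) (nout its + 1) D.length := by
            simp only [nslot, nout]
            push_cast
            rfl
          rw [h2]
          have h3 := mul_le_mul_of_nonneg_right h1 hL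
          linarith
        · intro z hz
          have hzU := (mem_sdiff.1 hz).1
          have hpos : 0 < dn (U.erase z) s f := by
            have := hgood z hz
            linarith
          refine ih its hN' hR' (U.erase z) s f B D ?_ ?_ hs' hB hD hf0 hf1 hpos
          · rw [hcard z hzU, hN']
          · exact (card_le_card (erase_subset z U)).trans hUn
        · intro z hz
          have hpos : 0 < dn (U.erase z) (s - 1) (inn z f) := by
            have := hBad2 z hz
            linarith
          have h1 := hlog _ _ _ (hin1 z) hpos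
          have h2 := explA_nonneg K Λ R k0 (nslot its) (nout its) D.length hK hΛ hRR hk0R hDR
            (Nat.cast_nonneg _)
          have h3 := expl_EL_le_one (#(U.erase z)) (U.erase z) le_rfl
            (fun l => ¬ Ok Φ l its f B D)
          have h4 := mul_nonneg h2 h1
          show EL (#(U.erase z)) (U.erase z) (fun l => ind (¬ Ok Φ l its f B D)) ≤ _
          linarith
      | sgl y =>
        rcases Nat.lt_or_ge B.length k0 with hBk | hBk
        swap
        · exact htriv (Or.inl hBk)
        have hN' : nslot its = N := by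
          have : nslot its + 1 = N + 1 := hN
          omega
        have hR' : ∀ y r, Item.ext y r ∈ its → r ≤ R := fun y r h => hR y r (List.mem_cons_of_mem _ h)
        have hs' : s + j0 + D.length = nsgl its + 1 + m + B.length := hs
        obtain ⟨Bad, hsub, hBadc, hBad2, hgood, hsum⟩ :=
          step_in U s f hf0 hf1 n w hw hws hsU hUn hφ
        rw [← hKdef] at hBadc hsum
        have key := expl_avg U Bad
          (fun z => EL (#(U.erase z)) (U.erase z)
            (fun l => ind (¬ Ok Φ (z :: l) (Item.sgl y :: its) f B D)))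
          (fun z => -Real.log (dn (U.erase z) (s - 1) (inn z f)))
          (fun z => -Real.log (dn (U.erase z) s f)) K
          (-Real.log (dn U s f)) (explA K Λ R k0 (nslot its) (nout its) D.length)
          (((B.length : ℝ) + D.length) / k0 + εB) (1 / k0) hUpos hsub hBadc
          (explA_nonneg _ _ _ _ _ _ _ hK hΛ hRR hk0R hDR (Nat.cast_nonneg _)) (by positivity)
          ?_ ?_ hsum
        · have hEL : EL #U U (fun l => ind (¬ Ok Φ l (Item.sgl y :: its) f B D)) =
              (∑ z ∈ U, EL (#(U.erase z)) (U.erase z)
                (fun l => ind (¬ Ok Φ (z :: l) (Item.sgl y :: its) f B D))) / (#U : ℝ) := by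
            conv_lhs => rw [hUe]
            rw [elb_succ]
            congr 1
            refine sum_congr rfl fun z hz => ?_
            rw [hcard z hz]
          rw [hEL]
          refine key.trans ?_
          have h1 := explA_in K Λ R k0 (nslot its) (nout its) D.length hK hk0R
          have h2 : explA K Λ R k0 (nslot (Item.sgl y :: its)) (nout (Item.sgl y :: its))
              D.length = explA K Λ R k0 (nslot its + 1) (nout its) D.length := by
            simp only [nslot, nout]
          rw [h2]
          have h3 := mul_le_mul_of_nonneg_right h1 hL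
          linarith
        · intro z hz
          have hzU := (mem_sdiff.1 hz).1
          have hpos : 0 < dn (U.erase z) (s - 1) (inn z f) := by
            have := hgood z hz
            linarith
          have h1 := ih its hN' hR' (U.erase z) (s - 1) (inn z f) B D
            (by rw [hcard z hzU, hN']) ((card_le_card (erase_subset z U)).trans hUn)
            (by omega) hB hD (hin0 z) (hin1 z) hpos
          refine le_trans (EL_mono _ _ _ _ fun l _ _ _ => ind_mono ?_) h1
          intro h h'
          exact h (by simp only [Ok]; exact Or.inl h')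
        · intro z hz
          have hzU := hsub hz
          have hpos : 0 < dn (U.erase z) s f := by
            have := hBad2 z hz
            linarith
          have h1 := ih its hN' hR' (U.erase z) s f (y :: B) D
            (by rw [hcard z hzU, hN']) ((card_le_card (erase_subset z U)).trans hUn)
            (by simp only [List.length_cons]; omega)
            (by simp only [List.length_cons]; omega) hD hf0 hf1 hpos
          have h2 : EL (#(U.erase z)) (U.erase z)
              (fun l => ind (¬ Ok Φ (z :: l) (Item.sgl y :: its) f B D)) ≤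
              EL (#(U.erase z)) (U.erase z) (fun l => ind (¬ Ok Φ l its f (y :: B) D)) := by
            refine EL_mono _ _ _ _ fun l _ _ _ => ind_mono ?_
            intro h h'
            exact h (by simp only [Ok]; exact Or.inr h')
          refine h2.trans (h1.trans (le_of_eq ?_))
          simp only [List.length_cons]
          push_cast
          ring
      | ext y r =>
        rcases Nat.lt_or_ge D.length k0 with hDk | hDk
        swap
        · exact htriv (Or.inr hDk)
        have hN' : nslot its + r = N := by
          have : nslot its + (r + 1) = N + 1 := hN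
          omega
        have hrR : r ≤ R := hR y r List.mem_cons_self
        have hR' : ∀ y' r', Item.ext y' r' ∈ nxt y r its → r' ≤ R := by
          intro y' r' h
          cases r with
          | zero => exact hR y' r' (List.mem_cons_of_mem _ h)
          | succ r =>
            rcases List.mem_cons.1 h with h | h
            · injection h with h1 h2
              omega
            · exact hR y' r' (List.mem_cons_of_mem _ h)
        have hR'' : ∀ y' r', Item.ext y' r' ∈ List.replicate r Item.out ++ its → r' ≤ R := by
          intro y' r' h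
          rcases List.mem_append.1 h with h | h
          · have := List.eq_of_mem_replicate h
            exact absurd this (by simp)
          · exact hR y' r' (List.mem_cons_of_mem _ h)
        have hs' : s + j0 + D.length = nsgl its + m + B.length := hs
        have hD'R : (D.length : ℝ) + 1 ≤ k0 := by exact_mod_cast hDk
        obtain ⟨Bad, hsub, hBadc, hBad2, hgood, hsum⟩ :=
          step_out U s f hf0 hf1 n w hw hws hsU hUn hφ
        rw [← hKdef] at hBadc hsum
        have key := expl_avg U Bad
          (fun z => EL (#(U.erase z)) (U.erase z)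
            (fun l => ind (¬ Ok Φ (z :: l) (Item.ext y r :: its) f B D)))
          (fun z => -Real.log (dn (U.erase z) s f))
          (fun z => -Real.log (dn (U.erase z) (s - 1) (inn z f))) K
          (-Real.log (dn U s f)) (explA K Λ R k0 (nslot its + r) (nout its) D.length)
          (((B.length : ℝ) + D.length) / k0 + εB) (1 / k0) hUpos hsub hBadc
          (explA_nonneg _ _ _ _ _ _ _ hK hΛ hRR hk0R hDR (Nat.cast_nonneg _)) (by positivity)
          ?_ ?_ hsum
        · have hEL : EL #U U (fun l => ind (¬ Ok Φ l (Item.ext y r :: its) f B D)) =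
              (∑ z ∈ U, EL (#(U.erase z)) (U.erase z)
                (fun l => ind (¬ Ok Φ (z :: l) (Item.ext y r :: its) f B D))) / (#U : ℝ) := by
            conv_lhs => rw [hUe]
            rw [elb_succ]
            congr 1
            refine sum_congr rfl fun z hz => ?_
            rw [hcard z hz]
          rw [hEL]
          refine key.trans ?_
          have h1 := explA_in K Λ R k0 (nslot its + r) (nout its) D.length hK hk0R
          have h2 : explA K Λ R k0 (nslot (Item.ext y r :: its)) (nout (Item.ext y r :: its))
              D.length = explA K Λ R k0 (nslot its + r + 1) (nout its) D.length := by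
            simp only [nslot, nout]
            rfl
          rw [h2]
          have h3 := mul_le_mul_of_nonneg_right h1 hL
          linarith
        · intro z hz
          have hzU := (mem_sdiff.1 hz).1
          have hpos : 0 < dn (U.erase z) s f := by
            have := hgood z hz
            linarith
          have h1 := ih (nxt y r its) (by rw [expl_nslot_nxt, hN']) hR' (U.erase z) s f B D
            (by rw [hcard z hzU, expl_nslot_nxt, hN'])
            ((card_le_card (erase_subset z U)).trans hUn)
            (by rw [expl_nsgl_nxt]; exact hs') hB hD hf0 hf1 hpos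
          rw [expl_nslot_nxt, expl_nout_nxt] at h1
          refine le_trans (EL_mono _ _ _ _ fun l _ _ _ => ind_mono ?_) h1
          intro h h'
          exact h (by simp only [Ok]; exact Or.inl h')
        · intro z hz
          have hzU := hsub hz
          have hpos : 0 < dn (U.erase z) (s - 1) (inn z f) := by
            have := hBad2 z hz
            linarith
          have h1 := ih (List.replicate r Item.out ++ its) (by rw [expl_nslot_rep, hN']) hR''
            (U.erase z) (s - 1) (inn z f) B (y :: D)
            (by rw [hcard z hzU, expl_nslot_rep, hN'])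
            ((card_le_card (erase_subset z U)).trans hUn)
            (by rw [expl_nsgl_rep]; simp only [List.length_cons]; omega) hB
            (by simp only [List.length_cons]; omega) (hin0 z) (hin1 z) hpos
          rw [expl_nslot_rep, expl_nout_rep] at h1
          have h2 : EL (#(U.erase z)) (U.erase z)
              (fun l => ind (¬ Ok Φ (z :: l) (Item.ext y r :: its) f B D)) ≤
              EL (#(U.erase z)) (U.erase z)
                (fun l => ind (¬ Ok Φ l (List.replicate r Item.out ++ its) (inn z f) B
                  (y :: D))) := by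
            refine EL_mono _ _ _ _ fun l _ _ _ => ind_mono ?_
            intro h h'
            exact h (by simp only [Ok]; exact Or.inr h')
          refine h2.trans (h1.trans ?_)
          have h3 : explA K Λ R k0 (nslot its + r) ((r + nout its : ℕ) : ℝ)
              ((y :: D).length : ℝ) ≤ explA K Λ R k0 (nslot its + r) (nout its) D.length := by
            have h4 := explA_com K Λ R k0 (nslot its + r) (nout its) D.length r hK
              (by exact_mod_cast hrR)
            simp only [List.length_cons]
            push_cast
            exact h4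
          have h5 := mul_le_mul_of_nonneg_right h3 (hlog _ _ _ (hin1 z) hpos)
          have h6 : ((B.length : ℝ) + ((y :: D).length : ℝ)) / k0 + εB =
              ((B.length : ℝ) + D.length) / k0 + εB + 1 / k0 := by
            simp only [List.length_cons]
            push_cast
            ring
          rw [h6]
          linarith

theorem expl (Φ : List X → (Finset X → ℝ) → List Y → List Y → Prop) (m j0 k0 n w R : ℕ)
    (Λ εB : ℝ) (hw : 1 ≤ w) (hk0 : 1 ≤ k0) (hΛ : 0 < Λ) (hεB : 0 ≤ εB) (hm : w + k0 + j0 ≤ m)
    (hΦ : ∀ (U : Finset X) (s : ℕ) (f : Finset X → ℝ) (B D : List Y), #U = 2 * m →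
      s + j0 + D.length = m + B.length → B.length ≤ k0 → D.length ≤ k0 →
      (∀ S, 0 ≤ f S) → (∀ S, f S ≤ 1) → Real.exp (-Λ) ≤ dn U s f →
      EL (2 * m) U (fun l => ind (¬ Φ l f B D)) ≤ εB)
    (its : List (Item Y)) (hR : ∀ y r, Item.ext y r ∈ its → r ≤ R) (U : Finset X) (s : ℕ)
    (f : Finset X → ℝ) (B D : List Y) (hU : #U = 2 * m + nslot its) (hUn : #U ≤ n)
    (hs : s + j0 + D.length = nsgl its + m + B.length) (hB : B.length ≤ k0)
    (hD : D.length ≤ k0) (hf0 : ∀ S, 0 ≤ f S) (hf1 : ∀ S, f S ≤ 1) (hφ : 0 < dn U s f) :
    EL #U U (fun l => ind (¬ Ok Φ l its f B D)) ≤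
      (1 + 16 * n / (w : ℝ) ^ 2) ^ nslot its *
        (1 / Λ + 16 * n / (w : ℝ) ^ 2 * (nout its + ((k0 : ℝ) - D.length) * R) +
          16 * n / (w : ℝ) ^ 2 / k0 * nslot its) * (-Real.log (dn U s f)) +
      ((B.length : ℝ) + D.length) / k0 + εB := by
  have h := expl_aux Φ m j0 k0 n w R Λ εB hw hk0 hΛ hεB hm hΦ _ rfl _ its rfl hR U s f B D hU
    hUn hs hB hD hf0 hf1 hφ
  unfold explA at h
  rw [← add_assoc] at h
  exact h

end H96.TN
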