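import Pool.Agent.H96.TN.Defs2

/-!
Module ITEMS (~150 lines): the list of items and slots of a map `g`.

For `x` with `g x ∉ V`: an `out` item. For `y ∈ P1 g V`: `sgl y` with its only slot. For
`y ∈ P2 g V`: choose two slots `p0 y ≠ p1 y`; if there are `t ≥ 1` further slots, the item `ext y (t-1)`
with these slots. `ms` = the list of `P2 g V`. `V ⊆ im g` ensures that every class of `V` is
nonempty. (Suggestion: induction on a list of classes, with the fiber lists.)
-/

namespace H96.TN

open Finset

theorem items_nxt_append {Y : Type*} (y : Y) (r : ℕ) (a b : List (Item Y)) :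
    nxt y r (a ++ b) = nxt y r a ++ b := by
  cases r <;> simp [nxt]

theorem items_compat_append {Y Z : Type*} (g : Z → Y) :
    ∀ (ys : List Z) (a : List (Item Y)) (zs : List Z) (b : List (Item Y)),
      Compat g ys a → Compat g zs b → Compat g (ys ++ zs) (a ++ b)
  | ys, [], zs, b, h, h' => by
    have : ys = [] := by
      cases ys
      · rfl
      · simp [Compat] at h
    subst this
    simpa using h'
  | [], _ :: _, _, _, h, _ => by simp [Compat] at h
  | x :: ys, Item.out :: a, zs, b, h, h' => by
    simp only [Compat] at h
    simpa [Compat] using items_compat_append g ys a zs b h h'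
  | x :: ys, Item.sgl y :: a, zs, b, h, h' => by
    simp only [Compat] at h
    simpa [Compat, h.1] using items_compat_append g ys a zs b h.2 h'
  | x :: ys, Item.ext y r :: a, zs, b, h, h' => by
    simp only [Compat] at h
    have := items_compat_append g ys (nxt y r a) zs b h.2 h'
    simpa [Compat, h.1, items_nxt_append] using this

theorem items_nslot_append {Y : Type*} : ∀ (a b : List (Item Y)),
    nslot (a ++ b) = nslot a + nslot b
  | [], b => by simp [nslot]
  | Item.out :: a, b => by simp [nslot, items_nslot_append a b]; omega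
  | Item.sgl y :: a, b => by simp [nslot, items_nslot_append a b]; omega
  | Item.ext y r :: a, b => by simp [nslot, items_nslot_append a b]; omega

theorem items_nout_append {Y : Type*} : ∀ (a b : List (Item Y)),
    nout (a ++ b) = nout a + nout b
  | [], b => by simp [nout]
  | Item.out :: a, b => by simp [nout, items_nout_append a b]; omega
  | Item.sgl y :: a, b => by simp [nout, items_nout_append a b]
  | Item.ext y r :: a, b => by simp [nout, items_nout_append a b]

theorem items_sgls_append {Y : Type*} : ∀ (a b : List (Item Y)),
    sgls (a ++ b) = sgls a ++ sgls b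
  | [], b => by simp [sgls]
  | Item.out :: a, b => by simp [sgls, items_sgls_append a b]
  | Item.sgl y :: a, b => by simp [sgls, items_sgls_append a b]
  | Item.ext y r :: a, b => by simp [sgls, items_sgls_append a b]

theorem items_exts_append {Y : Type*} : ∀ (a b : List (Item Y)),
    exts (a ++ b) = exts a ++ exts b
  | [], b => by simp [exts]
  | Item.out :: a, b => by simp [exts, items_exts_append a b]
  | Item.sgl y :: a, b => by simp [exts, items_exts_append a b]
  | Item.ext y r :: a, b => by simp [exts, items_exts_append a b]

theorem items_nsgl_eq {Y : Type*} : ∀ (a : List (Item Y)), nsgl a = (sgls a).length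
  | [] => by simp [nsgl, sgls]
  | Item.out :: a => by simp [nsgl, sgls, items_nsgl_eq a]
  | Item.sgl y :: a => by simp [nsgl, sgls, items_nsgl_eq a]
  | Item.ext y r :: a => by simp [nsgl, sgls, items_nsgl_eq a]

theorem items_rep_out {Y Z : Type*} (g : Z → Y) : ∀ (l : List Z),
    Compat g l (List.replicate l.length (Item.out : Item Y))
  | [] => by simp [Compat]
  | x :: l => by simpa [Compat, List.replicate_succ] using items_rep_out g l

theorem items_rep_nslot {Y : Type*} : ∀ (k : ℕ),
    nslot (List.replicate k (Item.out : Item Y)) = k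
  | 0 => by simp [nslot]
  | k + 1 => by simp [nslot, List.replicate_succ, items_rep_nslot k]

theorem items_rep_nout {Y : Type*} : ∀ (k : ℕ),
    nout (List.replicate k (Item.out : Item Y)) = k
  | 0 => by simp [nout]
  | k + 1 => by simp [nout, List.replicate_succ, items_rep_nout k]

theorem items_rep_sgls {Y : Type*} : ∀ (k : ℕ),
    sgls (List.replicate k (Item.out : Item Y)) = []
  | 0 => by simp [sgls]
  | k + 1 => by simp [sgls, List.replicate_succ, items_rep_sgls k]

theorem items_rep_exts {Y : Type*} : ∀ (k : ℕ),
    exts (List.replicate k (Item.out : Item Y)) = []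
  | 0 => by simp [exts]
  | k + 1 => by simp [exts, List.replicate_succ, items_rep_exts k]

theorem items_ext_compat {Y Z : Type*} (g : Z → Y) (y : Y) : ∀ (l : List Z) (x : Z),
    (∀ z ∈ x :: l, g z = y) → Compat g (x :: l) [Item.ext y l.length]
  | [], x, h => by simpa [Compat, nxt] using h
  | z :: l, x, h => by
    have h1 := items_ext_compat g y l z (fun w hw => h w (List.mem_cons_of_mem _ hw))
    have h2 : g x = y := h x (by simp)
    simpa [Compat, nxt, h2] using h1

/-- the items of one class -/
def itemsOf {n : ℕ} (V : Finset (Fin n)) (y : Fin n) : List (Fin n) → List (Item (Fin n))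
  | [] => []
  | [x] => if y ∈ V then [Item.sgl y] else List.replicate [x].length Item.out
  | [x, x'] => if y ∈ V then [] else List.replicate [x, x'].length Item.out
  | x :: x' :: z :: l => if y ∈ V then [Item.ext y l.length] else
      List.replicate (x :: x' :: z :: l).length Item.out

/-- the slots of one class -/
def slotsOf {n : ℕ} (V : Finset (Fin n)) (y : Fin n) : List (Fin n) → List (Fin n)
  | [] => []
  | [x] => [x]
  | [x, x'] => if y ∈ V then [] else [x, x']
  | x :: x' :: z :: l => if y ∈ V then z :: l else x :: x' :: z :: l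

theorem items_class_compat {n : ℕ} (g : Fin n → Fin n) (V : Finset (Fin n)) (y : Fin n)
    (l : List (Fin n)) (h : ∀ z ∈ l, g z = y) : Compat g (slotsOf V y l) (itemsOf V y l) := by
  match l with
  | [] => simp [slotsOf, itemsOf, Compat]
  | [x] =>
    by_cases hy : y ∈ V
    · simpa [slotsOf, itemsOf, hy, Compat] using h
    · simp only [slotsOf, itemsOf, hy, if_false]
      exact items_rep_out g _
  | [x, x'] =>
    by_cases hy : y ∈ V
    · simp [slotsOf, itemsOf, hy, Compat]
    · simp only [slotsOf, itemsOf, hy, if_false]
      exact items_rep_out g _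
  | x :: x' :: z :: l =>
    by_cases hy : y ∈ V
    · simp only [slotsOf, itemsOf, hy, if_true]
      exact items_ext_compat g y l z (fun w hw => h w (by simp at hw ⊢; tauto))
    · simp only [slotsOf, itemsOf, hy, if_false]
      exact items_rep_out g _

theorem items_class_nslot {n : ℕ} (V : Finset (Fin n)) (y : Fin n)
    (l : List (Fin n)) : (slotsOf V y l).length = nslot (itemsOf V y l) := by
  match l with
  | [] => simp [slotsOf, itemsOf, nslot]
  | [x] =>
    by_cases hy : y ∈ V <;> simp [slotsOf, itemsOf, hy, nslot]
  | [x, x'] =>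
    by_cases hy : y ∈ V
    · simp [slotsOf, itemsOf, hy, nslot]
    · simp only [slotsOf, itemsOf, hy, if_false, items_rep_nslot]
  | x :: x' :: z :: l =>
    by_cases hy : y ∈ V
    · simp [slotsOf, itemsOf, hy, nslot]
    · simp only [slotsOf, itemsOf, hy, if_false, items_rep_nslot]

theorem items_class_sgls {n : ℕ} (V : Finset (Fin n)) (y : Fin n)
    (l : List (Fin n)) :
    sgls (itemsOf V y l) = if y ∈ V ∧ l.length = 1 then [y] else [] := by
  match l with
  | [] => simp [itemsOf, sgls]
  | [x] =>
    by_cases hy : y ∈ V <;> simp [itemsOf, hy, sgls]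
  | [x, x'] =>
    by_cases hy : y ∈ V
    · simp [itemsOf, hy, sgls]
    · simp only [itemsOf, hy, if_false, items_rep_sgls]
      simp
  | x :: x' :: z :: l =>
    by_cases hy : y ∈ V
    · simp [itemsOf, hy, sgls]
    · simp only [itemsOf, hy, if_false, items_rep_sgls]
      simp

theorem items_class_exts {n : ℕ} (V : Finset (Fin n)) (y : Fin n)
    (l : List (Fin n)) :
    exts (itemsOf V y l) = if y ∈ V ∧ 3 ≤ l.length then [y] else [] := by
  match l with
  | [] => simp [itemsOf, exts]
  | [x] =>
    by_cases hy : y ∈ V <;> simp [itemsOf, hy, exts]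
  | [x, x'] =>
    by_cases hy : y ∈ V
    · simp [itemsOf, hy, exts]
    · simp only [itemsOf, hy, if_false, items_rep_exts]
      simp
  | x :: x' :: z :: l =>
    by_cases hy : y ∈ V
    · simp [itemsOf, hy, exts]
    · simp only [itemsOf, hy, if_false, items_rep_exts]
      simp

theorem items_class_nout {n : ℕ} (V : Finset (Fin n)) (y : Fin n)
    (l : List (Fin n)) :
    nout (itemsOf V y l) = if y ∈ V then 0 else l.length := by
  match l with
  | [] => simp [itemsOf, nout]
  | [x] =>
    by_cases hy : y ∈ V <;> simp [itemsOf, hy, nout]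
  | [x, x'] =>
    by_cases hy : y ∈ V
    · simp [itemsOf, hy, nout]
    · simp only [itemsOf, hy, if_false, items_rep_nout]
  | x :: x' :: z :: l =>
    by_cases hy : y ∈ V
    · simp [itemsOf, hy, nout]
    · simp only [itemsOf, hy, if_false, items_rep_nout]

theorem items_class_mem {n : ℕ} (V : Finset (Fin n)) (y : Fin n)
    (l : List (Fin n)) (y' : Fin n) (r : ℕ) (h : Item.ext y' r ∈ itemsOf V y l) :
    r ≤ l.length := by
  match l with
  | [] => simp [itemsOf] at h
  | [x] =>
    by_cases hy : y ∈ V <;> simp [itemsOf, hy] at h
  | [x, x'] =>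
    by_cases hy : y ∈ V <;> simp [itemsOf, hy] at h
  | x :: x' :: z :: l =>
    by_cases hy : y ∈ V
    · simp [itemsOf, hy] at h
      simp [h.2]
      omega
    · simp [itemsOf, hy, List.mem_replicate] at h

theorem items_class_perm {n : ℕ} (V : Finset (Fin n)) (y : Fin n)
    (l : List (Fin n)) :
    (slotsOf V y l ++ if y ∈ V ∧ 2 ≤ l.length then [l.headD y, l.tail.headD y] else []).Perm l := by
  match l with
  | [] => simp [slotsOf]
  | [x] => simp [slotsOf]
  | [x, x'] =>
    by_cases hy : y ∈ V <;> simp [slotsOf, hy]
  | x :: x' :: z :: l =>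
    by_cases hy : y ∈ V
    · have h : y ∈ V ∧ 2 ≤ (x :: x' :: z :: l).length := ⟨hy, by simp⟩
      simp only [slotsOf, hy, if_true, h, true_and]
      have : x :: x' :: z :: l = [x, x'] ++ (z :: l) := by simp
      simp only [List.headD_cons, List.tail_cons]
      rw [this]
      exact List.perm_append_comm
    · simp [slotsOf, hy]

theorem items_flatMap_filter {α β : Type*} (p : α → Prop) [DecidablePred p] (h : α → List β) :
    ∀ L : List α, (L.filter (fun y => p y)).flatMap h = L.flatMap (fun y => if p y then h y else [])
  | [] => by simp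
  | a :: L => by
    by_cases ha : p a
    · simp [ha, items_flatMap_filter p h L]
    · simp [ha, items_flatMap_filter p h L]

theorem items {n : ℕ} (g : Fin n → Fin n) (V : Finset (Fin n)) (hV : V ⊆ im g) (R : ℕ)
    (hR : ∀ y, #{x | g x = y} ≤ R) :
    ∃ (its : List (Item (Fin n))) (ys ms : List (Fin n)) (p0 p1 : Fin n → Fin n),
      Compat g ys its ∧ ys.length = nslot its ∧
      (ys ++ ms.flatMap (fun y => [p0 y, p1 y])).Perm (List.finRange n) ∧
      ms.Nodup ∧ (∀ y, y ∈ ms ↔ y ∈ P2 g V) ∧ (∀ y ∈ ms, g (p0 y) = y ∧ g (p1 y) = y) ∧
      (sgls its).Nodup ∧ (∀ y, y ∈ sgls its ↔ y ∈ P1 g V) ∧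
      (exts its).Nodup ∧ (∀ y ∈ exts its, y ∈ ms) ∧
      (∀ y r, Item.ext y r ∈ its → r ≤ R) ∧ nsgl its = #(P1 g V) ∧
      nout its = #{x | g x ∉ V} := by
  classical
  set F : Fin n → List (Fin n) := fun y => (List.finRange n).filter (fun x => g x = y) with hF
  have hlen : ∀ y, (F y).length = #{x | g x = y} := by
    intro y
    have h1 : (F y).Nodup := (List.nodup_finRange n).filter _
    rw [← List.toFinset_card_of_nodup h1]
    congr 1
    ext x
    simp [hF]
  have hmem : ∀ y x, x ∈ F y ↔ g x = y := by
    intro y x
    simp [hF]
  set L := List.finRange n with hL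
  have hLn : L.Nodup := List.nodup_finRange n
  have hLm : ∀ y, y ∈ L := fun y => List.mem_finRange y
  set ms := L.filter (fun y => y ∈ V ∧ 2 ≤ (F y).length) with hms
  set p0 : Fin n → Fin n := fun y => (F y).headD y with hp0
  set p1 : Fin n → Fin n := fun y => (F y).tail.headD y with hp1
  have hcomp : ∀ K : List (Fin n),
      Compat g (K.flatMap fun y => slotsOf V y (F y)) (K.flatMap fun y => itemsOf V y (F y)) := by
    intro K
    induction K with
    | nil => simp [Compat]
    | cons a K ih =>
      simp only [List.flatMap_cons]
      exact items_compat_append g _ _ _ _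
        (items_class_compat g V a (F a) (fun z hz => (hmem a z).1 hz)) ih
  have hnslot : ∀ K : List (Fin n),
      (K.flatMap fun y => slotsOf V y (F y)).length =
        nslot (K.flatMap fun y => itemsOf V y (F y)) := by
    intro K
    induction K with
    | nil => simp [nslot]
    | cons a K ih =>
      simp only [List.flatMap_cons, List.length_append, items_nslot_append, ih,
        items_class_nslot]
  have hsg : ∀ K : List (Fin n),
      sgls (K.flatMap fun y => itemsOf V y (F y)) =
        K.filter (fun y => y ∈ V ∧ (F y).length = 1) := by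
    intro K
    induction K with
    | nil => simp [sgls]
    | cons a K ih =>
      simp only [List.flatMap_cons, items_sgls_append, ih, items_class_sgls, List.filter_cons]
      by_cases h : a ∈ V ∧ (F a).length = 1
      · simp [h]
      · simp [h]
  have hex : ∀ K : List (Fin n),
      exts (K.flatMap fun y => itemsOf V y (F y)) =
        K.filter (fun y => y ∈ V ∧ 3 ≤ (F y).length) := by
    intro K
    induction K with
    | nil => simp [exts]
    | cons a K ih =>
      simp only [List.flatMap_cons, items_exts_append, ih, items_class_exts, List.filter_cons]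
      by_cases h : a ∈ V ∧ 3 ≤ (F a).length
      · simp [h]
      · simp [h]
  have hno : ∀ K : List (Fin n),
      nout (K.flatMap fun y => itemsOf V y (F y)) =
        (K.map (fun y => if y ∈ V then 0 else (F y).length)).sum := by
    intro K
    induction K with
    | nil => simp [nout]
    | cons a K ih =>
      simp only [List.flatMap_cons, items_nout_append, ih, items_class_nout, List.map_cons,
        List.sum_cons]
  have hms2 : ∀ y, y ∈ ms ↔ y ∈ P2 g V := by
    intro y
    simp [hms, P2, hlen, hLm]
  have hsgm : ∀ y, y ∈ L.filter (fun y => y ∈ V ∧ (F y).length = 1) ↔ y ∈ P1 g V := by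
    intro y
    simp [P1, hlen, hLm]
  refine ⟨L.flatMap fun y => itemsOf V y (F y), L.flatMap fun y => slotsOf V y (F y), ms, p0, p1,
    hcomp L, hnslot L, ?_, hLn.filter _, hms2, ?_, ?_, ?_, ?_, ?_, ?_, ?_, ?_⟩
  · -- permutation
    rw [hms, items_flatMap_filter (fun y => y ∈ V ∧ 2 ≤ (F y).length)]
    refine (List.flatMap_append_perm L _ _).trans ?_
    have h1 : (L.flatMap fun y => slotsOf V y (F y) ++
        if y ∈ V ∧ 2 ≤ (F y).length then [p0 y, p1 y] else []).Perm (L.flatMap F) := by
      refine List.Perm.flatMap_left _ (fun y _ => ?_)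
      exact items_class_perm V y (F y)
    refine h1.trans ?_
    refine (List.perm_ext_iff_of_nodup ?_ hLn).2 ?_
    · rw [List.nodup_flatMap]
      refine ⟨fun y _ => (List.nodup_finRange n).filter _, ?_⟩
      refine hLn.imp ?_
      intro a b hab
      simp only [Function.onFun]
      intro x hx hx'
      rw [hmem] at hx hx'
      exact hab (hx.symm.trans hx')
    · intro x
      simp only [List.mem_flatMap, hLm, true_and, iff_true, hmem]
      exact ⟨g x, rfl⟩
  · intro y hy
    rw [hms] at hy
    have h2 : 2 ≤ (F y).length := by
      have := (List.mem_filter.1 hy).2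
      simp only [decide_eq_true_eq] at this
      exact this.2
    have h0 : p0 y ∈ F y := by
      match hFy : F y with
      | [] => simp [hFy] at h2
      | x :: l => simp [hp0, hFy]
    have h1 : p1 y ∈ F y := by
      match hFy : F y with
      | [] => simp [hFy] at h2
      | [x] => simp [hFy] at h2
      | x :: x' :: l => simp [hp1, hFy]
    exact ⟨(hmem y _).1 h0, (hmem y _).1 h1⟩
  · rw [hsg]
    exact hLn.filter _
  · intro y
    rw [hsg]
    exact hsgm y
  · rw [hex]
    exact hLn.filter _
  · intro y hy
    rw [hex] at hy
    simp only [List.mem_filter, decide_eq_true_eq] at hy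
    simp only [hms, List.mem_filter, decide_eq_true_eq]
    exact ⟨hy.1, hy.2.1, by omega⟩
  · intro y r hr
    rw [List.mem_flatMap] at hr
    obtain ⟨z, _, hz⟩ := hr
    have h1 := items_class_mem V z (F z) y r hz
    rw [hlen] at h1
    exact h1.trans (hR z)
  · rw [items_nsgl_eq, hsg]
    rw [← List.toFinset_card_of_nodup (hLn.filter _)]
    congr 1
    ext y
    rw [List.mem_toFinset]
    exact hsgm y
  · rw [hno]
    have h1 : (L.map (fun y => if y ∈ V then 0 else (F y).length)).sum =
        ∑ y : Fin n, (if y ∈ V then 0 else (F y).length) := by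
      rw [Fin.sum_univ_def]
    rw [h1]
    simp only [hlen]
    rw [Finset.card_filter]
    have h2 : ∀ y : Fin n, (if y ∈ V then 0 else #{x | g x = y}) =
        ∑ x : Fin n, if g x = y then (if y ∈ V then 0 else 1) else 0 := by
      intro y
      by_cases hy : y ∈ V
      · simp [hy]
      · rw [if_neg hy, Finset.card_filter]
        refine Finset.sum_congr rfl (fun x _ => ?_)
        rw [if_neg hy]
    simp only [h2]
    rw [Finset.sum_comm]
    refine Finset.sum_congr rfl (fun x _ => ?_)
    rw [Finset.sum_ite_eq]
    simp

end H96.TN
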