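import Pool.Agent.H96.TN.DnB

/-!
Module GAP (~250 lines): spectral gap of the Bernoulli-Laplace model, by induction.

`E` = average over the `s`-subsets `T` of `U`, `u = #U`.
`𝓔(U,s,F) = ∑_{T} ∑_{z∈T} ∑_{z'∈U\T} (F T - F (T - z + z'))^2` (sum over all `s`-subsets `T`).
Claim: `2 u C(u,s) Var F ≤ 𝓔(U,s,F)`. Induction on `u` (all `s ≤ u`, all `F`).
`u ≤ 1` or `s = 0` or `s = u`: `Var = 0`. `u = 2, s = 1`: equality.
`u ≥ 3`, `1 ≤ s ≤ u-1`, `p = s/u`: for `i ∈ U` let `Δ_i = E[F | i∈T] - E[F | i∉T]`;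
`Var F = p Var(F | i∈T) + (1-p) Var(F | i∉T) + p(1-p) Δ_i^2`.
Level-1 Gram bound: `χ_i = 1[i∈T] - p`, `E χ_i^2 = p(1-p)`, `E χ_i χ_j = -p(1-p)/(u-1)` (`i≠j`),
so `E (∑ c_i χ_i)^2 = p(1-p) ((u/(u-1)) ∑ c_i^2 - (∑ c_i)^2/(u-1)) ≤ p(1-p) (u/(u-1)) ∑ c_i^2`.
With `c_i = E[F χ_i] = p(1-p) Δ_i`: `∑ c_i^2 = E[(F - EF) ∑ c_i χ_i] ≤ √Var · √(p(1-p) u/(u-1) ∑ c_i^2)`,
so `∑_i p(1-p) Δ_i^2 ≤ (u/(u-1)) Var F`.
Averaging the decomposition over `i` : `Var F (1 - 1/(u-1)) ≤ (1/u) ∑_i [p Var(F|i∈T) + (1-p) Var(F|i∉T)]`,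
and by the induction hypothesis for `U.erase i` (with `s-1`, `inn i F`, resp. `s`, `F`)
`C(u-1,s-1) Var(F|i∈T) ≤ 𝓔(U.erase i, s-1, inn i F)/(2(u-1))`, etc. Summing over `i`, every
term `(T,z,z')` of `𝓔(U,s,F)` occurs for exactly the `u-2` elements `i ≠ z,z'`. Hence
`Var F (u-2)/(u-1) ≤ (1/u) (u-2) 𝓔 / (2 (u-1) C(u,s))`, which is the claim.
(Note `p C(u,s) = C(u-1,s-1)`, `(1-p) C(u,s) = C(u-1,s)`.)
-/

namespace H96.TN

open Finset

variable {X : Type*} [DecidableEq X]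

theorem gap_sum_in (U : Finset X) (s : ℕ) (hs : 1 ≤ s) (G : X → Finset X → ℝ) :
    ∑ T ∈ U.powersetCard s, ∑ i ∈ T, G i T =
      ∑ i ∈ U, ∑ T ∈ (U.erase i).powersetCard (s - 1), G i (insert i T) := by
  have h1 : ∑ T ∈ U.powersetCard s, ∑ i ∈ T, G i T =
      ∑ T ∈ U.powersetCard s, ∑ i ∈ U, if i ∈ T then G i T else 0 := by
    refine Finset.sum_congr rfl (fun T hT => ?_)
    rw [Finset.mem_powersetCard] at hT
    rw [Finset.sum_ite_mem, Finset.inter_eq_right.mpr hT.1]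
  rw [h1, Finset.sum_comm]
  refine Finset.sum_congr rfl (fun i hi => ?_)
  rw [← Finset.sum_filter]
  refine (Finset.sum_nbij' (fun T => insert i T) (fun T => T.erase i) ?_ ?_ ?_ ?_ ?_).symm
  · intro T hT
    rw [Finset.mem_powersetCard] at hT
    have hiT : i ∉ T := fun h => (Finset.mem_erase.mp (hT.1 h)).1 rfl
    rw [Finset.mem_filter, Finset.mem_powersetCard]
    refine ⟨⟨?_, ?_⟩, Finset.mem_insert_self _ _⟩
    · exact Finset.insert_subset hi (hT.1.trans (Finset.erase_subset _ _))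
    · rw [Finset.card_insert_of_notMem hiT, hT.2]; omega
  · intro T hT
    rw [Finset.mem_filter, Finset.mem_powersetCard] at hT
    rw [Finset.mem_powersetCard]
    refine ⟨Finset.erase_subset_erase _ hT.1.1, ?_⟩
    rw [Finset.card_erase_of_mem hT.2, hT.1.2]
  · intro T hT
    rw [Finset.mem_powersetCard] at hT
    have hiT : i ∉ T := fun h => (Finset.mem_erase.mp (hT.1 h)).1 rfl
    exact Finset.erase_insert hiT
  · intro T hT
    rw [Finset.mem_filter] at hT
    exact Finset.insert_erase hT.2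
  · intro T _
    rfl

theorem gap_sum_out (U : Finset X) (s : ℕ) (G : X → Finset X → ℝ) :
    ∑ T ∈ U.powersetCard s, ∑ i ∈ U \ T, G i T =
      ∑ i ∈ U, ∑ T ∈ (U.erase i).powersetCard s, G i T := by
  have h1 : ∑ T ∈ U.powersetCard s, ∑ i ∈ U \ T, G i T =
      ∑ T ∈ U.powersetCard s, ∑ i ∈ U, if i ∉ T then G i T else 0 := by
    refine Finset.sum_congr rfl (fun T hT => ?_)
    rw [← Finset.sum_filter]
    refine Finset.sum_congr ?_ (fun _ _ => rfl)
    ext x
    simp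
  rw [h1, Finset.sum_comm]
  refine Finset.sum_congr rfl (fun i hi => ?_)
  rw [← Finset.sum_filter]
  refine Finset.sum_congr ?_ (fun _ _ => rfl)
  ext T
  simp only [Finset.mem_filter, Finset.mem_powersetCard, Finset.subset_erase]
  tauto

theorem gap_sum_erase (A : Finset X) (q : X → ℝ) :
    ∑ i ∈ A, ∑ z ∈ A.erase i, q z = ((#A : ℝ) - 1) * ∑ z ∈ A, q z := by
  have h : ∀ i ∈ A, ∑ z ∈ A.erase i, q z = ∑ z ∈ A, q z - q i := by
    intro i hi
    rw [Finset.sum_erase_eq_sub hi]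
  rw [Finset.sum_congr rfl h, Finset.sum_sub_distrib, Finset.sum_const, nsmul_eq_mul]
  ring

/-- energy -/
noncomputable def gapE (U : Finset X) (s : ℕ) (F : Finset X → ℝ) : ℝ :=
  ∑ T ∈ U.powersetCard s, ∑ z ∈ T, ∑ z' ∈ U \ T, (F T - F (insert z' (T.erase z))) ^ 2

theorem gapE_nonneg (U : Finset X) (s : ℕ) (F : Finset X → ℝ) : 0 ≤ gapE U s F :=
  Finset.sum_nonneg fun _ _ => Finset.sum_nonneg fun _ _ => Finset.sum_nonneg fun _ _ =>
    sq_nonneg _

theorem gapE_in (U : Finset X) (s : ℕ) (hs : 1 ≤ s) (F : Finset X → ℝ) :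
    ∑ i ∈ U, gapE (U.erase i) (s - 1) (inn i F) = ((s : ℝ) - 1) * gapE U s F := by
  have h1 : ∀ i ∈ U, gapE (U.erase i) (s - 1) (inn i F) =
      ∑ T ∈ (U.erase i).powersetCard (s - 1), (fun (i : X) (T : Finset X) =>
        ∑ z ∈ T.erase i, ∑ z' ∈ U \ T, (F T - F (insert z' (T.erase z))) ^ 2) i (insert i T) := by
    intro i hi
    refine Finset.sum_congr rfl (fun T hT => ?_)
    rw [Finset.mem_powersetCard] at hT
    have hiT : i ∉ T := fun h => (Finset.mem_erase.mp (hT.1 h)).1 rfl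
    show _ = ∑ z ∈ (insert i T).erase i, ∑ z' ∈ U \ insert i T, _
    rw [Finset.erase_insert hiT]
    refine Finset.sum_congr rfl (fun z hz => ?_)
    have hzi : z ≠ i := fun h => hiT (h ▸ hz)
    have hset : U \ insert i T = U.erase i \ T := by
      ext x
      simp only [Finset.mem_sdiff, Finset.mem_insert, Finset.mem_erase, not_or]
      tauto
    rw [hset]
    refine Finset.sum_congr rfl (fun z' hz' => ?_)
    rw [Finset.erase_insert_of_ne hzi.symm, Finset.insert_comm]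
    rfl
  rw [Finset.sum_congr rfl h1, ← gap_sum_in U s hs (fun (i : X) (T : Finset X) =>
        ∑ z ∈ T.erase i, ∑ z' ∈ U \ T, (F T - F (insert z' (T.erase z))) ^ 2), gapE,
    Finset.mul_sum]
  refine Finset.sum_congr rfl (fun T hT => ?_)
  rw [Finset.mem_powersetCard] at hT
  rw [gap_sum_erase T, hT.2]

theorem gapE_out (U : Finset X) (s : ℕ) (hsU : s ≤ #U) (F : Finset X → ℝ) :
    ∑ i ∈ U, gapE (U.erase i) s F = ((#U : ℝ) - s - 1) * gapE U s F := by
  have h1 : ∀ i ∈ U, gapE (U.erase i) s F =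
      ∑ T ∈ (U.erase i).powersetCard s, (fun (i : X) (T : Finset X) =>
        ∑ z ∈ T, ∑ z' ∈ (U \ T).erase i, (F T - F (insert z' (T.erase z))) ^ 2) i T := by
    intro i hi
    refine Finset.sum_congr rfl (fun T hT => ?_)
    refine Finset.sum_congr rfl (fun z hz => ?_)
    refine Finset.sum_congr ?_ (fun _ _ => rfl)
    ext x
    simp only [Finset.mem_sdiff, Finset.mem_erase]
    tauto
  rw [Finset.sum_congr rfl h1, ← gap_sum_out U s, gapE, Finset.mul_sum]
  refine Finset.sum_congr rfl (fun T hT => ?_)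
  rw [Finset.mem_powersetCard] at hT
  rw [Finset.sum_comm, Finset.mul_sum]
  refine Finset.sum_congr rfl (fun z hz => ?_)
  rw [gap_sum_erase (U \ T), Finset.card_sdiff_of_subset hT.1, hT.2, Nat.cast_sub hsU]

theorem gap_choose_in (u s : ℕ) (hs : 1 ≤ s) (hsu : s ≤ u) :
    (u : ℝ) * ((u - 1).choose (s - 1) : ℝ) = s * (u.choose s : ℝ) := by
  obtain ⟨s', rfl⟩ : ∃ s', s = s' + 1 := ⟨s - 1, by omega⟩
  obtain ⟨u', rfl⟩ : ∃ u', u = u' + 1 := ⟨u - 1, by omega⟩
  have h := Nat.add_one_mul_choose_eq u' s'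
  simp only [Nat.add_sub_cancel]
  have h' : (((u' + 1) * u'.choose s' : ℕ) : ℝ) = (((u' + 1).choose (s' + 1) * (s' + 1) : ℕ) : ℝ) := by
    rw [h]
  push_cast at h' ⊢
  rw [h']
  ring

theorem gap_choose_out (u s : ℕ) (hsu : s + 1 ≤ u) :
    (u : ℝ) * ((u - 1).choose s : ℝ) = (u - s) * (u.choose s : ℝ) := by
  obtain ⟨u', rfl⟩ : ∃ u', u = u' + 1 := ⟨u - 1, by omega⟩
  simp only [Nat.add_sub_cancel]
  have h := Nat.choose_mul_succ_eq u' s
  have h' : ((u'.choose s * (u' + 1) : ℕ) : ℝ) = (((u' + 1).choose s * (u' + 1 - s) : ℕ) : ℝ) := by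
    rw [h]
  rw [Nat.cast_mul, Nat.cast_mul, Nat.cast_sub (by omega)] at h'
  push_cast at h' ⊢
  linarith

/-- `E ∑_{i ∈ T} h i T` -/
theorem gap_dn_mem (U : Finset X) (s : ℕ) (hs : 1 ≤ s) (hsU : s ≤ #U) (h : X → Finset X → ℝ) :
    dn U s (fun T => ∑ i ∈ T, h i T) =
      ((s : ℝ) / #U) * ∑ i ∈ U, dn (U.erase i) (s - 1) (inn i (h i)) := by
  have hu : (0 : ℝ) < #U := by exact_mod_cast (by omega : 0 < #U)
  have hc : (0 : ℝ) < (#U).choose s := by exact_mod_cast Nat.choose_pos hsU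
  have hc' : (0 : ℝ) < ((#U - 1).choose (s - 1) : ℝ) := by
    exact_mod_cast Nat.choose_pos (by omega)
  have h1 := gap_choose_in (#U) s hs hsU
  unfold dn
  rw [gap_sum_in U s hs, Finset.mul_sum, Finset.sum_div]
  refine Finset.sum_congr rfl (fun i hi => ?_)
  rw [Finset.card_erase_of_mem hi]
  have h2 : ((s : ℝ) / #U) = ((#U - 1).choose (s - 1) : ℝ) / ((#U).choose s : ℝ) := by
    rw [div_eq_div_iff hu.ne' hc.ne']
    linarith
  rw [h2]
  unfold inn
  field_simp

theorem gap_dn_lin (U : Finset X) (s : ℕ) (hsU : s ≤ #U) (hU : 0 < #U) (a : X → ℝ) :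
    dn U s (fun T => ∑ i ∈ T, a i) = ((s : ℝ) / #U) * ∑ i ∈ U, a i := by
  rcases Nat.eq_zero_or_pos s with rfl | hs
  · simp [dn]
  · rw [gap_dn_mem U s hs hsU (fun i _ => a i)]
    congr 1
    refine Finset.sum_congr rfl (fun i hi => ?_)
    refine dn_const _ _ ?_ _
    rw [Finset.card_erase_of_mem hi]
    omega

/-- second moment of a linear form with mean zero -/
theorem gap_dn_sq (U : Finset X) (s : ℕ) (hs : 1 ≤ s) (hsU : s ≤ #U) (hU : 2 ≤ #U) (a : X → ℝ)
    (ha : ∑ i ∈ U, a i = 0) :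
    dn U s (fun T => (∑ i ∈ T, a i) ^ 2) =
      ((s : ℝ) * (#U - s) / (#U * (#U - 1))) * ∑ i ∈ U, a i ^ 2 := by
  have hu : (0 : ℝ) < #U := by exact_mod_cast (by omega : 0 < #U)
  have hu1 : (0 : ℝ) < (#U : ℝ) - 1 := by
    have : (2 : ℝ) ≤ #U := by exact_mod_cast hU
    linarith
  have h1 : dn U s (fun T => (∑ i ∈ T, a i) ^ 2) =
      dn U s (fun T => ∑ i ∈ T, a i * ∑ j ∈ T, a j) := by
    refine dn_congr U s _ _ (fun T _ _ => ?_)
    rw [← Finset.sum_mul, sq]
  rw [h1, gap_dn_mem U s hs hsU (fun i T => a i * ∑ j ∈ T, a j)]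
  have h2 : ∀ i ∈ U, dn (U.erase i) (s - 1) (inn i (fun T => a i * ∑ j ∈ T, a j)) =
      (((#U : ℝ) - s) / (#U - 1)) * a i ^ 2 := by
    intro i hi
    have h3 : dn (U.erase i) (s - 1) (inn i (fun T => a i * ∑ j ∈ T, a j)) =
        dn (U.erase i) (s - 1) (fun T => a i * (a i + ∑ j ∈ T, a j)) := by
      refine dn_congr _ _ _ _ (fun T hT _ => ?_)
      have hiT : i ∉ T := fun h => (Finset.mem_erase.mp (hT h)).1 rfl
      show a i * ∑ j ∈ insert i T, a j = _
      rw [Finset.sum_insert hiT]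
    have hcard : #(U.erase i) = #U - 1 := Finset.card_erase_of_mem hi
    rw [h3, dn_mul, dn_add, dn_const _ _ (by omega), gap_dn_lin _ _ (by omega) (by omega),
      Finset.sum_erase_eq_sub hi, ha, hcard, Nat.cast_sub (by omega), Nat.cast_sub (by omega)]
    push_cast
    field_simp
    ring
  rw [Finset.sum_congr rfl h2, ← Finset.mul_sum]
  field_simp

/-- level one inequality -/
theorem gap_level (U : Finset X) (s : ℕ) (hs : 1 ≤ s) (hsU : s + 1 ≤ #U) (hU : 2 ≤ #U)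
    (F : Finset X → ℝ) :
    (((#U : ℝ) - 1) * s * (#U - s)) * ∑ i ∈ U, (dn (U.erase i) (s - 1) (inn i F) -
      dn (U.erase i) s F) ^ 2 ≤
      (#U : ℝ) ^ 3 * (dn U s (fun S => F S ^ 2) - dn U s F ^ 2) := by
  have hu : (0 : ℝ) < #U := by exact_mod_cast (by omega : 0 < #U)
  have hu1 : (0 : ℝ) < (#U : ℝ) - 1 := by
    have : (2 : ℝ) ≤ #U := by exact_mod_cast hU
    linarith
  set a : X → ℝ := fun i => dn (U.erase i) (s - 1) (inn i F) - dn (U.erase i) s F with ha
  set m := dn U s F with hm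
  have ha0 : ∑ i ∈ U, a i = 0 := by
    rw [ha, Finset.sum_sub_distrib, dn_in_sum U s hs (by omega), dn_out_sum U s hsU, sub_self]
  -- the correlation of `F` with the linear form
  have hFW : dn U s (fun T => ∑ i ∈ T, a i * F T) = ((s : ℝ) * (#U - s) / (#U) ^ 2) *
      ∑ i ∈ U, a i ^ 2 := by
    rw [gap_dn_mem U s hs (by omega) (fun i T => a i * F T)]
    have h1 : ∀ i ∈ U, dn (U.erase i) (s - 1) (inn i (fun T => a i * F T)) =
        a i * m + ((#U - s : ℝ) / #U) * a i ^ 2 := by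
      intro i hi
      have h2 : dn (U.erase i) (s - 1) (inn i (fun T => a i * F T)) =
          a i * dn (U.erase i) (s - 1) (inn i F) := by
        rw [← dn_mul]
        rfl
      have h3 := dn_split U s hs hsU F i hi
      rw [h2]
      rw [← hm] at h3
      have h4 : dn (U.erase i) (s - 1) (inn i F) = m + ((#U - s : ℝ) / #U) * a i := by
        rw [ha]
        field_simp
        linarith
      rw [h4]
      ring
    rw [Finset.sum_congr rfl h1, Finset.sum_add_distrib, ← Finset.sum_mul, ha0, ← Finset.mul_sum]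
    field_simp
    ring
  have hW2 := gap_dn_sq U s hs (by omega) hU a ha0
  have hW1 := gap_dn_lin U s (by omega) (by omega) a
  rw [ha0, mul_zero] at hW1
  -- positivity of the square
  set t : ℝ := ((#U : ℝ) - 1) / #U with ht
  have hpos : 0 ≤ dn U s (fun T => (F T - m - t * ∑ i ∈ T, a i) ^ 2) :=
    dn_nonneg U s _ (fun T => sq_nonneg _)
  have hexp : dn U s (fun T => (F T - m - t * ∑ i ∈ T, a i) ^ 2) =
      dn U s (fun S => F S ^ 2) - m ^ 2 - 2 * t * (((s : ℝ) * (#U - s) / (#U) ^ 2) *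
      ∑ i ∈ U, a i ^ 2) + t ^ 2 * (((s : ℝ) * (#U - s) / (#U * (#U - 1))) * ∑ i ∈ U, a i ^ 2) := by
    have h1 : dn U s (fun T => (F T - m - t * ∑ i ∈ T, a i) ^ 2) =
        dn U s (fun T => (F T ^ 2 + (-2 * m) * F T) + (m ^ 2 + ((-2 * t) * (∑ i ∈ T, a i * F T) +
          ((2 * m * t) * (∑ i ∈ T, a i) + t ^ 2 * (∑ i ∈ T, a i) ^ 2)))) := by
      refine dn_congr _ _ _ _ (fun T _ _ => ?_)
      rw [← Finset.sum_mul]
      ring
    rw [h1, dn_add, dn_add, dn_mul, dn_add, dn_const U s (by omega), dn_add, dn_mul, dn_add,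
      dn_mul, dn_mul, hFW, hW1, hW2, ← hm]
    ring
  rw [hexp] at hpos
  have hfin : dn U s (fun S => F S ^ 2) - m ^ 2 - 2 * t * (((s : ℝ) * (#U - s) / (#U) ^ 2) *
      ∑ i ∈ U, a i ^ 2) + t ^ 2 * (((s : ℝ) * (#U - s) / (#U * (#U - 1))) * ∑ i ∈ U, a i ^ 2) =
      ((#U : ℝ) ^ 3 * (dn U s (fun S => F S ^ 2) - m ^ 2) -
        (((#U : ℝ) - 1) * s * (#U - s)) * ∑ i ∈ U, a i ^ 2) / (#U : ℝ) ^ 3 := by
    rw [ht]
    field_simp
    ring
  rw [hfin] at hpos
  have hu3 : (0 : ℝ) < (#U : ℝ) ^ 3 := by positivity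
  have h9 := mul_nonneg hpos hu3.le
  rw [div_mul_cancel₀ _ hu3.ne'] at h9
  linarith

theorem gap_two (U : Finset X) (hU : #U = 2) (F : Finset X → ℝ) :
    2 * (#U : ℝ) * (#U).choose 1 * (dn U 1 (fun S => F S ^ 2) - dn U 1 F ^ 2) ≤
      gapE U 1 F := by
  obtain ⟨a, b, hab, rfl⟩ := Finset.card_eq_two.mp hU
  have h1 : ({a, b} : Finset X) \ {a} = {b} := by
    ext x
    simp only [Finset.mem_sdiff, Finset.mem_insert, Finset.mem_singleton]
    constructor
    · rintro ⟨h | h, h'⟩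
      · exact absurd h h'
      · exact h
    · rintro rfl
      exact ⟨Or.inr rfl, hab.symm⟩
  have h2 : ({a, b} : Finset X) \ {b} = {a} := by
    ext x
    simp only [Finset.mem_sdiff, Finset.mem_insert, Finset.mem_singleton]
    constructor
    · rintro ⟨h | h, h'⟩
      · exact h
      · exact absurd h h'
    · rintro rfl
      exact ⟨Or.inl rfl, hab⟩
  have hE : gapE {a, b} 1 F = (F {a} - F {b}) ^ 2 + (F {b} - F {a}) ^ 2 := by
    unfold gapE
    rw [Finset.powersetCard_one, Finset.sum_map, Finset.sum_pair hab]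
    simp only [Function.Embedding.coeFn_mk, Finset.sum_singleton, h1, h2, Finset.erase_singleton,
      insert_empty_eq]
  have hd : ∀ f : Finset X → ℝ, dn {a, b} 1 f = (f {a} + f {b}) / 2 := by
    intro f
    unfold dn
    rw [hU, Finset.powersetCard_one, Finset.sum_map, Finset.sum_pair hab]
    simp
  rw [hE, hd, hd, hU]
  norm_num
  nlinarith [sq_nonneg (F {a} - F {b})]

theorem gap_aux (n : ℕ) : ∀ (U : Finset X) (s : ℕ) (F : Finset X → ℝ), #U = n → s ≤ #U →
    2 * (#U : ℝ) * (#U).choose s * (dn U s (fun S => F S ^ 2) - dn U s F ^ 2) ≤ gapE U s F := by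
  induction n with
  | zero =>
    intro U s F hU hs
    rw [hU]
    simpa using gapE_nonneg U s F
  | succ n ih =>
    intro U s F hU hs
    rcases Nat.eq_zero_or_pos s with rfl | hs1
    · have h : dn U 0 (fun S => F S ^ 2) - dn U 0 F ^ 2 = 0 := by simp [dn]
      rw [h, mul_zero]
      exact gapE_nonneg _ _ _
    rcases Nat.eq_or_lt_of_le hs with hsU | hsU
    · have h : dn U s (fun S => F S ^ 2) - dn U s F ^ 2 = 0 := by
        rw [hsU]
        simp [dn, Finset.powersetCard_self]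
      rw [h, mul_zero]
      exact gapE_nonneg _ _ _
    have hsU' : s + 1 ≤ #U := hsU
    rcases Nat.lt_or_ge (#U) 3 with h3 | h3
    · have hs' : s = 1 := by omega
      subst hs'
      exact gap_two U (by omega) F
    -- the induction step
    have hu : (0 : ℝ) < #U := by exact_mod_cast (by omega : 0 < #U)
    have hu3 : (3 : ℝ) ≤ #U := by exact_mod_cast h3
    have hu1 : (0 : ℝ) < (#U : ℝ) - 1 := by linarith
    have hu2 : (0 : ℝ) < (#U : ℝ) - 2 := by linarith
    have hC : (0 : ℝ) < (#U).choose s := by exact_mod_cast Nat.choose_pos hs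
    set m := dn U s F with hm
    set V : ℝ := dn U s (fun S => F S ^ 2) - m ^ 2 with hV
    let A : X → ℝ := fun i => dn (U.erase i) (s - 1) (inn i F)
    let Bf : X → ℝ := fun i => dn (U.erase i) s F
    let VA : X → ℝ := fun i => dn (U.erase i) (s - 1) (fun S => (inn i F) S ^ 2) - A i ^ 2
    let VB : X → ℝ := fun i => dn (U.erase i) s (fun S => F S ^ 2) - Bf i ^ 2
    have hdec : ∀ i ∈ U, (#U : ℝ) * V = s * VA i + (#U - s) * VB i +
        ((s : ℝ) * (#U - s) / #U) * (A i - Bf i) ^ 2 := by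
      intro i hi
      have e1 := dn_split U s hs1 hsU' F i hi
      have e2 := dn_split U s hs1 hsU' (fun S => F S ^ 2) i hi
      have e3 : m = ((s : ℝ) * A i + (#U - s) * Bf i) / #U := by
        rw [eq_div_iff hu.ne']
        show _ = (s : ℝ) * dn (U.erase i) (s - 1) (inn i F) + (#U - s) * dn (U.erase i) s F
        rw [e1]
        ring
      have e4 : (s : ℝ) * (VA i + A i ^ 2) + (#U - s) * (VB i + Bf i ^ 2) =
          #U * dn U s (fun S => F S ^ 2) := by
        rw [← e2]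
        have q1 : VA i + A i ^ 2 = dn (U.erase i) (s - 1) (fun S => (inn i F) S ^ 2) :=
          sub_add_cancel _ _
        have q2 : VB i + Bf i ^ 2 = dn (U.erase i) s (fun S => F S ^ 2) := sub_add_cancel _ _
        rw [q1, q2]
        rfl
      have key : ∀ u' s' a b va vb : ℝ, 0 < u' →
          s' * (va + a ^ 2) + (u' - s') * (vb + b ^ 2) - u' * ((s' * a + (u' - s') * b) / u') ^ 2 =
          s' * va + (u' - s') * vb + (s' * (u' - s') / u') * (a - b) ^ 2 := by
        intro u' s' a b va vb hu'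
        field_simp
        ring
      rw [hV, mul_sub, ← e4, e3]
      exact key _ _ _ _ _ _ hu
    have hsum : (#U : ℝ) ^ 2 * V = ∑ i ∈ U, (s * VA i + (#U - s) * VB i) +
        ((s : ℝ) * (#U - s) / #U) * ∑ i ∈ U, (A i - Bf i) ^ 2 := by
      rw [Finset.mul_sum, ← Finset.sum_add_distrib, ← Finset.sum_congr rfl hdec, Finset.sum_const,
        nsmul_eq_mul]
      ring
    have hlev := gap_level U s hs1 hsU' (by omega) F
    have hlev' : (((#U : ℝ) - 1) * s * (#U - s)) * ∑ i ∈ U, (A i - Bf i) ^ 2 ≤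
      (#U : ℝ) ^ 3 * V := hlev
    have hA : ∀ i ∈ U, 2 * ((#U : ℝ) - 1) * ((#U).choose s * (s * VA i)) ≤
        #U * gapE (U.erase i) (s - 1) (inn i F) := by
      intro i hi
      have hcard : #(U.erase i) = #U - 1 := Finset.card_erase_of_mem hi
      have h := ih (U.erase i) (s - 1) (inn i F) (by omega) (by omega)
      rw [hcard, Nat.cast_sub (by omega), Nat.cast_one] at h
      have h' := mul_le_mul_of_nonneg_left h hu.le
      refine le_trans (le_of_eq ?_) h'
      have h1 := gap_choose_in (#U) s hs1 hs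
      show _ = (#U : ℝ) * (2 * ((#U : ℝ) - 1) * ((#U - 1).choose (s - 1)) * VA i)
      linear_combination (-2 * ((#U : ℝ) - 1) * VA i) * h1
    have hB : ∀ i ∈ U, 2 * ((#U : ℝ) - 1) * ((#U).choose s * ((#U - s) * VB i)) ≤
        #U * gapE (U.erase i) s F := by
      intro i hi
      have hcard : #(U.erase i) = #U - 1 := Finset.card_erase_of_mem hi
      have h := ih (U.erase i) s F (by omega) (by omega)
      rw [hcard, Nat.cast_sub (by omega), Nat.cast_one] at h
      have h' := mul_le_mul_of_nonneg_left h hu.le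
      refine le_trans (le_of_eq ?_) h'
      have h1 := gap_choose_out (#U) s hsU'
      show _ = (#U : ℝ) * (2 * ((#U : ℝ) - 1) * ((#U - 1).choose s) * VB i)
      linear_combination (-2 * ((#U : ℝ) - 1) * VB i) * h1
    have hAB : 2 * ((#U : ℝ) - 1) * ((#U).choose s * ∑ i ∈ U, (s * VA i + (#U - s) * VB i)) ≤
        #U * (((#U : ℝ) - 2) * gapE U s F) := by
      have e1 : (#U : ℝ) * (((#U : ℝ) - 2) * gapE U s F) =
          ∑ i ∈ U, (#U * gapE (U.erase i) (s - 1) (inn i F) + #U * gapE (U.erase i) s F) := by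
        rw [Finset.sum_add_distrib, ← Finset.mul_sum, ← Finset.mul_sum, gapE_in U s hs1,
          gapE_out U s hs]
        ring
      rw [e1, Finset.mul_sum, Finset.mul_sum]
      refine Finset.sum_le_sum (fun i hi => ?_)
      have := add_le_add (hA i hi) (hB i hi)
      refine le_trans (le_of_eq ?_) this
      ring
    -- conclusion
    have hD : ((s : ℝ) * (#U - s) / #U) * ∑ i ∈ U, (A i - Bf i) ^ 2 ≤
        (#U : ℝ) ^ 2 * V / ((#U : ℝ) - 1) := by
      rw [le_div_iff₀ hu1]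
      have h5 : (#U : ℝ) * ((((s : ℝ) * (#U - s) / #U) * ∑ i ∈ U, (A i - Bf i) ^ 2) *
          ((#U : ℝ) - 1)) ≤ (#U : ℝ) * ((#U : ℝ) ^ 2 * V) := by
        refine le_trans (le_of_eq ?_) (hlev'.trans (le_of_eq ?_))
        · generalize ∑ i ∈ U, (A i - Bf i) ^ 2 = D
          field_simp
        · ring
      exact le_of_mul_le_mul_left h5 hu
    have h6 : (#U : ℝ) ^ 2 * V * ((#U : ℝ) - 2) / ((#U : ℝ) - 1) ≤
        ∑ i ∈ U, (s * VA i + (#U - s) * VB i) := by
      have h7 : (#U : ℝ) ^ 2 * V * ((#U : ℝ) - 2) / ((#U : ℝ) - 1) =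
          (#U : ℝ) ^ 2 * V - (#U : ℝ) ^ 2 * V / ((#U : ℝ) - 1) := by
        field_simp
        ring
      rw [h7]
      linarith
    have h8 : 2 * ((#U : ℝ) - 1) * ((#U).choose s *
        ((#U : ℝ) ^ 2 * V * ((#U : ℝ) - 2) / ((#U : ℝ) - 1))) ≤
        #U * (((#U : ℝ) - 2) * gapE U s F) := by
      refine le_trans ?_ hAB
      refine mul_le_mul_of_nonneg_left ?_ (by positivity)
      exact mul_le_mul_of_nonneg_left h6 hC.le
    have h9 : 2 * ((#U : ℝ) - 1) * ((#U).choose s *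
        ((#U : ℝ) ^ 2 * V * ((#U : ℝ) - 2) / ((#U : ℝ) - 1))) =
        (#U * ((#U : ℝ) - 2)) * (2 * (#U : ℝ) * (#U).choose s * V) := by
      field_simp
    rw [h9, ← mul_assoc (#U : ℝ) ((#U : ℝ) - 2) (gapE U s F)] at h8
    exact le_of_mul_le_mul_left h8 (by positivity)

theorem gap (U : Finset X) (s : ℕ) (hs : s ≤ #U) (F : Finset X → ℝ) :
    2 * (#U : ℝ) * (#U).choose s * (dn U s (fun S => F S ^ 2) - dn U s F ^ 2) ≤
      ∑ T ∈ U.powersetCard s, ∑ z ∈ T, ∑ z' ∈ U \ T, (F T - F (insert z' (T.erase z))) ^ 2 :=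
  gap_aux (#U) U s F rfl hs

end H96.TN
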