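import Pool.Agent.H96.TN.DnB

/-!
Module GRAM (~250 lines): the pair-Gram bound.

`#U = 2m`, `m ≥ 1`, `E` = average over the `m`-subsets `T` of `U`, `E F = 0`.  For an ordered pair
`z ≠ z'` of points of `U` let `c(z,z') = dn (U∖z∖z') (m-1) (fun S => (F(S∪z)+F(S∪z'))/2)`.
With `x_T(z) = 1` for `z ∈ T` and `-1` otherwise, `c(z,z') = - y(z,z') / (4 C(2m-2,m-1))` with
`y(z,z') = ∑_T F(T) x_T(z) x_T(z')`; `y` is symmetric with zero diagonal and zero row sums, so
`∑_T (∑ y(z,z') x_T(z) x_T(z'))^2 = α ∑ y^2` with `α = 2 (N - 2 e2 + e4)`, where `e2`, `e4` are the sums over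
`T` of products of two and four distinct signs; Cauchy-Schwarz gives `∑ y^2 ≤ α ∑ F^2`.
-/

namespace H96.TN

open Finset

variable {X : Type*} [DecidableEq X]

/-- the sign of `z` with respect to `T` -/
def gramX (T : Finset X) (z : X) : ℝ := if z ∈ T then 1 else -1

lemma gramX_sq (T : Finset X) (z : X) : gramX T z * gramX T z = 1 := by
  unfold gramX; split_ifs <;> norm_num

lemma gramX_sum (U : Finset X) (m : ℕ) (hU : #U = 2 * m) (T : Finset X)
    (hT : T ∈ U.powersetCard m) : ∑ z ∈ U, gramX T z = 0 := by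
  rw [mem_powersetCard] at hT
  unfold gramX
  rw [sum_ite, sum_const, sum_const, filter_mem_eq_inter, inter_eq_right.mpr hT.1, hT.2]
  have h1 : U.filter (fun z => z ∉ T) = U \ T := by
    ext z; simp
  rw [h1, card_sdiff_of_subset hT.1, hT.2, hU]
  have h2 : 2 * m - m = m := by omega
  rw [h2]
  simp

/-- sum over `T` of the product of the signs of the points of `Z` -/
noncomputable def gramE (U : Finset X) (m : ℕ) (Z : Finset X) : ℝ :=
  ∑ T ∈ U.powersetCard m, ∏ v ∈ Z, gramX T v

lemma gramX_map (z w : X) (T : Finset X) (v : X) :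
    gramX (T.map (Equiv.swap z w).toEmbedding) v = gramX T (Equiv.swap z w v) := by
  unfold gramX
  have h : v ∈ T.map (Equiv.swap z w).toEmbedding ↔ Equiv.swap z w v ∈ T := by
    rw [mem_map_equiv]
    simp
  simp only [h]

lemma gramE_swap (U : Finset X) (m : ℕ) (Z : Finset X) (z w : X) (hz : z ∈ U) (hw : w ∈ U)
    (hzZ : z ∉ Z) (hwZ : w ∉ Z) : gramE U m (insert z Z) = gramE U m (insert w Z) := by
  unfold gramE
  set e := (Equiv.swap z w).toEmbedding with he
  have hmem : ∀ T ∈ U.powersetCard m, T.map e ∈ U.powersetCard m := by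
    intro T hT
    rw [mem_powersetCard] at hT ⊢
    refine ⟨fun v hv => ?_, by rw [card_map]; exact hT.2⟩
    rw [mem_map] at hv
    obtain ⟨u, hu, rfl⟩ := hv
    have hu' := hT.1 hu
    rw [he]
    simp only [Equiv.coe_toEmbedding]
    by_cases h1 : u = z
    · subst h1; rw [Equiv.swap_apply_left]; exact hw
    · by_cases h2 : u = w
      · subst h2; rw [Equiv.swap_apply_right]; exact hz
      · rw [Equiv.swap_apply_of_ne_of_ne h1 h2]; exact hu'
  have hinv : ∀ T : Finset X, (T.map e).map e = T := by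
    intro T
    ext v
    rw [he, mem_map_equiv, mem_map_equiv]
    simp
  refine sum_nbij' (fun T => T.map e) (fun T => T.map e) hmem hmem (fun T _ => hinv T)
    (fun T _ => hinv T) ?_
  intro T _
  rw [prod_insert hzZ, prod_insert hwZ]
  have h1 : gramX (T.map e) w = gramX T z := by
    rw [he, gramX_map, Equiv.swap_apply_right]
  have h2 : ∀ v ∈ Z, gramX (T.map e) v = gramX T v := by
    intro v hv
    rw [he, gramX_map, Equiv.swap_apply_of_ne_of_ne]
    · rintro rfl; exact hzZ hv
    · rintro rfl; exact hwZ hv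
  rw [h1, prod_congr rfl h2]

lemma gramE_rec (U : Finset X) (m : ℕ) (hU : #U = 2 * m) (Z : Finset X) (hZ : Z ⊆ U) (z : X)
    (hz : z ∈ U) (hzZ : z ∉ Z) :
    ((2 * m : ℕ) - (#Z : ℝ)) * gramE U m (insert z Z) = -∑ v ∈ Z, gramE U m (Z.erase v) := by
  have h1 : ∑ w ∈ U \ Z, gramE U m (insert w Z) =
      ((2 * m : ℕ) - (#Z : ℝ)) * gramE U m (insert z Z) := by
    rw [sum_congr rfl (fun w hw => gramE_swap U m Z w z (mem_sdiff.mp hw).1 hz (mem_sdiff.mp hw).2 hzZ),
      sum_const, nsmul_eq_mul, card_sdiff_of_subset hZ, hU, Nat.cast_sub (by rw [← hU]; exact card_le_card hZ)]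
  rw [← h1]
  have h2 : ∑ w ∈ U \ Z, gramE U m (insert w Z) =
      ∑ T ∈ U.powersetCard m, (∏ v ∈ Z, gramX T v) * ∑ w ∈ U \ Z, gramX T w := by
    unfold gramE
    rw [sum_comm]
    refine sum_congr rfl (fun T _ => ?_)
    rw [mul_sum]
    refine sum_congr rfl (fun w hw => ?_)
    rw [prod_insert (mem_sdiff.mp hw).2, mul_comm]
  rw [h2]
  have h3 : ∀ T ∈ U.powersetCard m, (∏ v ∈ Z, gramX T v) * ∑ w ∈ U \ Z, gramX T w =
      -∑ v ∈ Z, ∏ u ∈ Z.erase v, gramX T u := by
    intro T hT
    have h4 : ∑ w ∈ U \ Z, gramX T w = -∑ w ∈ Z, gramX T w := by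
      have := gramX_sum U m hU T hT
      rw [← sum_sdiff hZ] at this
      linarith
    rw [h4, mul_neg, mul_sum]
    congr 1
    refine sum_congr rfl (fun v hv => ?_)
    rw [← mul_prod_erase Z (fun u => gramX T u) hv]
    rw [mul_comm, ← mul_assoc, gramX_sq, one_mul]
  rw [sum_congr rfl h3, sum_neg_distrib, sum_comm]
  rfl

lemma gramE_empty (U : Finset X) (m : ℕ) (hU : #U = 2 * m) :
    gramE U m ∅ = ((2 * m).choose m : ℝ) := by
  unfold gramE
  simp [hU]

lemma gramE_two (U : Finset X) (m : ℕ) (hm : 1 ≤ m) (hU : #U = 2 * m) (z w : X) (hz : z ∈ U)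
    (hw : w ∈ U) (hzw : z ≠ w) :
    gramE U m {z, w} = -((2 * m).choose m : ℝ) / (2 * m - 1) := by
  have h := gramE_rec U m hU {w} (singleton_subset_iff.mpr hw) z hz (by simpa using hzw)
  rw [sum_singleton, card_singleton, erase_singleton, gramE_empty U m hU] at h
  have hm' : (1 : ℝ) ≤ m := by exact_mod_cast hm
  have h2 : (2 * (m : ℝ) - 1) ≠ 0 := by linarith
  push_cast at h
  rw [eq_div_iff h2]
  linarith

lemma gramE_four (U : Finset X) (m : ℕ) (hm : 2 ≤ m) (hU : #U = 2 * m) (a b c d : X) (ha : a ∈ U)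
    (hb : b ∈ U) (hc : c ∈ U) (hd : d ∈ U) (hab : a ≠ b) (hac : a ≠ c) (had : a ≠ d) (hbc : b ≠ c)
    (hbd : b ≠ d) (hcd : c ≠ d) :
    gramE U m {a, b, c, d} = 3 * ((2 * m).choose m : ℝ) / ((2 * m - 1) * (2 * m - 3)) := by
  have h := gramE_rec U m hU {b, c, d} (by
    intro v hv
    simp only [mem_insert, mem_singleton] at hv
    rcases hv with rfl | rfl | rfl <;> assumption) a ha (by simp [hab, hac, had])
  have hcard : #({b, c, d} : Finset X) = 3 := by
    rw [card_insert_of_notMem (by simp [hbc, hbd]), card_insert_of_notMem (by simp [hcd]),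
      card_singleton]
  have e1 : ({b, c, d} : Finset X).erase b = {c, d} := erase_insert (by simp [hbc, hbd])
  have e2 : ({b, c, d} : Finset X).erase c = {b, d} := by
    ext v; simp only [mem_erase, mem_insert, mem_singleton]
    constructor
    · rintro ⟨h1, h2 | h2 | h2⟩
      · exact Or.inl h2
      · exact absurd h2 h1
      · exact Or.inr h2
    · rintro (rfl | rfl)
      · exact ⟨hbc, Or.inl rfl⟩
      · exact ⟨hcd.symm, Or.inr (Or.inr rfl)⟩
  have e3 : ({b, c, d} : Finset X).erase d = {b, c} := by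
    ext v; simp only [mem_erase, mem_insert, mem_singleton]
    constructor
    · rintro ⟨h1, h2 | h2 | h2⟩
      · exact Or.inl h2
      · exact Or.inr h2
      · exact absurd h2 h1
    · rintro (rfl | rfl)
      · exact ⟨hbd, Or.inl rfl⟩
      · exact ⟨hcd, Or.inr (Or.inl rfl)⟩
  rw [hcard, sum_insert (by simp [hbc, hbd]), sum_insert (by simp [hcd]), sum_singleton, e1, e2, e3,
    gramE_two U m (by omega) hU c d hc hd hcd, gramE_two U m (by omega) hU b d hb hd hbd,
    gramE_two U m (by omega) hU b c hb hc hbc] at h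
  have hm' : (2 : ℝ) ≤ m := by exact_mod_cast hm
  have h2 : (2 * (m : ℝ) - 1) ≠ 0 := by linarith
  have h3 : (2 * (m : ℝ) - 3) ≠ 0 := by linarith
  push_cast at h
  rw [eq_div_iff (mul_ne_zero h2 h3)]
  have h4 : gramE U m {a, b, c, d} * (2 * (m : ℝ) - 3) = 3 * ((2 * m).choose m : ℝ) / (2 * m - 1) := by
    have : (2 * (m : ℝ) - 3) * gramE U m {a, b, c, d} =
      -(-((2 * m).choose m : ℝ) / (2 * m - 1) + (-((2 * m).choose m : ℝ) / (2 * m - 1) +
        -((2 * m).choose m : ℝ) / (2 * m - 1))) := h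
    rw [mul_comm, this]
    ring
  calc gramE U m {a, b, c, d} * ((2 * (m : ℝ) - 1) * (2 * m - 3))
      = (gramE U m {a, b, c, d} * (2 * (m : ℝ) - 3)) * (2 * m - 1) := by ring
    _ = 3 * ((2 * m).choose m : ℝ) := by rw [h4]; field_simp

/-- the pair correlations -/
noncomputable def gramY (U : Finset X) (m : ℕ) (F : Finset X → ℝ) (z z' : X) : ℝ :=
  ∑ T ∈ U.powersetCard m, F T * (gramX T z * gramX T z')

lemma gramY_symm (U : Finset X) (m : ℕ) (F : Finset X → ℝ) (z z' : X) :
    gramY U m F z z' = gramY U m F z' z := by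
  unfold gramY
  exact sum_congr rfl (fun T _ => by ring)

lemma gramY_diag (U : Finset X) (m : ℕ) (F : Finset X → ℝ) (hF : ∑ T ∈ U.powersetCard m, F T = 0)
    (z : X) : gramY U m F z z = 0 := by
  unfold gramY
  simp_rw [gramX_sq, mul_one]
  exact hF

lemma gramY_row (U : Finset X) (m : ℕ) (hU : #U = 2 * m) (F : Finset X → ℝ) (z : X) :
    ∑ z' ∈ U, gramY U m F z z' = 0 := by
  unfold gramY
  rw [sum_comm]
  refine sum_eq_zero (fun T hT => ?_)
  rw [← mul_sum, ← mul_sum, gramX_sum U m hU T hT]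
  simp

/-- four point function -/
lemma gram_G (U : Finset X) (m : ℕ) (hm : 2 ≤ m) (hU : #U = 2 * m) (z z' w w' : X) (hz : z ∈ U)
    (hz' : z' ∈ U) (hw : w ∈ U) (hw' : w' ∈ U) (hzz : z ≠ z') (hww : w ≠ w') (N e2 e4 : ℝ)
    (hN : N = ((2 * m).choose m : ℝ)) (he2 : e2 = -N / (2 * m - 1))
    (he4 : e4 = 3 * N / ((2 * m - 1) * (2 * m - 3))) :
    ∑ T ∈ U.powersetCard m, gramX T z * gramX T z' * (gramX T w * gramX T w') =
      e4 + (e2 - e4) * ((if w ∈ ({z, z'} : Finset X) then 1 else 0) +
        (if w' ∈ ({z, z'} : Finset X) then 1 else 0)) +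
      (N - 2 * e2 + e4) * ((if w ∈ ({z, z'} : Finset X) then 1 else 0) *
        (if w' ∈ ({z, z'} : Finset X) then 1 else 0)) := by
  have hcardN : ∑ T ∈ U.powersetCard m, (1 : ℝ) = N := by
    rw [sum_const, card_powersetCard, hU, nsmul_eq_mul, mul_one, hN]
  have htwo : ∀ a b : X, a ∈ U → b ∈ U → a ≠ b →
      ∑ T ∈ U.powersetCard m, gramX T a * gramX T b = e2 := by
    intro a b ha hb hab
    have h := gramE_two U m (by omega) hU a b ha hb hab
    rw [he2, hN, ← h]
    unfold gramE
    refine sum_congr rfl (fun T _ => ?_)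
    rw [prod_pair hab]
  have hfour : ∀ a b c d : X, a ∈ U → b ∈ U → c ∈ U → d ∈ U → a ≠ b → a ≠ c → a ≠ d → b ≠ c →
      b ≠ d → c ≠ d → ∑ T ∈ U.powersetCard m, gramX T a * gramX T b * (gramX T c * gramX T d) = e4 := by
    intro a b c d ha hb hc hd hab hac had hbc hbd hcd
    have h := gramE_four U m hm hU a b c d ha hb hc hd hab hac had hbc hbd hcd
    rw [he4, hN, ← h]
    unfold gramE
    refine sum_congr rfl (fun T _ => ?_)
    rw [prod_insert (by simp [hab, hac, had]), prod_insert (by simp [hbc, hbd]), prod_pair hcd]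
    ring
  by_cases h1 : w ∈ ({z, z'} : Finset X)
  · by_cases h2 : w' ∈ ({z, z'} : Finset X)
    · rw [if_pos h1, if_pos h2]
      have h3 : ∀ T ∈ U.powersetCard m, gramX T z * gramX T z' * (gramX T w * gramX T w') = 1 := by
        intro T _
        rw [mem_insert, mem_singleton] at h1 h2
        rcases h1 with rfl | rfl <;> rcases h2 with rfl | rfl
        · exact absurd rfl hww
        · rw [show gramX T w * gramX T w' * (gramX T w * gramX T w') =
            (gramX T w * gramX T w) * (gramX T w' * gramX T w') by ring, gramX_sq, gramX_sq, one_mul]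
        · rw [show gramX T w' * gramX T w * (gramX T w * gramX T w') =
            (gramX T w * gramX T w) * (gramX T w' * gramX T w') by ring, gramX_sq, gramX_sq, one_mul]
        · exact absurd rfl hww
      rw [sum_congr rfl h3, hcardN]
      ring
    · rw [if_pos h1, if_neg h2]
      rw [mem_insert, mem_singleton, not_or] at h2
      rw [mem_insert, mem_singleton] at h1
      rcases h1 with rfl | rfl
      · have h3 : ∀ T ∈ U.powersetCard m, gramX T w * gramX T z' * (gramX T w * gramX T w') =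
            gramX T z' * gramX T w' := by
          intro T _
          rw [show gramX T w * gramX T z' * (gramX T w * gramX T w') =
            (gramX T w * gramX T w) * (gramX T z' * gramX T w') by ring, gramX_sq, one_mul]
        rw [sum_congr rfl h3, htwo z' w' hz' hw' (Ne.symm h2.2)]
        ring
      · have h3 : ∀ T ∈ U.powersetCard m, gramX T z * gramX T w * (gramX T w * gramX T w') =
            gramX T z * gramX T w' := by
          intro T _
          rw [show gramX T z * gramX T w * (gramX T w * gramX T w') =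
            (gramX T w * gramX T w) * (gramX T z * gramX T w') by ring, gramX_sq, one_mul]
        rw [sum_congr rfl h3, htwo z w' hz hw' (Ne.symm h2.1)]
        ring
  · by_cases h2 : w' ∈ ({z, z'} : Finset X)
    · rw [if_neg h1, if_pos h2]
      rw [mem_insert, mem_singleton, not_or] at h1
      rw [mem_insert, mem_singleton] at h2
      rcases h2 with rfl | rfl
      · have h3 : ∀ T ∈ U.powersetCard m, gramX T w' * gramX T z' * (gramX T w * gramX T w') =
            gramX T z' * gramX T w := by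
          intro T _
          rw [show gramX T w' * gramX T z' * (gramX T w * gramX T w') =
            (gramX T w' * gramX T w') * (gramX T z' * gramX T w) by ring, gramX_sq, one_mul]
        rw [sum_congr rfl h3, htwo z' w hz' hw (Ne.symm h1.2)]
        ring
      · have h3 : ∀ T ∈ U.powersetCard m, gramX T z * gramX T w' * (gramX T w * gramX T w') =
            gramX T z * gramX T w := by
          intro T _
          rw [show gramX T z * gramX T w' * (gramX T w * gramX T w') =
            (gramX T w' * gramX T w') * (gramX T z * gramX T w) by ring, gramX_sq, one_mul]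
        rw [sum_congr rfl h3, htwo z w hz hw (Ne.symm h1.1)]
        ring
    · rw [if_neg h1, if_neg h2]
      rw [mem_insert, mem_singleton, not_or] at h1 h2
      rw [hfour z z' w w' hz hz' hw hw' hzz (Ne.symm h1.1) (Ne.symm h2.1) (Ne.symm h1.2)
        (Ne.symm h2.2) hww]
      ring

lemma gram_eigen (U : Finset X) (m : ℕ) (hm : 2 ≤ m) (hU : #U = 2 * m) (F : Finset X → ℝ)
    (hF : ∑ T ∈ U.powersetCard m, F T = 0) (z z' : X) (hz : z ∈ U) (hz' : z' ∈ U) (hzz : z ≠ z')
    (N e2 e4 : ℝ) (hN : N = ((2 * m).choose m : ℝ)) (he2 : e2 = -N / (2 * m - 1))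
    (he4 : e4 = 3 * N / ((2 * m - 1) * (2 * m - 3))) :
    ∑ T ∈ U.powersetCard m, gramX T z * gramX T z' *
      (∑ w ∈ U, ∑ w' ∈ U, gramY U m F w w' * (gramX T w * gramX T w')) =
      2 * (N - 2 * e2 + e4) * gramY U m F z z' := by
  set y := gramY U m F with hy
  set i : X → ℝ := fun w => if w ∈ ({z, z'} : Finset X) then 1 else 0 with hi
  have h1 : ∑ T ∈ U.powersetCard m, gramX T z * gramX T z' *
      (∑ w ∈ U, ∑ w' ∈ U, y w w' * (gramX T w * gramX T w')) =
      ∑ w ∈ U, ∑ w' ∈ U, y w w' *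
        ∑ T ∈ U.powersetCard m, gramX T z * gramX T z' * (gramX T w * gramX T w') := by
    simp_rw [mul_sum]
    rw [sum_comm]
    refine sum_congr rfl (fun w _ => ?_)
    rw [sum_comm]
    refine sum_congr rfl (fun w' _ => ?_)
    refine sum_congr rfl (fun T _ => ?_)
    ring
  rw [h1]
  have h2 : ∀ w ∈ U, ∀ w' ∈ U, y w w' *
      ∑ T ∈ U.powersetCard m, gramX T z * gramX T z' * (gramX T w * gramX T w') =
      e4 * y w w' + (e2 - e4) * (i w * y w w') + (e2 - e4) * (i w' * y w w') +
      (N - 2 * e2 + e4) * (i w * (i w' * y w w')) := by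
    intro w hw w' hw'
    by_cases hww : w = w'
    · subst hww
      rw [hy, gramY_diag U m F hF]
      ring
    · rw [gram_G U m hm hU z z' w w' hz hz' hw hw' hzz hww N e2 e4 hN he2 he4]
      ring
  rw [sum_congr rfl (fun w hw => sum_congr rfl (fun w' hw' => h2 w hw w' hw'))]
  simp_rw [sum_add_distrib, ← mul_sum]
  have r1 : ∀ w, ∑ w' ∈ U, y w w' = 0 := fun w => gramY_row U m hU F w
  have r2 : ∀ w', ∑ w ∈ U, y w w' = 0 := by
    intro w'
    rw [← gramY_row U m hU F w']
    exact sum_congr rfl (fun w _ => gramY_symm U m F w w')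
  have s1 : ∑ w ∈ U, ∑ w' ∈ U, y w w' = 0 := sum_eq_zero (fun w _ => r1 w)
  have s2 : ∑ w ∈ U, i w * ∑ w' ∈ U, y w w' = 0 := sum_eq_zero (fun w _ => by rw [r1, mul_zero])
  have s3 : ∑ w ∈ U, ∑ w' ∈ U, i w' * y w w' = 0 := by
    rw [sum_comm]
    refine sum_eq_zero (fun w' _ => ?_)
    rw [← mul_sum, r2, mul_zero]
  have hsel : ∀ g : X → ℝ, ∑ w ∈ U, i w * g w = g z + g z' := by
    intro g
    rw [hi]
    simp only [ite_mul, one_mul, zero_mul]
    rw [← sum_filter]
    have : U.filter (fun w => w ∈ ({z, z'} : Finset X)) = {z, z'} := by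
      ext w
      rw [mem_filter]
      constructor
      · exact fun h => h.2
      · intro h
        refine ⟨?_, h⟩
        rw [mem_insert, mem_singleton] at h
        rcases h with rfl | rfl <;> assumption
    rw [this, sum_pair hzz]
  have s4 : ∑ w ∈ U, i w * ∑ w' ∈ U, i w' * y w w' = 2 * y z z' := by
    rw [hsel, hsel, hsel]
    rw [hy, gramY_diag U m F hF z, gramY_diag U m F hF z', gramY_symm U m F z' z]
    ring
  rw [s1, s2, s3, s4]
  ring

lemma gram_y_bound (U : Finset X) (m : ℕ) (hm : 2 ≤ m) (hU : #U = 2 * m) (F : Finset X → ℝ)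
    (hF : ∑ T ∈ U.powersetCard m, F T = 0) (N e2 e4 : ℝ) (hN : N = ((2 * m).choose m : ℝ))
    (he2 : e2 = -N / (2 * m - 1)) (he4 : e4 = 3 * N / ((2 * m - 1) * (2 * m - 3))) :
    ∑ z ∈ U, ∑ z' ∈ U, gramY U m F z z' ^ 2 ≤
      2 * (N - 2 * e2 + e4) * ∑ T ∈ U.powersetCard m, F T ^ 2 := by
  set y := gramY U m F with hy
  set Q : Finset X → ℝ := fun T => ∑ w ∈ U, ∑ w' ∈ U, y w w' * (gramX T w * gramX T w') with hQ
  set Y := ∑ z ∈ U, ∑ z' ∈ U, y z z' ^ 2 with hY
  have hY0 : 0 ≤ Y := sum_nonneg (fun _ _ => sum_nonneg (fun _ _ => sq_nonneg _))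
  have h1 : ∑ T ∈ U.powersetCard m, F T * Q T = Y := by
    calc ∑ T ∈ U.powersetCard m, F T * Q T
        = ∑ T ∈ U.powersetCard m, ∑ w ∈ U, ∑ w' ∈ U, F T * (y w w' * (gramX T w * gramX T w')) := by
          rw [hQ]; simp_rw [mul_sum]
      _ = ∑ w ∈ U, ∑ T ∈ U.powersetCard m, ∑ w' ∈ U, F T * (y w w' * (gramX T w * gramX T w')) :=
          sum_comm
      _ = ∑ w ∈ U, ∑ w' ∈ U, ∑ T ∈ U.powersetCard m, F T * (y w w' * (gramX T w * gramX T w')) :=
          sum_congr rfl (fun w _ => sum_comm)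
      _ = Y := by
          refine sum_congr rfl (fun w _ => sum_congr rfl (fun w' _ => ?_))
          rw [sq]
          conv_rhs => rw [hy]; unfold gramY
          rw [mul_sum]
          refine sum_congr rfl (fun T _ => ?_)
          rw [hy]
          unfold gramY
          ring
  have h2 : ∑ T ∈ U.powersetCard m, Q T ^ 2 = 2 * (N - 2 * e2 + e4) * Y := by
    calc ∑ T ∈ U.powersetCard m, Q T ^ 2
        = ∑ T ∈ U.powersetCard m, ∑ w ∈ U, ∑ w' ∈ U, y w w' * (gramX T w * gramX T w' * Q T) := by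
          refine sum_congr rfl (fun T _ => ?_)
          rw [sq]
          conv_lhs => enter [1]; rw [hQ]
          rw [sum_mul]
          refine sum_congr rfl (fun w _ => ?_)
          rw [sum_mul]
          refine sum_congr rfl (fun w' _ => ?_)
          ring
      _ = ∑ w ∈ U, ∑ T ∈ U.powersetCard m, ∑ w' ∈ U, y w w' * (gramX T w * gramX T w' * Q T) :=
          sum_comm
      _ = ∑ w ∈ U, ∑ w' ∈ U, ∑ T ∈ U.powersetCard m, y w w' * (gramX T w * gramX T w' * Q T) :=
          sum_congr rfl (fun w _ => sum_comm)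
      _ = ∑ w ∈ U, ∑ w' ∈ U, 2 * (N - 2 * e2 + e4) * y w w' ^ 2 := by
          refine sum_congr rfl (fun w hw => sum_congr rfl (fun w' hw' => ?_))
          rw [← mul_sum]
          by_cases hww : w = w'
          · subst hww
            rw [hy, gramY_diag U m F hF]
            ring
          · have := gram_eigen U m hm hU F hF w w' hw hw' hww N e2 e4 hN he2 he4
            rw [← hy] at this
            rw [show (∑ T ∈ U.powersetCard m, gramX T w * gramX T w' * Q T) =
              2 * (N - 2 * e2 + e4) * y w w' from this]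
            ring
      _ = 2 * (N - 2 * e2 + e4) * Y := by
          rw [hY, mul_sum]
          refine sum_congr rfl (fun w _ => ?_)
          rw [mul_sum]
  have h3 : Y ^ 2 ≤ (∑ T ∈ U.powersetCard m, F T ^ 2) * (2 * (N - 2 * e2 + e4) * Y) := by
    rw [← h2, ← h1]
    exact sum_mul_sq_le_sq_mul_sq _ _ _
  have hm' : (2 : ℝ) ≤ m := by exact_mod_cast hm
  have hN0 : 0 ≤ N := by rw [hN]; positivity
  have he2' : e2 ≤ 0 := by
    rw [he2]
    exact div_nonpos_of_nonpos_of_nonneg (by linarith) (by linarith)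
  have he4' : 0 ≤ e4 := by
    rw [he4]
    exact div_nonneg (by linarith) (mul_nonneg (by linarith) (by linarith))
  have hF0 : 0 ≤ ∑ T ∈ U.powersetCard m, F T ^ 2 := sum_nonneg (fun _ _ => sq_nonneg _)
  rcases hY0.eq_or_lt with h0 | h0
  · rw [← h0]
    have : 0 ≤ 2 * (N - 2 * e2 + e4) := by linarith
    positivity
  · have h4 : Y * Y ≤ (2 * (N - 2 * e2 + e4) * ∑ T ∈ U.powersetCard m, F T ^ 2) * Y := by
      nlinarith
    exact le_of_mul_le_mul_right h4 h0

lemma gram_bij (U : Finset X) (m : ℕ) (hm : 1 ≤ m) (F : Finset X → ℝ) (z z' : X) (hz : z ∈ U)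
    (hzz : z ≠ z') :
    ∑ T ∈ (U.powersetCard m).filter (fun T => z ∈ T ∧ z' ∉ T), F T =
      ∑ S ∈ ((U.erase z).erase z').powersetCard (m - 1), F (insert z S) := by
  refine sum_nbij' (fun T => T.erase z) (fun S => insert z S) ?_ ?_ ?_ ?_ ?_
  · intro T hT
    rw [mem_filter, mem_powersetCard] at hT
    obtain ⟨⟨h1, h2⟩, h3, h4⟩ := hT
    rw [mem_powersetCard]
    refine ⟨fun v hv => ?_, by rw [card_erase_of_mem h3, h2]⟩
    rw [mem_erase] at hv
    rw [mem_erase, mem_erase]
    exact ⟨fun h => h4 (h ▸ hv.2), hv.1, h1 hv.2⟩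
  · intro S hS
    rw [mem_powersetCard] at hS
    rw [mem_filter, mem_powersetCard]
    have hzS : z ∉ S := fun h => by
      have := hS.1 h
      simp at this
    refine ⟨⟨fun v hv => ?_, ?_⟩, mem_insert_self _ _, fun h => ?_⟩
    · rw [mem_insert] at hv
      rcases hv with rfl | hv
      · exact hz
      · exact mem_of_mem_erase (mem_of_mem_erase (hS.1 hv))
    · rw [card_insert_of_notMem hzS, hS.2]
      omega
    · rw [mem_insert] at h
      rcases h with h | h
      · exact hzz h.symm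
      · have := hS.1 h
        simp at this
  · intro T hT
    rw [mem_filter] at hT
    exact insert_erase hT.2.1
  · intro S hS
    rw [mem_powersetCard] at hS
    have hzS : z ∉ S := fun h => by
      have := hS.1 h
      simp at this
    exact erase_insert hzS
  · intro T hT
    rw [mem_filter] at hT
    rw [insert_erase hT.2.1]

lemma gram_c (U : Finset X) (m : ℕ) (hm : 1 ≤ m) (hU : #U = 2 * m) (F : Finset X → ℝ)
    (hF : ∑ T ∈ U.powersetCard m, F T = 0) (z z' : X) (hz : z ∈ U) (hz' : z' ∈ U) (hzz : z ≠ z') :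
    dn ((U.erase z).erase z') (m - 1) (fun S => (F (insert z S) + F (insert z' S)) / 2) =
      -gramY U m F z z' / (4 * ((2 * m - 2).choose (m - 1) : ℝ)) := by
  have hcard : #((U.erase z).erase z') = 2 * m - 2 := by
    rw [card_erase_of_mem (mem_erase.mpr ⟨hzz.symm, hz'⟩), card_erase_of_mem hz, hU]
    omega
  unfold dn
  rw [hcard]
  have h1 : gramY U m F z z' = -2 * (∑ T ∈ (U.powersetCard m).filter (fun T => z ∈ T ∧ z' ∉ T), F T) -
      2 * ∑ T ∈ (U.powersetCard m).filter (fun T => z' ∈ T ∧ z ∉ T), F T := by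
    have h2 : ∀ T ∈ U.powersetCard m, F T * (gramX T z * gramX T z') =
        F T - 2 * (if z ∈ T ∧ z' ∉ T then F T else 0) - 2 * (if z' ∈ T ∧ z ∉ T then F T else 0) := by
      intro T _
      unfold gramX
      by_cases a : z ∈ T <;> by_cases b : z' ∈ T <;> simp [a, b] <;> ring
    unfold gramY
    rw [sum_congr rfl h2, sum_sub_distrib, sum_sub_distrib, hF, ← mul_sum, ← mul_sum,
      sum_filter, sum_filter]
    ring
  rw [h1, gram_bij U m hm F z z' hz hzz, gram_bij U m hm F z' z hz' hzz.symm,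
    erase_right_comm (s := U) (a := z') (b := z), ← sum_div, sum_add_distrib]
  ring

theorem gram (U : Finset X) (m : ℕ) (hm : 1 ≤ m) (hU : #U = 2 * m) (F : Finset X → ℝ)
    (hF : dn U m F = 0) :
    ∑ z ∈ U, ∑ z' ∈ U.erase z,
        (dn ((U.erase z).erase z') (m - 1) (fun S => (F (insert z S) + F (insert z' S)) / 2)) ^ 2 ≤
      8 * dn U m (fun S => F S ^ 2) := by
  have hNpos : 0 < (2 * m).choose m := Nat.choose_pos (by omega)
  set N : ℝ := ((2 * m).choose m : ℝ) with hN
  have hN0 : 0 < N := by rw [hN]; exact_mod_cast hNpos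
  have hF' : ∑ T ∈ U.powersetCard m, F T = 0 := by
    unfold dn at hF
    rw [hU, div_eq_zero_iff] at hF
    rcases hF with h | h
    · exact h
    · exact absurd h hN0.ne'
  set C' : ℝ := ((2 * m - 2).choose (m - 1) : ℝ) with hC'
  have hC'pos : 0 < C' := by
    rw [hC']
    exact_mod_cast Nat.choose_pos (by omega)
  have hm' : (1 : ℝ) ≤ m := by exact_mod_cast hm
  have hNC : (m : ℝ) * N = 2 * (2 * m - 1) * C' := by
    obtain ⟨n, rfl⟩ : ∃ n, m = n + 1 := ⟨m - 1, by omega⟩
    have h := Nat.succ_mul_centralBinom_succ n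
    rw [Nat.centralBinom_eq_two_mul_choose, Nat.centralBinom_eq_two_mul_choose] at h
    rw [hN, hC', show 2 * (n + 1) - 2 = 2 * n by omega, show n + 1 - 1 = n by omega]
    have h2 : (((n + 1) * (2 * (n + 1)).choose (n + 1) : ℕ) : ℝ) =
      ((2 * (2 * n + 1) * (2 * n).choose n : ℕ) : ℝ) := by exact_mod_cast h
    push_cast at h2 ⊢
    rw [h2]
    ring
  have hterm : ∀ z ∈ U, ∀ z' ∈ U.erase z,
      (dn ((U.erase z).erase z') (m - 1) (fun S => (F (insert z S) + F (insert z' S)) / 2)) ^ 2 =
      gramY U m F z z' ^ 2 / (16 * C' ^ 2) := by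
    intro z hz z' hz'
    rw [mem_erase] at hz'
    rw [gram_c U m hm hU F hF' z z' hz hz'.2 (Ne.symm hz'.1), div_pow]
    ring
  rw [sum_congr rfl (fun z hz => sum_congr rfl (fun z' hz' => hterm z hz z' hz'))]
  have hdn : dn U m (fun S => F S ^ 2) = (∑ T ∈ U.powersetCard m, F T ^ 2) / N := by
    unfold dn
    rw [hU]
  rw [hdn]
  have hF2 : 0 ≤ ∑ T ∈ U.powersetCard m, F T ^ 2 := sum_nonneg (fun _ _ => sq_nonneg _)
  rcases Nat.lt_or_ge m 2 with hlt | hge
  · -- `m = 1`
    obtain rfl : m = 1 := by omega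
    have h0 : ∀ z ∈ U, ∀ z' ∈ U.erase z, gramY U 1 F z z' ^ 2 / (16 * C' ^ 2) = 0 := by
      intro z hz z' hz'
      rw [mem_erase] at hz'
      have hUeq : ({z, z'} : Finset X) = U := by
        refine eq_of_subset_of_card_le ?_ ?_
        · intro v hv
          rw [mem_insert, mem_singleton] at hv
          rcases hv with rfl | rfl
          · exact hz
          · exact hz'.2
        · rw [hU, card_pair (Ne.symm hz'.1)]
      have hy : gramY U 1 F z z' = 0 := by
        unfold gramY
        have : ∀ T ∈ U.powersetCard 1, F T * (gramX T z * gramX T z') = -F T := by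
          intro T hT
          have h1 := gramX_sum U 1 hU T hT
          rw [← hUeq, sum_pair (Ne.symm hz'.1)] at h1
          have h2 : gramX T z' = -gramX T z := by linarith
          rw [h2]
          have := gramX_sq T z
          calc F T * (gramX T z * -gramX T z) = -(F T * (gramX T z * gramX T z)) := by ring
            _ = -F T := by rw [this, mul_one]
        rw [sum_congr rfl this, sum_neg_distrib, hF', neg_zero]
      rw [hy]
      simp
    rw [sum_congr rfl (fun z hz => sum_congr rfl (fun z' hz' => h0 z hz z' hz'))]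
    simp only [sum_const_zero]
    positivity
  · have hm2 : (2 : ℝ) ≤ m := by exact_mod_cast hge
    have hY := gram_y_bound U m hge hU F hF' N (-N / (2 * m - 1))
      (3 * N / ((2 * m - 1) * (2 * m - 3))) hN rfl rfl
    have hle : ∑ z ∈ U, ∑ z' ∈ U.erase z, gramY U m F z z' ^ 2 / (16 * C' ^ 2) ≤
        (∑ z ∈ U, ∑ z' ∈ U, gramY U m F z z' ^ 2) / (16 * C' ^ 2) := by
      rw [sum_div]
      refine sum_le_sum (fun z _ => ?_)
      rw [sum_div]
      exact sum_le_sum_of_subset_of_nonneg (erase_subset _ _) (fun _ _ _ => by positivity)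
    refine hle.trans ?_
    rw [div_le_iff₀ (by positivity)]
    refine hY.trans ?_
    have hkey : 2 * (N - 2 * (-N / (2 * m - 1)) + 3 * N / ((2 * m - 1) * (2 * m - 3))) * N ≤
        128 * C' ^ 2 := by
      have ha : (0 : ℝ) < 2 * m - 1 := by linarith
      have hb : (1 : ℝ) ≤ 2 * m - 3 := by linarith
      have hC2 : C' = m * N / (2 * (2 * m - 1)) := by
        rw [eq_div_iff (by positivity)]
        linarith
      rw [hC2]
      have e1 : 2 * (N - 2 * (-N / (2 * m - 1)) + 3 * N / ((2 * m - 1) * (2 * m - 3))) * N =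
          N ^ 2 / (2 * m - 1) ^ 2 * (2 * ((2 * m - 1) ^ 2 + 2 * (2 * m - 1) +
            3 * (2 * m - 1) / (2 * m - 3))) := by
        have hb' : (2 * (m : ℝ) - 3) ≠ 0 := by linarith
        field_simp
        ring
      have e2 : 128 * (m * N / (2 * (2 * m - 1))) ^ 2 = N ^ 2 / (2 * m - 1) ^ 2 * (32 * m ^ 2) := by
        field_simp
        ring
      rw [e1, e2]
      refine mul_le_mul_of_nonneg_left ?_ (by positivity)
      have e3 : 3 * (2 * (m : ℝ) - 1) / (2 * m - 3) ≤ 9 := by
        rw [div_le_iff₀ (by linarith)]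
        linarith
      nlinarith
    calc 2 * (N - 2 * (-N / (2 * m - 1)) + 3 * N / ((2 * m - 1) * (2 * m - 3))) *
          ∑ T ∈ U.powersetCard m, F T ^ 2
        = (2 * (N - 2 * (-N / (2 * m - 1)) + 3 * N / ((2 * m - 1) * (2 * m - 3))) * N) *
          ((∑ T ∈ U.powersetCard m, F T ^ 2) / N) := by field_simp
      _ ≤ (128 * C' ^ 2) * ((∑ T ∈ U.powersetCard m, F T ^ 2) / N) := by gcongr
      _ = 8 * ((∑ T ∈ U.powersetCard m, F T ^ 2) / N) * (16 * C' ^ 2) := by ring

end H96.TN
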