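import Pool.Agent.H96.TN.ELB
import Pool.Agent.H96.TN.Gap
import Pool.Agent.H96.TN.Gram

/-!
Module MATCH (~250 lines): most random pairings have about the right number of sections in `F`.
Uses `gap`, `gram`, ELB.

`G z z' = fun S => (F (insert z S) + F (insert z' S))/2`, `#U = 2m`.
`nu_mean`: `EL (2m) U (nu · F) = dn U m F` (induction; a uniform `m`-set is obtained from an ordered
pair of distinct points `(z,z')`, a fair coin, and a uniform `(m-1)`-subset of the rest).
`gap2`: for `dn U m F = 0`,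
`∑_z ∑_{z'≠z} dn (U∖z∖z') (m-1) (G z z')^2 ≤ 2m(2m-1)(1 - 1/m) dn U m F^2`. From
`((a+b)/2)^2 = (a^2+b^2)/2 - (a-b)^2/4`; the first part averages to `dn U m F^2`, the second is
`𝓔/4` (`𝓔` of GAP; a triple `(T,z,z')`, `z∈T`, `z'∉T`, corresponds to `(z,z',S = T∖z)`), with
`𝓔 ≥ 4m C(2m,m) dn U m F^2` and `C(2m,m) = C(2m-2,m-1) · 2m(2m-1)/m^2`.
`nu_var`: by induction on `m`: with `φ = dn U m F`, `V = dn U m F^2 - φ^2`,
`EL (2m) U (nu · F)^2 ≤ φ^2 + (8/√m) V`. `m = 1`: `nu = φ`. Step: given `(z,z')`, by induction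
`E[nu^2 | z,z'] ≤ (dn G)^2 + (8/√(m-1)) (dn G^2 - (dn G)^2)`. Replacing `F` by `F - φ` (`nu`, `dn`
are affine), `average of (dn G)^2 ≤ φ^2 + 8 V/(2m(2m-1))` (`gram`), and
`average of (dn G^2 - (dn G)^2) ≤ (1-1/m) V` (`gap2`, dropping `-(dn G_0)^2`). Finally
`4/(m(2m-1)) + (1-1/m) 8/√(m-1) ≤ 8/√m`, since `(1-1/m)/√(m-1) = √(m-1)/m`,
`8√m - 8√(m-1) = 8/(√m+√(m-1)) ≥ 4/(2m-1)`.
`match_prob`: Chebyshev, `V ≤ φ` for `0 ≤ F ≤ 1`: `P(nu ≤ φ/2) ≤ (8/√m) φ/(φ/2)^2`.
-/

namespace H96.TN

open Finset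

variable {X : Type*} [DecidableEq X]

theorem match_EL_two (m : ℕ) (U : Finset X) (hU : #U = 2 * (m + 1)) (g : List X → ℝ) :
    EL (2 * (m + 1)) U g = (∑ z ∈ U, ∑ z' ∈ U.erase z,
      EL (2 * m) ((U.erase z).erase z') (fun l => g (z :: z' :: l))) /
        ((2 * (m : ℝ) + 2) * (2 * (m : ℝ) + 1)) := by
  have h1 : 2 * (m + 1) = 2 * m + 1 + 1 := by ring
  rw [h1] at hU ⊢
  have h2 : EL (2 * m + 1 + 1) U g = (∑ z ∈ U, (∑ z' ∈ U.erase z,
      EL (2 * m) ((U.erase z).erase z') (fun l => g (z :: z' :: l))) /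
        ((U.erase z).card : ℝ)) / (U.card : ℝ) := rfl
  rw [h2, hU]
  have h3 : ∀ z ∈ U, (∑ z' ∈ U.erase z,
      EL (2 * m) ((U.erase z).erase z') (fun l => g (z :: z' :: l))) / ((U.erase z).card : ℝ) =
      (∑ z' ∈ U.erase z,
      EL (2 * m) ((U.erase z).erase z') (fun l => g (z :: z' :: l))) / (2 * (m : ℝ) + 1) := by
    intro z hz
    rw [card_erase_of_mem hz, hU]
    congr 1
    push_cast
    ring
  rw [Finset.sum_congr rfl h3, ← Finset.sum_div, div_div]
  congr 1
  push_cast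
  ring

theorem match_pair_sum (m : ℕ) (U : Finset X) (hU : #U = 2 * (m + 1)) (F : Finset X → ℝ) :
    ∑ z ∈ U, ∑ z' ∈ U.erase z, dn ((U.erase z).erase z') m
      (fun S => (F (insert z S) + F (insert z' S)) / 2)
      = (2 * (m : ℝ) + 2) * (2 * (m : ℝ) + 1) * dn U (m + 1) F := by
  have e1 : ∀ z z' : X, dn ((U.erase z).erase z') m
      (fun S => (F (insert z S) + F (insert z' S)) / 2) =
      (1 / 2 : ℝ) * dn ((U.erase z).erase z') m (inn z F) +
        (1 / 2 : ℝ) * dn ((U.erase z).erase z') m (inn z' F) := by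
    intro z z'
    rw [← dn_mul, ← dn_mul, ← dn_add]
    apply dn_congr
    intro S _ _
    simp only [inn]
    ring
  have hc : ∀ z ∈ U, #(U.erase z) = 2 * m + 1 := by
    intro z hz
    rw [card_erase_of_mem hz, hU]
    omega
  have a1 : ∑ z ∈ U, ∑ z' ∈ U.erase z, dn ((U.erase z).erase z') m (inn z F) =
      (2 * (m : ℝ) + 2) * (2 * (m : ℝ) + 1) * dn U (m + 1) F := by
    have h : ∀ z ∈ U, ∑ z' ∈ U.erase z, dn ((U.erase z).erase z') m (inn z F) =
        (2 * (m : ℝ) + 1) * dn (U.erase z) m (inn z F) := by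
      intro z hz
      rw [dn_out_sum _ _ (by rw [hc z hz]; omega), hc z hz]
      push_cast
      ring
    rw [sum_congr rfl h, ← mul_sum]
    have h2 := dn_in_sum U (m + 1) (by omega) (by omega) F
    simp only [Nat.add_sub_cancel] at h2
    rw [h2, hU]
    push_cast
    ring
  have a2 : ∑ z ∈ U, ∑ z' ∈ U.erase z, dn ((U.erase z).erase z') m (inn z' F) =
      (2 * (m : ℝ) + 2) * (2 * (m : ℝ) + 1) * dn U (m + 1) F := by
    have h : ∀ z ∈ U, ∑ z' ∈ U.erase z, dn ((U.erase z).erase z') m (inn z' F) =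
        (2 * (m : ℝ) + 1) * dn (U.erase z) (m + 1) F := by
      intro z hz
      have h2 := dn_in_sum (U.erase z) (m + 1) (by omega) (by rw [hc z hz]; omega) F
      simp only [Nat.add_sub_cancel] at h2
      rw [h2, hc z hz]
      push_cast
      ring
    rw [sum_congr rfl h, ← mul_sum, dn_out_sum U (m + 1) (by omega), hU]
    push_cast
    ring
  simp_rw [e1, sum_add_distrib, ← mul_sum]
  rw [a1, a2]
  ring

theorem match_energy (m : ℕ) (U : Finset X) (H : Finset X → X → X → ℝ) :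
    ∑ T ∈ U.powersetCard (m + 1), ∑ z ∈ T, ∑ z' ∈ U \ T, H T z z' =
      ∑ z ∈ U, ∑ z' ∈ U.erase z,
        ∑ S ∈ ((U.erase z).erase z').powersetCard m, H (insert z S) z z' := by
  have s1 : ∑ T ∈ U.powersetCard (m + 1), ∑ z ∈ T, ∑ z' ∈ U \ T, H T z z' =
      ∑ z ∈ U, ∑ T ∈ (U.powersetCard (m + 1)).filter (fun T => z ∈ T),
        ∑ z' ∈ U \ T, H T z z' := by
    apply Finset.sum_comm'
    intro T z
    simp only [mem_powersetCard, mem_filter]
    constructor
    · rintro ⟨⟨h1, h2⟩, h3⟩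
      exact ⟨⟨⟨h1, h2⟩, h3⟩, h1 h3⟩
    · rintro ⟨⟨⟨h1, h2⟩, h3⟩, h4⟩
      exact ⟨⟨h1, h2⟩, h3⟩
  rw [s1]
  apply Finset.sum_congr rfl
  intro z hz
  have s2 : ∑ T ∈ (U.powersetCard (m + 1)).filter (fun T => z ∈ T), ∑ z' ∈ U \ T, H T z z' =
      ∑ S ∈ (U.erase z).powersetCard m, ∑ z' ∈ U \ insert z S, H (insert z S) z z' := by
    refine Finset.sum_bij' (fun T _ => T.erase z) (fun S _ => insert z S) ?_ ?_ ?_ ?_ ?_
    · intro T hT
      simp only [mem_powersetCard, mem_filter] at hT ⊢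
      refine ⟨?_, ?_⟩
      · exact erase_subset_erase z hT.1.1
      · rw [card_erase_of_mem hT.2, hT.1.2]
        rfl
    · intro S hS
      simp only [mem_powersetCard, mem_filter] at hS ⊢
      have hzS : z ∉ S := fun h => by
        have := hS.1 h
        simp at this
      refine ⟨⟨?_, ?_⟩, mem_insert_self _ _⟩
      · exact insert_subset hz (hS.1.trans (erase_subset _ _))
      · rw [card_insert_of_notMem hzS, hS.2]
    · intro T hT
      simp only [mem_filter] at hT
      exact insert_erase hT.2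
    · intro S hS
      simp only [mem_powersetCard] at hS
      have hzS : z ∉ S := fun h => by
        have := hS.1 h
        simp at this
      exact erase_insert hzS
    · intro T hT
      simp only [mem_filter] at hT
      rw [insert_erase hT.2]
  rw [s2]
  apply Finset.sum_comm'
  intro S z'
  simp only [mem_powersetCard, mem_sdiff, mem_insert, mem_erase, not_or, subset_erase]
  tauto

theorem match_gap2 (m : ℕ) (U : Finset X) (hU : #U = 2 * (m + 1)) (F : Finset X → ℝ)
    (hF : dn U (m + 1) F = 0) :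
    ∑ z ∈ U, ∑ z' ∈ U.erase z, dn ((U.erase z).erase z') m
      (fun S => ((F (insert z S) + F (insert z' S)) / 2) ^ 2) ≤
    2 * (m : ℝ) * (2 * (m : ℝ) + 1) * dn U (m + 1) (fun S => F S ^ 2) := by
  set V := dn U (m + 1) (fun S => F S ^ 2) with hV
  set D := ∑ z ∈ U, ∑ z' ∈ U.erase z, dn ((U.erase z).erase z') m
      (fun S => (F (insert z S) - F (insert z' S)) ^ 2) with hD
  have h1 : ∑ z ∈ U, ∑ z' ∈ U.erase z, dn ((U.erase z).erase z') m
      (fun S => ((F (insert z S) + F (insert z' S)) / 2) ^ 2) =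
      (2 * (m : ℝ) + 2) * (2 * (m : ℝ) + 1) * V - D / 4 := by
    have h2 := match_pair_sum m U hU (fun S => F S ^ 2)
    have e : ∀ z z' : X, dn ((U.erase z).erase z') m
        (fun S => ((F (insert z S) + F (insert z' S)) / 2) ^ 2) =
        dn ((U.erase z).erase z') m (fun S => (F (insert z S) ^ 2 + F (insert z' S) ^ 2) / 2) +
        (-1 / 4 : ℝ) * dn ((U.erase z).erase z') m
          (fun S => (F (insert z S) - F (insert z' S)) ^ 2) := by
      intro z z'
      rw [← dn_mul, ← dn_add]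
      apply dn_congr
      intro S _ _
      ring
    simp_rw [e, sum_add_distrib, ← mul_sum]
    rw [h2, ← hD]
    ring
  have h3 : ∑ T ∈ U.powersetCard (m + 1), ∑ z ∈ T, ∑ z' ∈ U \ T,
      (F T - F (insert z' (T.erase z))) ^ 2 = (Nat.choose (2 * m) m : ℝ) * D := by
    rw [match_energy m U (fun T z z' => (F T - F (insert z' (T.erase z))) ^ 2), hD, mul_sum]
    apply Finset.sum_congr rfl
    intro z hz
    rw [mul_sum]
    apply Finset.sum_congr rfl
    intro z' hz'
    have hc : #((U.erase z).erase z') = 2 * m := by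
      rw [card_erase_of_mem hz', card_erase_of_mem hz, hU]
      omega
    have hpos : (0 : ℝ) < (Nat.choose (2 * m) m : ℝ) := by
      exact_mod_cast Nat.choose_pos (by omega)
    unfold dn
    rw [hc, mul_div_cancel₀ _ hpos.ne']
    apply Finset.sum_congr rfl
    intro S hS
    have hzS : z ∉ S := fun h => by
      have := (mem_powersetCard.1 hS).1 h
      simp at this
    rw [erase_insert hzS]
  have h4 := gap U (m + 1) (by omega) F
  rw [h3, hF, ← hV, hU] at h4
  have h5 : ((m : ℝ) + 1) * (Nat.choose (2 * (m + 1)) (m + 1) : ℝ) =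
      2 * (2 * (m : ℝ) + 1) * (Nat.choose (2 * m) m : ℝ) := by
    have := Nat.succ_mul_centralBinom_succ m
    unfold Nat.centralBinom at this
    exact_mod_cast this
  have hpos : (0 : ℝ) < (Nat.choose (2 * m) m : ℝ) := by
    exact_mod_cast Nat.choose_pos (by omega)
  have h6 : 8 * (2 * (m : ℝ) + 1) * V ≤ D := by
    have h7 : (Nat.choose (2 * m) m : ℝ) * (8 * (2 * (m : ℝ) + 1) * V) ≤
        (Nat.choose (2 * m) m : ℝ) * D := by
      refine le_trans (le_of_eq ?_) h4
      push_cast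
      linear_combination (-4 * V) * h5
    exact le_of_mul_le_mul_left h7 hpos
  rw [h1]
  linarith

theorem match_dn_shift (U : Finset X) (s : ℕ) (hs : s ≤ #U) (f : Finset X → ℝ) (c : ℝ) :
    dn U s (fun S => f S - c) = dn U s f - c := by
  have h := dn_add U s f (fun _ => -c)
  rw [dn_const U s hs] at h
  rw [sub_eq_add_neg, ← h]
  apply dn_congr
  intro S _ _
  ring

theorem match_dn_shift_sq (U : Finset X) (s : ℕ) (hs : s ≤ #U) (f : Finset X → ℝ) (c : ℝ) :
    dn U s (fun S => (f S - c) ^ 2) = dn U s (fun S => f S ^ 2) - 2 * c * dn U s f + c ^ 2 := by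
  have h := dn_add U s (fun S => f S ^ 2 + (-2 * c) * f S) (fun _ => c ^ 2)
  have h' := dn_add U s (fun S => f S ^ 2) (fun S => (-2 * c) * f S)
  rw [dn_mul] at h'
  rw [dn_const U s hs, h'] at h
  have e : dn U s (fun S => (f S - c) ^ 2) =
      dn U s (fun S => f S ^ 2 + (-2 * c) * f S + c ^ 2) := by
    apply dn_congr
    intro S _ _
    ring
  rw [e, h]
  ring

theorem match_dn_zero (U : Finset X) (f : Finset X → ℝ) : dn U 0 f = f ∅ := by
  simp [dn]

theorem nu_mean (m : ℕ) (U : Finset X) (hU : #U = 2 * m) (F : Finset X → ℝ) :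
    EL (2 * m) U (fun l => nu l F) = dn U m F := by
  induction m generalizing U F with
  | zero =>
    rw [match_dn_zero]
    rfl
  | succ m ih =>
    rw [match_EL_two m U hU]
    have h1 : ∀ z ∈ U, ∀ z' ∈ U.erase z,
        EL (2 * m) ((U.erase z).erase z') (fun l => nu (z :: z' :: l) F) =
        dn ((U.erase z).erase z') m (fun S => (F (insert z S) + F (insert z' S)) / 2) := by
      intro z hz z' hz'
      rw [← ih ((U.erase z).erase z') (by
        rw [card_erase_of_mem hz', card_erase_of_mem hz, hU]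
        omega)]
      rfl
    rw [Finset.sum_congr rfl (fun z hz => Finset.sum_congr rfl (h1 z hz)), match_pair_sum m U hU]
    have hp : (0 : ℝ) < (2 * (m : ℝ) + 2) * (2 * (m : ℝ) + 1) := by positivity
    rw [mul_div_cancel_left₀ _ hp.ne']

theorem match_num (m : ℕ) :
    8 / ((2 * (m : ℝ) + 2) * (2 * (m : ℝ) + 1)) +
      8 / Real.sqrt m * (2 * (m : ℝ) * (2 * (m : ℝ) + 1)) /
        ((2 * (m : ℝ) + 2) * (2 * (m : ℝ) + 1)) ≤ 8 / Real.sqrt ((m + 1 : ℕ) : ℝ) := by
  have hm : (0 : ℝ) ≤ (m : ℝ) := Nat.cast_nonneg m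
  set a := Real.sqrt (m : ℝ) with ha
  set b := Real.sqrt ((m + 1 : ℕ) : ℝ) with hb
  have ha0 : 0 ≤ a := Real.sqrt_nonneg _
  have ha2 : a * a = m := Real.mul_self_sqrt hm
  have hb2 : b * b = m + 1 := by
    have : b * b = ((m + 1 : ℕ) : ℝ) := Real.mul_self_sqrt (Nat.cast_nonneg _)
    rw [this]
    push_cast
    ring
  have hb0 : 0 < b := by
    rw [hb]
    apply Real.sqrt_pos.2
    positivity
  have h1 : 8 / a * (2 * (m : ℝ) * (2 * (m : ℝ) + 1)) = 16 * a * (2 * (m : ℝ) + 1) := by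
    rcases eq_or_lt_of_le ha0 with h | h
    · rw [← h]
      simp
    · rw [← ha2]
      field_simp
      ring
  rw [h1, ← add_div]
  rw [div_le_div_iff₀ (by positivity) hb0]
  have h3 : (2 * (m : ℝ) + 2) = 2 * (b * b) := by rw [hb2]; ring
  rw [h3]
  have h4 : (8 + 16 * a * (2 * (m : ℝ) + 1)) ≤ 16 * b * (2 * (m : ℝ) + 1) := by
    have h5 : (b - a) * (b + a) = 1 := by
      linear_combination hb2 - ha2
    have h6 : b + a ≤ 2 * (2 * (m : ℝ) + 1) := by
      nlinarith [sq_nonneg (a - 1), sq_nonneg (b - 1)]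
    have h7 : 0 < b - a := by
      by_contra hcon
      push Not at hcon
      nlinarith
    nlinarith
  calc (8 + 16 * a * (2 * (m : ℝ) + 1)) * b ≤ (16 * b * (2 * (m : ℝ) + 1)) * b :=
        mul_le_mul_of_nonneg_right h4 hb0.le
    _ = 8 * (2 * (b * b) * (2 * (m : ℝ) + 1)) := by ring

theorem match_var (m : ℕ) (U : Finset X) (hU : #U = 2 * m) (F : Finset X → ℝ) :
    EL (2 * m) U (fun l => nu l F ^ 2) ≤
      dn U m F ^ 2 + 8 / Real.sqrt m * (dn U m (fun S => F S ^ 2) - dn U m F ^ 2) := by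
  induction m generalizing U F with
  | zero =>
    rw [match_dn_zero, match_dn_zero]
    have : EL (2 * 0) U (fun l => nu l F ^ 2) = F ∅ ^ 2 := rfl
    rw [this]
    simp
  | succ m ih =>
    have hp : (0 : ℝ) < (2 * (m : ℝ) + 2) * (2 * (m : ℝ) + 1) := by positivity
    set φ := dn U (m + 1) F with hφ
    set F0 : Finset X → ℝ := fun S => F S - φ with hF0
    have hz0 : dn U (m + 1) F0 = 0 := by
      rw [hF0, match_dn_shift U (m + 1) (by omega)]
      ring
    set V := dn U (m + 1) (fun S => F0 S ^ 2) with hV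
    have hVe : dn U (m + 1) (fun S => F S ^ 2) - φ ^ 2 = V := by
      rw [hV, hF0, match_dn_shift_sq U (m + 1) (by omega), ← hφ]
      ring
    have hV0 : 0 ≤ V := dn_nonneg _ _ _ (fun S => sq_nonneg _)
    set K := 8 / Real.sqrt (m : ℝ) with hK
    have hK0 : 0 ≤ K := by positivity
    have hcW : ∀ z ∈ U, ∀ z' ∈ U.erase z, #((U.erase z).erase z') = 2 * m := by
      intro z hz z' hz'
      rw [card_erase_of_mem hz', card_erase_of_mem hz, hU]
      omega
    rw [match_EL_two m U hU, hVe]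
    have key : ∀ z ∈ U, ∀ z' ∈ U.erase z,
        EL (2 * m) ((U.erase z).erase z') (fun l => nu (z :: z' :: l) F ^ 2) ≤
        dn ((U.erase z).erase z') m (fun S => (F0 (insert z S) + F0 (insert z' S)) / 2) ^ 2 +
        2 * φ * dn ((U.erase z).erase z') m (fun S => (F0 (insert z S) + F0 (insert z' S)) / 2) +
        φ ^ 2 + K * dn ((U.erase z).erase z') m
          (fun S => ((F0 (insert z S) + F0 (insert z' S)) / 2) ^ 2) := by
      intro z hz z' hz'
      have hc := hcW z hz z' hz'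
      set W := (U.erase z).erase z' with hW
      have h1 := ih W hc (fun S => (F (insert z S) + F (insert z' S)) / 2)
      have h2 : dn W m (fun S => (F0 (insert z S) + F0 (insert z' S)) / 2) =
          dn W m (fun S => (F (insert z S) + F (insert z' S)) / 2) - φ := by
        rw [← match_dn_shift W m (by omega)]
        apply dn_congr
        intro S _ _
        simp only [hF0]
        ring
      have h3 : dn W m (fun S => ((F0 (insert z S) + F0 (insert z' S)) / 2) ^ 2) =
          dn W m (fun S => ((F (insert z S) + F (insert z' S)) / 2) ^ 2) -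
          2 * φ * dn W m (fun S => (F (insert z S) + F (insert z' S)) / 2) + φ ^ 2 := by
        rw [← match_dn_shift_sq W m (by omega)]
        apply dn_congr
        intro S _ _
        simp only [hF0]
        ring
      have h4 : EL (2 * m) W (fun l => nu (z :: z' :: l) F ^ 2) =
          EL (2 * m) W (fun l => nu l (fun S => (F (insert z S) + F (insert z' S)) / 2) ^ 2) := rfl
      rw [h4, h2, h3]
      refine h1.trans ?_
      set c := dn W m (fun S => (F (insert z S) + F (insert z' S)) / 2) with hcdef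
      set d := dn W m (fun S => ((F (insert z S) + F (insert z' S)) / 2) ^ 2) with hddef
      have h5 : 0 ≤ K * (c - φ) ^ 2 := mul_nonneg hK0 (sq_nonneg _)
      nlinarith
    have hsum : ∑ z ∈ U, ∑ z' ∈ U.erase z,
        EL (2 * m) ((U.erase z).erase z') (fun l => nu (z :: z' :: l) F ^ 2) ≤
        8 * V + (2 * (m : ℝ) + 2) * (2 * (m : ℝ) + 1) * φ ^ 2 +
          K * (2 * (m : ℝ) * (2 * (m : ℝ) + 1)) * V := by
      refine (Finset.sum_le_sum (fun z hz => Finset.sum_le_sum (key z hz))).trans ?_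
      simp_rw [sum_add_distrib, ← mul_sum]
      have g1 := gram U (m + 1) (by omega) hU F0 hz0
      simp only [Nat.add_sub_cancel] at g1
      have g2 := match_gap2 m U hU F0 hz0
      have g3 := match_pair_sum m U hU F0
      rw [hz0, mul_zero] at g3
      have g4 : ∑ z ∈ U, ∑ z' ∈ U.erase z, φ ^ 2 =
          (2 * (m : ℝ) + 2) * (2 * (m : ℝ) + 1) * φ ^ 2 := by
        have : ∀ z ∈ U, ∑ z' ∈ U.erase z, φ ^ 2 = (2 * (m : ℝ) + 1) * φ ^ 2 := by
          intro z hz
          rw [sum_const, card_erase_of_mem hz, hU, nsmul_eq_mul]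
          congr 1
          have : 2 * (m + 1) - 1 = 2 * m + 1 := by omega
          rw [this]
          push_cast
          ring
        rw [sum_congr rfl this, sum_const, hU, nsmul_eq_mul]
        push_cast
        ring
      rw [g3, g4]
      have g5 := mul_le_mul_of_nonneg_left g2 hK0
      rw [← hV] at g1 g5
      nlinarith
    rw [div_le_iff₀ hp]
    refine hsum.trans ?_
    have hn := match_num m
    rw [← hK, ← add_div, div_le_iff₀ hp] at hn
    have hn2 := mul_le_mul_of_nonneg_right hn hV0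
    nlinarith

theorem nu_var (m : ℕ) (hm : 1 ≤ m) (U : Finset X) (hU : #U = 2 * m) (F : Finset X → ℝ) :
    EL (2 * m) U (fun l => nu l F ^ 2) ≤
      dn U m F ^ 2 + 8 / Real.sqrt m * (dn U m (fun S => F S ^ 2) - dn U m F ^ 2) :=
  match_var m U hU F

theorem match_prob (m : ℕ) (hm : 1 ≤ m) (U : Finset X) (hU : #U = 2 * m) (F : Finset X → ℝ)
    (hF0 : ∀ S, 0 ≤ F S) (hF1 : ∀ S, F S ≤ 1) (hφ : 0 < dn U m F) :
    EL (2 * m) U (fun l => ind (nu l F ≤ dn U m F / 2)) ≤ 32 / (Real.sqrt m * dn U m F) := by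
  have hsq : 0 < Real.sqrt (m : ℝ) := Real.sqrt_pos.2 (by exact_mod_cast hm)
  set φ := dn U m F with hφd
  have h1 := match_var m U hU F
  have h2 := nu_mean m U hU F
  rw [← hφd] at h1 h2
  have h3 : dn U m (fun S => F S ^ 2) ≤ φ := by
    apply dn_mono
    intro S _ _
    nlinarith [hF0 S, hF1 S]
  have h4 : EL (2 * m) U (fun l => ind (nu l F ≤ φ / 2)) ≤
      EL (2 * m) U (fun l => (4 / φ ^ 2) * ((nu l F ^ 2 + (-2 * φ) * nu l F) + φ ^ 2)) := by
    apply EL_mono
    intro l _ _ _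
    by_cases hc : nu l F ≤ φ / 2
    · have e : ind (nu l F ≤ φ / 2) ≤ 1 := ind_le_one _
      refine e.trans ?_
      rw [div_mul_eq_mul_div, le_div_iff₀ (by positivity)]
      nlinarith
    · have e : ind (nu l F ≤ φ / 2) = 0 := by
        unfold ind
        rw [if_neg hc]
      rw [e]
      have : (nu l F ^ 2 + (-2 * φ) * nu l F) + φ ^ 2 = (nu l F - φ) ^ 2 := by ring
      rw [this]
      positivity
  rw [EL_mul, EL_add, EL_add, EL_mul, h2, EL_const (2 * m) U (by omega)] at h4
  refine h4.trans ?_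
  have h5 : EL (2 * m) U (fun l => nu l F ^ 2) + -2 * φ * φ + φ ^ 2 ≤
      8 / Real.sqrt m * φ := by
    have h6 : 8 / Real.sqrt m * (dn U m (fun S => F S ^ 2) - φ ^ 2) ≤ 8 / Real.sqrt m * φ := by
      apply mul_le_mul_of_nonneg_left _ (by positivity)
      nlinarith [sq_nonneg φ]
    nlinarith
  calc 4 / φ ^ 2 * (EL (2 * m) U (fun l => nu l F ^ 2) + -2 * φ * φ + φ ^ 2) ≤
        4 / φ ^ 2 * (8 / Real.sqrt m * φ) := mul_le_mul_of_nonneg_left h5 (by positivity)
    _ = 32 / (Real.sqrt m * φ) := by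
        field_simp
        ring

end H96.TN
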