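import Pool.Agent.H96.TN.ELB

/-!
Module PERM (~200 lines): reordering of the slots; permutations versus random sequences.

`EL_perm`: induction on `List.Perm`; `cons y`: apply the induction hypothesis to
`g ↦ f (Function.update g y z)`; `swap y y'` (`y ≠ y'`): `EL (k+2) U` is the average over ordered
pairs `(z, z')` of distinct points, symmetric; `Function.update` commutes.

`EL_equiv`: both sides are unchanged if `f` is replaced by the average of
`f (σ ∘ ·)` over the permutations `σ` (for the right side: `EL_map` with `U = univ` and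
`asg ys (l.map σ) = σ ∘ asg ys l` for complete `ys`); and for a duplicate-free `l` of length
`card X`, `asg ys l` is a bijection, so this average is the left side.

`uni`: with the slot list `Q.toList ++ B.toList ++ B'.toList ++ rest`, from `EL_equiv`, `EL_append`,
`EL_toFinset`.
-/

namespace H96.TN

open Finset

theorem asg_map {Y X : Type*} [DecidableEq Y] [Inhabited X] (ys : List Y) (l : List X)
    (hnd : ys.Nodup) (hl : ys.length = l.length) : ys.map (asg ys l) = l := by
  induction ys generalizing l with
  | nil =>
    cases l with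
    | nil => rfl
    | cons z l => simp at hl
  | cons y ys ih =>
    cases l with
    | nil => simp at hl
    | cons z l =>
      have hy : y ∉ ys := (List.nodup_cons.1 hnd).1
      have hnd' : ys.Nodup := (List.nodup_cons.1 hnd).2
      have hl' : ys.length = l.length := by simpa using hl
      rw [List.map_cons]
      have e1 : asg (y :: ys) (z :: l) y = z := by simp [asg]
      have e2 : ys.map (asg (y :: ys) (z :: l)) = ys.map (asg ys l) := by
        apply List.map_congr_left
        intro x hx
        have : x ≠ y := fun h => hy (h ▸ hx)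
        simp [asg, Function.update_of_ne this]
      rw [e1, e2, ih l hnd' hl']

private theorem EL_two {X : Type*} [DecidableEq X] (k : ℕ) (U : Finset X) (f : List X → ℝ) :
    EL (k + 2) U f = (∑ z ∈ U, ∑ z' ∈ U.erase z,
      EL k ((U.erase z).erase z') (fun l => f (z :: z' :: l))) / ((#U : ℝ) * ((#U - 1 : ℕ) : ℝ)) := by
  have h1 : EL (k + 2) U f = (∑ z ∈ U, (∑ z' ∈ U.erase z,
      EL k ((U.erase z).erase z') (fun l => f (z :: z' :: l))) / ((U.erase z).card : ℝ)) /
        (U.card : ℝ) := rfl
  rw [h1]
  have h2 : ∀ z ∈ U, (∑ z' ∈ U.erase z,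
      EL k ((U.erase z).erase z') (fun l => f (z :: z' :: l))) / ((U.erase z).card : ℝ) =
      (∑ z' ∈ U.erase z,
      EL k ((U.erase z).erase z') (fun l => f (z :: z' :: l))) / ((#U - 1 : ℕ) : ℝ) := by
    intro z hz
    rw [Finset.card_erase_of_mem hz]
  rw [Finset.sum_congr rfl h2, ← Finset.sum_div, div_div, mul_comm ((#U - 1 : ℕ) : ℝ)]

theorem EL_perm {Y X : Type*} [DecidableEq Y] [DecidableEq X] [Inhabited X] (ys ys' : List Y)
    (h : ys.Perm ys') (hnd : ys.Nodup) (U : Finset X) (f : (Y → X) → ℝ) :
    EL ys.length U (fun l => f (asg ys l)) = EL ys.length U (fun l => f (asg ys' l)) := by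
  induction h generalizing U f with
  | nil => rfl
  | @cons y ys ys' _ ih =>
    have hnd' : ys.Nodup := (List.nodup_cons.1 hnd).2
    have h1 : ∀ ws : List Y, EL (ys.length + 1) U (fun l => f (asg (y :: ws) l)) =
        (∑ z ∈ U, EL ys.length (U.erase z) (fun l => f (Function.update (asg ws l) y z))) /
          (U.card : ℝ) := fun ws => rfl
    rw [List.length_cons, h1, h1]
    congr 1
    apply Finset.sum_congr rfl
    intro z _
    exact ih hnd' (U.erase z) (fun g => f (Function.update g y z))
  | swap x y l =>
    have hxy : x ≠ y := by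
      intro h
      subst h
      simp at hnd
    have h1 : ∀ (a b : Y), EL (l.length + 2) U (fun L => f (asg (a :: b :: l) L)) =
        (∑ z ∈ U, ∑ z' ∈ U.erase z, EL l.length ((U.erase z).erase z')
          (fun L => f (Function.update (Function.update (asg l L) b z') a z))) /
            ((#U : ℝ) * ((#U - 1 : ℕ) : ℝ)) := fun a b => EL_two _ _ _
    rw [List.length_cons, List.length_cons, h1, h1]
    congr 1
    rw [Finset.sum_comm' (s' := fun z' => U.erase z') (t' := U)]
    · apply Finset.sum_congr rfl
      intro z _
      apply Finset.sum_congr rfl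
      intro z' _
      rw [Finset.erase_right_comm]
      congr 1
      funext L
      rw [Function.update_comm hxy]
    · intro a b
      simp only [Finset.mem_erase]
      constructor
      · rintro ⟨h1, h2, h3⟩
        exact ⟨⟨Ne.symm h2, h1⟩, h3⟩
      · rintro ⟨⟨h1, h2⟩, h3⟩
        exact ⟨h2, Ne.symm h1, h3⟩
  | @trans l1 l2 l3 h1 h2 ih1 ih2 =>
    have hlen : l1.length = l2.length := h1.length_eq
    rw [ih1 hnd U f, hlen]
    exact ih2 (h1.nodup_iff.1 hnd) U f

theorem EL_equiv {X : Type*} [DecidableEq X] [Fintype X] [Inhabited X] (ys : List X)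
    (hnd : ys.Nodup) (hall : ∀ x, x ∈ ys) (f : (X → X) → ℝ) :
    (∑ π : Equiv.Perm X, f π) / ((Fintype.card X).factorial : ℝ) =
      EL (Fintype.card X) univ (fun l => f (asg ys l)) := by
  have hlen : ys.length = Fintype.card X := by
    have h1 : ys.toFinset = univ := by
      ext x
      simp [hall x]
    rw [← List.toFinset_card_of_nodup hnd, h1, Finset.card_univ]
  set N : ℝ := ((Fintype.card X).factorial : ℝ) with hN
  have hN0 : N ≠ 0 := by
    rw [hN]
    exact_mod_cast Nat.factorial_ne_zero _
  have hsym : ∀ σ : Equiv.Perm X, EL (Fintype.card X) univ (fun l => f (asg ys l)) =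
      EL (Fintype.card X) univ (fun l => f (asg ys (l.map σ))) := by
    intro σ
    have h1 := EL_map (Fintype.card X) (univ : Finset X) σ (fun l => f (asg ys l))
    rw [Finset.image_univ_of_surjective σ.surjective] at h1
    exact h1
  have h2 : N * EL (Fintype.card X) univ (fun l => f (asg ys l)) =
      EL (Fintype.card X) univ (fun l => ∑ σ : Equiv.Perm X, f (asg ys (l.map σ))) := by
    rw [EL_sum (Fintype.card X) univ univ (fun (σ : Equiv.Perm X) (l : List X) =>
      f (asg ys (l.map σ)))]
    have h2a : ∑ σ : Equiv.Perm X, EL (Fintype.card X) univ (fun l => f (asg ys (l.map σ))) =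
        ∑ _σ : Equiv.Perm X, EL (Fintype.card X) univ (fun l => f (asg ys l)) :=
      Finset.sum_congr rfl (fun σ _ => (hsym σ).symm)
    rw [h2a]
    simp only [Finset.sum_const, Finset.card_univ, Fintype.card_perm, nsmul_eq_mul, hN]
  have h3 : EL (Fintype.card X) univ (fun l => ∑ σ : Equiv.Perm X, f (asg ys (l.map σ))) =
      EL (Fintype.card X) (univ : Finset X) (fun _ => ∑ π : Equiv.Perm X, f π) := by
    apply EL_congr
    intro l hl1 hl2 _
    have hm := asg_map ys l hnd (by rw [hlen, hl2])
    have hinj : Function.Injective (asg ys l) := by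
      intro a b hab
      have h4 : (ys.map (asg ys l)).Nodup := by rw [hm]; exact hl1
      exact List.inj_on_of_nodup_map h4 (hall a) (hall b) hab
    have hbij : Function.Bijective (asg ys l) := Finite.injective_iff_bijective.1 hinj
    let ρ : Equiv.Perm X := Equiv.ofBijective _ hbij
    have h5 : ∀ σ : Equiv.Perm X, asg ys (l.map σ) = ⇑(σ * ρ) := by
      intro σ
      have h6 := asg_map ys (l.map σ) hnd (by rw [hlen, List.length_map, hl2])
      have h7 : ys.map (⇑(σ * ρ)) = l.map σ := by
        have : (⇑(σ * ρ) : X → X) = σ ∘ asg ys l := rfl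
        rw [this, ← List.map_map, hm]
      have h8 : ys.map (asg ys (l.map σ)) = ys.map (⇑(σ * ρ)) := by rw [h6, h7]
      funext x
      exact List.map_inj_left.1 h8 x (hall x)
    rw [Finset.sum_congr rfl (fun σ _ => by rw [h5 σ])]
    exact Equiv.sum_comp (Equiv.mulRight ρ) (fun π : Equiv.Perm X => f π)
  rw [h3, EL_const _ _ (by rw [Finset.card_univ])] at h2
  rw [← h2, mul_comm, mul_div_assoc, div_self hN0, mul_one]

private theorem image_of_map {Y X : Type*} [DecidableEq X] (Q : Finset Y) (g : Y → X)
    (l : List X) (h : Q.toList.map g = l) : Q.image g = l.toFinset := by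
  ext x
  rw [← h]
  simp

/-- the images of disjoint sets under a random permutation. -/
theorem uni {X : Type*} [DecidableEq X] [Fintype X] (Q B B' : Finset X) (h1 : Disjoint Q B)
    (h2 : Disjoint Q B') (h3 : Disjoint B B') (F : Finset X → Finset X → Finset X → ℝ) :
    (∑ τ : Equiv.Perm X, F (Q.image τ) (B.image τ) (B'.image τ)) /
        ((Fintype.card X).factorial : ℝ) =
      dn univ (#Q) (fun Q1 => dn (univ \ Q1) (#B) (fun B1 => dn ((univ \ Q1) \ B1) (#B')
        (fun B2 => F Q1 B1 B2))) := by
  rcases isEmpty_or_nonempty X with hX | hX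
  · have e : ∀ S : Finset X, S = ∅ := fun S => Finset.eq_empty_of_isEmpty S
    rw [e Q, e B, e B']
    simp [dn]
  · have : Inhabited X := Classical.inhabited_of_nonempty hX
    set R : Finset X := univ \ (Q ∪ (B ∪ B')) with hR
    have hQR : Disjoint Q R := by
      rw [Finset.disjoint_left]; intro x hx hx'
      simp [hR, hx] at hx'
    have hBR : Disjoint B R := by
      rw [Finset.disjoint_left]; intro x hx hx'
      simp [hR, hx] at hx'
    have hBR' : Disjoint B' R := by
      rw [Finset.disjoint_left]; intro x hx hx'
      simp [hR, hx] at hx'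
    have hcard : Fintype.card X = #Q + (#B + (#B' + #R)) := by
      rw [← Finset.card_univ, ← Finset.card_union_of_disjoint hBR',
        ← Finset.card_union_of_disjoint (Finset.disjoint_union_right.2 ⟨h3, hBR⟩),
        ← Finset.card_union_of_disjoint (Finset.disjoint_union_right.2
          ⟨h1, Finset.disjoint_union_right.2 ⟨h2, hQR⟩⟩)]
      congr 1
      ext x
      simp only [hR, Finset.mem_univ, Finset.mem_union, Finset.mem_sdiff, true_and, true_iff]
      tauto
    set ys : List X := Q.toList ++ (B.toList ++ (B'.toList ++ R.toList)) with hys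
    have hnd : ys.Nodup := by
      rw [hys, List.nodup_append, List.nodup_append, List.nodup_append]
      refine ⟨Q.nodup_toList, ⟨B.nodup_toList, ⟨B'.nodup_toList, R.nodup_toList, ?_⟩, ?_⟩, ?_⟩
      · intro a ha b hb hab
        subst hab
        exact Finset.disjoint_left.1 hBR' (Finset.mem_toList.1 ha) (Finset.mem_toList.1 hb)
      · intro a ha b hb hab
        subst hab
        rw [List.mem_append] at hb
        rcases hb with hb | hb
        · exact Finset.disjoint_left.1 h3 (Finset.mem_toList.1 ha) (Finset.mem_toList.1 hb)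
        · exact Finset.disjoint_left.1 hBR (Finset.mem_toList.1 ha) (Finset.mem_toList.1 hb)
      · intro a ha b hb hab
        subst hab
        rw [List.mem_append, List.mem_append] at hb
        rcases hb with hb | hb | hb
        · exact Finset.disjoint_left.1 h1 (Finset.mem_toList.1 ha) (Finset.mem_toList.1 hb)
        · exact Finset.disjoint_left.1 h2 (Finset.mem_toList.1 ha) (Finset.mem_toList.1 hb)
        · exact Finset.disjoint_left.1 hQR (Finset.mem_toList.1 ha) (Finset.mem_toList.1 hb)
    have hall : ∀ x, x ∈ ys := by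
      intro x
      simp only [hys, List.mem_append, Finset.mem_toList, hR, Finset.mem_sdiff, Finset.mem_univ,
        Finset.mem_union, true_and]
      tauto
    rw [EL_equiv ys hnd hall (fun g => F (Q.image g) (B.image g) (B'.image g)), hcard,
      EL_append (#Q) (#B + (#B' + #R)), ← EL_toFinset (#Q) univ (Finset.card_le_univ Q)]
    apply EL_congr
    intro l1 hn1 hl1 _
    have c1 : #(univ \ l1.toFinset) = #B + (#B' + #R) := by
      rw [Finset.card_sdiff_of_subset (Finset.subset_univ _), Finset.card_univ, hcard,
        List.toFinset_card_of_nodup hn1, hl1]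
      omega
    rw [EL_append (#B) (#B' + #R), ← EL_toFinset (#B) (univ \ l1.toFinset) (by omega)]
    apply EL_congr
    intro l2 hn2 hl2 hm2
    have c2 : #((univ \ l1.toFinset) \ l2.toFinset) = #B' + #R := by
      rw [Finset.card_sdiff_of_subset, c1, List.toFinset_card_of_nodup hn2, hl2]
      · omega
      · intro x hx
        exact hm2 x (List.mem_toFinset.1 hx)
    rw [EL_append (#B') (#R), ← EL_toFinset (#B') ((univ \ l1.toFinset) \ l2.toFinset) (by omega)]
    apply EL_congr
    intro l3 hn3 hl3 hm3
    have c3 : #(((univ \ l1.toFinset) \ l2.toFinset) \ l3.toFinset) = #R := by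
      rw [Finset.card_sdiff_of_subset, c2, List.toFinset_card_of_nodup hn3, hl3]
      · omega
      · intro x hx
        exact hm3 x (List.mem_toFinset.1 hx)
    rw [← EL_const (#R) (((univ \ l1.toFinset) \ l2.toFinset) \ l3.toFinset) c3.ge
      (F l1.toFinset l2.toFinset l3.toFinset)]
    apply EL_congr
    intro l4 _ hl4 _
    have hm := asg_map ys (l1 ++ (l2 ++ (l3 ++ l4))) hnd (by
      simp only [hys, List.length_append, Finset.length_toList, hl1, hl2, hl3, hl4])
    set g := asg ys (l1 ++ (l2 ++ (l3 ++ l4))) with hg
    rw [hys, List.map_append, List.map_append, List.map_append] at hm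
    obtain ⟨e1, hm⟩ := List.append_inj hm (by simp [hl1])
    obtain ⟨e2, hm⟩ := List.append_inj hm (by simp [hl2])
    obtain ⟨e3, hm⟩ := List.append_inj hm (by simp [hl3])
    rw [image_of_map Q g l1 e1, image_of_map B g l2 e2, image_of_map B' g l3 e3]

end H96.TN
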