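import Pool.Agent.H96.TN.Step
import Pool.Agent.H96.TN.Match
import Pool.Agent.H96.TN.Perm

/-!
Module STAGEB (~200 lines). Uses `step_out`, `match_prob`, `EL_perm`, `EL_append`, `asg`.

`R = ms.toFinset \ E`, `m' = m - e = #R`. Let `es`, `rs` be lists of `E`, `R`; `es ++ rs` is a
permutation of `ms`, so `pslots (es ++ rs)` is a permutation of `pslots ms`, and by `EL_perm` we may
replace `pslots ms` by `pslots es ++ pslots rs`. The set of sections only looks at the points
of the slots of `rs`: after `2e` points `l1`, with `U' = U \ l1`, `#U' = 2 m'`, it is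
`nsec R (asg (pslots rs) l2 (·,false)) (… true) f = 2^m' * nu l2 f` (lemma `nsec_eq_nu`, induction on
`rs`: `nsec (insert y R) q0 q1 f = nsec R q0 q1 (inn (q0 y) f) + nsec R q0 q1 (inn (q1 y) f)`).
Process the `2e` points as OUT steps: at a step with density `φ_t ≥ exp(-Λ)/2^t` the next point is
bad with probability `≤ κ (-log φ_t) ≤ κ (Λ + 2e)` (`step_out`; `w ≤ s = m-e`,
`s + w ≤ #U_t` for `t < 2e`), otherwise `φ_{t+1} ≥ φ_t/2`. So with probability
`≥ 1 - 2e κ (Λ + 2e)` the density of `f` on the `m'`-subsets of `U'` is `φ' ≥ exp(-Λ)/4^e`, and then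
`match_prob` gives `nu l2 f > φ'/2` with probability `≥ 1 - 32/(√m' φ')`; and
`2^m' φ'/2 ≥ 2` by `hbig`.
-/

namespace H96.TN

open Finset

variable {X Y : Type*} [DecidableEq X] [DecidableEq Y] [Inhabited X]

theorem stageB_nsec_congr (R : Finset Y) (q0 q1 q0' q1' : Y → X) (f : Finset X → ℝ)
    (h0 : ∀ y ∈ R, q0 y = q0' y) (h1 : ∀ y ∈ R, q1 y = q1' y) :
    nsec R q0 q1 f = nsec R q0' q1' f := by
  unfold nsec
  refine sum_congr rfl fun C hC => ?_
  rw [mem_powerset] at hC
  have e0 : C.image q0 = C.image q0' := image_congr fun y hy => h0 y (hC hy)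
  have e1 : (R \ C).image q1 = (R \ C).image q1' :=
    image_congr fun y hy => h1 y (mem_sdiff.1 hy).1
  rw [e0, e1]

theorem stageB_nsec_insert (R : Finset Y) (y : Y) (hy : y ∉ R) (q0 q1 : Y → X)
    (f : Finset X → ℝ) :
    nsec (insert y R) q0 q1 f =
      2 * nsec R q0 q1 (fun S => (f (insert (q0 y) S) + f (insert (q1 y) S)) / 2) := by
  unfold nsec
  rw [sum_powerset_insert hy, mul_sum, ← sum_add_distrib]
  refine sum_congr rfl fun C hC => ?_
  rw [mem_powerset] at hC
  have hyC : y ∉ C := fun h => hy (hC h)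
  have e1 : insert y R \ C = insert y (R \ C) := insert_sdiff_of_notMem _ hyC
  have e2 : insert y R \ insert y C = R \ C := by
    ext x
    simp only [mem_sdiff, mem_insert, not_or]
    constructor
    · rintro ⟨h1, h2, h3⟩
      exact ⟨h1.resolve_left h2, h3⟩
    · rintro ⟨h1, h2⟩
      exact ⟨Or.inr h1, fun h => hy (h ▸ h1), h2⟩
  rw [e1, e2, image_insert, image_insert, union_insert, insert_union]
  ring

theorem nsec_eq_nu (rs : List Y) (hnd : rs.Nodup) (l : List X) (hl : l.length = 2 * rs.length)
    (f : Finset X → ℝ) :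
    nsec rs.toFinset (fun y => asg (pslots rs) l (y, false))
      (fun y => asg (pslots rs) l (y, true)) f = 2 ^ rs.length * nu l f := by
  induction rs generalizing l f with
  | nil =>
    have h0 : l = [] := by
      rw [← List.length_eq_zero_iff]
      simpa using hl
    subst h0
    simp [nsec, nu]
  | cons y rs ih =>
    match l, hl with
    | z :: z' :: l, hl =>
      have hy : y ∉ rs := (List.nodup_cons.1 hnd).1
      have hl' : l.length = 2 * rs.length := by
        simp only [List.length_cons] at hl
        omega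
      have hq0 : asg (pslots (y :: rs)) (z :: z' :: l) (y, false) = z := by
        simp [pslots, asg]
      have hq1 : asg (pslots (y :: rs)) (z :: z' :: l) (y, true) = z' := by
        simp [pslots, asg, Function.update]
      rw [List.toFinset_cons, stageB_nsec_insert _ _ (by simpa using hy)]
      simp only [hq0, hq1]
      rw [stageB_nsec_congr rs.toFinset _ _ (fun y => asg (pslots rs) l (y, false))
        (fun y => asg (pslots rs) l (y, true)), ih (List.nodup_cons.1 hnd).2 l hl']
      · have : nu (z :: z' :: l) f = nu l (fun S => (f (insert z S) + f (insert z' S)) / 2) := rfl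
        rw [this, List.length_cons, pow_succ]
        ring
      · intro y' hy'
        have hne : y' ≠ y := fun h => hy (h ▸ List.mem_toFinset.1 hy')
        simp [pslots, asg, Function.update, hne]
      · intro y' hy'
        have hne : y' ≠ y := fun h => hy (h ▸ List.mem_toFinset.1 hy')
        simp [pslots, asg, Function.update, hne]

omit [DecidableEq Y] in
theorem stageB_pslots (l : List Y) :
    pslots l = l.flatMap (fun y => [(y, false), (y, true)]) := by
  induction l with
  | nil => rfl
  | cons y l ih => simp [pslots, ih]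

omit [DecidableEq Y] in
theorem stageB_pslots_length (l : List Y) : (pslots l).length = 2 * l.length := by
  induction l with
  | nil => rfl
  | cons y l ih =>
    simp only [pslots, List.length_cons, ih]
    ring

omit [DecidableEq Y] in
theorem stageB_pslots_append (l l' : List Y) : pslots (l ++ l') = pslots l ++ pslots l' := by
  rw [stageB_pslots, stageB_pslots, stageB_pslots, List.flatMap_append]

omit [DecidableEq Y] in
theorem stageB_mem_pslots (l : List Y) (y : Y) (b : Bool) : (y, b) ∈ pslots l ↔ y ∈ l := by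
  rw [stageB_pslots, List.mem_flatMap]
  constructor
  · rintro ⟨a, ha, h⟩
    simp only [List.mem_cons, Prod.mk.injEq, List.not_mem_nil, or_false] at h
    rcases h with h | h
    · rw [h.1]
      exact ha
    · rw [h.1]
      exact ha
  · intro h
    refine ⟨y, h, ?_⟩
    cases b <;> simp

omit [DecidableEq Y] in
theorem stageB_pslots_nodup (l : List Y) (h : l.Nodup) : (pslots l).Nodup := by
  induction l with
  | nil => exact List.nodup_nil
  | cons y l ih =>
    obtain ⟨h1, h2⟩ := List.nodup_cons.1 h
    rw [pslots, List.nodup_cons, List.nodup_cons]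
    refine ⟨?_, ?_, ih h2⟩
    · rw [List.mem_cons, stageB_mem_pslots]
      rintro (h | h)
      · simp at h
      · exact h1 h
    · rw [stageB_mem_pslots]
      exact h1

omit [DecidableEq X] in
theorem stageB_asg_append {Z : Type*} [DecidableEq Z] (ys ys' : List Z) (l l' : List X)
    (hl : ys.length = l.length) (z : Z) (hz : z ∉ ys) :
    asg (ys ++ ys') (l ++ l') z = asg ys' l' z := by
  induction ys generalizing l with
  | nil =>
    have h0 : l = [] := by
      rw [← List.length_eq_zero_iff]
      simpa using hl.symm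
    subst h0
    rfl
  | cons y ys ih =>
    match l, hl with
    | x :: l, hl =>
      rw [List.mem_cons, not_or] at hz
      rw [List.cons_append, List.cons_append, asg, Function.update_of_ne hz.1]
      exact ih l (by simpa using hl) hz.2

/-- `t` forced OUT steps. -/
theorem stageB_outs (n w s M : ℕ) (hw : 1 ≤ w) (hws : w ≤ s) (hsM : s + w ≤ M)
    (f : Finset X → ℝ) (hf0 : ∀ S, 0 ≤ f S) (hf1 : ∀ S, f S ≤ 1) (t : ℕ) :
    ∀ (U : Finset X) (L : ℝ), #U = M + t → #U ≤ n → 0 ≤ L → Real.exp (-L) ≤ dn U s f →
      EL t U (fun l => ind (dn (U \ l.toFinset) s f < Real.exp (-L) / 2 ^ t)) ≤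
        t * (16 * n / (w : ℝ) ^ 2) * (L + t) := by
  induction t with
  | zero =>
    intro U L hU hn hL hφ
    rw [elb_zero, elb_ind_neg]
    · simp
    · rw [List.toFinset_nil, sdiff_empty, pow_zero, div_one, not_lt]
      exact hφ
  | succ t ih =>
    intro U L hU hn hL hφ
    have hK : (0 : ℝ) ≤ 16 * n / (w : ℝ) ^ 2 := by positivity
    generalize hKd : (16 * n / (w : ℝ) ^ 2 : ℝ) = K at hK ih
    have hUpos : (0 : ℝ) < (#U : ℝ) := by
      have : 0 < #U := by omega
      exact_mod_cast this
    have hφpos : 0 < dn U s f := lt_of_lt_of_le (Real.exp_pos _) hφ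
    obtain ⟨Bad, hBU, hBc, -, hgood, -⟩ :=
      step_out U s f hf0 hf1 n w hw hws (by omega) hn hφpos
    rw [hKd] at hBc
    have hlog : -Real.log (dn U s f) ≤ L := by
      have := Real.log_le_log (Real.exp_pos _) hφ
      rw [Real.log_exp] at this
      linarith
    have hl2 : Real.log 2 ≤ 1 := by
      have := Real.log_two_lt_d9
      linarith
    have hl2' : 0 ≤ Real.log 2 := Real.log_nonneg (by norm_num)
    rw [elb_succ, div_le_iff₀ hUpos]
    have hterm : ∀ z ∈ U, EL t (U.erase z) (fun l =>
        ind (dn (U \ (z :: l).toFinset) s f < Real.exp (-L) / 2 ^ (t + 1))) ≤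
        (if z ∈ Bad then (1 : ℝ) else 0) + t * K * (L + (t + 1)) := by
      intro z hz
      have hcz : #(U.erase z) = M + t := by
        rw [card_erase_of_mem hz]
        omega
      have hnn : 0 ≤ (t : ℝ) * K * (L + (t + 1)) := by positivity
      by_cases hzB : z ∈ Bad
      · rw [if_pos hzB]
        have h1 : EL t (U.erase z) (fun l =>
            ind (dn (U \ (z :: l).toFinset) s f < Real.exp (-L) / 2 ^ (t + 1))) ≤
            EL t (U.erase z) (fun _ => (1 : ℝ)) :=
          EL_mono _ _ _ _ fun l _ _ _ => ind_le_one _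
        rw [EL_const _ _ (by omega)] at h1
        linarith
      · rw [if_neg hzB, zero_add]
        have hd := hgood z (mem_sdiff.2 ⟨hz, hzB⟩)
        have hexp : Real.exp (-(L + Real.log 2)) = Real.exp (-L) / 2 := by
          rw [neg_add, Real.exp_add, Real.exp_neg (Real.log 2), Real.exp_log (by norm_num)]
          rfl
        have h1 := ih (U.erase z) (L + Real.log 2) hcz
          ((card_le_card (erase_subset _ _)).trans hn) (by linarith) (by
            rw [hexp]
            linarith)
        rw [hexp, div_div, ← pow_succ'] at h1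
        have h2 : ∀ l : List X, U \ (z :: l).toFinset = U.erase z \ l.toFinset := by
          intro l
          rw [List.toFinset_cons, sdiff_insert, erase_sdiff_comm]
        simp only [h2]
        refine h1.trans ?_
        apply mul_le_mul_of_nonneg_left _ (by positivity)
        linarith
    refine (sum_le_sum hterm).trans ?_
    rw [sum_add_distrib, sum_ite_mem, inter_eq_right.2 hBU]
    simp only [sum_const, nsmul_eq_mul, mul_one]
    have h3 : (#Bad : ℝ) ≤ #U * (K * L) :=
      hBc.trans (mul_le_mul_of_nonneg_left (mul_le_mul_of_nonneg_left hlog hK) hUpos.le)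
    have h4 : (0 : ℝ) ≤ #U * (K * (t + 1)) := by positivity
    push_cast
    have e : ((t : ℝ) + 1) * K * (L + (t + 1)) * #U =
        #U * (K * L) + #U * (K * (t + 1)) + #U * (t * K * (L + (t + 1))) := by ring
    rw [e]
    linarith

theorem stageB (n w m e : ℕ) (Λ : ℝ) (hw : 1 ≤ w) (hme : w + e ≤ m) (hn : 2 * m ≤ n)
    (hΛ : 0 ≤ Λ) (hbig : 4 * 4 ^ e * Real.exp Λ ≤ 2 ^ (m - e)) (ms : List Y) (hnd : ms.Nodup)
    (hlen : ms.length = m) (E : Finset Y) (hE : E ⊆ ms.toFinset) (hEc : #E = e)
    (U : Finset X) (hU : #U = 2 * m) (f : Finset X → ℝ) (hf0 : ∀ S, 0 ≤ f S)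
    (hf1 : ∀ S, f S ≤ 1) (hφ : Real.exp (-Λ) ≤ dn U (m - e) f) :
    EL (2 * m) U (fun l => ind (nsec (ms.toFinset \ E) (fun y => asg (pslots ms) l (y, false))
      (fun y => asg (pslots ms) l (y, true)) f < 2)) ≤
      2 * e * (16 * n / (w : ℝ) ^ 2) * (Λ + 2 * e) +
        32 * 4 ^ e * Real.exp Λ / Real.sqrt ((m : ℝ) - e) := by
  obtain ⟨m', hm'⟩ : ∃ m', m = m' + e := ⟨m - e, by omega⟩
  subst hm'
  have hm1 : 1 ≤ m' := by omega
  rw [Nat.add_sub_cancel] at hbig hφ
  have hcast : (((m' + e : ℕ) : ℝ) - e) = m' := by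
    push_cast
    ring
  rw [hcast]
  set es := E.toList with hes
  set rs := (ms.toFinset \ E).toList with hrs
  have hesl : es.length = e := by rw [hes, length_toList, hEc]
  have hmsc : #(ms.toFinset) = m' + e := by
    rw [List.toFinset_card_of_nodup hnd, hlen]
  have hrsl : rs.length = m' := by
    rw [hrs, length_toList, card_sdiff_of_subset hE, hmsc, hEc]
    omega
  have hrsn : rs.Nodup := nodup_toList _
  have hrsf : rs.toFinset = ms.toFinset \ E := by rw [hrs, toList_toFinset]
  have hperm : ms.Perm (es ++ rs) := by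
    rw [List.perm_ext_iff_of_nodup hnd]
    · intro a
      rw [List.mem_append, hes, hrs, mem_toList, mem_toList, mem_sdiff, List.mem_toFinset]
      constructor
      · intro h
        by_cases ha : a ∈ E
        · exact Or.inl ha
        · exact Or.inr ⟨h, ha⟩
      · rintro (h | h)
        · exact List.mem_toFinset.1 (hE h)
        · exact h.1
    · rw [List.nodup_append]
      refine ⟨nodup_toList _, nodup_toList _, ?_⟩
      intro a ha b hb hab
      rw [hes, mem_toList] at ha
      rw [hrs, mem_toList, mem_sdiff] at hb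
      exact hb.2 (hab ▸ ha)
  have hpp : (pslots ms).Perm (pslots es ++ pslots rs) := by
    rw [← stageB_pslots_append, stageB_pslots, stageB_pslots]
    exact hperm.flatMap_right _
  have hpl : (pslots ms).length = 2 * (m' + e) := by rw [stageB_pslots_length, hlen]
  have h1 := EL_perm (pslots ms) (pslots es ++ pslots rs) hpp (stageB_pslots_nodup ms hnd) U
    (fun g : Y × Bool → X => ind (nsec (ms.toFinset \ E) (fun y => g (y, false))
      (fun y => g (y, true)) f < 2))
  rw [hpl] at h1
  rw [h1]
  have hsum : 2 * (m' + e) = 2 * e + 2 * m' := by ring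
  have hUc : #U = 2 * m' + 2 * e := by omega
  rw [hsum, EL_append]
  have hexp0 : 0 < Real.exp (-Λ) := Real.exp_pos _
  have h4e : (0 : ℝ) < 4 ^ e := by positivity
  have h22 : (2 : ℝ) ^ (2 * e) = 4 ^ e := by
    rw [pow_mul]
    norm_num
  have hkey : EL (2 * e) U (fun l1 => EL (2 * m') (U \ l1.toFinset) (fun l2 =>
      ind (nsec (ms.toFinset \ E) (fun y => asg (pslots es ++ pslots rs) (l1 ++ l2) (y, false))
        (fun y => asg (pslots es ++ pslots rs) (l1 ++ l2) (y, true)) f < 2))) ≤
      EL (2 * e) U (fun l1 => ind (dn (U \ l1.toFinset) m' f < Real.exp (-Λ) / 2 ^ (2 * e)) +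
        32 * 4 ^ e * Real.exp Λ / Real.sqrt (m' : ℝ)) := by
    refine EL_mono _ _ _ _ fun l1 hl1n hl1l hl1U => ?_
    have hU' : #(U \ l1.toFinset) = 2 * m' := by
      rw [card_sdiff_of_subset (fun x hx => hl1U x (List.mem_toFinset.1 hx)), hUc,
        List.toFinset_card_of_nodup hl1n, hl1l]
      omega
    have hs0 : 0 < Real.sqrt (m' : ℝ) := Real.sqrt_pos.2 (by exact_mod_cast hm1)
    have hpos2 : 0 ≤ 32 * 4 ^ e * Real.exp Λ / Real.sqrt (m' : ℝ) := by positivity
    by_cases hd : dn (U \ l1.toFinset) m' f < Real.exp (-Λ) / 2 ^ (2 * e)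
    · rw [elb_ind_pos hd]
      have h2 : EL (2 * m') (U \ l1.toFinset) (fun l2 =>
          ind (nsec (ms.toFinset \ E)
            (fun y => asg (pslots es ++ pslots rs) (l1 ++ l2) (y, false))
            (fun y => asg (pslots es ++ pslots rs) (l1 ++ l2) (y, true)) f < 2)) ≤
          EL (2 * m') (U \ l1.toFinset) (fun _ => (1 : ℝ)) :=
        EL_mono _ _ _ _ fun l _ _ _ => ind_le_one _
      rw [EL_const _ _ (by omega)] at h2
      linarith
    · rw [elb_ind_neg hd, zero_add]
      rw [not_lt, h22] at hd
      have hdpos : 0 < dn (U \ l1.toFinset) m' f := lt_of_lt_of_le (by positivity) hd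
      have h3 := match_prob m' hm1 (U \ l1.toFinset) hU' f hf0 hf1 hdpos
      have h4 : EL (2 * m') (U \ l1.toFinset) (fun l2 =>
          ind (nsec (ms.toFinset \ E)
            (fun y => asg (pslots es ++ pslots rs) (l1 ++ l2) (y, false))
            (fun y => asg (pslots es ++ pslots rs) (l1 ++ l2) (y, true)) f < 2)) ≤
          EL (2 * m') (U \ l1.toFinset)
            (fun l => ind (nu l f ≤ dn (U \ l1.toFinset) m' f / 2)) := by
        refine EL_mono _ _ _ _ fun l2 _ hl2l _ => ind_mono fun hlt => ?_
        have h5 : nsec (ms.toFinset \ E)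
            (fun y => asg (pslots es ++ pslots rs) (l1 ++ l2) (y, false))
            (fun y => asg (pslots es ++ pslots rs) (l1 ++ l2) (y, true)) f =
            2 ^ m' * nu l2 f := by
          have h6 := nsec_eq_nu rs hrsn l2 (by rw [hl2l, hrsl]) f
          rw [hrsl, hrsf] at h6
          rw [← h6]
          have hle : (pslots es).length = l1.length := by
            rw [stageB_pslots_length, hesl, hl1l]
          have hnotin : ∀ y ∈ ms.toFinset \ E, ∀ b, (y, b) ∉ pslots es := by
            intro y hy b hb
            rw [stageB_mem_pslots, hes, mem_toList] at hb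
            exact (mem_sdiff.1 hy).2 hb
          exact stageB_nsec_congr _ _ _ _ _ _
            (fun y hy => stageB_asg_append _ _ _ _ hle _ (hnotin y hy false))
            (fun y hy => stageB_asg_append _ _ _ _ hle _ (hnotin y hy true))
        rw [h5] at hlt
        by_contra hcon
        rw [not_le] at hcon
        have h7 : (4 : ℝ) ≤ 2 ^ m' * dn (U \ l1.toFinset) m' f := by
          have h8 : 4 * 4 ^ e * Real.exp Λ * (Real.exp (-Λ) / 4 ^ e) = 4 := by
            rw [Real.exp_neg]
            field_simp
          calc (4 : ℝ) = 4 * 4 ^ e * Real.exp Λ * (Real.exp (-Λ) / 4 ^ e) := h8.symm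
            _ ≤ 2 ^ m' * (Real.exp (-Λ) / 4 ^ e) :=
                mul_le_mul_of_nonneg_right hbig (by positivity)
            _ ≤ 2 ^ m' * dn (U \ l1.toFinset) m' f :=
                mul_le_mul_of_nonneg_left hd (by positivity)
        have h9 : (2 : ℝ) ^ m' * (dn (U \ l1.toFinset) m' f / 2) < 2 ^ m' * nu l2 f :=
          mul_lt_mul_of_pos_left hcon (by positivity)
        linarith
      refine h4.trans (h3.trans ?_)
      rw [div_le_div_iff₀ (by positivity) hs0]
      have h10 : 1 ≤ 4 ^ e * Real.exp Λ * dn (U \ l1.toFinset) m' f := by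
        have h8 : 4 ^ e * Real.exp Λ * (Real.exp (-Λ) / 4 ^ e) = 1 := by
          rw [Real.exp_neg]
          field_simp
        calc (1 : ℝ) = 4 ^ e * Real.exp Λ * (Real.exp (-Λ) / 4 ^ e) := h8.symm
          _ ≤ 4 ^ e * Real.exp Λ * dn (U \ l1.toFinset) m' f :=
              mul_le_mul_of_nonneg_left hd (by positivity)
      have h11 := mul_le_mul_of_nonneg_left h10 (by positivity : 0 ≤ 32 * Real.sqrt (m' : ℝ))
      calc 32 * Real.sqrt (m' : ℝ) = 32 * Real.sqrt (m' : ℝ) * 1 := (mul_one _).symm
        _ ≤ 32 * Real.sqrt (m' : ℝ) * (4 ^ e * Real.exp Λ * dn (U \ l1.toFinset) m' f) := h11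
        _ = 32 * 4 ^ e * Real.exp Λ * (Real.sqrt (m' : ℝ) * dn (U \ l1.toFinset) m' f) := by
            ring
  refine hkey.trans ?_
  rw [EL_add, EL_const _ _ (by omega)]
  have hout := stageB_outs n w m' (2 * m') hw (by omega) (by omega) f hf0 hf1 (2 * e) U Λ hUc
    (by omega) hΛ hφ
  push_cast at hout
  linarith

end H96.TN
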