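import Pool.Agent.H96.TN.Defs2
import Pool.Agent.H96.TN.StageB

/-!
Module PHI (~100 lines): the end condition `Phi` holds with high probability. Uses `stageB`,
`EL_sum`, `EL_markov`.

If `D` has duplicates or is not contained in `ms` then `Phi` holds trivially. Otherwise, with
`M = ms.toFinset`, for every `Bl ⊆ M \ D` with `#Bl = j0 - |B|`, `E = D ∪ Bl` has
`e = |D| + j0 - |B| ≤ K = k0 + j0` elements, `s = m - e`, `(M \ D) \ Bl = M \ E`, and `stageB` bounds the
probability that `nsec < 2` by `ε₁` (monotone in `e ≤ K`). So the expected number of failing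
`Bl` is at most `ε₁ C(m-|D|, j0-|B|)`, Markov.
-/

namespace H96.TN

open Finset

variable {X Y : Type*} [DecidableEq X] [DecidableEq Y] [Inhabited X]

theorem phi_bound (n w m j0 k0 : ℕ) (Λ θ : ℝ) (hθ : 0 < θ) (hw : 1 ≤ w)
    (hme : w + (k0 + j0) ≤ m) (hn : 2 * m ≤ n) (hk : k0 ≤ j0) (hΛ : 0 ≤ Λ)
    (hbig : 4 * 4 ^ (k0 + j0) * Real.exp Λ ≤ 2 ^ (m - (k0 + j0))) (ms : List Y)
    (hnd : ms.Nodup) (hlen : ms.length = m) (U : Finset X) (s : ℕ) (f : Finset X → ℝ)
    (B D : List Y) (hU : #U = 2 * m) (hs : s + j0 + D.length = m + B.length)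
    (hB : B.length ≤ k0) (hD : D.length ≤ k0) (hf0 : ∀ S, 0 ≤ f S) (hf1 : ∀ S, f S ≤ 1)
    (hφ : Real.exp (-Λ) ≤ dn U s f) :
    EL (2 * m) U (fun l => ind (¬ Phi ms j0 k0 θ l f B D)) ≤
      (2 * (k0 + j0) * (16 * n / (w : ℝ) ^ 2) * (Λ + 2 * (k0 + j0)) +
        32 * 4 ^ (k0 + j0) * Real.exp Λ / Real.sqrt ((m : ℝ) - (k0 + j0))) / θ := by
  classical
  have hwK : ((w : ℕ) : ℝ) + ((k0 : ℝ) + j0) ≤ m := by
    have h : ((w + (k0 + j0) : ℕ) : ℝ) ≤ m := by exact_mod_cast hme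
    push_cast at h
    exact h
  have hw' : (1 : ℝ) ≤ w := by exact_mod_cast hw
  have hε0 : 0 ≤ 2 * ((k0 : ℝ) + j0) * (16 * n / (w : ℝ) ^ 2) * (Λ + 2 * (k0 + j0)) +
      32 * 4 ^ (k0 + j0) * Real.exp Λ / Real.sqrt ((m : ℝ) - (k0 + j0)) := by positivity
  generalize hε1 : 2 * ((k0 : ℝ) + j0) * (16 * n / (w : ℝ) ^ 2) * (Λ + 2 * (k0 + j0)) +
      32 * 4 ^ (k0 + j0) * Real.exp Λ / Real.sqrt ((m : ℝ) - (k0 + j0)) = ε1 at hε0 ⊢
  by_cases hD' : D.Nodup ∧ ∀ y ∈ D, y ∈ ms
  swap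
  · have h0 : EL (2 * m) U (fun l => ind (¬ Phi ms j0 k0 θ l f B D)) ≤
        EL (2 * m) U (fun _ => (0 : ℝ)) :=
      EL_mono _ _ _ _ fun l _ _ _ => by
        rw [elb_ind_neg]
        intro h
        apply h
        exact ⟨hB, hD, fun h1 h2 => absurd ⟨h1, h2⟩ hD'⟩
    rw [EL_const _ _ (by omega)] at h0
    exact h0.trans (div_nonneg hε0 hθ.le)
  obtain ⟨hDn, hDm⟩ := hD'
  have hMc : ms.toFinset.card = m := by rw [List.toFinset_card_of_nodup hnd, hlen]
  have hDc : #D.toFinset = D.length := List.toFinset_card_of_nodup hDn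
  have hDM : D.toFinset ⊆ ms.toFinset :=
    fun y hy => List.mem_toFinset.2 (hDm y (List.mem_toFinset.1 hy))
  have hMD : #(ms.toFinset \ D.toFinset) = m - D.length := by
    rw [card_sdiff_of_subset hDM, hMc, hDc]
  set t := j0 - B.length with ht
  have hBj : B.length ≤ j0 := hB.trans hk
  set e := D.length + t with he
  have heK : e ≤ k0 + j0 := by omega
  have hse : m - e = s := by omega
  have htm : t ≤ m - D.length := by omega
  have hCpos : (0 : ℝ) < ((m - D.length).choose t : ℝ) := by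
    exact_mod_cast Nat.choose_pos htm
  set T := (ms.toFinset \ D.toFinset).powersetCard t with hT
  have hTc : (#T : ℝ) = ((m - D.length).choose t : ℝ) := by
    rw [hT, card_powersetCard, hMD]
  have hsingle : ∀ Bl ∈ T, EL (2 * m) U (fun l =>
      ind (nsec ((ms.toFinset \ D.toFinset) \ Bl) (fun y => asg (pslots ms) l (y, false))
        (fun y => asg (pslots ms) l (y, true)) f < 2)) ≤ ε1 := by
    intro Bl hBl
    rw [hT, mem_powersetCard] at hBl
    have hdisj : Disjoint D.toFinset Bl := by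
      rw [disjoint_left]
      intro y hy hy'
      exact (mem_sdiff.1 (hBl.1 hy')).2 hy
    have hEc : #(D.toFinset ∪ Bl) = e := by
      rw [card_union_of_disjoint hdisj, hDc, hBl.2]
    have hE : D.toFinset ∪ Bl ⊆ ms.toFinset :=
      union_subset hDM (hBl.1.trans sdiff_subset)
    have hsd : (ms.toFinset \ D.toFinset) \ Bl = ms.toFinset \ (D.toFinset ∪ Bl) := by
      ext y
      simp only [mem_sdiff, mem_union, not_or, and_assoc]
    have h44 : (4 : ℝ) ^ e ≤ 4 ^ (k0 + j0) := pow_le_pow_right₀ (by norm_num) heK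
    have hbig' : 4 * 4 ^ e * Real.exp Λ ≤ 2 ^ (m - e) := by
      have h1 : (2 : ℝ) ^ (m - (k0 + j0)) ≤ 2 ^ (m - e) :=
        pow_le_pow_right₀ (by norm_num) (by omega)
      have h2 : 4 * 4 ^ e * Real.exp Λ ≤ 4 * 4 ^ (k0 + j0) * Real.exp Λ := by
        have := Real.exp_pos Λ
        gcongr
      exact h2.trans (hbig.trans h1)
    have h := stageB n w m e Λ hw (by omega) hn hΛ hbig' ms hnd hlen (D.toFinset ∪ Bl) hE hEc
      U hU f hf0 hf1 (by rw [hse]; exact hφ)
    rw [← hsd] at h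
    refine h.trans ?_
    rw [← hε1]
    have heK' : (e : ℝ) ≤ (k0 : ℝ) + j0 := by
      have : ((e : ℕ) : ℝ) ≤ ((k0 + j0 : ℕ) : ℝ) := by exact_mod_cast heK
      push_cast at this
      exact this
    have he0 : (0 : ℝ) ≤ e := Nat.cast_nonneg _
    have hκ : (0 : ℝ) ≤ 16 * n / (w : ℝ) ^ 2 := by positivity
    have h1 : 2 * (e : ℝ) * (16 * n / (w : ℝ) ^ 2) * (Λ + 2 * e) ≤
        2 * ((k0 : ℝ) + j0) * (16 * n / (w : ℝ) ^ 2) * (Λ + 2 * (k0 + j0)) := by
      gcongr
    have h2 : 32 * 4 ^ e * Real.exp Λ / Real.sqrt ((m : ℝ) - e) ≤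
        32 * 4 ^ (k0 + j0) * Real.exp Λ / Real.sqrt ((m : ℝ) - (k0 + j0)) := by
      have h3 : 0 < Real.sqrt ((m : ℝ) - (k0 + j0)) := Real.sqrt_pos.2 (by linarith)
      have h4 : Real.sqrt ((m : ℝ) - (k0 + j0)) ≤ Real.sqrt ((m : ℝ) - e) :=
        Real.sqrt_le_sqrt (by linarith)
      have h5 := Real.exp_pos Λ
      gcongr
    linarith
  have hN : EL (2 * m) U (fun l => ∑ Bl ∈ T,
      ind (nsec ((ms.toFinset \ D.toFinset) \ Bl) (fun y => asg (pslots ms) l (y, false))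
        (fun y => asg (pslots ms) l (y, true)) f < 2)) ≤ ε1 * ((m - D.length).choose t : ℝ) := by
    rw [EL_sum]
    calc ∑ Bl ∈ T, EL (2 * m) U (fun l =>
        ind (nsec ((ms.toFinset \ D.toFinset) \ Bl) (fun y => asg (pslots ms) l (y, false))
        (fun y => asg (pslots ms) l (y, true)) f < 2)) ≤ ∑ _Bl ∈ T, ε1 := sum_le_sum hsingle
      _ = ε1 * ((m - D.length).choose t : ℝ) := by
        rw [sum_const, nsmul_eq_mul, hTc, mul_comm]
  have hmark := EL_markov (2 * m) U (by omega) (fun l => ∑ Bl ∈ T,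
      ind (nsec ((ms.toFinset \ D.toFinset) \ Bl) (fun y => asg (pslots ms) l (y, false))
        (fun y => asg (pslots ms) l (y, true)) f < 2))
    (fun l => sum_nonneg fun Bl _ => ind_nonneg _) (θ * ((m - D.length).choose t : ℝ))
    (mul_pos hθ hCpos)
  have hfin : EL (2 * m) U (fun l => ind (¬ Phi ms j0 k0 θ l f B D)) ≤
      EL (2 * m) U (fun l => ind (θ * ((m - D.length).choose t : ℝ) ≤ ∑ Bl ∈ T,
      ind (nsec ((ms.toFinset \ D.toFinset) \ Bl) (fun y => asg (pslots ms) l (y, false))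
        (fun y => asg (pslots ms) l (y, true)) f < 2))) := by
    refine EL_mono _ _ _ _ fun l _ _ _ => ind_mono fun hnot => ?_
    by_contra hcon
    apply hnot
    refine ⟨hB, hD, fun _ _ => ?_⟩
    rw [not_le] at hcon
    have hcard : (#{Bl ∈ (ms.toFinset \ D.toFinset).powersetCard (j0 - B.length) |
      nsec ((ms.toFinset \ D.toFinset) \ Bl) (fun y => asg (pslots ms) l (y, false))
        (fun y => asg (pslots ms) l (y, true)) f < 2} : ℝ) = ∑ Bl ∈ T,
      ind (nsec ((ms.toFinset \ D.toFinset) \ Bl) (fun y => asg (pslots ms) l (y, false))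
        (fun y => asg (pslots ms) l (y, true)) f < 2) := by
      rw [card_filter, Nat.cast_sum]
      refine sum_congr rfl fun Bl _ => ?_
      split_ifs with h
      · rw [elb_ind_pos h, Nat.cast_one]
      · rw [elb_ind_neg h, Nat.cast_zero]
    rw [hcard, hlen]
    exact hcon.le
  calc EL (2 * m) U (fun l => ind (¬ Phi ms j0 k0 θ l f B D)) ≤ _ := hfin
    _ ≤ _ := hmark
    _ ≤ ε1 * ((m - D.length).choose t : ℝ) / (θ * ((m - D.length).choose t : ℝ)) :=
        div_le_div_of_nonneg_right hN (mul_pos hθ hCpos).le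
    _ = ε1 / θ := by
        rw [mul_div_mul_right _ _ hCpos.ne']

end H96.TN
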