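import Pool.Agent.H96.TN.Core1a
import Pool.Agent.H96.TN.Items
import Pool.Agent.H96.TN.Expl
import Pool.Agent.H96.TN.PhiB

/-!
Module CORE1 (~150 lines). Uses `items`, `expl`, `phi_bound`, `ok_good`, `EL_equiv`, `asg_map`.

`f` = indicator of `B`, `dn univ r f = #B / C(n,r) ≥ θ0`. Let `ysAll = ys ++ pairs` (all slots,
`Nodup`). By `EL_equiv` with `F q = ind (¬ Ok Φ (ysAll.map q) its f [] [])`, `Φ = Phi ms j0 k0 θ1`,
and `asg_map`/`EL_congr`: `#{π | ¬ Ok Φ (ysAll.map π) its f [] []} = n! · EL n univ (ind ¬ Ok …)`,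
bounded by `expl` (`U = univ`, `s = r`, `B = D = []`, `εB` from `phi_bound`,
`nslot its = n - 2m ≤ n`, `-log (dn univ r f) ≤ -log θ0`). If `Ok` holds for `π` then `ok_good`.
-/

namespace H96.TN

open Finset

theorem core1_card_ind {α : Type*} (s : Finset α) (P : α → Prop) [DecidablePred P] :
    (#(s.filter P) : ℝ) = ∑ a ∈ s, ind (P a) := by
  classical
  rw [Finset.card_filter]
  push_cast
  refine Finset.sum_congr rfl (fun a _ => ?_)
  unfold ind
  split_ifs <;> rfl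

theorem core1_dn {n : ℕ} (B : Finset (Finset (Fin n))) (r : ℕ) (hB : ∀ I ∈ B, #I = r) :
    dn (univ : Finset (Fin n)) r (fun S => if S ∈ B then 1 else 0) =
      (#B : ℝ) / (n.choose r : ℝ) := by
  unfold dn
  rw [Finset.card_univ, Fintype.card_fin, Finset.sum_ite_mem, Finset.inter_eq_right.mpr ?_,
    Finset.sum_const, nsmul_eq_mul, mul_one]
  intro I hI
  rw [Finset.mem_powersetCard]
  exact ⟨Finset.subset_univ _, hB I hI⟩

open scoped Classical in
theorem core1 {n : ℕ} (g : Fin n → Fin n) (V : Finset (Fin n)) (hV : V ⊆ im g)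
    (B : Finset (Finset (Fin n))) (r j0 k0 w m R : ℕ) (Λ θ0 θ1 : ℝ)
    (hB : ∀ I ∈ B, #I = r) (hr : r + j0 = #V) (hm : m = #(P2 g V))
    (hR : ∀ y, #{x | g x = y} ≤ R) (hθ0 : 0 < θ0) (hθ0B : θ0 * n.choose r ≤ #B)
    (hθ1 : 0 < θ1) (hk0 : 1 ≤ k0) (hkj : k0 ≤ j0) (hw : 1 ≤ w) (hΛ : 0 < Λ)
    (hwm : w + k0 + j0 ≤ m)
    (hbig : 4 * 4 ^ (k0 + j0) * Real.exp Λ ≤ 2 ^ (m - (k0 + j0))) :
    (#{π : Equiv.Perm (Fin n) | ¬ ∃ Bl D : Finset (Fin n), Bl ⊆ P1 g V ∧ D ⊆ P2 g V ∧
        #Bl ≤ k0 ∧ #D ≤ k0 ∧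
        (#{Bl2 ∈ (P2 g V \ D).powersetCard (j0 - #Bl) |
          ¬ Sec2 B g π (V \ (Bl ∪ Bl2))} : ℝ) ≤
          θ1 * (#(P2 g V \ D)).choose (j0 - #Bl)} : ℝ) ≤
      ((1 + 16 * n / (w : ℝ) ^ 2) ^ n *
        (1 / Λ + 16 * n / (w : ℝ) ^ 2 * (#{x | g x ∉ V} + (k0 : ℝ) * R) +
          16 * n / (w : ℝ) ^ 2 / k0 * n) * (-Real.log θ0) +
        (2 * (k0 + j0) * (16 * n / (w : ℝ) ^ 2) * (Λ + 2 * (k0 + j0)) +
          32 * 4 ^ (k0 + j0) * Real.exp Λ / Real.sqrt ((m : ℝ) - (k0 + j0))) / θ1) *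
        n.factorial := by
  have hn0 : 0 < n := by
    have h1 : 0 < #(P2 g V) := by omega
    obtain ⟨y, _⟩ := Finset.card_pos.mp h1
    exact Fin.pos y
  have hinh : Inhabited (Fin n) := ⟨⟨0, hn0⟩⟩
  obtain ⟨its, ys, ms, p0, p1, hcompat, hyslen, hperm, hmsnd, hmsmem, hp, hsglnd, hsgl, hextnd,
    hext, hextR, hnsgl, hnout⟩ := items g V hV R hR
  have hms : ms.length = m := by
    have h1 : ms.toFinset = P2 g V := by
      ext y
      rw [List.mem_toFinset, hmsmem]
    rw [hm, ← h1, List.toFinset_card_of_nodup hmsnd]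
  have hflat : (ms.flatMap (fun y => [p0 y, p1 y])).length = 2 * m := by
    rw [← hms, List.length_flatMap]
    simp [mul_comm]
  set ysAll : List (Fin n) := ys ++ ms.flatMap (fun y => [p0 y, p1 y]) with hysAll
  have hnd : ysAll.Nodup := hperm.nodup_iff.mpr (List.nodup_finRange n)
  have hall : ∀ x, x ∈ ysAll := fun x => hperm.mem_iff.mpr (List.mem_finRange x)
  have hlen : ysAll.length = n := by rw [hperm.length_eq, List.length_finRange]
  have hslot : 2 * m + nslot its = n := by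
    have h1 := hlen
    rw [hysAll, List.length_append, hflat, hyslen] at h1
    omega
  obtain ⟨hV1, hV2, hV3⟩ := P1_P2 g V hV
  have hVn : #V ≤ n := by
    have := Finset.card_le_univ V
    rwa [Fintype.card_fin] at this
  have hrn : r ≤ n := by omega
  set f : Finset (Fin n) → ℝ := fun S => if S ∈ B then 1 else 0 with hf
  have hf0 : ∀ S, 0 ≤ f S := by
    intro S
    simp only [hf]
    split_ifs <;> norm_num
  have hf1 : ∀ S, f S ≤ 1 := by
    intro S
    simp only [hf]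
    split_ifs <;> norm_num
  have hchoose : (0 : ℝ) < n.choose r := by exact_mod_cast Nat.choose_pos hrn
  have hdn : θ0 ≤ dn univ r f := by
    rw [hf, core1_dn B r hB, le_div_iff₀ hchoose]
    exact hθ0B
  have hdn1 : dn univ r f ≤ 1 := dn_le_one _ _ _ hf1
  have hlog : -Real.log (dn univ r f) ≤ -Real.log θ0 :=
    neg_le_neg (Real.log_le_log hθ0 hdn)
  have hlog0 : 0 ≤ -Real.log (dn univ r f) := by
    have := Real.log_nonpos (hθ0.le.trans hdn) hdn1
    linarith
  -- constants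
  have hwR : (0 : ℝ) < w := by exact_mod_cast hw
  have hk0R : (0 : ℝ) < k0 := by exact_mod_cast hk0
  set κ : ℝ := 16 * n / (w : ℝ) ^ 2 with hκ
  have hκ0 : 0 ≤ κ := by positivity
  set εB : ℝ := (2 * (k0 + j0) * κ * (Λ + 2 * (k0 + j0)) +
          32 * 4 ^ (k0 + j0) * Real.exp Λ / Real.sqrt ((m : ℝ) - (k0 + j0))) / θ1 with hεB
  have hεB0 : 0 ≤ εB := by positivity
  -- the bound from `expl`
  have hexpl := expl (Phi ms j0 k0 θ1) m j0 k0 n w R Λ εB hw hk0 hΛ hεB0 (by omega)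
    (by
      intro U s f B D hU hs hB hD hf0 hf1 hφ
      exact phi_bound n w m j0 k0 Λ θ1 hθ1 hw (by omega) (by omega) hkj hΛ.le hbig ms hmsnd hms
        U s f B D hU hs hB hD hf0 hf1 hφ)
    its hextR univ r f [] [] (by rw [Finset.card_univ, Fintype.card_fin]; omega)
    (by rw [Finset.card_univ, Fintype.card_fin])
    (by
      rw [hnsgl, List.length_nil]
      omega)
    (Nat.zero_le _) (Nat.zero_le _) hf0 hf1 (hθ0.trans_le hdn)
  rw [Finset.card_univ, Fintype.card_fin] at hexpl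
  simp only [List.length_nil, Nat.cast_zero, sub_zero, add_zero, zero_div] at hexpl
  rw [← hκ] at hexpl
  -- compare the constants
  have hslotn : nslot its ≤ n := by omega
  have hbound : EL n univ (fun l => ind (¬ Ok (Phi ms j0 k0 θ1) l its f [] [])) ≤
      (1 + κ) ^ n * (1 / Λ + κ * (#{x | g x ∉ V} + (k0 : ℝ) * R) + κ / k0 * n) *
        (-Real.log θ0) + εB := by
    refine hexpl.trans ?_
    have h1 : (1 + κ) ^ nslot its ≤ (1 + κ) ^ n :=
      pow_le_pow_right₀ (by linarith) hslotn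
    have h2 : (nslot its : ℝ) ≤ n := by exact_mod_cast hslotn
    have h3 : (1 / Λ + κ * (nout its + (k0 : ℝ) * R) + κ / k0 * nslot its) ≤
        (1 / Λ + κ * (#{x | g x ∉ V} + (k0 : ℝ) * R) + κ / k0 * n) := by
      rw [hnout]
      have : κ / k0 * nslot its ≤ κ / k0 * n := mul_le_mul_of_nonneg_left h2 (by positivity)
      linarith
    have h4 : 0 ≤ (1 / Λ + κ * (nout its + (k0 : ℝ) * R) + κ / k0 * nslot its) := by positivity
    have h5 : (1 + κ) ^ nslot its *
        (1 / Λ + κ * (nout its + (k0 : ℝ) * R) + κ / k0 * nslot its) *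
        (-Real.log (dn univ r f)) ≤
        (1 + κ) ^ n * (1 / Λ + κ * (#{x | g x ∉ V} + (k0 : ℝ) * R) + κ / k0 * n) *
        (-Real.log θ0) := by
      refine mul_le_mul ?_ hlog hlog0 (by positivity)
      exact mul_le_mul h1 h3 h4 (by positivity)
    linarith
  -- from random sequences to permutations
  have heq := EL_equiv ysAll hnd hall
    (fun q : Fin n → Fin n => ind (¬ Ok (Phi ms j0 k0 θ1) (ysAll.map q) its f [] []))
  rw [Fintype.card_fin] at heq
  have hcongr : EL n univ (fun l => ind (¬ Ok (Phi ms j0 k0 θ1)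
      (ysAll.map (asg ysAll l)) its f [] [])) =
      EL n univ (fun l => ind (¬ Ok (Phi ms j0 k0 θ1) l its f [] [])) := by
    refine EL_congr n univ _ _ (fun l _ hl _ => ?_)
    rw [asg_map ysAll l hnd (by rw [hlen, hl])]
  rw [hcongr] at heq
  have hfact : (0 : ℝ) < n.factorial := by exact_mod_cast Nat.factorial_pos n
  rw [div_eq_iff hfact.ne'] at heq
  rw [core1_card_ind]
  refine le_trans ?_ (mul_le_mul_of_nonneg_right hbound hfact.le)
  rw [← heq]
  refine Finset.sum_le_sum (fun π _ => ?_)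
  refine ind_mono (fun hnot hok => hnot ?_)
  exact ok_good g V hV its ys ms p0 p1 hcompat hperm hmsnd hmsmem hp hsglnd hsgl hextnd hext B j0
    k0 θ1 π hok

end H96.TN
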