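import Pool.Agent.H96.TN.Defs2

/-!
Module FIB (~120 lines): fibers of a map with few collisions.

With `t_y = #{x | g x = y}`: `coll g = ∑_y C(t_y, 2)`, `∑_y t_y = n`.
`fiber_le`: `(t-1)^2 ≤ t(t-1) = 2 C(t,2) ≤ 2 C n`.
`P2_card`: `∑_{y ∈ im g} (t_y - 1) = n - #(im g) ≥ n/8`; only the classes with `t_y ≥ 2` contribute;
Cauchy-Schwarz `(n/8)^2 ≤ #{t_y ≥ 2} ∑ (t_y-1)^2 ≤ #{t_y ≥ 2} 2 C n`, so
`#{y | t_y ≥ 2} ≥ n/(128 C)`; those not in `V` are at most `#{x | g x ∉ V} ≤ n/(256 C)`.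
-/

namespace H96.TN

open Finset

/-- ordered pairs of distinct points with the same value -/
theorem fib_offDiag {n : ℕ} (g : Fin n → Fin n) :
    #{p : Fin n × Fin n | p.1 ≠ p.2 ∧ g p.1 = g p.2} = 2 * coll g := by
  classical
  have h1 : (Finset.univ.filter fun p : Fin n × Fin n => p.1 ≠ p.2 ∧ g p.1 = g p.2) =
      (Finset.univ.filter fun p : Fin n × Fin n => p.1 < p.2 ∧ g p.1 = g p.2) ∪
      (Finset.univ.filter fun p : Fin n × Fin n => p.2 < p.1 ∧ g p.2 = g p.1) := by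
    ext p
    simp only [mem_filter, mem_univ, true_and, mem_union]
    constructor
    · rintro ⟨h, h'⟩
      rcases lt_or_gt_of_ne h with h2 | h2
      · exact Or.inl ⟨h2, h'⟩
      · exact Or.inr ⟨h2, h'.symm⟩
    · rintro (⟨h, h'⟩ | ⟨h, h'⟩)
      · exact ⟨h.ne, h'⟩
      · exact ⟨h.ne', h'.symm⟩
  have h2 : Disjoint (Finset.univ.filter fun p : Fin n × Fin n => p.1 < p.2 ∧ g p.1 = g p.2)
      (Finset.univ.filter fun p : Fin n × Fin n => p.2 < p.1 ∧ g p.2 = g p.1) := by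
    rw [Finset.disjoint_left]
    intro p hp hq
    simp only [mem_filter, mem_univ, true_and] at hp hq
    exact absurd hp.1 (not_lt.2 hq.1.le)
  have h3 : #(Finset.univ.filter fun p : Fin n × Fin n => p.2 < p.1 ∧ g p.2 = g p.1) =
      #(Finset.univ.filter fun p : Fin n × Fin n => p.1 < p.2 ∧ g p.1 = g p.2) := by
    refine Finset.card_bij (fun p _ => (p.2, p.1)) ?_ ?_ ?_
    · intro p hp
      simp only [mem_filter, mem_univ, true_and] at hp ⊢
      exact hp
    · intro p _ q _ hpq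
      have h4 := (Prod.mk.injEq _ _ _ _).mp hpq
      exact Prod.ext h4.2 h4.1
    · intro p hp
      refine ⟨(p.2, p.1), ?_, rfl⟩
      simp only [mem_filter, mem_univ, true_and] at hp ⊢
      exact hp
  have h4 : coll g = #(Finset.univ.filter fun p : Fin n × Fin n => p.1 < p.2 ∧ g p.1 = g p.2) :=
    rfl
  rw [h1, card_union_of_disjoint h2, h3, h4]
  ring

theorem fib_sum_sq {n : ℕ} (g : Fin n → Fin n) :
    ∑ y : Fin n, (#{x | g x = y} : ℝ) * ((#{x | g x = y} : ℝ) - 1) = 2 * coll g := by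
  classical
  have h1 : #{p : Fin n × Fin n | p.1 ≠ p.2 ∧ g p.1 = g p.2} =
      ∑ y : Fin n, #(({x | g x = y} : Finset (Fin n)).offDiag) := by
    rw [Finset.card_eq_sum_card_fiberwise (f := fun p => g p.1) (t := Finset.univ)
      (fun _ _ => mem_coe.2 (mem_univ _))]
    refine Finset.sum_congr rfl fun y _ => ?_
    congr 1
    ext p
    simp only [mem_filter, mem_univ, true_and, mem_offDiag]
    constructor
    · rintro ⟨⟨h, h'⟩, h2⟩
      exact ⟨h2, h' ▸ h2, h⟩
    · rintro ⟨h, h', h2⟩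
      exact ⟨⟨h2, h.trans h'.symm⟩, h⟩
  rw [fib_offDiag] at h1
  have h2 : (2 * coll g : ℝ) = ((2 * coll g : ℕ) : ℝ) := by push_cast; ring
  rw [h2, h1, Nat.cast_sum]
  refine Finset.sum_congr rfl fun y _ => ?_
  rw [offDiag_card, Nat.cast_sub (Nat.le_mul_self _), Nat.cast_mul]
  ring

theorem fib_term_nonneg (t : ℕ) : (0 : ℝ) ≤ (t : ℝ) * ((t : ℝ) - 1) := by
  rcases Nat.eq_zero_or_pos t with rfl | h
  · simp
  · have : (1 : ℝ) ≤ t := by exact_mod_cast h
    exact mul_nonneg (by positivity) (by linarith)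

theorem fib_sum {n : ℕ} (g : Fin n → Fin n) :
    ∑ y : Fin n, #{x | g x = y} = n := by
  classical
  have h := Finset.card_eq_sum_card_fiberwise (s := (Finset.univ : Finset (Fin n))) (f := g)
    (t := Finset.univ) (fun _ _ => mem_coe.2 (mem_univ _))
  rw [card_univ, Fintype.card_fin] at h
  exact h.symm

theorem fiber_le {n : ℕ} (g : Fin n → Fin n) (C : ℝ) (hC : 0 ≤ C) (h : (coll g : ℝ) ≤ C * n)
    (y : Fin n) : (#{x | g x = y} : ℝ) ≤ Real.sqrt (2 * C * n) + 1 := by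
  have h1 : (#{x | g x = y} : ℝ) * ((#{x | g x = y} : ℝ) - 1) ≤ 2 * coll g := by
    rw [← fib_sum_sq g]
    exact Finset.single_le_sum (f := fun y => (#{x | g x = y} : ℝ) * ((#{x | g x = y} : ℝ) - 1))
      (fun y _ => fib_term_nonneg _) (mem_univ y)
  set t : ℝ := (#{x | g x = y} : ℝ) with ht
  rcases le_or_gt t 1 with h2 | h2
  · have := Real.sqrt_nonneg (2 * C * n)
    linarith
  · have h3 : t - 1 ≤ Real.sqrt (2 * C * n) := by
      apply Real.le_sqrt_of_sq_le
      nlinarith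
    linarith

theorem P2_card {n : ℕ} (g : Fin n → Fin n) (V : Finset (Fin n)) (C : ℝ)
    (hC : 1 ≤ C) (h : (coll g : ℝ) ≤ C * n) (h8 : 8 * #(im g) + n ≤ 8 * n)
    (hV : (#{x | g x ∉ V} : ℝ) ≤ n / (256 * C)) : (n : ℝ) / (256 * C) ≤ #(P2 g V) := by
  classical
  rcases Nat.eq_zero_or_pos n with rfl | hn
  · simp
  have hnr : (0 : ℝ) < n := by exact_mod_cast hn
  set T : Finset (Fin n) := {y | 2 ≤ #{x | g x = y}} with hT
  -- the sum over the image
  have h1 : ∑ y ∈ im g, ((#{x | g x = y} : ℝ) - 1) = (n : ℝ) - #(im g) := by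
    rw [Finset.sum_sub_distrib]
    congr 1
    · have h2 : ∑ y ∈ im g, (#{x | g x = y} : ℝ) = ∑ y : Fin n, (#{x | g x = y} : ℝ) := by
        refine Finset.sum_subset (subset_univ _) ?_
        intro y _ hy
        rw [Nat.cast_eq_zero, card_eq_zero, filter_eq_empty_iff]
        intro x _ hx
        exact hy (mem_image.2 ⟨x, mem_univ _, hx⟩)
      rw [h2]
      have h3 := fib_sum g
      rw [← Nat.cast_sum, h3]
    · simp
  have h2 : ∑ y ∈ im g, ((#{x | g x = y} : ℝ) - 1) = ∑ y ∈ T, ((#{x | g x = y} : ℝ) - 1) := by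
    symm
    refine Finset.sum_subset ?_ ?_
    · intro y hy
      rw [hT, mem_filter] at hy
      have h3 : 0 < #{x | g x = y} := by omega
      obtain ⟨x, hx⟩ := card_pos.1 h3
      exact mem_image.2 ⟨x, mem_univ _, (mem_filter.1 hx).2⟩
    · intro y hy hyT
      obtain ⟨x, _, hx⟩ := mem_image.1 hy
      have h3 : 0 < #{x | g x = y} := card_pos.2 ⟨x, mem_filter.2 ⟨mem_univ _, hx⟩⟩
      have h4 : ¬ 2 ≤ #{x | g x = y} := fun h5 => hyT (by rw [hT, mem_filter]; exact ⟨mem_univ _, h5⟩)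
      have h5 : #{x | g x = y} = 1 := by omega
      rw [h5]
      simp
  have h3 : (n : ℝ) / 8 ≤ ∑ y ∈ T, ((#{x | g x = y} : ℝ) - 1) := by
    rw [← h2, h1]
    have h4 : (8 * #(im g) + n : ℝ) ≤ 8 * n := by exact_mod_cast h8
    linarith
  have h4 : (∑ y ∈ T, ((#{x | g x = y} : ℝ) - 1)) ^ 2 ≤
      #T * ∑ y ∈ T, ((#{x | g x = y} : ℝ) - 1) ^ 2 := sq_sum_le_card_mul_sum_sq
  have h5 : ∑ y ∈ T, ((#{x | g x = y} : ℝ) - 1) ^ 2 ≤ 2 * (C * n) := by
    calc ∑ y ∈ T, ((#{x | g x = y} : ℝ) - 1) ^ 2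
        ≤ ∑ y ∈ T, (#{x | g x = y} : ℝ) * ((#{x | g x = y} : ℝ) - 1) := by
          refine Finset.sum_le_sum fun y hy => ?_
          rw [hT, mem_filter] at hy
          have h6 : (2 : ℝ) ≤ (#{x | g x = y} : ℝ) := by exact_mod_cast hy.2
          nlinarith
      _ ≤ ∑ y : Fin n, (#{x | g x = y} : ℝ) * ((#{x | g x = y} : ℝ) - 1) :=
          Finset.sum_le_sum_of_subset_of_nonneg (subset_univ _) fun y _ _ => fib_term_nonneg _
      _ = 2 * coll g := fib_sum_sq g
      _ ≤ 2 * (C * n) := by linarith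
  have h6 : ((n : ℝ) / 8) ^ 2 ≤ #T * (2 * (C * n)) := by
    refine (pow_le_pow_left₀ (by positivity) h3 2).trans (h4.trans ?_)
    exact mul_le_mul_of_nonneg_left h5 (Nat.cast_nonneg _)
  have hC0 : 0 < C := by linarith
  have h7 : (n : ℝ) / (128 * C) ≤ #T := by
    rw [div_le_iff₀ (by positivity)]
    have h8' : (n : ℝ) * (n / 64) ≤ n * (#T * (2 * C)) := by nlinarith
    have h9 := le_of_mul_le_mul_left h8' hnr
    nlinarith
  have h10 : #(T \ V) ≤ #{x | g x ∉ V} := by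
    have h11 : T \ V ⊆ ({x | g x ∉ V} : Finset (Fin n)).image g := by
      intro y hy
      rw [mem_sdiff, hT, mem_filter] at hy
      have h12 : 0 < #{x | g x = y} := by omega
      obtain ⟨x, hx⟩ := card_pos.1 h12
      have hx' := (mem_filter.1 hx).2
      refine mem_image.2 ⟨x, mem_filter.2 ⟨mem_univ _, ?_⟩, hx'⟩
      rw [hx']
      exact hy.2
    exact (card_le_card h11).trans card_image_le
  have h11 : #T ≤ #(P2 g V) + #(T \ V) := by
    have h12 : T ⊆ P2 g V ∪ (T \ V) := by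
      intro y hy
      by_cases hyV : y ∈ V
      · refine mem_union_left _ ?_
        rw [hT, mem_filter] at hy
        exact mem_filter.2 ⟨hyV, hy.2⟩
      · exact mem_union_right _ (mem_sdiff.2 ⟨hy, hyV⟩)
    exact (card_le_card h12).trans (card_union_le _ _)
  have h12 : (#T : ℝ) ≤ #(P2 g V) + n / (256 * C) := by
    have h13 : (#T : ℝ) ≤ #(P2 g V) + #(T \ V) := by exact_mod_cast h11
    have h14 : (#(T \ V) : ℝ) ≤ #{x | g x ∉ V} := by exact_mod_cast h10
    linarith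
  have h13 : (n : ℝ) / (128 * C) = n / (256 * C) + n / (256 * C) := by
    field_simp
    norm_num
  linarith

theorem P2_le {n : ℕ} (g : Fin n → Fin n) (V : Finset (Fin n)) : 2 * #(P2 g V) ≤ n := by
  classical
  calc 2 * #(P2 g V) = ∑ y ∈ P2 g V, 2 := by rw [sum_const, smul_eq_mul, mul_comm]
    _ ≤ ∑ y ∈ P2 g V, #{x | g x = y} := Finset.sum_le_sum fun y hy => (mem_filter.1 hy).2
    _ ≤ ∑ y : Fin n, #{x | g x = y} := Finset.sum_le_sum_of_subset (subset_univ _)
    _ = n := fib_sum g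

theorem P1_P2 {n : ℕ} (g : Fin n → Fin n) (V : Finset (Fin n)) (hV : V ⊆ im g) :
    P1 g V ∪ P2 g V = V ∧ Disjoint (P1 g V) (P2 g V) ∧ #(P1 g V) + #(P2 g V) = #V := by
  classical
  have h1 : P1 g V ∪ P2 g V = V := by
    ext y
    rw [mem_union]
    constructor
    · rintro (h | h)
      · exact (mem_filter.1 h).1
      · exact (mem_filter.1 h).1
    · intro hy
      obtain ⟨x, _, hx⟩ := mem_image.1 (hV hy)
      have h3 : 0 < #{x | g x = y} := card_pos.2 ⟨x, mem_filter.2 ⟨mem_univ _, hx⟩⟩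
      rcases Nat.lt_or_ge (#{x | g x = y}) 2 with h4 | h4
      · exact Or.inl (mem_filter.2 ⟨hy, by omega⟩)
      · exact Or.inr (mem_filter.2 ⟨hy, h4⟩)
  have h2 : Disjoint (P1 g V) (P2 g V) := by
    rw [Finset.disjoint_left]
    intro y hy hy'
    have h3 := (mem_filter.1 hy).2
    have h4 := (mem_filter.1 hy').2
    omega
  refine ⟨h1, h2, ?_⟩
  rw [← card_union_of_disjoint h2, h1]

end H96.TN
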