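import Pool.Agent.H96.TN.Decode
import Pool.Agent.H96.TN.Fib
import Pool.Agent.H96.TN.Perm

/-!
Module CORE1A (~200 lines), deterministic. Uses `decode` (with `q = π`), `asg_map`, `P1_P2`.

`(ys ++ pairs).map π = ys.map π ++ l'`, `l' = (ms.flatMap (fun y => [p0 y, p1 y])).map π`, and
`asg (pslots ms) l' (y, false) = π (p0 y)`, `(y, true) ↦ π (p1 y)` for `y ∈ ms`.
Decode gives `zs, B', D'`; put `Bl = B'.toFinset`, `D = D'.toFinset` (`#Bl = B'.length` etc.,
`#(P2 \ D) = ms.length - D'.length`, `ms.toFinset = P2 g V`). Let `Bl2` be such that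
`nsec R q0 q1 f' ≥ 2`, `R = (P2 \ D) \ Bl2`, `f' S = f ((zs.map π).toFinset ∪ S)`, `f` 0/1-valued: there
are `C ≠ C' ⊆ R` with `I = zs.map π ∪ C.image q0 ∪ (R \ C).image q1 ∈ B`, and the same for `C'`, `I'`.
`I ≠ I'` (for `y ∈ C \ C'`: `π (p0 y) ∈ I`, and not in `I'` since the slots are all different and
`π` is injective). `I.image (g ∘ π⁻¹) = (zs.map g) ∪ R = (P1 \ Bl) ∪ D ∪ R = V \ (Bl ∪ Bl2)`.
-/

namespace H96.TN

open Finset

private theorem pslots_mem {Y : Type*} (ms : List Y) (a : Y × Bool) :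
    a ∈ pslots ms ↔ a.1 ∈ ms := by
  induction ms with
  | nil => simp [pslots]
  | cons y ys ih =>
    obtain ⟨z, b⟩ := a
    simp only [pslots, List.mem_cons, Prod.mk.injEq, ih]
    cases b <;> simp

private theorem pslots_nodup {Y : Type*} (ms : List Y) (h : ms.Nodup) : (pslots ms).Nodup := by
  induction ms with
  | nil => simp [pslots]
  | cons y ys ih =>
    have hy := (List.nodup_cons.1 h).1
    have h' := (List.nodup_cons.1 h).2
    simp only [pslots, List.nodup_cons, List.mem_cons, Prod.mk.injEq, pslots_mem]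
    exact ⟨by simp [hy], hy, ih h'⟩

private theorem pslots_map {Y X : Type*} (ms : List Y) (q : Y × Bool → X) :
    (pslots ms).map q = ms.flatMap (fun y => [q (y, false), q (y, true)]) := by
  induction ms with
  | nil => simp [pslots]
  | cons y ys ih => simp [pslots, ih]

private theorem asg_pslots {Y X : Type*} [DecidableEq Y] [Inhabited X] (ms : List Y)
    (h : ms.Nodup) (q : Y × Bool → X) (l : List X)
    (hl : l = ms.flatMap (fun y => [q (y, false), q (y, true)])) (a : Y × Bool) (ha : a.1 ∈ ms) :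
    asg (pslots ms) l a = q a := by
  have h1 : (pslots ms).map q = l := by rw [pslots_map, hl]
  have h2 : (pslots ms).length = l.length := by rw [← h1, List.length_map]
  have h3 := asg_map (pslots ms) l (pslots_nodup ms h) h2
  rw [← h1] at h3 ⊢
  exact List.map_inj_left.1 h3 a ((pslots_mem ms a).2 ha)

/-- two distinct sections from `nsec ≥ 2` for an indicator. -/
private theorem two_sections {Y X : Type*} [DecidableEq Y] [DecidableEq X] (R : Finset Y)
    (q0 q1 : Y → X) (F : Finset X → ℝ) (P : Finset X → Prop) [DecidablePred P]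
    (hF : ∀ S, F S = if P S then 1 else 0)
    (h : 2 ≤ nsec R q0 q1 F) :
    ∃ C C' : Finset Y, C ⊆ R ∧ C' ⊆ R ∧ C ≠ C' ∧ P (C.image q0 ∪ (R \ C).image q1) ∧
      P (C'.image q0 ∪ (R \ C').image q1) := by
  have h1 : nsec R q0 q1 F =
      (#{C ∈ R.powerset | P (C.image q0 ∪ (R \ C).image q1)} : ℝ) := by
    unfold nsec
    rw [Finset.card_filter, Nat.cast_sum]
    apply Finset.sum_congr rfl
    intro C _
    rw [hF]
    split_ifs <;> simp
  rw [h1] at h
  have h2 : 1 < #{C ∈ R.powerset | P (C.image q0 ∪ (R \ C).image q1)} := by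
    have : (2 : ℕ) ≤ #{C ∈ R.powerset | P (C.image q0 ∪ (R \ C).image q1)} := by
      exact_mod_cast h
    omega
  obtain ⟨C, hC, C', hC', hne⟩ := Finset.one_lt_card.1 h2
  rw [Finset.mem_filter, Finset.mem_powerset] at hC hC'
  exact ⟨C, C', hC.1, hC'.1, hne, hC.2, hC'.2⟩

private theorem set_id {α : Type*} [DecidableEq α] {V P1 P2 B D L : Finset α}
    (h1 : P1 ∪ P2 = V) (h2 : Disjoint P1 P2) (hB : B ⊆ P1) (hD : D ⊆ P2) (hL : L ⊆ P2 \ D) :
    (P1 \ B ∪ D) ∪ ((P2 \ D) \ L) = V \ (B ∪ L) := by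
  subst h1
  ext y
  have a2 : y ∈ P1 → y ∉ P2 := fun h => Finset.disjoint_left.1 h2 h
  have a3 : y ∈ B → y ∈ P1 := fun h => hB h
  have a4 : y ∈ D → y ∈ P2 := fun h => hD h
  have a5 : y ∈ L → y ∈ P2 ∧ y ∉ D := fun h => Finset.mem_sdiff.1 (hL h)
  simp only [Finset.mem_union, Finset.mem_sdiff]
  clear h2 hB hD hL
  by_cases b1 : y ∈ P1 <;> by_cases b2 : y ∈ P2 <;> by_cases b3 : y ∈ B <;>
    by_cases b4 : y ∈ D <;> by_cases b5 : y ∈ L <;> simp_all

open scoped Classical in
theorem ok_good {n : ℕ} [Inhabited (Fin n)] (g : Fin n → Fin n) (V : Finset (Fin n))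
    (hV : V ⊆ im g) (its : List (Item (Fin n))) (ys ms : List (Fin n)) (p0 p1 : Fin n → Fin n)
    (h1 : Compat g ys its)
    (h2 : (ys ++ ms.flatMap (fun y => [p0 y, p1 y])).Perm (List.finRange n))
    (h3 : ms.Nodup) (h4 : ∀ y, y ∈ ms ↔ y ∈ P2 g V)
    (h5 : ∀ y ∈ ms, g (p0 y) = y ∧ g (p1 y) = y)
    (h6 : (sgls its).Nodup) (h7 : ∀ y, y ∈ sgls its ↔ y ∈ P1 g V)
    (h8 : (exts its).Nodup) (h9 : ∀ y ∈ exts its, y ∈ ms)
    (B : Finset (Finset (Fin n))) (j0 k0 : ℕ) (θ : ℝ) (π : Equiv.Perm (Fin n))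
    (hok : Ok (Phi ms j0 k0 θ) ((ys ++ ms.flatMap (fun y => [p0 y, p1 y])).map π) its
      (fun S => if S ∈ B then 1 else 0) [] []) :
    ∃ Bl D : Finset (Fin n), Bl ⊆ P1 g V ∧ D ⊆ P2 g V ∧ #Bl ≤ k0 ∧ #D ≤ k0 ∧
      (#{Bl2 ∈ (P2 g V \ D).powersetCard (j0 - #Bl) | ¬ Sec2 B g π (V \ (Bl ∪ Bl2))} : ℝ) ≤
        θ * (#(P2 g V \ D)).choose (j0 - #Bl) := by
  obtain ⟨hP12, hPd, -⟩ := P1_P2 g V hV
  set ps : List (Fin n) := ms.flatMap (fun y => [p0 y, p1 y]) with hps
  have hnd0 : (ys ++ ps).Nodup := h2.nodup_iff.2 (List.nodup_finRange n)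
  obtain ⟨-, hndps, hdisj⟩ := List.nodup_append.1 hnd0
  have hnd : (sgls its ++ exts its).Nodup := by
    rw [List.nodup_append]
    refine ⟨h6, h8, ?_⟩
    intro a ha b hb hab
    subst hab
    exact Finset.disjoint_left.1 hPd ((h7 a).1 ha) ((h4 a).1 (h9 a hb))
  rw [List.map_append] at hok
  obtain ⟨zs, B', D', hzs, hB'n, hB'm, hD'n, hD'm, hz, hΦ⟩ :=
    decode g π (Phi ms j0 k0 θ) ys (ps.map π) its h1 hnd _ [] [] hok
  rw [List.append_nil, List.append_nil] at hΦ
  obtain ⟨hb, hd, hΦ⟩ := hΦ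
  have hms : ms.toFinset = P2 g V := by
    ext y; rw [List.mem_toFinset, h4]
  have hD'ms : ∀ y ∈ D', y ∈ ms := fun y hy => h9 y (hD'm y hy)
  have hBlP : B'.toFinset ⊆ P1 g V := by
    intro y hy
    exact (h7 y).1 (hB'm y (List.mem_toFinset.1 hy))
  have hDP : D'.toFinset ⊆ P2 g V := by
    intro y hy
    exact (h4 y).1 (hD'ms y (List.mem_toFinset.1 hy))
  have hcB : #B'.toFinset = B'.length := List.toFinset_card_of_nodup hB'n
  have hcD : #D'.toFinset = D'.length := List.toFinset_card_of_nodup hD'n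
  have hcm : #(P2 g V) = ms.length := by rw [← hms, List.toFinset_card_of_nodup h3]
  have hΦ' := hΦ hD'n hD'ms
  refine ⟨B'.toFinset, D'.toFinset, hBlP, hDP, by rw [hcB]; exact hb, by rw [hcD]; exact hd, ?_⟩
  rw [hcB, Finset.card_sdiff_of_subset hDP, hcD, hcm]
  refine le_trans ?_ hΦ'
  rw [Nat.cast_le]
  rw [hms]
  apply Finset.card_le_card
  intro Bl2 hBl2
  rw [Finset.mem_filter] at hBl2 ⊢
  refine ⟨hBl2.1, ?_⟩
  by_contra hge
  rw [not_lt] at hge
  apply hBl2.2
  set R : Finset (Fin n) := (P2 g V \ D'.toFinset) \ Bl2 with hR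
  have hRms : ∀ y ∈ R, y ∈ ms := by
    intro y hy
    rw [hR, Finset.mem_sdiff, Finset.mem_sdiff] at hy
    exact (h4 y).2 hy.1.1
  obtain ⟨C, C', hC, hC', hne, hI, hI'⟩ := two_sections R
    (fun y => asg (pslots ms) (ps.map π) (y, false)) (fun y => asg (pslots ms) (ps.map π) (y, true))
    _ (fun S => (zs.map π).toFinset ∪ S ∈ B) (fun S => rfl) hge
  have ha : ∀ y ∈ ms, asg (pslots ms) (ps.map π) (y, false) = π (p0 y) ∧
      asg (pslots ms) (ps.map π) (y, true) = π (p1 y) := by
    intro y hy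
    have hl : ps.map π = ms.flatMap (fun y =>
        [(fun a : Fin n × Bool => if a.2 then π (p1 a.1) else π (p0 a.1)) (y, false),
         (fun a : Fin n × Bool => if a.2 then π (p1 a.1) else π (p0 a.1)) (y, true)]) := by
      rw [hps, List.map_flatMap]
      simp
    constructor
    · rw [asg_pslots ms h3 (fun a : Fin n × Bool => if a.2 then π (p1 a.1) else π (p0 a.1)) _ hl
        (y, false) hy]
      simp
    · rw [asg_pslots ms h3 (fun a : Fin n × Bool => if a.2 then π (p1 a.1) else π (p0 a.1)) _ hl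
        (y, true) hy]
      simp
  have hsec : ∀ C : Finset (Fin n), C ⊆ R →
      C.image (fun y => asg (pslots ms) (ps.map π) (y, false)) ∪
        (R \ C).image (fun y => asg (pslots ms) (ps.map π) (y, true)) =
      C.image (fun y => π (p0 y)) ∪ (R \ C).image (fun y => π (p1 y)) := by
    intro C hC
    congr 1
    · apply Finset.image_congr
      intro y hy
      exact (ha y (hRms y (hC hy))).1
    · apply Finset.image_congr
      intro y hy
      exact (ha y (hRms y (Finset.sdiff_subset hy))).2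
  rw [hsec C hC] at hI
  rw [hsec C' hC'] at hI'
  -- facts on the slots
  have hps0 : ∀ y ∈ ms, p0 y ∈ ps := by
    intro y hy
    rw [hps, List.mem_flatMap]
    exact ⟨y, hy, by simp⟩
  have hps1 : ∀ y ∈ ms, p1 y ∈ ps := by
    intro y hy
    rw [hps, List.mem_flatMap]
    exact ⟨y, hy, by simp⟩
  have hp01 : ∀ y ∈ ms, p0 y ≠ p1 y := by
    intro y hy heq
    rw [hps, List.nodup_flatMap] at hndps
    have := hndps.1 y hy
    rw [heq] at this
    simp at this
  -- the two sets differ
  have hkey : ∀ C C' : Finset (Fin n), C ⊆ R → C' ⊆ R → ∀ y ∈ C, y ∉ C' →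
      (zs.map π).toFinset ∪ (C.image (fun y => π (p0 y)) ∪ (R \ C).image (fun y => π (p1 y))) ≠
      (zs.map π).toFinset ∪
        (C'.image (fun y => π (p0 y)) ∪ (R \ C').image (fun y => π (p1 y))) := by
    intro C C' hC hC' y hy hy' heq
    have hyms := hRms y (hC hy)
    have hmem : π (p0 y) ∈ (zs.map π).toFinset ∪
        (C.image (fun y => π (p0 y)) ∪ (R \ C).image (fun y => π (p1 y))) := by
      rw [Finset.mem_union, Finset.mem_union]
      exact Or.inr (Or.inl (Finset.mem_image_of_mem _ hy))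
    rw [heq, Finset.mem_union, Finset.mem_union] at hmem
    rcases hmem with hm | hm | hm
    · rw [List.mem_toFinset, List.mem_map] at hm
      obtain ⟨x, hx, hxe⟩ := hm
      have hxe' : x = p0 y := π.injective hxe
      exact hdisj x (hzs x hx) (p0 y) (hps0 y hyms) hxe'
    · rw [Finset.mem_image] at hm
      obtain ⟨x, hx, hxe⟩ := hm
      have hxe' : p0 x = p0 y := π.injective hxe
      have hxms := hRms x (hC' hx)
      have : x = y := by rw [← (h5 x hxms).1, ← (h5 y hyms).1, hxe']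
      exact hy' (this ▸ hx)
    · rw [Finset.mem_image] at hm
      obtain ⟨x, hx, hxe⟩ := hm
      have hxe' : p1 x = p0 y := π.injective hxe
      have hxms := hRms x (Finset.sdiff_subset hx)
      have hxy : x = y := by rw [← (h5 x hxms).2, ← (h5 y hyms).1, hxe']
      rw [hxy] at hxe'
      exact hp01 y hyms hxe'.symm
  -- the image
  have himg : ∀ C : Finset (Fin n), C ⊆ R →
      ((zs.map π).toFinset ∪ (C.image (fun y => π (p0 y)) ∪ (R \ C).image (fun y => π (p1 y)))).image
        (fun x => g (π.symm x)) = V \ (B'.toFinset ∪ Bl2) := by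
    intro C hC
    have e1 : ((zs.map π).toFinset).image (fun x => g (π.symm x)) = (zs.map g).toFinset := by
      ext x
      simp only [Finset.mem_image, List.mem_toFinset, List.mem_map]
      constructor
      · rintro ⟨a, ⟨b, hb, rfl⟩, rfl⟩
        exact ⟨b, hb, by simp⟩
      · rintro ⟨b, hb, rfl⟩
        exact ⟨π b, ⟨b, hb, rfl⟩, by simp⟩
    have e2 : (C.image (fun y => π (p0 y))).image (fun x => g (π.symm x)) = C := by
      rw [Finset.image_image]
      have : C.image ((fun x => g (π.symm x)) ∘ (fun y => π (p0 y))) = C.image id := by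
        apply Finset.image_congr
        intro y hy
        simp only [Function.comp, Equiv.symm_apply_apply, id]
        exact (h5 y (hRms y (hC hy))).1
      rw [this, Finset.image_id]
    have e3 : ((R \ C).image (fun y => π (p1 y))).image (fun x => g (π.symm x)) = R \ C := by
      rw [Finset.image_image]
      have : (R \ C).image ((fun x => g (π.symm x)) ∘ (fun y => π (p1 y))) = (R \ C).image id := by
        apply Finset.image_congr
        intro y hy
        simp only [Function.comp, Equiv.symm_apply_apply, id]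
        exact (h5 y (hRms y (Finset.sdiff_subset hy))).2
      rw [this, Finset.image_id]
    rw [Finset.image_union, Finset.image_union, e1, e2, e3, hz, Finset.union_sdiff_of_subset hC]
    have hsg : (sgls its).toFinset = P1 g V := by
      ext y; rw [List.mem_toFinset, h7]
    rw [hsg, hR]
    have hBl2s : Bl2 ⊆ P2 g V \ D'.toFinset := (Finset.mem_powersetCard.1 hBl2.1).1
    exact set_id hP12 hPd hBlP hDP hBl2s
  refine ⟨_, hI, _, hI', ?_, himg C hC, himg C' hC'⟩
  by_cases hsub : C ⊆ C'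
  · have : ¬ C' ⊆ C := fun h => hne (Finset.Subset.antisymm hsub h)
    obtain ⟨y, hy, hy'⟩ := Finset.not_subset.1 this
    exact (hkey C' C hC' hC y hy hy').symm
  · obtain ⟨y, hy, hy'⟩ := Finset.not_subset.1 hsub
    exact hkey C C' hC hC' y hy hy'

end H96.TN
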