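import Pool.Agent.H96.TN.Fib

/-!
Module CORE2 (~150 lines): combination of `π` and `τ`. Uses `P1_P2` (FIB).

Let `π` be good (complement of the set in `h1`), with `Bl, D`. `Λ = P2 \ D`,
`#Λ ≥ #P2 - k0 ≥ c #V`; `Bl` and `Λ` are disjoint subsets of `V`. For all `τ` but `ε' (#V)!` (`h2`), at
least `θ/2 · C(#Λ, b)` of the `Bl2 ∈ C(Λ, b)`, `b = j0 - #Bl`, satisfy
`V \ τ̂(Bl ∪ Bl2) ∈ B`, and at most `θ/4 · C(#Λ,b)` of them violate `Sec2 B g π (V \ (Bl ∪ Bl2))`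
(`C(#Λ,b) > 0` as `b ≤ j0 ≤ #Λ`), so some `Bl2` satisfies both. Let `I ≠ I'` in `B` be given by `Sec2`;
`T = V \ τ̂(Bl ∪ Bl2) = τ̂ (V \ (Bl ∪ Bl2)) ∈ B` (`τ̂ V = V`) is the image of `I` and of `I'` under
`τ̂ ∘ g ∘ π⁻¹`; one of `I, I'` is different from `T`.
-/

namespace H96.TN

open Finset

/-- `τ̂` maps `V \ S` onto `V \ τ̂ S`. -/
theorem core2_image_sdiff {n : ℕ} (V S : Finset (Fin n)) (τ : Equiv.Perm {y // y ∈ V}) :
    (V \ S).image (Equiv.Perm.ofSubtype τ) = V \ S.image (Equiv.Perm.ofSubtype τ) := by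
  rw [Finset.image_sdiff _ _ (Equiv.injective _)]
  congr 1
  have hsub : V.image (Equiv.Perm.ofSubtype τ) ⊆ V := by
    intro x hx
    rw [Finset.mem_image] at hx
    obtain ⟨y, hy, rfl⟩ := hx
    rw [Equiv.Perm.ofSubtype_apply_of_mem τ hy]
    exact (τ ⟨y, hy⟩).2
  refine Finset.eq_of_subset_of_card_le hsub ?_
  rw [Finset.card_image_of_injective _ (Equiv.injective _)]

open scoped Classical in
/-- the pairwise step: a good pair `(π, τ)`. -/
theorem core2_good {n : ℕ} (g : Fin n → Fin n) (V : Finset (Fin n))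
    (B : Finset (Finset (Fin n))) (b : ℕ) (θ : ℝ) (hθ : 0 < θ)
    (π : Equiv.Perm (Fin n)) (τ : Equiv.Perm {y // y ∈ V}) (Bl Λ : Finset (Fin n))
    (hb : b ≤ #Λ)
    (hs : (#{Bl2 ∈ Λ.powersetCard b | ¬ Sec2 B g π (V \ (Bl ∪ Bl2))} : ℝ) ≤
      θ / 4 * (#Λ).choose b)
    (ht : θ / 2 * (#Λ).choose b ≤
      (#{Bl2 ∈ Λ.powersetCard b | V \ (Bl ∪ Bl2).image (Equiv.Perm.ofSubtype τ) ∈ B} : ℝ)) :
    ∃ I ∈ B, ∃ T ∈ B, I ≠ T ∧
        I.image (fun x => Equiv.Perm.ofSubtype τ (g (π.symm x))) = T := by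
  have hpos : (0 : ℝ) < (#Λ).choose b := by exact_mod_cast Nat.choose_pos hb
  have hlt : (#{Bl2 ∈ Λ.powersetCard b | ¬ Sec2 B g π (V \ (Bl ∪ Bl2))} : ℝ) <
      (#{Bl2 ∈ Λ.powersetCard b | V \ (Bl ∪ Bl2).image (Equiv.Perm.ofSubtype τ) ∈ B} : ℝ) := by
    have : θ / 4 * (#Λ).choose b < θ / 2 * (#Λ).choose b := by
      apply mul_lt_mul_of_pos_right _ hpos
      linarith
    linarith
  have hlt' : #{Bl2 ∈ Λ.powersetCard b | ¬ Sec2 B g π (V \ (Bl ∪ Bl2))} <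
      #{Bl2 ∈ Λ.powersetCard b | V \ (Bl ∪ Bl2).image (Equiv.Perm.ofSubtype τ) ∈ B} := by
    exact_mod_cast hlt
  obtain ⟨Bl2, hin, hout⟩ := Finset.exists_mem_notMem_of_card_lt_card hlt'
  rw [Finset.mem_filter] at hin hout
  obtain ⟨hmem, hT⟩ := hin
  have hsec : Sec2 B g π (V \ (Bl ∪ Bl2)) := by
    by_contra hcon
    exact hout ⟨hmem, hcon⟩
  obtain ⟨I, hI, I', hI', hne, h1, h2⟩ := hsec
  have key : ∀ J : Finset (Fin n), J.image (fun x => g (π.symm x)) = V \ (Bl ∪ Bl2) →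
      J.image (fun x => Equiv.Perm.ofSubtype τ (g (π.symm x))) =
        V \ (Bl ∪ Bl2).image (Equiv.Perm.ofSubtype τ) := by
    intro J hJ
    rw [← core2_image_sdiff, ← hJ, Finset.image_image]
    rfl
  by_cases hIT : I = V \ (Bl ∪ Bl2).image (Equiv.Perm.ofSubtype τ)
  · refine ⟨I', hI', _, hT, ?_, key I' h2⟩
    intro h
    exact hne (hIT.trans h.symm)
  · exact ⟨I, hI, _, hT, hIT, key I h1⟩

/-- the union bound. -/
theorem core2_union {α β : Type*} [Fintype α] [Fintype β] (P : α × β → Prop) (A : α → Prop)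
    [DecidablePred P] [DecidablePred A] [∀ x, DecidablePred fun y => P (x, y)]
    (ε ε' a b : ℝ) (ha : (Fintype.card α : ℝ) = a) (hb : (Fintype.card β : ℝ) = b)
    (hb0 : 0 ≤ b) (hε' : 0 ≤ ε')
    (hA : (#{x | A x} : ℝ) ≤ ε * a)
    (hP : ∀ x, ¬ A x → (#{y | P (x, y)} : ℝ) ≤ ε' * b) :
    (#{q : α × β | P q} : ℝ) ≤ (ε + ε') * (a * b) := by
  have h1 : (#{q : α × β | P q} : ℝ) = ∑ x : α, (#{y | P (x, y)} : ℝ) := by
    rw [← Nat.cast_sum]
    congr 1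
    have := Finset.card_sigma (Finset.univ : Finset α) (fun x => Finset.univ.filter (fun y : β => P (x, y)))
    rw [← this]
    refine Finset.card_bij (fun q _ => ⟨q.1, q.2⟩) ?_ ?_ ?_
    · intro q hq
      simpa using hq
    · intro q _ q' _ h
      simp only [Sigma.mk.injEq] at h
      exact Prod.ext h.1 (eq_of_heq h.2)
    · intro s hs
      refine ⟨(s.1, s.2), by simpa using hs, rfl⟩
  rw [h1, ← Finset.sum_filter_add_sum_filter_not Finset.univ A]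
  have h2 : ∑ x ∈ Finset.univ.filter A, (#{y | P (x, y)} : ℝ) ≤ ε * a * b := by
    calc ∑ x ∈ Finset.univ.filter A, (#{y | P (x, y)} : ℝ)
        ≤ ∑ x ∈ Finset.univ.filter A, b := by
          apply Finset.sum_le_sum
          intro x _
          rw [← hb]
          exact_mod_cast Finset.card_le_univ _
      _ = #(Finset.univ.filter A) * b := by rw [Finset.sum_const, nsmul_eq_mul]
      _ ≤ ε * a * b := mul_le_mul_of_nonneg_right hA hb0
  have h3 : ∑ x ∈ Finset.univ.filter (fun x => ¬ A x), (#{y | P (x, y)} : ℝ) ≤ a * (ε' * b) := by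
    calc ∑ x ∈ Finset.univ.filter (fun x => ¬ A x), (#{y | P (x, y)} : ℝ)
        ≤ ∑ x ∈ Finset.univ.filter (fun x => ¬ A x), ε' * b := by
          apply Finset.sum_le_sum
          intro x hx
          rw [Finset.mem_filter] at hx
          exact hP x hx.2
      _ = #(Finset.univ.filter (fun x => ¬ A x)) * (ε' * b) := by
          rw [Finset.sum_const, nsmul_eq_mul]
      _ ≤ a * (ε' * b) := by
          apply mul_le_mul_of_nonneg_right _ (mul_nonneg hε' hb0)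
          rw [← ha]
          exact_mod_cast Finset.card_le_univ _
  calc _ ≤ ε * a * b + a * (ε' * b) := add_le_add h2 h3
    _ = (ε + ε') * (a * b) := by ring

open scoped Classical in
theorem core2 {n : ℕ} (g : Fin n → Fin n) (V : Finset (Fin n)) (hV : V ⊆ im g)
    (B : Finset (Finset (Fin n))) (j0 k0 : ℕ) (hkj : k0 ≤ j0) (θ ε ε' c : ℝ)
    (hθ : 0 < θ) (hc : c * #V + k0 ≤ #(P2 g V)) (hj : j0 + k0 ≤ #(P2 g V))
    (h1 : (#{π : Equiv.Perm (Fin n) | ¬ ∃ Bl D : Finset (Fin n), Bl ⊆ P1 g V ∧ D ⊆ P2 g V ∧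
        #Bl ≤ k0 ∧ #D ≤ k0 ∧
        (#{Bl2 ∈ (P2 g V \ D).powersetCard (j0 - #Bl) |
          ¬ Sec2 B g π (V \ (Bl ∪ Bl2))} : ℝ) ≤
          θ / 4 * (#(P2 g V \ D)).choose (j0 - #Bl)} : ℝ) ≤ ε * n.factorial)
    (h2 : ∀ Q Λ : Finset (Fin n), Q ⊆ V → Λ ⊆ V → Disjoint Q Λ → #Q ≤ k0 → c * #V ≤ #Λ →
          (#{τ : Equiv.Perm {y // y ∈ V} |
            (#{Bl ∈ Λ.powersetCard (j0 - #Q) |
              V \ (Q ∪ Bl).image (Equiv.Perm.ofSubtype τ) ∈ B} : ℝ) <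
              θ / 2 * (#Λ).choose (j0 - #Q)} : ℝ) ≤ ε' * (#V).factorial) :
    (#{q : Equiv.Perm (Fin n) × Equiv.Perm {y // y ∈ V} |
      ¬ ∃ I ∈ B, ∃ T ∈ B, I ≠ T ∧
        I.image (fun x => Equiv.Perm.ofSubtype q.2 (g (q.1.symm x))) = T} : ℝ) ≤
      (ε + ε') * ((n.factorial : ℝ) * (#V).factorial) := by
  obtain ⟨hun, hdis, hcard⟩ := P1_P2 g V hV
  have hP1 : P1 g V ⊆ V := fun x hx => (Finset.mem_filter.mp hx).1
  have hP2 : P2 g V ⊆ V := fun x hx => (Finset.mem_filter.mp hx).1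
  have hVf : (0 : ℝ) < (#V).factorial := by exact_mod_cast Nat.factorial_pos _
  have hε' : 0 ≤ ε' := by
    have := h2 ∅ V (Finset.empty_subset _) (Finset.Subset.refl _) (Finset.disjoint_empty_left _)
      (by simp) (by
        have : (#(P2 g V) : ℝ) ≤ #V := by exact_mod_cast Finset.card_le_card hP2
        have hk : (0 : ℝ) ≤ k0 := Nat.cast_nonneg _
        linarith)
    have h0 : 0 ≤ ε' * ((#V).factorial : ℝ) := le_trans (Nat.cast_nonneg _) this
    by_contra hneg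
    push Not at hneg
    have := mul_neg_of_neg_of_pos hneg hVf
    linarith
  have hfin := core2_union (α := Equiv.Perm (Fin n)) (β := Equiv.Perm {y // y ∈ V})
    (fun q => ¬ ∃ I ∈ B, ∃ T ∈ B, I ≠ T ∧
        I.image (fun x => Equiv.Perm.ofSubtype q.2 (g (q.1.symm x))) = T)
    (fun π => ¬ ∃ Bl D : Finset (Fin n), Bl ⊆ P1 g V ∧ D ⊆ P2 g V ∧
        #Bl ≤ k0 ∧ #D ≤ k0 ∧
        (#{Bl2 ∈ (P2 g V \ D).powersetCard (j0 - #Bl) |
          ¬ Sec2 B g π (V \ (Bl ∪ Bl2))} : ℝ) ≤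
          θ / 4 * (#(P2 g V \ D)).choose (j0 - #Bl)) ε ε' (n.factorial : ℝ) ((#V).factorial : ℝ)
    (by rw [Fintype.card_perm, Fintype.card_fin])
    (by rw [Fintype.card_perm, Fintype.card_coe]) hVf.le hε' (by convert h1) ?_
  · convert hfin
  · intro π hπ
    rw [not_not] at hπ
    obtain ⟨Bl, D, hBl, hD, hBk, hDk, hs⟩ := hπ
    have hΛcard : #(P2 g V) ≤ #(P2 g V \ D) + #D := by
      rw [Finset.card_sdiff_add_card_eq_card hD]
    have hq := h2 Bl (P2 g V \ D) (hBl.trans hP1) (Finset.sdiff_subset.trans hP2)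
      (Disjoint.mono hBl Finset.sdiff_subset hdis) hBk (by
        have h3 : (#(P2 g V) : ℝ) ≤ #(P2 g V \ D) + #D := by exact_mod_cast hΛcard
        have h4 : (#D : ℝ) ≤ k0 := by exact_mod_cast hDk
        linarith)
    refine le_trans ?_ hq
    refine Nat.cast_le.mpr (Finset.card_le_card ?_)
    intro τ hτ
    rw [Finset.mem_filter] at hτ ⊢
    refine ⟨Finset.mem_univ _, ?_⟩
    by_contra hcon
    push Not at hcon
    refine hτ.2 (core2_good g V B (j0 - #Bl) θ hθ π τ Bl (P2 g V \ D) (by omega) ?_ ?_)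
    · convert hs
    · convert hcon

end H96.TN
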