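import Pool.Agent.H96.TN.Defs

/-!
Module COUNT (~120 lines).

Proof. Let `S` be a finite semigroup, `N = |S|`. Every subsemigroup `H` has a generating set
`A ⊆ H` of minimal cardinality (`closure A = H`); a minimal one is irredundant (if
`a ∈ closure (A \ {a})` then `closure (A \ {a}) = closure A`). `H ↦ A` is injective since
`H = closure A`. Hence `#subsemigroups ≤ #{A : |A| ≤ δ N} = ∑_{k ≤ δN} C(N,k)
≤ ∑_k C(N,k) x^(k - δN) = x^(-δN) (1+x)^N` for every `0 < x ≤ 1` (real powers).
Choose `x ∈ (0,1)` with `1 + x < √c`, then `δ > 0` with `x^(-δ) ≤ √c`.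
(`Nat.card (Subsemigroup S)` also counts the empty one; it is generated by `∅`.)
-/

namespace H96.TN

open Finset

theorem count_gen {S : Type} [Semigroup S] [Fintype S] (H : Subsemigroup S) :
    ∃ A : Finset S, Irred A ∧ Subsemigroup.closure (A : Set S) = H := by
  classical
  have hex : ∃ n, ∃ A : Finset S, #A = n ∧ Subsemigroup.closure (A : Set S) = H := by
    refine ⟨_, Finset.univ.filter (· ∈ H), rfl, ?_⟩
    have h : ((Finset.univ.filter (· ∈ H) : Finset S) : Set S) = (H : Set S) := by
      ext
      simp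
    rw [h]
    exact Subsemigroup.closure_eq H
  obtain ⟨A, hA, hAH⟩ := Nat.find_spec hex
  refine ⟨A, ?_, hAH⟩
  intro a ha hmem
  have h1 : Subsemigroup.closure ((A.erase a : Finset S) : Set S) = H := by
    rw [Finset.coe_erase]
    apply le_antisymm
    · rw [← hAH]
      exact Subsemigroup.closure_mono Set.sdiff_subset
    · conv_lhs => rw [← hAH]
      rw [Subsemigroup.closure_le]
      intro b hb
      by_cases h : b = a
      · subst h
        exact hmem
      · exact Subsemigroup.subset_closure ⟨hb, h⟩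
  have h2 := Nat.find_min' hex ⟨A.erase a, rfl, h1⟩
  rw [← hA, Finset.card_erase_of_mem ha] at h2
  have := Finset.card_pos.2 ⟨a, ha⟩
  omega

theorem count (c : ℝ) (hc : 1 < c) : ∃ δ : ℝ, 0 < δ ∧
    ∀ (S : Type) [Semigroup S] [Fintype S], 0 < Fintype.card S →
      (∀ A : Finset S, Irred A → (#A : ℝ) ≤ δ * Fintype.card S) →
      (Nat.card (Subsemigroup S) : ℝ) < c ^ Fintype.card S := by
  classical
  have hs0 : 0 < √c := Real.sqrt_pos.2 (by linarith)
  have hs1 : 1 < √c := by
    rw [Real.lt_sqrt (by norm_num)]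
    simpa using hc
  obtain ⟨x, hx0, hx⟩ : ∃ x : ℝ, 0 < x ∧ x < min 1 (√c - 1) :=
    exists_between (lt_min one_pos (by linarith))
  have hx1 : x < 1 := lt_of_lt_of_le hx (min_le_left _ _)
  have hx2 : 1 + x < √c := by
    have := lt_of_lt_of_le hx (min_le_right _ _)
    linarith
  have hlogx : Real.log x < 0 := Real.log_neg hx0 hx1
  have hlogs : 0 < Real.log √c := Real.log_pos hs1
  refine ⟨Real.log √c / (-Real.log x), div_pos hlogs (by linarith), ?_⟩
  intro S _ _ hN hA
  set δ : ℝ := Real.log √c / (-Real.log x) with hδ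
  set N : ℕ := Fintype.card S with hNdef
  have hxδ : x ^ (-(δ * N)) = √c ^ N := by
    rw [Real.rpow_def_of_pos hx0]
    have h1 : Real.log x * -(δ * N) = N * Real.log √c := by
      have hne : Real.log x ≠ 0 := hlogx.ne
      rw [hδ]
      field_simp
    rw [h1, mul_comm, Real.exp_mul, Real.exp_log hs0, Real.rpow_natCast]
  choose gen hgen1 hgen2 using fun H : Subsemigroup S => count_gen H
  have hinj : Function.Injective gen := by
    intro H H' h
    rw [← hgen2 H, ← hgen2 H', h]
  have hcard : Nat.card (Subsemigroup S) ≤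
      #(Finset.univ.filter (fun A : Finset S => (#A : ℝ) ≤ δ * N)) := by
    have h1 : Function.Injective (fun H : Subsemigroup S =>
        (⟨gen H, by simpa using hA _ (hgen1 H)⟩ :
          {A : Finset S // A ∈ Finset.univ.filter (fun A : Finset S => (#A : ℝ) ≤ δ * N)})) :=
      fun H H' h => hinj (congrArg Subtype.val h)
    have h2 := Nat.card_le_card_of_injective _ h1
    refine h2.trans (le_of_eq ?_)
    exact Nat.card_eq_card_toFinset _ |>.trans (by simp)
  have hsum : (#(Finset.univ.filter (fun A : Finset S => (#A : ℝ) ≤ δ * N)) : ℝ) ≤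
      ∑ A : Finset S, x ^ (-(δ * N)) * x ^ #A := by
    rw [Finset.card_filter, Nat.cast_sum]
    refine Finset.sum_le_sum fun A _ => ?_
    have hpos : 0 < x ^ (-(δ * N)) := Real.rpow_pos_of_pos hx0 _
    split_ifs with h
    · rw [Nat.cast_one, ← Real.rpow_natCast x #A, ← Real.rpow_add hx0]
      refine Real.one_le_rpow_of_pos_of_le_one_of_nonpos hx0 hx1.le ?_
      linarith
    · rw [Nat.cast_zero]
      positivity
  have htot : ∑ A : Finset S, x ^ (-(δ * N)) * x ^ #A = √c ^ N * (1 + x) ^ N := by
    rw [← Finset.mul_sum, hxδ]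
    have h1 := Finset.sum_pow_mul_eq_add_pow x 1 (Finset.univ : Finset S)
    simp only [one_pow, mul_one, Finset.powerset_univ, Finset.card_univ] at h1
    rw [h1, add_comm x 1]
  have hfin : √c ^ N * (1 + x) ^ N < c ^ N := by
    have h1 : (1 + x) ^ N < √c ^ N := pow_lt_pow_left₀ hx2 (by positivity) (by omega)
    calc √c ^ N * (1 + x) ^ N < √c ^ N * √c ^ N := by
          apply mul_lt_mul_of_pos_left h1
          positivity
      _ = c ^ N := by
          rw [← mul_pow, Real.mul_self_sqrt (by linarith)]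
  calc (Nat.card (Subsemigroup S) : ℝ) ≤
        (#(Finset.univ.filter (fun A : Finset S => (#A : ℝ) ≤ δ * N)) : ℝ) := by
        exact_mod_cast hcard
    _ ≤ _ := hsum
    _ = _ := htot
    _ < c ^ N := hfin

end H96.TN
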