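import Pool.Agent.H96.TN.Defs2

/-!
Module DECODE (~120 lines): what a successful exploration gives.

Induction on `ys` (all `its`, `f`, `B`, `D`). `IN` = the points committed IN.
* `out`: nothing changes.
* `sgl y` with slot `x` (`g x = y`): IN: add `q x` to `IN`, `y` appears in the image (`y ∉` labels of the
  later items by `Nodup`); or blocked: `y` is added to `B'` (at the END of `B'`, since `Ok` conses `y`
  onto `B` before the later ones: `B'_new = B' ++ [y]`).
* `ext y r` with slot `x`: OUT: continue with `nxt y r its` (same labels if `r ≥ 1`; for `r = 0` the label
  disappears); or IN: add `q x`, `y` to `D'`; the remaining `r` slots of `y` are `out`; note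
  `Compat g ys (nxt y r its) → Compat g ys (List.replicate r Item.out ++ its)`.
* the family: `inn z f` composed: `f (IN ∪ S)`.
-/

namespace H96.TN

open Finset

variable {X Y Z : Type*} [DecidableEq X] [DecidableEq Y]

omit [DecidableEq Y] in
theorem decode_sgls_nxt (y : Y) (r : ℕ) (its : List (Item Y)) : sgls (nxt y r its) = sgls its := by
  cases r <;> rfl

omit [DecidableEq Y] in
theorem decode_exts_nxt_sublist (y : Y) (r : ℕ) (its : List (Item Y)) :
    (exts (nxt y r its)).Sublist (y :: exts its) := by
  cases r with
  | zero => exact List.sublist_cons_self _ _
  | succ r => exact List.Sublist.refl _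

omit [DecidableEq Y] in
theorem decode_sgls_rep (r : ℕ) (its : List (Item Y)) :
    sgls (List.replicate r Item.out ++ its) = sgls its := by
  induction r with
  | zero => rfl
  | succ r ih =>
    rw [List.replicate_succ, List.cons_append]
    exact ih

omit [DecidableEq Y] in
theorem decode_exts_rep (r : ℕ) (its : List (Item Y)) :
    exts (List.replicate r Item.out ++ its) = exts its := by
  induction r with
  | zero => rfl
  | succ r ih =>
    rw [List.replicate_succ, List.cons_append]
    exact ih

omit [DecidableEq Y] in
theorem decode_compat_rep (g : Z → Y) (y : Y) (r : ℕ) (its : List (Item Y)) (ys : List Z)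
    (h : Compat g ys (nxt y r its)) : Compat g ys (List.replicate r Item.out ++ its) := by
  induction r generalizing ys with
  | zero => exact h
  | succ r ih =>
    cases ys with
    | nil => exact h
    | cons x ys =>
      rw [List.replicate_succ, List.cons_append]
      exact ih ys h.2

theorem decode (g : Z → Y) (q : Z → X)
    (Φ : List X → (Finset X → ℝ) → List Y → List Y → Prop) (ys : List Z) (l' : List X)
    (its : List (Item Y)) (hc : Compat g ys its) (hnd : (sgls its ++ exts its).Nodup)
    (f : Finset X → ℝ) (B D : List Y) (hok : Ok Φ (ys.map q ++ l') its f B D) :
    ∃ (zs : List Z) (B' D' : List Y), (∀ x ∈ zs, x ∈ ys) ∧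
      B'.Nodup ∧ (∀ y ∈ B', y ∈ sgls its) ∧ D'.Nodup ∧ (∀ y ∈ D', y ∈ exts its) ∧
      (zs.map g).toFinset = ((sgls its).toFinset \ B'.toFinset) ∪ D'.toFinset ∧
      Φ l' (fun S => f ((zs.map q).toFinset ∪ S)) (B' ++ B) (D' ++ D) := by
  induction ys generalizing its f B D with
  | nil =>
    cases its with
    | nil =>
      refine ⟨[], [], [], by simp, by simp, by simp, by simp, by simp, by simp [sgls], ?_⟩
      have h : Φ l' f B D := by
        rw [List.map_nil, List.nil_append] at hok
        unfold Ok at hok
        cases l' <;> exact hok
      simpa using h
    | cons a its => exact absurd hc (by unfold Compat; exact id)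
  | cons x ys ih =>
    cases its with
    | nil => exact absurd hc (by unfold Compat; simp)
    | cons a its =>
      rw [List.map_cons, List.cons_append] at hok
      cases a with
      | out =>
        obtain ⟨zs, B', D', h1, h2, h3, h4, h5, h6, h7⟩ := ih its hc hnd f B D hok
        exact ⟨zs, B', D', fun z hz => List.mem_cons_of_mem _ (h1 z hz), h2, h3, h4, h5, h6, h7⟩
      | sgl y =>
        obtain ⟨hx, hc⟩ := hc
        have hnd' : (y :: (sgls its ++ exts its)).Nodup := hnd
        rw [List.nodup_cons, List.mem_append, not_or] at hnd'
        obtain ⟨⟨hy1, hy2⟩, hnd1⟩ := hnd'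
        rcases hok with hok | hok
        · obtain ⟨zs, B', D', h1, h2, h3, h4, h5, h6, h7⟩ := ih its hc hnd1 _ B D hok
          refine ⟨x :: zs, B', D', ?_, h2, fun z hz => List.mem_cons_of_mem _ (h3 z hz), h4, h5,
            ?_, ?_⟩
          · intro z hz
            rcases List.mem_cons.1 hz with h | h
            · rw [h]
              exact List.mem_cons_self
            · exact List.mem_cons_of_mem _ (h1 z h)
          · have hyB : y ∉ B'.toFinset := fun h => hy1 (h3 y (List.mem_toFinset.1 h))
            rw [List.map_cons, List.toFinset_cons, h6, hx]
            show insert y ((sgls its).toFinset \ B'.toFinset ∪ D'.toFinset) =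
              (y :: sgls its).toFinset \ B'.toFinset ∪ D'.toFinset
            rw [List.toFinset_cons, Finset.insert_sdiff_of_notMem _ hyB, Finset.insert_union]
          · simp only [inn] at h7
            simpa only [List.map_cons, List.toFinset_cons, Finset.insert_union] using h7
        · obtain ⟨zs, B', D', h1, h2, h3, h4, h5, h6, h7⟩ := ih its hc hnd1 _ (y :: B) D hok
          refine ⟨zs, B' ++ [y], D', fun z hz => List.mem_cons_of_mem _ (h1 z hz), ?_, ?_, h4, h5,
            ?_, ?_⟩
          · rw [List.nodup_append]
            refine ⟨h2, List.nodup_singleton y, ?_⟩
            intro a ha b hb hab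
            rw [List.mem_singleton] at hb
            rw [hab, hb] at ha
            exact hy1 (h3 y ha)
          · intro z hz
            rcases List.mem_append.1 hz with h | h
            · exact List.mem_cons_of_mem _ (h3 z h)
            · rw [List.mem_singleton.1 h]
              exact List.mem_cons_self
          · rw [h6]
            show (sgls its).toFinset \ B'.toFinset ∪ D'.toFinset =
              (y :: sgls its).toFinset \ (B' ++ [y]).toFinset ∪ D'.toFinset
            congr 1
            ext z
            simp only [mem_sdiff, List.mem_toFinset, List.mem_cons, List.mem_append,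
              List.not_mem_nil, or_false, not_or]
            constructor
            · rintro ⟨ha, hb⟩
              exact ⟨Or.inr ha, hb, fun h => hy1 (h ▸ ha)⟩
            · rintro ⟨ha, hb, hc⟩
              exact ⟨ha.resolve_left hc, hb⟩
          · rw [List.append_assoc]
            exact h7
      | ext y r =>
        obtain ⟨hx, hc⟩ := hc
        have hnd' : (sgls its ++ y :: exts its).Nodup := hnd
        rcases hok with hok | hok
        · have hsub := decode_exts_nxt_sublist y r its
          have hnd1 : (sgls (nxt y r its) ++ exts (nxt y r its)).Nodup := by
            rw [decode_sgls_nxt]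
            exact (List.Sublist.append_left hsub _).nodup hnd'
          obtain ⟨zs, B', D', h1, h2, h3, h4, h5, h6, h7⟩ := ih _ hc hnd1 _ B D hok
          rw [decode_sgls_nxt] at h3 h6
          exact ⟨zs, B', D', fun z hz => List.mem_cons_of_mem _ (h1 z hz), h2, h3, h4,
            fun z hz => hsub.subset (h5 z hz), h6, h7⟩
        · have hnd2 : (y :: (sgls its ++ exts its)).Nodup := List.nodup_middle.1 hnd'
          rw [List.nodup_cons, List.mem_append, not_or] at hnd2
          obtain ⟨⟨hy1, hy2⟩, hnd3⟩ := hnd2
          have hnd1 : (sgls (List.replicate r Item.out ++ its) ++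
              exts (List.replicate r Item.out ++ its)).Nodup := by
            rw [decode_sgls_rep, decode_exts_rep]
            exact hnd3
          obtain ⟨zs, B', D', h1, h2, h3, h4, h5, h6, h7⟩ :=
            ih _ (decode_compat_rep g y r its ys hc) hnd1 _ B (y :: D) hok
          rw [decode_sgls_rep] at h3 h6
          rw [decode_exts_rep] at h5
          refine ⟨x :: zs, B', D' ++ [y], ?_, h2, h3, ?_, ?_, ?_, ?_⟩
          · intro z hz
            rcases List.mem_cons.1 hz with h | h
            · rw [h]
              exact List.mem_cons_self
            · exact List.mem_cons_of_mem _ (h1 z h)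
          · rw [List.nodup_append]
            refine ⟨h4, List.nodup_singleton y, ?_⟩
            intro a ha b hb hab
            rw [List.mem_singleton] at hb
            rw [hab, hb] at ha
            exact hy2 (h5 y ha)
          · intro z hz
            rcases List.mem_append.1 hz with h | h
            · exact List.mem_cons_of_mem _ (h5 z h)
            · rw [List.mem_singleton.1 h]
              exact List.mem_cons_self
          · rw [List.map_cons, List.toFinset_cons, h6, hx]
            show insert y ((sgls its).toFinset \ B'.toFinset ∪ D'.toFinset) =
              (sgls its).toFinset \ B'.toFinset ∪ (D' ++ [y]).toFinset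
            ext z
            simp only [mem_insert, mem_union, mem_sdiff, List.mem_toFinset, List.mem_append,
              List.mem_singleton]
            tauto
          · rw [List.append_assoc]
            simp only [inn] at h7
            simpa only [List.map_cons, List.toFinset_cons, Finset.insert_union, List.singleton_append]
              using h7

end H96.TN
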