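import Mathlib

/-!
# MP_2b9fb5_al : subsemigroups of the full transformation semigroup -- definitions

PI: helper96.  See `/team-store/H96_TN.md` for the paper proof.
-/

namespace H96.TN

open Finset

/-- Irredundant subset of a semigroup: no element is generated by the others. -/
def Irred {S : Type*} [Mul S] (A : Finset S) : Prop :=
  ∀ a ∈ A, a ∉ Subsemigroup.closure ((A : Set S) \ {a})

/-- image of a self-map of `Fin n`. -/
def im {n : ℕ} (f : Fin n → Fin n) : Finset (Fin n) := Finset.univ.image f

/-- number of unordered pairs `{x, x'}` with `f x = f x'` (ordered as `x < x'`). -/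
def coll {n : ℕ} (f : Fin n → Fin n) : ℕ :=
  #{p : Fin n × Fin n | p.1 < p.2 ∧ f p.1 = f p.2}

section Avg

variable {X : Type*} [DecidableEq X]

/-- average of `f` over the `s`-subsets of `U`. -/
noncomputable def dn (U : Finset X) (s : ℕ) (f : Finset X → ℝ) : ℝ :=
  (∑ S ∈ U.powersetCard s, f S) / (U.card.choose s : ℝ)

/-- the family `f` with the point `z` committed to be IN. -/
def inn (z : X) (f : Finset X → ℝ) : Finset X → ℝ := fun S => f (insert z S)

/-- expectation over a uniformly random sequence of `k` distinct points of `U`. -/
noncomputable def EL : ℕ → Finset X → (List X → ℝ) → ℝ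
  | 0, _, f => f []
  | (k + 1), U, f => (∑ z ∈ U, EL k (U.erase z) (fun l => f (z :: l))) / (U.card : ℝ)

/-- indicator of a proposition. -/
noncomputable def ind (P : Prop) : ℝ := by
  classical exact if P then 1 else 0

end Avg

section Asg

variable {Y X : Type*} [DecidableEq Y] [Inhabited X]

/-- the assignment (slots `→` points) given by a list of slots and a list of points. -/
def asg : List Y → List X → (Y → X)
  | y :: ys, z :: l => Function.update (asg ys l) y z
  | _, _ => fun _ => default

end Asg

section Explore

variable {X Y : Type*} [DecidableEq X]

/-- Items of the exploration of stage A: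
* `out`     : one slot, forced OUT;
* `sgl y`   : the only slot of the class `y` (IN, or else the class is blocked);
* `ext y r` : one extra slot of the class `y`, with `r` further extra slots of `y` to follow. -/
inductive Item (Y : Type*) where
  | out : Item Y
  | sgl (y : Y) : Item Y
  | ext (y : Y) (r : ℕ) : Item Y

/-- what remains after an OUT of `ext y r`. -/
def nxt (y : Y) : ℕ → List (Item Y) → List (Item Y)
  | 0, its => its
  | (r + 1), its => Item.ext y r :: its

/-- number of slots of a list of items (for a well-formed list). -/
def nslot : List (Item Y) → ℕ
  | [] => 0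
  | Item.out :: its => nslot its + 1
  | Item.sgl _ :: its => nslot its + 1
  | Item.ext _ r :: its => nslot its + (r + 1)

/-- number of `sgl` items. -/
def nsgl : List (Item Y) → ℕ
  | [] => 0
  | Item.out :: its => nsgl its
  | Item.sgl _ :: its => nsgl its + 1
  | Item.ext _ _ :: its => nsgl its

/-- number of `out` items. -/
def nout : List (Item Y) → ℕ
  | [] => 0
  | Item.out :: its => nout its + 1
  | Item.sgl _ :: its => nout its
  | Item.ext _ _ :: its => nout its

/-- The list of points `l` admits a successful exploration of the items, ending in a
situation satisfying `Φ` (arguments: remaining points, remaining family, blocked classes,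
committed classes). -/
def Ok (Φ : List X → (Finset X → ℝ) → List Y → List Y → Prop) :
    List X → List (Item Y) → (Finset X → ℝ) → List Y → List Y → Prop
  | l, [], f, B, D => Φ l f B D
  | [], _ :: _, _, _, _ => False
  | _ :: l, Item.out :: its, f, B, D => Ok Φ l its f B D
  | z :: l, Item.sgl y :: its, f, B, D =>
      Ok Φ l its (inn z f) B D ∨ Ok Φ l its f (y :: B) D
  | z :: l, Item.ext y r :: its, f, B, D =>
      Ok Φ l (nxt y r its) f B D ∨
        Ok Φ l (List.replicate r Item.out ++ its) (inn z f) B (y :: D)

end Explore

section Sections

variable {X Y : Type*} [DecidableEq X] [DecidableEq Y]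

/-- Number of sections lying in the family `f`: each class `y ∈ R` has two points `q0 y`,
`q1 y`, a section takes exactly one of them. `f` counts the sections with weights. -/
noncomputable def nsec (R : Finset Y) (q0 q1 : Y → X) (f : Finset X → ℝ) : ℝ :=
  ∑ C ∈ R.powerset, f (C.image q0 ∪ (R \ C).image q1)

/-- slots of a list of pair classes. -/
def pslots : List Y → List (Y × Bool)
  | [] => []
  | y :: ys => (y, false) :: (y, true) :: pslots ys

/-- the average of `f` over the sections of the list of pairs. -/
noncomputable def nu : List X → (Finset X → ℝ) → ℝ
  | z :: z' :: l, f => nu l (fun S => (f (insert z S) + f (insert z' S)) / 2)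
  | _, f => f ∅

end Sections

end H96.TN
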