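import Pool.Agent.H96.TN.Defs

/-!
# MP_2b9fb5_al : further definitions (second wave)
-/

namespace H96.TN

open Finset

section

variable {X Y Z : Type*} [DecidableEq X] [DecidableEq Y]

/-- labels of the `sgl` items. -/
def sgls : List (Item Y) → List Y
  | [] => []
  | Item.out :: its => sgls its
  | Item.sgl y :: its => y :: sgls its
  | Item.ext _ _ :: its => sgls its

/-- labels of the `ext` items. -/
def exts : List (Item Y) → List Y
  | [] => []
  | Item.out :: its => exts its
  | Item.sgl _ :: its => exts its
  | Item.ext y _ :: its => y :: exts its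

/-- the list of slots fits the list of items (`g x` = class of the slot `x`). -/
def Compat (g : Z → Y) : List Z → List (Item Y) → Prop
  | ys, [] => ys = []
  | [], _ :: _ => False
  | _ :: ys, Item.out :: its => Compat g ys its
  | x :: ys, Item.sgl y :: its => g x = y ∧ Compat g ys its
  | x :: ys, Item.ext y r :: its => g x = y ∧ Compat g ys (nxt y r its)

/-- The end condition of stage A (`ms` = list of the pair classes, `l` = the list of the points of
the pair slots, `B` = blocked single classes, `D` = committed pair classes, `f` = current family):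
for all but a fraction `θ` of the choices of `j0 - |B|` further blocked classes among the pair
classes not in `D`, at least two sections lie in the family. -/
def Phi [Inhabited X] (ms : List Y) (j0 k0 : ℕ) (θ : ℝ) (l : List X) (f : Finset X → ℝ)
    (B D : List Y) : Prop :=
  B.length ≤ k0 ∧ D.length ≤ k0 ∧ (D.Nodup → (∀ y ∈ D, y ∈ ms) →
    (#{Bl ∈ (ms.toFinset \ D.toFinset).powersetCard (j0 - B.length) |
      nsec ((ms.toFinset \ D.toFinset) \ Bl) (fun y => asg (pslots ms) l (y, false))
        (fun y => asg (pslots ms) l (y, true)) f < 2} : ℝ) ≤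
      θ * (ms.length - D.length).choose (j0 - B.length))

/-- At least two sets of the family `B` have the image `W` under `g ∘ π⁻¹`. -/
def Sec2 {n : ℕ} (B : Finset (Finset (Fin n))) (g : Fin n → Fin n) (π : Equiv.Perm (Fin n))
    (W : Finset (Fin n)) : Prop :=
  ∃ I ∈ B, ∃ I' ∈ B, I ≠ I' ∧ I.image (fun x => g (π.symm x)) = W ∧
    I'.image (fun x => g (π.symm x)) = W

/-- classes of `V` with exactly one slot. -/
def P1 {n : ℕ} (g : Fin n → Fin n) (V : Finset (Fin n)) : Finset (Fin n) :=
  {y ∈ V | #{x | g x = y} = 1}

/-- classes of `V` with at least two slots. -/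
def P2 {n : ℕ} (g : Fin n → Fin n) (V : Finset (Fin n)) : Finset (Fin n) :=
  {y ∈ V | 2 ≤ #{x | g x = y}}

end

end H96.TN
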