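import Pool.Agent.H96.TN.Defs

/-!
Module DNB (~120 lines): basic identities of `dn` (double counting of pairs `z ∈ S`).
-/

namespace H96.TN

open Finset

variable {X : Type*} [DecidableEq X]

theorem dn_nonneg (U : Finset X) (s : ℕ) (f : Finset X → ℝ) (hf : ∀ S, 0 ≤ f S) :
    0 ≤ dn U s f :=
  div_nonneg (sum_nonneg fun S _ => hf S) (Nat.cast_nonneg _)

theorem dn_congr (U : Finset X) (s : ℕ) (f g : Finset X → ℝ)
    (h : ∀ S, S ⊆ U → #S = s → f S = g S) : dn U s f = dn U s g := by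
  unfold dn
  congr 1
  refine sum_congr rfl fun S hS => ?_
  rw [mem_powersetCard] at hS
  exact h S hS.1 hS.2

theorem dn_mono (U : Finset X) (s : ℕ) (f g : Finset X → ℝ)
    (h : ∀ S, S ⊆ U → #S = s → f S ≤ g S) : dn U s f ≤ dn U s g := by
  unfold dn
  refine div_le_div_of_nonneg_right ?_ (Nat.cast_nonneg _)
  refine sum_le_sum fun S hS => ?_
  rw [mem_powersetCard] at hS
  exact h S hS.1 hS.2

theorem dn_le_one (U : Finset X) (s : ℕ) (f : Finset X → ℝ) (hf : ∀ S, f S ≤ 1) :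
    dn U s f ≤ 1 := by
  unfold dn
  refine div_le_one_of_le₀ ?_ (Nat.cast_nonneg _)
  calc ∑ S ∈ U.powersetCard s, f S ≤ ∑ S ∈ U.powersetCard s, (1 : ℝ) :=
        sum_le_sum fun S _ => hf S
    _ = (U.card.choose s : ℝ) := by simp [card_powersetCard]

theorem dn_add (U : Finset X) (s : ℕ) (f g : Finset X → ℝ) :
    dn U s (fun S => f S + g S) = dn U s f + dn U s g := by
  simp only [dn, sum_add_distrib, add_div]

theorem dn_mul (U : Finset X) (s : ℕ) (c : ℝ) (f : Finset X → ℝ) :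
    dn U s (fun S => c * f S) = c * dn U s f := by
  simp only [dn, ← mul_sum, mul_div_assoc]

theorem dn_const (U : Finset X) (s : ℕ) (hs : s ≤ #U) (c : ℝ) : dn U s (fun _ => c) = c := by
  have h : (U.card.choose s : ℝ) ≠ 0 := by
    exact_mod_cast (Nat.choose_pos hs).ne'
  simp only [dn, sum_const, card_powersetCard, nsmul_eq_mul]
  field_simp

namespace DNB

theorem sum_in (U : Finset X) (s : ℕ) (f : Finset X → ℝ) :
    ∑ z ∈ U, ∑ T ∈ (U.erase z).powersetCard s, f (insert z T)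
      = ∑ S ∈ U.powersetCard (s + 1), ((s + 1 : ℕ) : ℝ) * f S := by
  have h1 : ∑ S ∈ U.powersetCard (s + 1), ((s + 1 : ℕ) : ℝ) * f S
      = ∑ S ∈ U.powersetCard (s + 1), ∑ z ∈ S, f S := by
    refine sum_congr rfl fun S hS => ?_
    rw [mem_powersetCard] at hS
    rw [sum_const, hS.2, nsmul_eq_mul]
  rw [h1, sum_sigma', sum_sigma']
  refine sum_bij' (fun p _ => ⟨insert p.1 p.2, p.1⟩) (fun p _ => ⟨p.2, p.1.erase p.2⟩)
    ?_ ?_ ?_ ?_ ?_
  · rintro ⟨z, T⟩ h
    simp only [mem_sigma, mem_powersetCard, mem_insert_self, and_true] at h ⊢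
    have hz : z ∉ T := fun hh => by simpa using h.2.1 hh
    refine ⟨?_, by rw [card_insert_of_notMem hz, h.2.2]⟩
    intro x hx
    rcases mem_insert.1 hx with rfl | hx
    · exact h.1
    · exact mem_of_mem_erase (h.2.1 hx)
  · rintro ⟨S, z⟩ h
    simp only [mem_sigma, mem_powersetCard] at h ⊢
    refine ⟨h.1.1 h.2, erase_subset_erase _ h.1.1, ?_⟩
    rw [card_erase_of_mem h.2, h.1.2]
    rfl
  · rintro ⟨z, T⟩ h
    simp only [mem_sigma, mem_powersetCard] at h
    have hz : z ∉ T := fun hh => by simpa using h.2.1 hh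
    simp [erase_insert hz]
  · rintro ⟨S, z⟩ h
    simp only [mem_sigma, mem_powersetCard] at h
    simp [insert_erase h.2]
  · rintro ⟨z, T⟩ h
    rfl

theorem sum_out (U : Finset X) (s : ℕ) (f : Finset X → ℝ) :
    ∑ z ∈ U, ∑ T ∈ (U.erase z).powersetCard s, f T
      = ∑ S ∈ U.powersetCard s, ((#U - s : ℕ) : ℝ) * f S := by
  have h1 : ∑ S ∈ U.powersetCard s, ((#U - s : ℕ) : ℝ) * f S
      = ∑ S ∈ U.powersetCard s, ∑ z ∈ U \ S, f S := by
    refine sum_congr rfl fun S hS => ?_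
    rw [mem_powersetCard] at hS
    rw [sum_const, card_sdiff_of_subset hS.1, hS.2, nsmul_eq_mul]
  rw [h1]
  refine sum_comm' ?_
  intro z S
  simp only [mem_powersetCard, mem_sdiff]
  constructor
  · rintro ⟨hz, hS, hc⟩
    refine ⟨⟨hz, fun hh => by simpa using hS hh⟩, ?_, hc⟩
    exact hS.trans (erase_subset _ _)
  · rintro ⟨⟨hz, hzS⟩, hS, hc⟩
    refine ⟨hz, ?_, hc⟩
    intro x hx
    refine mem_erase.2 ⟨?_, hS hx⟩
    rintro rfl
    exact hzS hx

theorem sum_two (U : Finset X) (a b : ℕ) (f : Finset X → ℝ) :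
    ∑ A ∈ U.powersetCard a, ∑ B ∈ (U \ A).powersetCard b, f (A ∪ B)
      = ∑ S ∈ U.powersetCard (a + b), (((a + b).choose a : ℕ) : ℝ) * f S := by
  have h1 : ∑ S ∈ U.powersetCard (a + b), (((a + b).choose a : ℕ) : ℝ) * f S
      = ∑ S ∈ U.powersetCard (a + b), ∑ A ∈ S.powersetCard a, f S := by
    refine sum_congr rfl fun S hS => ?_
    rw [mem_powersetCard] at hS
    rw [sum_const, card_powersetCard, hS.2, nsmul_eq_mul]
  rw [h1, sum_sigma', sum_sigma']
  refine sum_bij' (fun p _ => ⟨p.1 ∪ p.2, p.1⟩) (fun p _ => ⟨p.2, p.1 \ p.2⟩)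
    ?_ ?_ ?_ ?_ ?_
  · rintro ⟨A, B⟩ h
    simp only [mem_sigma, mem_powersetCard] at h ⊢
    have hd : Disjoint A B := by
      rw [disjoint_left]
      intro x hx hx'
      exact (mem_sdiff.1 (h.2.1 hx')).2 hx
    refine ⟨⟨union_subset h.1.1 (h.2.1.trans sdiff_subset), ?_⟩, subset_union_left, h.1.2⟩
    rw [card_union_of_disjoint hd, h.1.2, h.2.2]
  · rintro ⟨S, A⟩ h
    simp only [mem_sigma, mem_powersetCard] at h ⊢
    refine ⟨⟨h.2.1.trans h.1.1, h.2.2⟩, sdiff_subset_sdiff h.1.1 (Subset.refl _), ?_⟩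
    rw [card_sdiff_of_subset h.2.1, h.1.2, h.2.2]
    omega
  · rintro ⟨A, B⟩ h
    simp only [mem_sigma, mem_powersetCard] at h
    have hd : Disjoint A B := by
      rw [disjoint_left]
      intro x hx hx'
      exact (mem_sdiff.1 (h.2.1 hx')).2 hx
    simp [union_sdiff_cancel_left hd]
  · rintro ⟨S, A⟩ h
    simp only [mem_sigma, mem_powersetCard] at h
    simp [union_sdiff_of_subset h.2.1]
  · rintro ⟨A, B⟩ h
    rfl

theorem ch1 (m s : ℕ) : ((s + 1 : ℕ) : ℝ) * ((m + 1).choose (s + 1) : ℝ)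
    = ((m + 1 : ℕ) : ℝ) * (m.choose s : ℝ) := by
  have := Nat.add_one_mul_choose_eq m s
  have h2 : ((m + 1) * m.choose s : ℕ) = (m + 1).choose (s + 1) * (s + 1) := this
  have h3 : (((m + 1) * m.choose s : ℕ) : ℝ) = (((m + 1).choose (s + 1) * (s + 1) : ℕ) : ℝ) := by
    rw [h2]
  push_cast at h3 ⊢
  linarith

theorem ch2 (m s : ℕ) : ((m + 1 - s : ℕ) : ℝ) * ((m + 1).choose s : ℝ)
    = ((m + 1 : ℕ) : ℝ) * (m.choose s : ℝ) := by
  have h := Nat.choose_mul_succ_eq m s
  have h3 : ((m.choose s * (m + 1) : ℕ) : ℝ) = (((m + 1).choose s * (m + 1 - s) : ℕ) : ℝ) := by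
    rw [h]
  push_cast at h3 ⊢
  linarith

end DNB

/-- a random `s`-set = a random point `z` plus a random `(s-1)`-subset of the rest. -/
theorem dn_in_sum (U : Finset X) (s : ℕ) (hs : 1 ≤ s) (hsU : s ≤ #U) (f : Finset X → ℝ) :
    ∑ z ∈ U, dn (U.erase z) (s - 1) (inn z f) = #U * dn U s f := by
  obtain ⟨s, rfl⟩ : ∃ t, s = t + 1 := ⟨s - 1, by omega⟩
  obtain ⟨m, hm⟩ : ∃ m, #U = m + 1 := ⟨#U - 1, by omega⟩
  have e1 : ∀ z ∈ U, dn (U.erase z) (s + 1 - 1) (inn z f)
      = (∑ T ∈ (U.erase z).powersetCard s, f (insert z T)) / (m.choose s : ℝ) := by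
    intro z hz
    unfold dn
    rw [card_erase_of_mem hz, hm]
    rfl
  rw [sum_congr rfl e1, ← sum_div, DNB.sum_in, dn, ← mul_sum, hm]
  have p1 : (0 : ℝ) < (m.choose s : ℝ) := by
    exact_mod_cast Nat.choose_pos (by omega)
  have p2 : (0 : ℝ) < ((m + 1).choose (s + 1) : ℝ) := by
    exact_mod_cast Nat.choose_pos (by omega)
  have h := DNB.ch1 m s
  rw [div_eq_iff p1.ne', mul_div_assoc', div_mul_eq_mul_div, eq_div_iff p2.ne']
  linear_combination (∑ S ∈ U.powersetCard (s + 1), f S) * h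

theorem dn_out_sum (U : Finset X) (s : ℕ) (hsU : s + 1 ≤ #U) (f : Finset X → ℝ) :
    ∑ z ∈ U, dn (U.erase z) s f = #U * dn U s f := by
  obtain ⟨m, hm⟩ : ∃ m, #U = m + 1 := ⟨#U - 1, by omega⟩
  have e1 : ∀ z ∈ U, dn (U.erase z) s f
      = (∑ T ∈ (U.erase z).powersetCard s, f T) / (m.choose s : ℝ) := by
    intro z hz
    unfold dn
    rw [card_erase_of_mem hz, hm]
    rfl
  rw [sum_congr rfl e1, ← sum_div, DNB.sum_out, dn, ← mul_sum, hm]
  have p1 : (0 : ℝ) < (m.choose s : ℝ) := by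
    exact_mod_cast Nat.choose_pos (by omega)
  have p2 : (0 : ℝ) < ((m + 1).choose s : ℝ) := by
    exact_mod_cast Nat.choose_pos (by omega)
  have h := DNB.ch2 m s
  rw [div_eq_iff p1.ne', mul_div_assoc', div_mul_eq_mul_div, eq_div_iff p2.ne']
  linear_combination (∑ S ∈ U.powersetCard s, f S) * h

/-- conditioning on `z ∈ S`. -/
theorem dn_split (U : Finset X) (s : ℕ) (hs : 1 ≤ s) (hsU : s + 1 ≤ #U) (f : Finset X → ℝ)
    (z : X) (hz : z ∈ U) :
    (s : ℝ) * dn (U.erase z) (s - 1) (inn z f) + ((#U : ℝ) - s) * dn (U.erase z) s f =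
      #U * dn U s f := by
  obtain ⟨s, rfl⟩ : ∃ t, s = t + 1 := ⟨s - 1, by omega⟩
  obtain ⟨m, hm⟩ : ∃ m, #U = m + 1 := ⟨#U - 1, by omega⟩
  have hU : U = insert z (U.erase z) := (insert_erase hz).symm
  have hsum : ∑ S ∈ U.powersetCard (s + 1), f S
      = (∑ T ∈ (U.erase z).powersetCard s, f (insert z T))
        + ∑ T ∈ (U.erase z).powersetCard (s + 1), f T := by
    conv_lhs => rw [hU]
    rw [powersetCard_succ_insert (notMem_erase z U), sum_union, add_comm, sum_image]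
    · intro A hA B hB hAB
      have hA' : z ∉ A := by
        intro hh
        have := (mem_powersetCard.1 (Finset.mem_coe.1 hA)).1 hh
        simp at this
      have hB' : z ∉ B := by
        intro hh
        have := (mem_powersetCard.1 (Finset.mem_coe.1 hB)).1 hh
        simp at this
      have := congrArg (fun S => S.erase z) hAB
      simpa [erase_insert hA', erase_insert hB'] using this
    · rw [disjoint_left]
      intro S hS hS'
      obtain ⟨A, _, rfl⟩ := mem_image.1 hS'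
      have := (mem_powersetCard.1 hS).1 (mem_insert_self z A)
      simp at this
  have e1 : dn (U.erase z) (s + 1 - 1) (inn z f)
      = (∑ T ∈ (U.erase z).powersetCard s, f (insert z T)) / (m.choose s : ℝ) := by
    unfold dn
    rw [card_erase_of_mem hz, hm]
    rfl
  have e2 : dn (U.erase z) (s + 1) f
      = (∑ T ∈ (U.erase z).powersetCard (s + 1), f T) / (m.choose (s + 1) : ℝ) := by
    unfold dn
    rw [card_erase_of_mem hz, hm]
    rfl
  have e3 : dn U (s + 1) f = ((∑ T ∈ (U.erase z).powersetCard s, f (insert z T))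
        + ∑ T ∈ (U.erase z).powersetCard (s + 1), f T) / ((m + 1).choose (s + 1) : ℝ) := by
    unfold dn
    rw [hsum, hm]
  rw [e1, e2, e3, hm]
  set P := ∑ T ∈ (U.erase z).powersetCard s, f (insert z T)
  set Q := ∑ T ∈ (U.erase z).powersetCard (s + 1), f T
  have p1 : (0 : ℝ) < (m.choose s : ℝ) := by
    exact_mod_cast Nat.choose_pos (by omega)
  have p2 : (0 : ℝ) < ((m + 1).choose (s + 1) : ℝ) := by
    exact_mod_cast Nat.choose_pos (by omega)
  have p3 : (0 : ℝ) < (m.choose (s + 1) : ℝ) := by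
    exact_mod_cast Nat.choose_pos (by omega)
  have h1 := DNB.ch1 m s
  have h2 := DNB.ch2 m (s + 1)
  have hc : ((m + 1 - (s + 1) : ℕ) : ℝ) = ((m + 1 : ℕ) : ℝ) - ((s + 1 : ℕ) : ℝ) := by
    rw [Nat.cast_sub (by omega)]
  rw [hc] at h2
  have q1 : ((s + 1 : ℕ) : ℝ) * (P / (m.choose s : ℝ))
      = ((m + 1 : ℕ) : ℝ) * (P / ((m + 1).choose (s + 1) : ℝ)) := by
    rw [mul_div_assoc', mul_div_assoc', div_eq_div_iff p1.ne' p2.ne']
    linear_combination P * h1
  have q2 : (((m + 1 : ℕ) : ℝ) - ((s + 1 : ℕ) : ℝ)) * (Q / (m.choose (s + 1) : ℝ))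
      = ((m + 1 : ℕ) : ℝ) * (Q / ((m + 1).choose (s + 1) : ℝ)) := by
    rw [mul_div_assoc', mul_div_assoc', div_eq_div_iff p3.ne' p2.ne']
    linear_combination Q * h2
  rw [q1, q2, add_div, mul_add]

/-- a general `a + b`-set as an `a`-set plus a `b`-set of the rest. -/
theorem dn_dn (U : Finset X) (a b : ℕ) (hab : a + b ≤ #U) (f : Finset X → ℝ) :
    dn U a (fun A => dn (U \ A) b (fun B => f (A ∪ B))) = dn U (a + b) f := by
  have e1 : ∀ A ∈ U.powersetCard a, dn (U \ A) b (fun B => f (A ∪ B))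
      = (∑ B ∈ (U \ A).powersetCard b, f (A ∪ B)) / ((#U - a).choose b : ℝ) := by
    intro A hA
    rw [mem_powersetCard] at hA
    unfold dn
    rw [card_sdiff_of_subset hA.1, hA.2]
  have e2 : dn U a (fun A => dn (U \ A) b (fun B => f (A ∪ B)))
      = (∑ A ∈ U.powersetCard a, dn (U \ A) b (fun B => f (A ∪ B))) / (U.card.choose a : ℝ) := rfl
  rw [e2, sum_congr rfl e1, ← sum_div, DNB.sum_two, dn, ← mul_sum]
  have p1 : (0 : ℝ) < ((#U - a).choose b : ℝ) := by
    exact_mod_cast Nat.choose_pos (by omega)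
  have p2 : (0 : ℝ) < ((#U).choose a : ℝ) := by
    exact_mod_cast Nat.choose_pos (by omega)
  have p3 : (0 : ℝ) < ((#U).choose (a + b) : ℝ) := by
    exact_mod_cast Nat.choose_pos hab
  have h : (#U).choose (a + b) * (a + b).choose a = (#U).choose a * (#U - a).choose b := by
    have := Nat.choose_mul (n := #U) (k := a + b) (s := a) (by omega)
    simpa using this
  have h' : ((#U).choose (a + b) : ℝ) * ((a + b).choose a : ℝ)
      = ((#U).choose a : ℝ) * ((#U - a).choose b : ℝ) := by exact_mod_cast h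
  rw [div_div, div_eq_div_iff (by positivity) p3.ne']
  linear_combination (∑ S ∈ U.powersetCard (a + b), f S) * h'

end H96.TN
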