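import Pool.Agent.H96.TN.Defs

/-!
Module HEIGHT (~250 lines).

Notation: `Sur I = #{f | im f = I}`, `A_I = {f ∈ A | im f = I}`; call `I` rich if
`δ Sur I ≤ |A_I|`. In `Function.End`, `(f * g) x = f (g x)`.

(1) `∑_I |A_I| = |A| ≥ 2 δ N` (`N = n^n = ∑_I Sur I`), the non-rich `I` contribute `< δ N`
    (or `≤`), so `∑_{I rich} Sur I ≥ ∑_{I rich} |A_I| ≥ δ N`.
(2) For sets `I, T` of the same size `r` write `I ⇝ T` if there is a map `p` with `I.image p = T`
    which is a composition of (zero or more) elements of `A` of rank `> r`. `⇝` is reflexive and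
    transitive (`p` is injective on `I` since `|I| = |T|`).
(3) KEY: if `I_1 ⇝ I_2 ⇝ ... ⇝ I_M` with `I_i` distinct and rich, of size `r`, then `M δ ≤ 1`
    (if `Sur > 0`, i.e. unless `n > 0`, `r = 0`; for `r = 0` there is just one set).
    Let `p_i` carry `I_i` to `I_M`. The maps `p_i ∘ f`, `f ∈ A_{I_i}`, have image `I_M`, and
    `f ↦ p_i ∘ f` is injective on `A_{I_i}`. For `i < j` the sets `p_i ∘ A_{I_i}` and
    `p_j ∘ A_{I_j}` are disjoint: choose `p_i = p_j ∘ q` with `q` carrying `I_i` to `I_j`, so
    `p_i ∘ f = p_j ∘ f'` gives `q ∘ f = f'` (both have image `I_j`, `p_j` is injective on it),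
    where `f ≠ f'` (images `I_i ≠ I_j`) and the factors of `q` have rank `> r = rank f'`:
    `f'` is in the closure of `A \ {f'}`, contradiction to `Irred`.
    Hence `∑_i |A_{I_i}| ≤ Sur I_M`, and all `Sur I_i` are equal (same size), so `M δ ≤ 1`.
(4) Fix `r`. Define the strict partial order `I < T` iff `I ⇝ T` and (not `T ⇝ I`, or
    `I` before `T` in a fixed linear order of `Finset (Fin n)`) on the rich sets of size `r`.
    Every chain has at most `1/δ` elements by (3). So the rich `r`-sets are partitioned in at most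
    `1/δ` antichains (by the height function), and one of them, `B_r`, has `≥ δ · #rich_r`
    elements. In an antichain there are no `I ≠ T` with `I ⇝ T`. (Anything with
    `|B_r| ≥ δ^2 #rich_r` is enough.)
(5) `B = ⋃_r B_r`: `#{f | im f ∈ B} = ∑_r Sur(r) |B_r| ≥ δ^2 ∑_r Sur(r) #rich_r ≥ δ^3 N`.
-/

namespace H96.TN

open Finset

/-- Mirsky: a finite strict order with chains of length at most `L` has an antichain with at
least a fraction `1 / L` of the elements. -/
theorem height_mirsky {α : Type*} [DecidableEq α] (lt : α → α → Prop)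
    (htr : ∀ x y z, lt x y → lt y z → lt x z) (L : ℕ) (S : Finset α)
    (hch : ∀ l : List α, l.Pairwise lt → (∀ x ∈ l, x ∈ S) → l.length ≤ L) :
    ∃ B ⊆ S, (∀ x ∈ B, ∀ y ∈ B, ¬ lt x y) ∧ #S ≤ L * #B := by
  classical
  induction L generalizing S with
  | zero =>
    refine ⟨∅, by simp, by simp, ?_⟩
    have hS : S = ∅ := by
      rw [Finset.eq_empty_iff_forall_notMem]
      intro x hx
      have := hch [x] (List.pairwise_singleton _ _) (by simpa using hx)
      simp at this
    simp [hS]
  | succ L ih =>
    set M := S.filter (fun x => ∀ y ∈ S, ¬ lt y x) with hM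
    obtain ⟨B', hB', hanti, hcard⟩ := ih (S \ M) (by
      intro l hl hmem
      rcases l with _ | ⟨x, t⟩
      · simp
      · have hx := hmem x (List.mem_cons_self ..)
        rw [Finset.mem_sdiff, hM, Finset.mem_filter, not_and] at hx
        have h1 := hx.2 hx.1
        push Not at h1
        obtain ⟨y, hyS, hyx⟩ := h1
        have h2 := hch (y :: x :: t) (by
          rw [List.pairwise_cons]
          refine ⟨?_, hl⟩
          intro z hz
          rcases List.mem_cons.1 hz with rfl | hz
          · exact hyx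
          · exact htr y x z hyx (List.rel_of_pairwise_cons hl hz)) (by
          intro z hz
          rcases List.mem_cons.1 hz with rfl | hz
          · exact hyS
          · exact (Finset.mem_sdiff.1 (hmem z hz)).1)
        simp only [List.length_cons] at h2 ⊢
        omega)
    have hMS : M ⊆ S := Finset.filter_subset _ _
    have hsum : #S = #M + #(S \ M) := by
      rw [Finset.card_sdiff_of_subset hMS]
      have := Finset.card_le_card hMS
      omega
    by_cases hcmp : #B' ≤ #M
    · refine ⟨M, hMS, ?_, ?_⟩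
      · intro x hx y hy hxy
        exact (Finset.mem_filter.1 hy).2 x (hMS hx) hxy
      · calc #S = #M + #(S \ M) := hsum
          _ ≤ #M + L * #B' := by omega
          _ ≤ #M + L * #M := by
            have := Nat.mul_le_mul_left L hcmp
            omega
          _ = (L + 1) * #M := by ring
    · refine ⟨B', hB'.trans Finset.sdiff_subset, hanti, ?_⟩
      calc #S = #M + #(S \ M) := hsum
        _ ≤ #B' + L * #B' := by omega
        _ = (L + 1) * #B' := by ring

/-- the elements of `A` of rank `> r` -/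
def heightGen {n : ℕ} (A : Finset (Fin n → Fin n)) (r : ℕ) : Set (Function.End (Fin n)) :=
  {g | ∃ g' ∈ A, g = g' ∧ r < #(im g')}

/-- `I ⇝ T` -/
def heightReach {n : ℕ} (A : Finset (Fin n → Fin n)) (r : ℕ) (I T : Finset (Fin n)) : Prop :=
  ∃ p : Fin n → Fin n, (p : Function.End (Fin n)) ∈ Submonoid.closure (heightGen A r) ∧
    I.image p = T

theorem heightReach_refl {n : ℕ} (A : Finset (Fin n → Fin n)) (r : ℕ) (I : Finset (Fin n)) :
    heightReach A r I I :=
  ⟨id, one_mem _, Finset.image_id⟩

theorem heightReach_trans {n : ℕ} (A : Finset (Fin n → Fin n)) (r : ℕ)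
    {I T U : Finset (Fin n)} (h1 : heightReach A r I T) (h2 : heightReach A r T U) :
    heightReach A r I U := by
  obtain ⟨p, hp, rfl⟩ := h1
  obtain ⟨p', hp', rfl⟩ := h2
  exact ⟨p' ∘ p, mul_mem hp' hp, Finset.image_image.symm⟩

theorem height_sur_le {n : ℕ} {I I' : Finset (Fin n)} (h : #I = #I') :
    #{f : Fin n → Fin n | im f = I} ≤ #{f : Fin n → Fin n | im f = I'} := by
  classical
  set e := Finset.equivOfCardEq h with he
  set q : Fin n → Fin n := fun x => if hx : x ∈ I then (e ⟨x, hx⟩ : Fin n) else x with hq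
  have hqI : ∀ x (hx : x ∈ I), q x = e ⟨x, hx⟩ := fun x hx => dif_pos hx
  have hinj : ∀ x ∈ I, ∀ y ∈ I, q x = q y → x = y := by
    intro x hx y hy hxy
    rw [hqI x hx, hqI y hy] at hxy
    have := e.injective (Subtype.ext hxy)
    exact congrArg Subtype.val this
  have himg : I.image q = I' := by
    ext z
    rw [Finset.mem_image]
    constructor
    · rintro ⟨x, hx, rfl⟩
      rw [hqI x hx]
      exact (e ⟨x, hx⟩).2
    · intro hz
      refine ⟨(e.symm ⟨z, hz⟩ : Fin n), (e.symm ⟨z, hz⟩).2, ?_⟩
      rw [hqI _ (e.symm ⟨z, hz⟩).2]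
      simp
  apply Finset.card_le_card_of_injOn (fun f => q ∘ f)
  · intro f hf
    have hf' : im f = I := (Finset.mem_filter.1 hf).2
    refine Finset.mem_coe.2 (Finset.mem_filter.2 ⟨Finset.mem_univ _, ?_⟩)
    show Finset.univ.image (q ∘ f) = I'
    rw [← Finset.image_image]
    show (im f).image q = I'
    rw [hf', himg]
  · intro f hf g hg hfg
    have hf' : im f = I := (Finset.mem_filter.1 hf).2
    have hg' : im g = I := (Finset.mem_filter.1 hg).2
    funext x
    apply hinj
    · rw [← hf']; exact Finset.mem_image_of_mem _ (Finset.mem_univ _)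
    · rw [← hg']; exact Finset.mem_image_of_mem _ (Finset.mem_univ _)
    · exact congrFun hfg x

theorem height_sur_eq {n : ℕ} {I I' : Finset (Fin n)} (h : #I = #I') :
    #{f : Fin n → Fin n | im f = I} = #{f : Fin n → Fin n | im f = I'} :=
  le_antisymm (height_sur_le h) (height_sur_le h.symm)

theorem height_closure {n : ℕ} (A : Finset (Fin n → Fin n)) (r : ℕ)
    (S : Set (Function.End (Fin n))) (hS : heightGen A r ⊆ S) (p : Function.End (Fin n))
    (hp : p ∈ Submonoid.closure (heightGen A r)) :
    ∀ h : Function.End (Fin n), h ∈ Subsemigroup.closure S → p * h ∈ Subsemigroup.closure S := by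
  induction hp using Submonoid.closure_induction with
  | mem g hg =>
    intro h hh
    exact mul_mem (Subsemigroup.subset_closure (hS hg)) hh
  | one =>
    intro h hh
    rwa [one_mul]
  | mul x y hx hy ihx ihy =>
    intro h hh
    rw [mul_assoc]
    exact ihx _ (ihy _ hh)

/-- The images collected along a chain (last element first). -/
theorem height_chain {n : ℕ} (A : Finset (Fin n → Fin n))
    (hA : Irred (S := Function.End (Fin n)) A) (r : ℕ) (l : List (Finset (Fin n)))
    (T : Finset (Fin n))
    (hr : ∀ I ∈ T :: l, #I = r)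
    (hl : (T :: l).Pairwise (fun x y => heightReach A r y x ∧ x ≠ y)) :
    ∃ X : Finset (Fin n → Fin n), (∀ g ∈ X, im g = T) ∧
      #X = ((T :: l).map (fun I => #{f ∈ A | im f = I})).sum ∧
      ∀ g ∈ X, ∃ p : Fin n → Fin n, (p : Function.End (Fin n)) ∈
        Submonoid.closure (heightGen A r) ∧ ∃ f ∈ A, im f ∈ T :: l ∧ g = p ∘ f := by
  classical
  induction l generalizing T with
  | nil =>
    refine ⟨A.filter (fun f => im f = T), ?_, ?_, ?_⟩
    · intro g hg
      exact (Finset.mem_filter.1 hg).2
    · simp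
    · intro g hg
      rw [Finset.mem_filter] at hg
      exact ⟨id, one_mem _, g, hg.1, by rw [hg.2]; exact List.mem_cons_self .., rfl⟩
  | cons U l ih =>
    have hl' := List.pairwise_cons.1 hl
    obtain ⟨X, hX1, hX2, hX3⟩ := ih U (fun I hI => hr I (List.mem_cons_of_mem _ hI)) hl'.2
    obtain ⟨⟨q, hq, hqU⟩, hne⟩ := hl'.1 U (List.mem_cons_self ..)
    have hinj : Set.InjOn q (U : Set (Fin n)) := by
      rw [← Finset.card_image_iff, hqU, hr T (List.mem_cons_self ..),
        hr U (List.mem_cons_of_mem _ (List.mem_cons_self ..))]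
    have hXinj : Set.InjOn (fun g : Fin n → Fin n => q ∘ g) (X : Set (Fin n → Fin n)) := by
      intro g hg g' hg' hgg
      funext x
      apply hinj
      · rw [← hX1 g hg]
        exact Finset.mem_coe.2 (Finset.mem_image_of_mem _ (Finset.mem_univ _))
      · rw [← hX1 g' hg']
        exact Finset.mem_coe.2 (Finset.mem_image_of_mem _ (Finset.mem_univ _))
      · exact congrFun hgg x
    have hdisj : Disjoint (A.filter (fun f => im f = T))
        (X.image (fun g : Fin n → Fin n => q ∘ g)) := by
      rw [Finset.disjoint_left]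
      intro u hu hu2
      rw [Finset.mem_filter] at hu
      rw [Finset.mem_image] at hu2
      obtain ⟨g, hg, hgu⟩ := hu2
      obtain ⟨p, hp, f, hf, hfl, hgp⟩ := hX3 g hg
      have hur : #(im u) = r := by
        rw [hu.2]
        exact hr T (List.mem_cons_self ..)
      have hfu : f ≠ u := by
        rintro rfl
        rw [hu.2] at hfl
        exact (hl'.1 T hfl).2 rfl
      have hS : heightGen A r ⊆ {g : Function.End (Fin n) | ∃ g' ∈ A, g = g' ∧ g' ≠ u} := by
        rintro g ⟨g', hg', hgg', hr'⟩
        refine ⟨g', hg', hgg', ?_⟩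
        intro hgu'
        rw [hgu', hur] at hr'
        exact lt_irrefl _ hr'
      have h1 := height_closure A r _ hS p hp f
        (Subsemigroup.subset_closure ⟨f, hf, rfl, hfu⟩)
      have h2 := height_closure A r _ hS q hq _ h1
      apply hA u hu.1
      have hS2 : {g : Function.End (Fin n) | ∃ g' ∈ A, g = g' ∧ g' ≠ u} ⊆
          ((show Finset (Function.End (Fin n)) from A : Finset (Function.End (Fin n))) :
            Set (Function.End (Fin n))) \ {u} := by
        rintro g ⟨g', hg', hgg', hne'⟩
        subst hgg'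
        exact ⟨hg', hne'⟩
      refine Subsemigroup.closure_mono hS2 ?_
      have h3 : q ∘ (p ∘ f) = u := by
        rw [← hgu, hgp]
      have h5 : (show Function.End (Fin n) from q ∘ (p ∘ f)) ∈ Subsemigroup.closure
          {g : Function.End (Fin n) | ∃ g' ∈ A, g = g' ∧ g' ≠ u} := h2
      rw [h3] at h5
      exact h5
    refine ⟨A.filter (fun f => im f = T) ∪ X.image (fun g => q ∘ g), ?_, ?_, ?_⟩
    · intro g hg
      rw [Finset.mem_union, Finset.mem_filter, Finset.mem_image] at hg
      rcases hg with hg | ⟨g', hg', rfl⟩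
      · exact hg.2
      · show Finset.univ.image (q ∘ g') = T
        rw [← Finset.image_image]
        show (im g').image q = T
        rw [hX1 g' hg', hqU]
    · rw [Finset.card_union_of_disjoint hdisj, Finset.card_image_of_injOn hXinj, hX2]
      simp
    · intro g hg
      rw [Finset.mem_union, Finset.mem_filter, Finset.mem_image] at hg
      rcases hg with hg | ⟨g', hg', rfl⟩
      · exact ⟨id, one_mem _, g, hg.1, by rw [hg.2]; exact List.mem_cons_self .., rfl⟩
      · obtain ⟨p, hp, f, hf, hfl, hgp⟩ := hX3 g' hg'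
        exact ⟨q ∘ p, mul_mem hq hp, f, hf, List.mem_cons_of_mem _ hfl, by rw [hgp]; rfl⟩

/-- Chains of rich sets are short. -/
theorem height_short {n : ℕ} (A : Finset (Fin n → Fin n))
    (hA : Irred (S := Function.End (Fin n)) A) (r : ℕ) (δ : ℝ) (hδ : 0 < δ)
    (l : List (Finset (Fin n)))
    (hr : ∀ I ∈ l, #I = r)
    (hrich : ∀ I ∈ l, 0 < #{f : Fin n → Fin n | im f = I} ∧
      δ * #{f : Fin n → Fin n | im f = I} ≤ (#{f ∈ A | im f = I} : ℝ))
    (hl : l.Pairwise (fun x y => heightReach A r y x ∧ x ≠ y)) :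
    (l.length : ℝ) * δ ≤ 1 := by
  rcases l with _ | ⟨T, l⟩
  · simp
  · obtain ⟨X, hX1, hX2, -⟩ := height_chain A hA r l T hr hl
    have hT := hrich T (List.mem_cons_self ..)
    have hXle : #X ≤ #{f : Fin n → Fin n | im f = T} := by
      apply Finset.card_le_card
      intro g hg
      exact Finset.mem_filter.2 ⟨Finset.mem_univ _, hX1 g hg⟩
    rw [hX2] at hXle
    have hsum : ∀ l' : List (Finset (Fin n)), (∀ I ∈ l', I ∈ T :: l) →
        (l'.length : ℝ) * (δ * #{f : Fin n → Fin n | im f = T}) ≤
          ((l'.map (fun I => #{f ∈ A | im f = I})).sum : ℕ) := by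
      intro l' hl'
      induction l' with
      | nil => simp
      | cons I l' ih =>
        have h1 := ih (fun J hJ => hl' J (List.mem_cons_of_mem _ hJ))
        have h2 := hl' I (List.mem_cons_self ..)
        have h3 := (hrich I h2).2
        rw [height_sur_eq (I := I) (I' := T)
          ((hr I h2).trans (hr T (List.mem_cons_self ..)).symm)] at h3
        rw [List.map_cons, List.sum_cons, List.length_cons]
        push_cast at h1 ⊢
        linarith
    have h4 := hsum (T :: l) (fun I hI => hI)
    have h5 : ((((T :: l).map (fun I => #{f ∈ A | im f = I})).sum : ℕ) : ℝ) ≤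
        (#{f : Fin n → Fin n | im f = T} : ℕ) := by exact_mod_cast hXle
    have h6 : (0 : ℝ) < (#{f : Fin n → Fin n | im f = T} : ℕ) := by exact_mod_cast hT.1
    have h7 : (((T :: l).length : ℝ) * δ) * (#{f : Fin n → Fin n | im f = T} : ℕ) ≤
        1 * (#{f : Fin n → Fin n | im f = T} : ℕ) := by
      linarith
    exact le_of_mul_le_mul_right h7 h6

theorem height_pow_pos (n : ℕ) : (0 : ℝ) < (n : ℝ) ^ n := by
  rcases Nat.eq_zero_or_pos n with h | h
  · subst h
    simp
  · positivity

open Classical in
/-- The rich sets of size `r`. -/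
noncomputable def heightRich {n : ℕ} (A : Finset (Fin n → Fin n)) (δ : ℝ) (r : ℕ) :
    Finset (Finset (Fin n)) :=
  Finset.univ.filter (fun I => #I = r ∧ 0 < #{f : Fin n → Fin n | im f = I} ∧
      δ * #{f : Fin n → Fin n | im f = I} ≤ (#{f ∈ A | im f = I} : ℝ))

/-- The antichain of size `r`. -/
theorem height_level {n : ℕ} (A : Finset (Fin n → Fin n))
    (hA : Irred (S := Function.End (Fin n)) A) (δ : ℝ) (hδ : 0 < δ) (r : ℕ) :
    ∃ B ⊆ heightRich A δ r, (∀ I ∈ B, ∀ T ∈ B, heightReach A r I T → I = T) ∧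
      δ * #(heightRich A δ r) ≤ #B := by
  classical
  set c : Finset (Fin n) → ℕ := fun I => (Fintype.equivFin (Finset (Fin n)) I : ℕ) with hc
  have hcinj : ∀ I T, c I = c T → I = T := by
    intro I T h
    exact (Fintype.equivFin (Finset (Fin n))).injective (Fin.ext h)
  set lt : Finset (Fin n) → Finset (Fin n) → Prop := fun x y =>
    heightReach A r y x ∧ (¬ heightReach A r x y ∨ c x < c y) with hlt
  have htr : ∀ x y z, lt x y → lt y z → lt x z := by
    rintro x y z ⟨h1, h2⟩ ⟨h3, h4⟩
    refine ⟨heightReach_trans A r h3 h1, ?_⟩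
    by_cases h5 : heightReach A r x z
    · right
      have h6 : c x < c y := by
        rcases h2 with h2 | h2
        · exact absurd (heightReach_trans A r h5 h3) h2
        · exact h2
      have h7 : c y < c z := by
        rcases h4 with h4 | h4
        · exact absurd (heightReach_trans A r h1 h5) h4
        · exact h4
      exact h6.trans h7
    · exact Or.inl h5
  have hirr : ∀ x y, lt x y → x ≠ y := by
    rintro x y ⟨h1, h2⟩ rfl
    rcases h2 with h2 | h2
    · exact h2 h1
    · exact lt_irrefl _ h2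
  obtain ⟨B, hB, hanti, hcard⟩ := height_mirsky lt htr ⌊1 / δ⌋₊ (heightRich A δ r) (by
    intro l hl hmem
    have h1 := height_short A hA r δ hδ l
      (fun I hI => (Finset.mem_filter.1 (hmem I hI)).2.1)
      (fun I hI => (Finset.mem_filter.1 (hmem I hI)).2.2)
      (hl.imp (fun h => ⟨h.1, hirr _ _ h⟩))
    apply Nat.le_floor
    rwa [le_div_iff₀ hδ])
  refine ⟨B, hB, ?_, ?_⟩
  · intro I hI T hT hIT
    by_contra hne
    by_cases hTI : heightReach A r T I
    · rcases lt_trichotomy (c I) (c T) with h | h | h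
      · exact hanti I hI T hT ⟨hTI, Or.inr h⟩
      · exact hne (hcinj I T h)
      · exact hanti T hT I hI ⟨hIT, Or.inr h⟩
    · exact hanti T hT I hI ⟨hIT, Or.inl hTI⟩
  · have h1 : (#(heightRich A δ r) : ℝ) ≤ (⌊1 / δ⌋₊ : ℝ) * #B := by exact_mod_cast hcard
    have h2 : (⌊1 / δ⌋₊ : ℝ) ≤ 1 / δ := Nat.floor_le (by positivity)
    have h3 : (0 : ℝ) ≤ #B := Nat.cast_nonneg _
    calc δ * #(heightRich A δ r) ≤ δ * ((⌊1 / δ⌋₊ : ℝ) * #B) :=
          mul_le_mul_of_nonneg_left h1 hδ.le
      _ ≤ δ * (1 / δ * #B) :=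
          mul_le_mul_of_nonneg_left (mul_le_mul_of_nonneg_right h2 h3) hδ.le
      _ = #B := by
          field_simp

theorem height {n : ℕ} (A : Finset (Fin n → Fin n)) (hA : Irred (S := Function.End (Fin n)) A)
    (δ : ℝ) (hδ : 0 < δ) (hd : 2 * δ * (n : ℝ) ^ n ≤ #A) :
    ∃ B : Finset (Finset (Fin n)),
      (∀ I ∈ B, δ * #{f : Fin n → Fin n | im f = I} ≤ (#{f ∈ A | im f = I} : ℝ)) ∧
      δ ^ 3 * (n : ℝ) ^ n ≤ #{f : Fin n → Fin n | im f ∈ B} ∧
      (∀ g ∈ A, ∀ I ∈ B, ∀ T ∈ B, #I < #(im g) → #I = #T → I.image g = T → I = T) := by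
  classical
  choose Br hBr hanti hcard using fun r => height_level A hA δ hδ r
  set B : Finset (Finset (Fin n)) := (Finset.range (n + 1)).biUnion Br with hBdef
  have hmemB : ∀ I ∈ B, I ∈ Br (#I) := by
    intro I hI
    rw [hBdef, Finset.mem_biUnion] at hI
    obtain ⟨r, _, hr⟩ := hI
    have := (Finset.mem_filter.1 (hBr r hr)).2.1
    rw [this]
    exact hr
  refine ⟨B, ?_, ?_, ?_⟩
  · intro I hI
    exact (Finset.mem_filter.1 (hBr _ (hmemB I hI))).2.2.2
  · -- counting
    set sur : Finset (Fin n) → ℕ := fun I => #{f : Fin n → Fin n | im f = I} with hsur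
    set a : Finset (Fin n) → ℕ := fun I => #{f ∈ A | im f = I} with ha
    have hN : (n : ℝ) ^ n = ∑ I : Finset (Fin n), (sur I : ℝ) := by
      have h1 := Finset.card_eq_sum_card_fiberwise (s := (Finset.univ : Finset (Fin n → Fin n)))
        (t := (Finset.univ : Finset (Finset (Fin n)))) (f := im)
        (fun x _ => Finset.mem_coe.2 (Finset.mem_univ _))
      rw [Finset.card_univ, Fintype.card_fun, Fintype.card_fin] at h1
      have h2 : ((n ^ n : ℕ) : ℝ) = ((∑ I : Finset (Fin n), sur I : ℕ) : ℝ) := by
        rw [h1]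
      push_cast at h2
      exact h2
    have hAsum : (#A : ℝ) = ∑ I : Finset (Fin n), (a I : ℝ) := by
      have h1 := Finset.card_eq_sum_card_fiberwise (s := A)
        (t := (Finset.univ : Finset (Finset (Fin n)))) (f := im)
        (fun x _ => Finset.mem_coe.2 (Finset.mem_univ _))
      rw [h1]
      push_cast
      rfl
    have hale : ∀ I, a I ≤ sur I := by
      intro I
      apply Finset.card_le_card
      intro f hf
      exact Finset.mem_filter.2 ⟨Finset.mem_univ _, (Finset.mem_filter.1 hf).2⟩
    set rich : Finset (Finset (Fin n)) := Finset.univ.filter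
      (fun I => 0 < sur I ∧ δ * (sur I : ℝ) ≤ (a I : ℝ)) with hrich
    have hrichsum : δ * (n : ℝ) ^ n ≤ ∑ I ∈ rich, (sur I : ℝ) := by
      have h1 : ∑ I ∈ Finset.univ.filter (fun I : Finset (Fin n) =>
          ¬ (0 < sur I ∧ δ * (sur I : ℝ) ≤ (a I : ℝ))), (a I : ℝ) ≤
          ∑ I : Finset (Fin n), δ * (sur I : ℝ) := by
        rw [Finset.sum_filter]
        refine Finset.sum_le_sum (fun I _ => ?_)
        by_cases h : 0 < sur I ∧ δ * (sur I : ℝ) ≤ (a I : ℝ)
        · rw [if_neg (not_not.2 h)]
          positivity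
        · rw [if_pos h]
          by_cases h0 : 0 < sur I
          · have h3 : ¬ δ * (sur I : ℝ) ≤ (a I : ℝ) := fun h4 => h ⟨h0, h4⟩
            exact (not_le.1 h3).le
          · have h3 : sur I = 0 := by omega
            have h4 : a I = 0 := by
              have := hale I
              omega
            rw [h3, h4]
            simp
      have h2 : ∑ I : Finset (Fin n), (a I : ℝ) = ∑ I ∈ rich, (a I : ℝ) +
          ∑ I ∈ Finset.univ.filter (fun I : Finset (Fin n) =>
          ¬ (0 < sur I ∧ δ * (sur I : ℝ) ≤ (a I : ℝ))), (a I : ℝ) :=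
        (Finset.sum_filter_add_sum_filter_not _ _ _).symm
      have h3 : ∑ I ∈ rich, (a I : ℝ) ≤ ∑ I ∈ rich, (sur I : ℝ) :=
        Finset.sum_le_sum (fun I _ => by exact_mod_cast hale I)
      rw [← Finset.mul_sum, ← hN] at h1
      linarith
    have hrichr : ∀ r, rich.filter (fun I => #I = r) = heightRich A δ r := by
      intro r
      ext I
      simp only [hrich, heightRich, Finset.mem_filter, Finset.mem_univ, true_and]
      exact ⟨fun h => ⟨h.2, h.1⟩, fun h => ⟨h.2, h.1⟩⟩
    have hsplit : ∑ I ∈ rich, (sur I : ℝ) =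
        ∑ r ∈ Finset.range (n + 1), ∑ I ∈ heightRich A δ r, (sur I : ℝ) := by
      rw [← Finset.sum_fiberwise_of_maps_to (g := fun I : Finset (Fin n) => #I)
        (t := Finset.range (n + 1))]
      · refine Finset.sum_congr rfl (fun r _ => ?_)
        rw [hrichr r]
      · intro I _
        rw [Finset.mem_range]
        have := Finset.card_le_univ I
        rw [Fintype.card_fin] at this
        omega
    have hlevel : ∀ r, δ * ∑ I ∈ heightRich A δ r, (sur I : ℝ) ≤ ∑ I ∈ Br r, (sur I : ℝ) := by
      intro r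
      by_cases hne : (heightRich A δ r).Nonempty
      · obtain ⟨I0, hI0⟩ := hne
        have hI0r : #I0 = r := (Finset.mem_filter.1 hI0).2.1
        have h1 : ∀ I ∈ heightRich A δ r, (sur I : ℝ) = sur I0 := by
          intro I hI
          have hIr : #I = r := (Finset.mem_filter.1 hI).2.1
          have := height_sur_eq (I := I) (I' := I0) (hIr.trans hI0r.symm)
          exact_mod_cast this
        rw [Finset.sum_congr rfl h1, Finset.sum_congr rfl (fun I hI => h1 I (hBr r hI)),
          Finset.sum_const, Finset.sum_const, nsmul_eq_mul, nsmul_eq_mul, ← mul_assoc]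
        exact mul_le_mul_of_nonneg_right (hcard r) (Nat.cast_nonneg _)
      · rw [Finset.not_nonempty_iff_eq_empty] at hne
        rw [hne, Finset.sum_empty, mul_zero]
        exact Finset.sum_nonneg (fun I _ => Nat.cast_nonneg _)
    have hBsum : (#{f : Fin n → Fin n | im f ∈ B} : ℝ) =
        ∑ r ∈ Finset.range (n + 1), ∑ I ∈ Br r, (sur I : ℝ) := by
      have h1 : (#{f : Fin n → Fin n | im f ∈ B} : ℝ) = ∑ I ∈ B, (sur I : ℝ) := by
        have h2 := Finset.card_eq_sum_card_fiberwise
          (s := (Finset.univ.filter (fun f : Fin n → Fin n => im f ∈ B))) (t := B) (f := im)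
          (fun x hx => (Finset.mem_filter.1 (Finset.mem_coe.1 hx)).2)
        rw [h2]
        push_cast
        refine Finset.sum_congr rfl (fun I hI => ?_)
        congr 2
        ext f
        simp only [Finset.mem_filter, Finset.mem_univ, true_and]
        constructor
        · exact fun h => h.2
        · intro h
          exact ⟨by rw [h]; exact hI, h⟩
      rw [h1, hBdef, Finset.sum_biUnion]
      intro r _ r' _ hrr
      rw [Function.onFun, Finset.disjoint_left]
      intro I hI hI'
      exact hrr (((Finset.mem_filter.1 (hBr r hI)).2.1).symm.trans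
        (Finset.mem_filter.1 (hBr r' hI')).2.1)
    have h1 : δ * ∑ I ∈ rich, (sur I : ℝ) ≤ (#{f : Fin n → Fin n | im f ∈ B} : ℝ) := by
      rw [hsplit, hBsum, Finset.mul_sum]
      exact Finset.sum_le_sum (fun r _ => hlevel r)
    have hN0 : (0 : ℝ) < (n : ℝ) ^ n := height_pow_pos n
    have hδ1 : δ ≤ 1 := by
      have h2 : (#A : ℝ) ≤ (n : ℝ) ^ n := by
        rw [hAsum, hN]
        exact Finset.sum_le_sum (fun I _ => by exact_mod_cast hale I)
      have h3 : 2 * δ * (n : ℝ) ^ n ≤ 1 * (n : ℝ) ^ n := by linarith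
      have h4 := le_of_mul_le_mul_right h3 hN0
      linarith
    calc δ ^ 3 * (n : ℝ) ^ n = δ * (δ * (δ * (n : ℝ) ^ n)) := by ring
      _ ≤ δ * (δ * (n : ℝ) ^ n) := by
          apply mul_le_mul_of_nonneg_left _ hδ.le
          apply mul_le_of_le_one_left (by positivity) hδ1
      _ ≤ δ * ∑ I ∈ rich, (sur I : ℝ) := mul_le_mul_of_nonneg_left hrichsum hδ.le
      _ ≤ _ := h1
  · intro g hg I hI T hT hIg hIT himg
    have hI' := hmemB I hI
    have hT' := hmemB T hT
    rw [← hIT] at hT'
    exact hanti (#I) I hI' T hT'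
      ⟨g, Submonoid.subset_closure ⟨g, hg, rfl, hIg⟩, himg⟩

end H96.TN
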