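import Pool.Agent.H96.TN.Macl

/-!
Module LEVEL (~150 lines): the level-1 inequality. Uses `macl`, `dn_in_sum`.

`u = #U`, `p = s/u`, `φ = dn U s f ∈ (0,1]`, `a z = p (dn (U.erase z) (s-1) (inn z f)/φ - 1)`.
Then `a z + p = P_f(z ∈ S)`, i.e. `φ (a z + p) = dn U s (fun S => f S * 1[z ∈ S])`
(for `z ∈ U`), `∑_z a z = 0` (`dn_in_sum`), `|a z| ≤ 1`.
For `λ = 1/2` Jensen (convexity of `exp`, weights `f S/(φ C(u,s))`):
`exp (λ ∑_z a z (a z + p)) = exp(∑_S weight(S) ∑_{z∈S} λ a z)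
  ≤ φ^{-1} dn U s (fun S => f S * ∏_{z∈S} exp(λ a z)) ≤ φ^{-1} dn U s (fun S => ∏_{z ∈ S} exp(λ a z))
  ≤ φ^{-1} ((∑_z exp (λ a z))/u)^s ≤ φ^{-1} (1 + λ^2 ∑ a z^2 / u)^s ≤ φ^{-1} exp(λ^2 ∑ a z^2)`
(`exp t ≤ 1 + t + t^2` for `|t| ≤ 1`, `∑ a z = 0`, `s ≤ u`). As `∑_z a z (a z + p) = ∑ a z^2`:
`λ ∑ a^2 ≤ -log φ + λ^2 ∑ a^2`, so `∑ a^2 ≤ 4 (-log φ)`.
-/

namespace H96.TN

open Finset

variable {X : Type*} [DecidableEq X]

/-- conditioning on `z ∈ S`, as a weighted average -/
theorem level_in (U : Finset X) (s : ℕ) (f : Finset X → ℝ) (hs : 1 ≤ s) (hsU : s ≤ #U)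
    (z : X) (hz : z ∈ U) :
    (s : ℝ) / #U * dn (U.erase z) (s - 1) (inn z f) =
      dn U s (fun S => if z ∈ S then f S else 0) := by
  obtain ⟨m, rfl⟩ : ∃ m, s = m + 1 := ⟨s - 1, by omega⟩
  obtain ⟨n, hn⟩ : ∃ n, #U = n + 1 := ⟨#U - 1, by omega⟩
  have hcard : #(U.erase z) = n := by
    rw [card_erase_of_mem hz, hn]; rfl
  have hsum : ∑ S ∈ U.powersetCard (m + 1), (if z ∈ S then f S else 0) =
      ∑ S ∈ (U.erase z).powersetCard m, inn z f S := by
    rw [← Finset.sum_filter]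
    symm
    refine Finset.sum_bij (fun S _ => insert z S) ?_ ?_ ?_ ?_
    · intro S hS
      rw [mem_powersetCard] at hS
      have hzS : z ∉ S := fun h => (mem_erase.1 (hS.1 h)).1 rfl
      rw [mem_filter, mem_powersetCard]
      refine ⟨⟨?_, ?_⟩, mem_insert_self _ _⟩
      · exact insert_subset hz (hS.1.trans (erase_subset _ _))
      · rw [card_insert_of_notMem hzS, hS.2]
    · intro S hS T hT hST
      rw [mem_powersetCard] at hS hT
      have hzS : z ∉ S := fun h => (mem_erase.1 (hS.1 h)).1 rfl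
      have hzT : z ∉ T := fun h => (mem_erase.1 (hT.1 h)).1 rfl
      rw [← erase_insert hzS, ← erase_insert hzT]
      exact congrArg (fun W => erase W z) hST
    · intro S hS
      rw [mem_filter, mem_powersetCard] at hS
      refine ⟨S.erase z, ?_, insert_erase hS.2⟩
      rw [mem_powersetCard]
      refine ⟨erase_subset_erase _ hS.1.1, ?_⟩
      rw [card_erase_of_mem hS.2, hS.1.2]; rfl
    · intro S _
      rfl
  unfold dn
  rw [hsum, Nat.add_sub_cancel, hcard, hn]
  have h1 : ((n + 1).choose (m + 1) : ℝ) * ((m : ℝ) + 1) = ((n : ℝ) + 1) * (n.choose m : ℝ) := by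
    have := Nat.add_one_mul_choose_eq n m
    exact_mod_cast this.symm
  have hmn : m ≤ n := by omega
  have h2 : (0 : ℝ) < (n.choose m : ℝ) := by exact_mod_cast Nat.choose_pos hmn
  have h3 : (0 : ℝ) < ((n + 1).choose (m + 1) : ℝ) := by
    exact_mod_cast Nat.choose_pos (by omega)
  have h4 : (0 : ℝ) < (n : ℝ) + 1 := by positivity
  push_cast
  rw [div_mul_div_comm, div_eq_div_iff (by positivity) (by positivity)]
  linear_combination (∑ S ∈ (U.erase z).powersetCard m, inn z f S) * h1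

theorem level1 (U : Finset X) (s : ℕ) (f : Finset X → ℝ) (hf0 : ∀ S, 0 ≤ f S)
    (hf1 : ∀ S, f S ≤ 1) (hs : 1 ≤ s) (hsU : s ≤ #U) (hφ : 0 < dn U s f) :
    ∑ z ∈ U, ((s : ℝ) / #U * (dn (U.erase z) (s - 1) (inn z f) / dn U s f - 1)) ^ 2 ≤
      4 * (-Real.log (dn U s f)) := by
  set φ := dn U s f with hφdef
  set u : ℝ := (#U : ℝ) with hu
  have hupos : 0 < u := by
    rw [hu]
    exact_mod_cast (lt_of_lt_of_le hs hsU : 0 < #U)
  have hsu : (s : ℝ) ≤ u := by
    rw [hu]
    exact_mod_cast hsU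
  have hp0 : 0 ≤ (s : ℝ) / u := by positivity
  have hp1 : (s : ℝ) / u ≤ 1 := by
    rw [div_le_one hupos]; exact hsu
  set a : X → ℝ := fun z => (s : ℝ) / u * (dn (U.erase z) (s - 1) (inn z f) / φ - 1) with ha
  set N : ℝ := ((#U).choose s : ℝ) with hN
  have hNpos : 0 < N := by
    rw [hN]
    exact_mod_cast Nat.choose_pos hsU
  have hφsum : ∑ S ∈ U.powersetCard s, f S = φ * N := by
    rw [hφdef, dn, div_mul_cancel₀ _ hNpos.ne']
  -- the meaning of `a z`
  have haz : ∀ z ∈ U, dn U s (fun S => if z ∈ S then f S else 0) = φ * (a z + s / u) := by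
    intro z hz
    have h0 := level_in U s f hs hsU z hz
    rw [← hu] at h0
    rw [← h0]
    simp only [ha]
    field_simp
    ring
  have hsum0 : ∑ z ∈ U, a z = 0 := by
    have h1 := dn_in_sum U s hs hsU f
    simp only [ha]
    rw [← Finset.mul_sum, Finset.sum_sub_distrib, ← Finset.sum_div, h1]
    simp only [Finset.sum_const, nsmul_eq_mul, mul_one]
    rw [← hφdef, mul_div_cancel_right₀ _ hφ.ne', sub_self, mul_zero]
  have habs : ∀ z ∈ U, |a z| ≤ 1 := by
    intro z hz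
    have h1 := haz z hz
    have h2 : 0 ≤ dn U s (fun S => if z ∈ S then f S else 0) := by
      apply dn_nonneg
      intro S
      split_ifs
      · exact hf0 S
      · exact le_rfl
    have h3 : dn U s (fun S => if z ∈ S then f S else 0) ≤ φ := by
      rw [hφdef]
      apply dn_mono
      intro S _ _
      split_ifs
      · exact le_rfl
      · exact hf0 S
    rw [h1] at h2 h3
    have h4 : 0 ≤ a z + s / u := by
      by_contra hcon
      push Not at hcon
      nlinarith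
    have h5 : a z + s / u ≤ 1 := by
      by_contra hcon
      push Not at hcon
      nlinarith
    rw [abs_le]
    constructor <;> linarith
  set A : ℝ := ∑ z ∈ U, (a z) ^ 2 with hA
  have hA0 : 0 ≤ A := Finset.sum_nonneg fun z _ => sq_nonneg _
  -- Jensen
  have hjen : Real.exp (∑ S ∈ U.powersetCard s, (f S / (φ * N)) • (∑ z ∈ S, (1 / 2 : ℝ) * a z)) ≤
      ∑ S ∈ U.powersetCard s, (f S / (φ * N)) • Real.exp (∑ z ∈ S, (1 / 2 : ℝ) * a z) := by
    refine convexOn_exp.map_sum_le ?_ ?_ ?_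
    · intro S _
      exact div_nonneg (hf0 S) (by positivity)
    · rw [← Finset.sum_div, hφsum, div_self (by positivity)]
    · intro S _
      exact Set.mem_univ _
  have hlhs : ∑ S ∈ U.powersetCard s, (f S / (φ * N)) • (∑ z ∈ S, (1 / 2 : ℝ) * a z) =
      1 / 2 * A := by
    have h1 : ∀ S ∈ U.powersetCard s, (f S / (φ * N)) • (∑ z ∈ S, (1 / 2 : ℝ) * a z) =
        ∑ z ∈ U, (1 / 2 : ℝ) * a z * ((if z ∈ S then f S else 0) / (φ * N)) := by
      intro S hS
      rw [mem_powersetCard] at hS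
      rw [smul_eq_mul, Finset.mul_sum]
      rw [← Finset.sum_subset hS.1]
      · refine Finset.sum_congr rfl fun z hz => ?_
        rw [if_pos hz]
        ring
      · intro z _ hz
        rw [if_neg hz]
        ring
    rw [Finset.sum_congr rfl h1, Finset.sum_comm]
    have h2 : ∀ z ∈ U, ∑ S ∈ U.powersetCard s,
        (1 / 2 : ℝ) * a z * ((if z ∈ S then f S else 0) / (φ * N)) =
        1 / 2 * (a z) ^ 2 + (1 / 2 * (s / u)) * a z := by
      intro z hz
      rw [← Finset.mul_sum, ← Finset.sum_div]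
      have h3 := haz z hz
      rw [dn, ← hN, div_eq_iff hNpos.ne'] at h3
      rw [h3]
      field_simp
    rw [Finset.sum_congr rfl h2, Finset.sum_add_distrib, ← Finset.mul_sum, ← Finset.mul_sum,
      hsum0, mul_zero, add_zero]
  have hrhs : ∑ S ∈ U.powersetCard s, (f S / (φ * N)) • Real.exp (∑ z ∈ S, (1 / 2 : ℝ) * a z) ≤
      φ⁻¹ * dn U s (fun S => ∏ z ∈ S, Real.exp (1 / 2 * a z)) := by
    rw [dn, ← hN, ← div_eq_inv_mul, div_div, mul_comm N φ, Finset.sum_div]
    refine Finset.sum_le_sum fun S _ => ?_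
    rw [smul_eq_mul, Real.exp_sum, div_mul_eq_mul_div]
    refine div_le_div_of_nonneg_right ?_ (by positivity)
    have h0 : 0 ≤ ∏ z ∈ S, Real.exp (1 / 2 * a z) :=
      Finset.prod_nonneg fun z _ => (Real.exp_pos _).le
    calc f S * ∏ z ∈ S, Real.exp (1 / 2 * a z) ≤ 1 * ∏ z ∈ S, Real.exp (1 / 2 * a z) :=
          mul_le_mul_of_nonneg_right (hf1 S) h0
      _ = _ := one_mul _
  have hmac := macl U s hsU (fun z => Real.exp (1 / 2 * a z)) (fun z => (Real.exp_pos _).le)
  have hexp : (∑ z ∈ U, Real.exp (1 / 2 * a z)) / #U ≤ Real.exp (1 / 4 * A / u) := by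
    rw [← hu]
    have h1 : ∑ z ∈ U, Real.exp (1 / 2 * a z) ≤ u + 1 / 4 * A := by
      have h2 : ∀ z ∈ U, Real.exp (1 / 2 * a z) ≤ 1 + 1 / 2 * a z + 1 / 4 * (a z) ^ 2 := by
        intro z hz
        have h3 := habs z hz
        have h4 : |1 / 2 * a z| ≤ 1 := by
          rw [abs_mul]
          have : |(1 / 2 : ℝ)| = 1 / 2 := abs_of_pos (by norm_num)
          rw [this]
          linarith [abs_nonneg (a z)]
        have h5 := Real.abs_exp_sub_one_sub_id_le h4
        have h6 := (abs_le.1 h5).2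
        nlinarith
      refine (Finset.sum_le_sum h2).trans ?_
      have h7 : ∑ z ∈ U, 1 / 2 * a z = 1 / 2 * ∑ z ∈ U, a z := (Finset.mul_sum _ _ _).symm
      have h8 : ∑ z ∈ U, 1 / 4 * (a z) ^ 2 = 1 / 4 * A := (Finset.mul_sum _ _ _).symm
      rw [Finset.sum_add_distrib, Finset.sum_add_distrib, h7, h8, hsum0]
      simp only [Finset.sum_const, nsmul_eq_mul, mul_one, mul_zero, add_zero]
      exact le_rfl
    calc (∑ z ∈ U, Real.exp (1 / 2 * a z)) / u ≤ (u + 1 / 4 * A) / u :=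
          div_le_div_of_nonneg_right h1 hupos.le
      _ = 1 / 4 * A / u + 1 := by field_simp; ring
      _ ≤ Real.exp (1 / 4 * A / u) := Real.add_one_le_exp _
  have hpow : ((∑ z ∈ U, Real.exp (1 / 2 * a z)) / #U) ^ s ≤ Real.exp (1 / 4 * A) := by
    have h0 : 0 ≤ (∑ z ∈ U, Real.exp (1 / 2 * a z)) / #U :=
      div_nonneg (Finset.sum_nonneg fun z _ => (Real.exp_pos _).le) (Nat.cast_nonneg _)
    refine (pow_le_pow_left₀ h0 hexp s).trans ?_
    rw [← Real.exp_nat_mul]
    apply Real.exp_le_exp.2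
    have h1 : (s : ℝ) * (1 / 4 * A / u) = (s / u) * (1 / 4 * A) := by ring
    rw [h1]
    calc (s : ℝ) / u * (1 / 4 * A) ≤ 1 * (1 / 4 * A) :=
          mul_le_mul_of_nonneg_right hp1 (by positivity)
      _ = 1 / 4 * A := one_mul _
  have hfinal : Real.exp (1 / 2 * A) ≤ φ⁻¹ * Real.exp (1 / 4 * A) := by
    rw [hlhs] at hjen
    refine hjen.trans (hrhs.trans ?_)
    refine mul_le_mul_of_nonneg_left ?_ (by positivity)
    exact hmac.trans hpow
  have hlog : 1 / 2 * A ≤ -Real.log φ + 1 / 4 * A := by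
    have h1 := Real.log_le_log (Real.exp_pos _) hfinal
    rw [Real.log_exp, Real.log_mul (by positivity) (Real.exp_pos _).ne', Real.log_exp,
      Real.log_inv] at h1
    exact h1
  have : A ≤ 4 * (-Real.log φ) := by linarith
  exact this

end H96.TN
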