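import Pool.Agent.H96.TN.DnB

/-!
Module MACL (~120 lines): weak Maclaurin inequality.

Induction on `s` (for all `U`). `s + 1 ≤ #U`: by `dn_in_sum`,
`#U * dn U (s+1) Π = ∑_{z∈U} t z * dn (U.erase z) s Π` (`inn z Π S = t z * Π S` for `z ∉ S`), and
`z ↦ dn (U.erase z) s Π` is antitone with respect to `t`: for `z, z' ∈ U` with `t z ≤ t z'`,
`dn (U.erase z') s Π ≤ dn (U.erase z) s Π` (compare the subsets of `U \ {z,z'}` and the subsets
`S ∪ {z}`, `S ∪ {z'}`, `S ⊆ U \ {z,z'}`). Chebyshev's sum inequality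
(`AntivaryOn.card_mul_sum_le_sum_mul_sum`) gives
`#U ∑ t z h z ≤ (∑ t z) (∑ h z) = (∑ t) (#U dn U s Π)` (`dn_out_sum`), so
`dn U (s+1) Π ≤ ((∑ t)/#U) * dn U s Π`.
-/

namespace H96.TN

open Finset

variable {X : Type*} [DecidableEq X]

/-- splitting the subsets of `insert z W` according to whether they contain `z`. -/
private theorem sum_powersetCard_insert (W : Finset X) (z : X) (hz : z ∉ W) (s : ℕ)
    (t : X → ℝ) :
    ∑ S ∈ (insert z W).powersetCard (s + 1), ∏ x ∈ S, t x =
      ∑ S ∈ W.powersetCard (s + 1), ∏ x ∈ S, t x +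
        t z * ∑ S ∈ W.powersetCard s, ∏ x ∈ S, t x := by
  rw [powersetCard_succ_insert hz, sum_union, mul_sum, sum_image]
  · congr 1
    refine sum_congr rfl fun S hS => ?_
    rw [prod_insert]
    exact fun h => hz ((mem_powersetCard.1 hS).1 h)
  · intro S hS S' hS' h
    have h1 : z ∉ S := fun h => hz ((mem_powersetCard.1 hS).1 h)
    have h2 : z ∉ S' := fun h => hz ((mem_powersetCard.1 hS').1 h)
    rw [← erase_insert h1, ← erase_insert h2]
    exact congrArg (fun A => A.erase z) h
  · rw [Finset.disjoint_left]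
    intro S hS hS'
    rw [mem_image] at hS'
    obtain ⟨S', -, rfl⟩ := hS'
    exact hz ((mem_powersetCard.1 hS).1 (mem_insert_self z S'))

/-- `z ↦ dn (U.erase z) s Π` is antitone with respect to `t`. -/
private theorem dn_erase_anti (U : Finset X) (s : ℕ) (t : X → ℝ) (ht : ∀ z, 0 ≤ t z)
    {z z' : X} (hz : z ∈ U) (hz' : z' ∈ U) (hle : t z ≤ t z') :
    dn (U.erase z') s (fun S => ∏ x ∈ S, t x) ≤ dn (U.erase z) s (fun S => ∏ x ∈ S, t x) := by
  rcases eq_or_ne z z' with rfl | hne
  · exact le_rfl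
  unfold dn
  rw [card_erase_of_mem hz, card_erase_of_mem hz']
  refine div_le_div_of_nonneg_right ?_ (Nat.cast_nonneg _)
  set W := (U.erase z).erase z' with hW
  have h1 : U.erase z' = insert z W := by
    rw [hW, erase_right_comm, insert_erase]
    exact mem_erase.2 ⟨hne, hz⟩
  have h2 : U.erase z = insert z' W := by
    rw [hW, insert_erase]
    exact mem_erase.2 ⟨hne.symm, hz'⟩
  have hzW : z ∉ W := by
    rw [hW]
    simp
  have hz'W : z' ∉ W := by
    rw [hW]
    simp
  rw [h1, h2]
  cases s with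
  | zero => simp
  | succ s =>
    rw [sum_powersetCard_insert W z hzW, sum_powersetCard_insert W z' hz'W]
    have h3 : 0 ≤ ∑ S ∈ W.powersetCard s, ∏ x ∈ S, t x :=
      sum_nonneg fun S _ => prod_nonneg fun x _ => ht x
    have := mul_le_mul_of_nonneg_right hle h3
    linarith

theorem macl (U : Finset X) (s : ℕ) (hs : s ≤ #U) (t : X → ℝ) (ht : ∀ z, 0 ≤ t z) :
    dn U s (fun S => ∏ z ∈ S, t z) ≤ ((∑ z ∈ U, t z) / #U) ^ s := by
  induction s with
  | zero => simp [dn]
  | succ s ih =>
    have ih' := ih (by omega)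
    have hU : (0 : ℝ) < #U := by
      have : 0 < #U := by omega
      exact_mod_cast this
    set P : Finset X → ℝ := fun S => ∏ z ∈ S, t z with hP
    set h : X → ℝ := fun z => dn (U.erase z) s P with hh
    have hin := dn_in_sum U (s + 1) (by omega) hs P
    have hout := dn_out_sum U s hs P
    have hin' : ∑ z ∈ U, t z * h z = #U * dn U (s + 1) P := by
      rw [← hin]
      refine sum_congr rfl fun z hz => ?_
      rw [Nat.add_sub_cancel, hh]
      simp only
      rw [← dn_mul]
      refine dn_congr _ _ _ _ fun S hS _ => ?_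
      simp only [inn, hP]
      rw [prod_insert]
      exact fun hzS => (mem_erase.1 (hS hzS)).1 rfl
    have hanti : AntivaryOn t h U := by
      intro i hi j hj hij
      by_contra hlt
      push Not at hlt
      have := dn_erase_anti U s t ht (mem_coe.1 hi) (mem_coe.1 hj) hlt.le
      exact absurd hij (not_lt.2 this)
    have hcheb := hanti.card_mul_sum_le_sum_mul_sum
    rw [hin'] at hcheb
    have hout' : ∑ z ∈ U, h z = #U * dn U s P := hout
    rw [hout'] at hcheb
    have hT : 0 ≤ ∑ z ∈ U, t z := sum_nonneg fun z _ => ht z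
    have h1 : (#U : ℝ) * dn U (s + 1) P ≤ (∑ z ∈ U, t z) * dn U s P := by
      have : (#U : ℝ) * (#U * dn U (s + 1) P) ≤ #U * ((∑ z ∈ U, t z) * dn U s P) := by
        calc (#U : ℝ) * (#U * dn U (s + 1) P) ≤ (∑ z ∈ U, t z) * (#U * dn U s P) := hcheb
          _ = #U * ((∑ z ∈ U, t z) * dn U s P) := by ring
      exact le_of_mul_le_mul_left this hU
    have h2 : dn U (s + 1) P ≤ (∑ z ∈ U, t z) / #U * dn U s P := by
      rw [div_mul_eq_mul_div, le_div_iff₀ hU, mul_comm]
      exact h1
    refine h2.trans ?_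
    rw [pow_succ']
    exact mul_le_mul_of_nonneg_left ih' (by positivity)

end H96.TN
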