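import Mathlib

/-!
Module PARAM (~200 lines): choice of the parameters, pure real analysis.

`w = ⌊n/(512 C1)⌋`, `Λ = (log n)/10`, `κ = 16 n/w^2 ≤ C/n` with `C = 16 (1024 C1)^2` for large `n`,
`(1+κ)^n ≤ exp C =: E`, `L0 = -log θ0 ≥ 0`. The first summand is at most
`E (1/Λ + C ε3 + C k0 R/n + C/k0) L0`; choose `k0` with `E C L0/k0 ≤ ε/8`, `ε3` with
`E C ε3 L0 ≤ ε/8`, `ε3 ≤ 1/(256 C1)`. The rest tends to `0` as `n → ∞` for fixed `k0, j0`:
`1/Λ → 0`, `k0 R/n → 0` (`R ≤ √(2 C1 n) + 2`), `(C/n)(Λ + ...) → 0`,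
`exp Λ = n^(1/10)`, `√(m - K) ≥ √(n/(512 C1))`.
-/

namespace H96.TN

open Finset

theorem param_sqrt_lim (C1 : ℝ) (hC1 : 1 ≤ C1) :
    Filter.Tendsto (fun x : ℝ => (Real.sqrt (2 * C1 * x) + 2) / x) Filter.atTop (nhds 0) := by
  have h1 : Filter.Tendsto (fun x : ℝ => Real.sqrt (2 * C1) / Real.sqrt x + 2 / x)
      Filter.atTop (nhds 0) := by
    have h2 := (Real.tendsto_sqrt_atTop.const_div_atTop (Real.sqrt (2 * C1))).add
      (Filter.tendsto_id.const_div_atTop (2 : ℝ))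
    simpa using h2
  refine h1.congr' ?_
  filter_upwards [Filter.eventually_gt_atTop (0 : ℝ)] with x hx
  rw [Real.sqrt_mul (by positivity) x]
  have hs : Real.sqrt x ≠ 0 := (Real.sqrt_pos.2 hx).ne'
  have hxx : x = Real.sqrt x * Real.sqrt x := (Real.mul_self_sqrt hx.le).symm
  have h3 : Real.sqrt (2 * C1) / Real.sqrt x = Real.sqrt (2 * C1) * Real.sqrt x / x := by
    rw [div_eq_div_iff hs hx.ne']
    nth_rewrite 1 [hxx]
    ring
  rw [h3, ← add_div]

theorem param_lim1 (E C k0 L0 C1 : ℝ) (hC1 : 1 ≤ C1) :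
    Filter.Tendsto (fun x : ℝ => E * (1 / (Real.log x / 10) +
      C * k0 * ((Real.sqrt (2 * C1 * x) + 2) / x)) * L0) Filter.atTop (nhds 0) := by
  have h1 : Filter.Tendsto (fun x : ℝ => 1 / (Real.log x / 10)) Filter.atTop (nhds 0) :=
    (Real.tendsto_log_atTop.atTop_div_const (by norm_num)).const_div_atTop 1
  have h2 := ((h1.add ((param_sqrt_lim C1 hC1).const_mul (C * k0))).const_mul E).mul_const L0
  simpa using h2

theorem param_lim2 (K C θ1 : ℝ) :
    Filter.Tendsto (fun x : ℝ => 2 * K * (C / x) * (Real.log x / 10 + 2 * K) / θ1)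
      Filter.atTop (nhds 0) := by
  have h1 : Filter.Tendsto (fun x : ℝ => Real.log x / x) Filter.atTop (nhds 0) :=
    Real.isLittleO_log_id_atTop.tendsto_div_nhds_zero
  have h2 : Filter.Tendsto (fun x : ℝ => (2 * K * C / 10 / θ1) * (Real.log x / x) +
      (4 * K * K * C / θ1) / x) Filter.atTop (nhds 0) := by
    have h3 := (h1.const_mul (2 * K * C / 10 / θ1)).add
      (Filter.tendsto_id.const_div_atTop (4 * K * K * C / θ1))
    simpa using h3
  refine h2.congr fun x => ?_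
  ring

theorem param_lim3 (A D θ1 : ℝ) (hD : 0 < D) :
    Filter.Tendsto (fun x : ℝ => A * Real.exp (Real.log x / 10) / Real.sqrt (x / D) / θ1)
      Filter.atTop (nhds 0) := by
  have h1 : Filter.Tendsto (fun x : ℝ => (A * Real.sqrt D / θ1) * x ^ (-(2 / 5 : ℝ)))
      Filter.atTop (nhds 0) := by
    have h2 := (tendsto_rpow_neg_atTop (show (0 : ℝ) < 2 / 5 by norm_num)).const_mul
      (A * Real.sqrt D / θ1)
    simpa using h2
  refine h1.congr' ?_
  filter_upwards [Filter.eventually_gt_atTop (0 : ℝ)] with x hx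
  have h3 : Real.exp (Real.log x / 10) = x ^ (1 / 10 : ℝ) := by
    rw [Real.rpow_def_of_pos hx]
    ring_nf
  have h4 : Real.sqrt (x / D) = x ^ (1 / 2 : ℝ) / Real.sqrt D := by
    rw [Real.sqrt_div hx.le, Real.sqrt_eq_rpow x]
  have h5 : x ^ (1 / 10 : ℝ) = x ^ (-(2 / 5 : ℝ)) * x ^ (1 / 2 : ℝ) := by
    rw [← Real.rpow_add hx]
    norm_num
  have h6 : x ^ (1 / 2 : ℝ) ≠ 0 := (Real.rpow_pos_of_pos hx _).ne'
  have h7 : Real.sqrt D ≠ 0 := (Real.sqrt_pos.2 hD).ne'
  rw [h3, h4, h5]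
  field_simp

theorem param_exp (A b : ℝ) (hA : 0 < A) (hb : 0 < b) :
    ∀ᶠ x : ℝ in Filter.atTop, A * Real.exp (Real.log x / 10) ≤ Real.exp (b * x) := by
  have h1 := (isLittleO_rpow_exp_pos_mul_atTop (1 / 10 : ℝ) hb).def (show (0 : ℝ) < 1 / A by
    positivity)
  filter_upwards [h1, Filter.eventually_gt_atTop (0 : ℝ)] with x hx hx0
  have h3 : Real.exp (Real.log x / 10) = x ^ (1 / 10 : ℝ) := by
    rw [Real.rpow_def_of_pos hx0]
    ring_nf
  rw [h3]
  rw [Real.norm_of_nonneg (Real.rpow_nonneg hx0.le _), Real.norm_of_nonneg (Real.exp_pos _).le]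
    at hx
  calc A * x ^ (1 / 10 : ℝ) ≤ A * (1 / A * Real.exp (b * x)) :=
        mul_le_mul_of_nonneg_left hx hA.le
    _ = Real.exp (b * x) := by
        field_simp

theorem param (C1 θ0 θ1 ε : ℝ) (hC1 : 1 ≤ C1) (hθ0 : 0 < θ0) (hθ0' : θ0 ≤ 1) (hθ1 : 0 < θ1)
    (hε : 0 < ε) : ∃ k0 : ℕ, 1 ≤ k0 ∧ ∃ ε3 : ℝ, 0 < ε3 ∧ ε3 ≤ 1 / (256 * C1) ∧ ∀ j0 : ℕ,
      ∃ n0 : ℕ, ∀ n ≥ n0, ∃ (w : ℕ) (Λ : ℝ), 1 ≤ w ∧ 0 < Λ ∧
        ∀ (m R o : ℕ), (n : ℝ) / (256 * C1) ≤ m → (R : ℝ) ≤ Real.sqrt (2 * C1 * n) + 2 →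
          (o : ℝ) ≤ ε3 * n →
          w + k0 + j0 ≤ m ∧ 4 * 4 ^ (k0 + j0) * Real.exp Λ ≤ 2 ^ (m - (k0 + j0)) ∧
          (1 + 16 * n / (w : ℝ) ^ 2) ^ n *
            (1 / Λ + 16 * n / (w : ℝ) ^ 2 * (o + (k0 : ℝ) * R) +
              16 * n / (w : ℝ) ^ 2 / k0 * n) * (-Real.log θ0) +
            (2 * (k0 + j0) * (16 * n / (w : ℝ) ^ 2) * (Λ + 2 * (k0 + j0)) +
              32 * 4 ^ (k0 + j0) * Real.exp Λ / Real.sqrt ((m : ℝ) - (k0 + j0))) / θ1 ≤ ε := by
  set C : ℝ := 16 * (1024 * C1) ^ 2 with hC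
  have hCpos : 0 < C := by positivity
  set E : ℝ := Real.exp C with hE
  have hEpos : 0 < E := Real.exp_pos _
  set L0 : ℝ := -Real.log θ0 with hL0
  have hL0n : 0 ≤ L0 := by
    have := Real.log_nonpos hθ0.le hθ0'
    linarith
  have hECL : 0 ≤ E * C * L0 := by positivity
  obtain ⟨k0, hk0⟩ := exists_nat_ge (8 * (E * C * L0) / ε + 1)
  have hk0' : (1 : ℝ) ≤ k0 := by
    have : 0 ≤ 8 * (E * C * L0) / ε := by positivity
    linarith
  have hk01 : 1 ≤ k0 := by exact_mod_cast hk0'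
  have hk0pos : (0 : ℝ) < k0 := by linarith
  have hk0e : E * C * L0 / k0 ≤ ε / 8 := by
    rw [div_le_iff₀ hk0pos]
    have h1 : 8 * (E * C * L0) / ε ≤ k0 := by linarith
    rw [div_le_iff₀ hε] at h1
    linarith
  refine ⟨k0, hk01, min (1 / (256 * C1)) (ε / (8 * (E * C * L0 + 1))),
    lt_min (by positivity) (by positivity), min_le_left _ _, ?_⟩
  set ε3 : ℝ := min (1 / (256 * C1)) (ε / (8 * (E * C * L0 + 1))) with hε3
  have hε3pos : 0 < ε3 := lt_min (by positivity) (by positivity)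
  have hε3e : E * C * L0 * ε3 ≤ ε / 8 := by
    have h1 : ε3 ≤ ε / (8 * (E * C * L0 + 1)) := min_le_right _ _
    rw [le_div_iff₀ (by positivity)] at h1
    nlinarith
  intro j0
  set K : ℝ := (k0 : ℝ) + (j0 : ℝ) with hK
  have hKpos : 0 < K := by positivity
  set A : ℝ := 4 ^ (k0 + j0) with hA
  have hApos : 0 < A := by positivity
  have hbpos : 0 < Real.log 2 / (512 * C1) := div_pos (Real.log_pos (by norm_num)) (by positivity)
  have hev : ∀ᶠ x : ℝ in Filter.atTop, 1024 * C1 ≤ x ∧ 512 * C1 * K ≤ x ∧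
      E * (1 / (Real.log x / 10) + C * k0 * ((Real.sqrt (2 * C1 * x) + 2) / x)) * L0 ≤ ε / 4 ∧
      2 * K * (C / x) * (Real.log x / 10 + 2 * K) / θ1 ≤ ε / 8 ∧
      32 * A * Real.exp (Real.log x / 10) / Real.sqrt (x / (512 * C1)) / θ1 ≤ ε / 8 ∧
      4 * A * Real.exp (Real.log x / 10) ≤ Real.exp (Real.log 2 / (512 * C1) * x) := by
    filter_upwards [Filter.eventually_ge_atTop (1024 * C1),
      Filter.eventually_ge_atTop (512 * C1 * K),
      (param_lim1 E C k0 L0 C1 hC1).eventually (ge_mem_nhds (show (0 : ℝ) < ε / 4 by positivity)),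
      (param_lim2 K C θ1).eventually (ge_mem_nhds (show (0 : ℝ) < ε / 8 by positivity)),
      (param_lim3 (32 * A) (512 * C1) θ1 (by positivity)).eventually
        (ge_mem_nhds (show (0 : ℝ) < ε / 8 by positivity)),
      param_exp (4 * A) (Real.log 2 / (512 * C1)) (by positivity) hbpos]
      with x h1 h2 h3 h4 h5 h6
    exact ⟨h1, h2, h3, h4, h5, h6⟩
  obtain ⟨n0, hn0⟩ := Filter.eventually_atTop.1 (tendsto_natCast_atTop_atTop.eventually hev)
  refine ⟨n0, fun n hn => ?_⟩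
  obtain ⟨h1, h2, h3, h4, h5, h6⟩ := hn0 n hn
  set x : ℝ := (n : ℝ) with hx
  have hxpos : 0 < x := by linarith
  have hx1 : 1 < x := by linarith
  have hlog : 0 < Real.log x := Real.log_pos hx1
  have hq : x / (1024 * C1) ≥ 1 := by
    rw [ge_iff_le, le_div_iff₀ (by positivity)]
    linarith
  have hq2 : x / (512 * C1) = 2 * (x / (1024 * C1)) := by
    field_simp
    norm_num
  have hq3 : x / (256 * C1) = 2 * (x / (512 * C1)) := by
    field_simp
    norm_num
  have hqK : K ≤ x / (512 * C1) := by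
    rw [le_div_iff₀ (by positivity)]
    linarith
  have hw1 : 1 ≤ ⌊x / (512 * C1)⌋₊ := by
    apply Nat.le_floor
    rw [Nat.cast_one, hq2]
    linarith
  refine ⟨⌊x / (512 * C1)⌋₊, Real.log x / 10, hw1, by positivity, ?_⟩
  set w : ℕ := ⌊x / (512 * C1)⌋₊ with hw
  have hwle : (w : ℝ) ≤ x / (512 * C1) := Nat.floor_le (by positivity)
  have hwge : x / (1024 * C1) ≤ w := by
    have h7 : x / (512 * C1) < w + 1 := Nat.lt_floor_add_one _
    rw [hq2] at h7
    linarith
  have hwpos : (0 : ℝ) < w := by linarith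
  intro m R o hm hR ho
  have hmK : K + x / (512 * C1) ≤ m := by
    rw [hq3] at hm
    linarith
  set κ : ℝ := 16 * x / (w : ℝ) ^ 2 with hκ
  have hκ0 : 0 ≤ κ := by positivity
  have hκC : κ ≤ C / x := by
    rw [hκ, div_le_div_iff₀ (by positivity) hxpos]
    have h7 : (x / (1024 * C1)) ^ 2 ≤ (w : ℝ) ^ 2 := pow_le_pow_left₀ (by positivity) hwge 2
    have h8 : C * (x / (1024 * C1)) ^ 2 = 16 * x * x := by
      rw [hC]
      field_simp
    calc 16 * x * x = C * (x / (1024 * C1)) ^ 2 := h8.symm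
      _ ≤ C * (w : ℝ) ^ 2 := mul_le_mul_of_nonneg_left h7 hCpos.le
  have hpow : (1 + κ) ^ n ≤ E := by
    calc (1 + κ) ^ n ≤ (Real.exp κ) ^ n := by
          apply pow_le_pow_left₀ (by positivity)
          rw [add_comm]
          exact Real.add_one_le_exp κ
      _ = Real.exp (n * κ) := by rw [Real.exp_nat_mul]
      _ ≤ E := by
          rw [hE]
          apply Real.exp_le_exp.2
          calc (n : ℝ) * κ ≤ x * (C / x) := mul_le_mul_of_nonneg_left hκC hxpos.le
            _ = C := by field_simp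
  refine ⟨?_, ?_, ?_⟩
  · have h7 : ((w + k0 + j0 : ℕ) : ℝ) ≤ m := by
      push_cast
      linarith
    exact_mod_cast h7
  · have hmK' : k0 + j0 ≤ m := by
      have h7 : ((k0 + j0 : ℕ) : ℝ) ≤ m := by
        push_cast
        have : 0 ≤ x / (512 * C1) := by positivity
        linarith
      exact_mod_cast h7
    have h7 : Real.exp (Real.log 2 / (512 * C1) * x) ≤ 2 ^ (m - (k0 + j0)) := by
      have h8 : (2 : ℝ) ^ (m - (k0 + j0)) =
          Real.exp (Real.log 2 * ((m - (k0 + j0) : ℕ) : ℝ)) := by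
        rw [Real.exp_mul, Real.exp_log (by norm_num), Real.rpow_natCast]
      rw [h8]
      apply Real.exp_le_exp.2
      rw [div_mul_eq_mul_div, mul_div_assoc]
      apply mul_le_mul_of_nonneg_left _ (Real.log_nonneg (by norm_num))
      rw [Nat.cast_sub hmK']
      push_cast
      linarith
    exact h6.trans h7
  · have hT2 : 1 / (Real.log x / 10) + κ * (o + (k0 : ℝ) * R) + κ / k0 * x ≤
        1 / (Real.log x / 10) + C * k0 * ((Real.sqrt (2 * C1 * x) + 2) / x) + C * ε3 +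
          C / k0 := by
      have h7 : κ * (o + (k0 : ℝ) * R) ≤ C / x * (ε3 * x + k0 * (Real.sqrt (2 * C1 * x) + 2)) := by
        apply mul_le_mul hκC _ (by positivity) (by positivity)
        have := mul_le_mul_of_nonneg_left hR hk0pos.le
        linarith
      have h8 : C / x * (ε3 * x + k0 * (Real.sqrt (2 * C1 * x) + 2)) =
          C * k0 * ((Real.sqrt (2 * C1 * x) + 2) / x) + C * ε3 := by
        field_simp
        ring
      have h9 : κ / k0 * x ≤ C / k0 := by
        calc κ / k0 * x ≤ C / x / k0 * x := by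
              apply mul_le_mul_of_nonneg_right _ hxpos.le
              exact div_le_div_of_nonneg_right hκC hk0pos.le
          _ = C / k0 := by field_simp
      linarith
    have hT20 : 0 ≤ 1 / (Real.log x / 10) + κ * (o + (k0 : ℝ) * R) + κ / k0 * x := by
      positivity
    have hfirst : (1 + κ) ^ n * (1 / (Real.log x / 10) + κ * (o + (k0 : ℝ) * R) + κ / k0 * x) *
        L0 ≤ ε / 2 := by
      calc (1 + κ) ^ n * (1 / (Real.log x / 10) + κ * (o + (k0 : ℝ) * R) + κ / k0 * x) * L0 ≤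
            E * (1 / (Real.log x / 10) + C * k0 * ((Real.sqrt (2 * C1 * x) + 2) / x) + C * ε3 +
              C / k0) * L0 := by
            apply mul_le_mul_of_nonneg_right _ hL0n
            exact mul_le_mul hpow hT2 hT20 hEpos.le
        _ = E * (1 / (Real.log x / 10) + C * k0 * ((Real.sqrt (2 * C1 * x) + 2) / x)) * L0 +
              E * C * L0 * ε3 + E * C * L0 / k0 := by
            ring
        _ ≤ ε / 2 := by linarith
    have hsecond : (2 * K * κ * (Real.log x / 10 + 2 * K) +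
        32 * A * Real.exp (Real.log x / 10) / Real.sqrt ((m : ℝ) - K)) / θ1 ≤ ε / 4 := by
      have h7 : 2 * K * κ * (Real.log x / 10 + 2 * K) ≤
          2 * K * (C / x) * (Real.log x / 10 + 2 * K) := by
        apply mul_le_mul_of_nonneg_right _ (by positivity)
        exact mul_le_mul_of_nonneg_left hκC (by positivity)
      have h8 : 32 * A * Real.exp (Real.log x / 10) / Real.sqrt ((m : ℝ) - K) ≤
          32 * A * Real.exp (Real.log x / 10) / Real.sqrt (x / (512 * C1)) := by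
        apply div_le_div_of_nonneg_left (by positivity) (Real.sqrt_pos.2 (by positivity))
        apply Real.sqrt_le_sqrt
        linarith
      rw [add_div]
      have h9 := div_le_div_of_nonneg_right h7 hθ1.le
      have h10 := div_le_div_of_nonneg_right h8 hθ1.le
      linarith
    have hfin : (1 + κ) ^ n * (1 / (Real.log x / 10) + κ * (o + (k0 : ℝ) * R) + κ / k0 * x) *
        L0 + (2 * K * κ * (Real.log x / 10 + 2 * K) +
        32 * A * Real.exp (Real.log x / 10) / Real.sqrt ((m : ℝ) - K)) / θ1 ≤ ε := by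
      linarith
    exact hfin

end H96.TN
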