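import Pool.Agent.H96.TN.Defs

/-!
Module PICKG (~180 lines).

Let `𝒮 = {g | im g = T}`. For fixed permutations `π` of `Fin n` and `τ` of `T \ J⁰`
(extended by the identity, `τ̂ = Equiv.Perm.ofSubtype τ`), `g ↦ τ̂ ∘ g ∘ π⁻¹` is a bijection of `𝒮`.
Hence `∑_{g ∈ 𝒮} #{(π,τ) | τ̂ g π⁻¹ ∈ A} = n! v! |A ∩ 𝒮| ≥ δ n! v! |𝒮|`. The bad `g ∈ 𝒮` are those
with `coll g > C1 n` (at most `(δ/8)|𝒮|`) and those with `#{x | g x ∈ J⁰} > ε3 n`: by symmetry
of the values (permute the values in `T`) `∑_{g∈𝒮} #{x | g x ∈ J⁰} = |𝒮| n #J⁰/#T ≤ |𝒮| n δ ε3/8`,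
so by Markov at most `(δ/8)|𝒮|`. If every good `g` had `#{(π,τ)…} < (3δ/4) n! v!` then the sum
would be `< (3δ/4 + δ/4) n! v! |𝒮|`, contradiction (`𝒮 ≠ ∅`; here `#T ≤ n` is given by `hT2`).
-/

namespace H96.TN

open Finset

theorem pickg_mem {n : ℕ} (T : Finset (Fin n)) (g : Fin n → Fin n) (π : Equiv.Perm (Fin n))
    (σ : Equiv.Perm (Fin n)) (hσ : T.image σ = T) (hg : im g = T) :
    im (fun x => σ (g (π.symm x))) = T := by
  unfold im at *
  have h1 : (univ : Finset (Fin n)).image (fun x => σ (g (π.symm x))) =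
      ((univ.image π.symm).image g).image σ := by
    rw [Finset.image_image, Finset.image_image]
    rfl
  rw [h1]
  have h2 : (univ : Finset (Fin n)).image π.symm = univ := by
    ext x
    simp only [mem_image, mem_univ, true_and, iff_true]
    exact ⟨π x, by simp⟩
  rw [h2, hg, hσ]

theorem pickg_symm {n : ℕ} (T : Finset (Fin n)) (σ : Equiv.Perm (Fin n)) (hσ : T.image σ = T) :
    T.image σ.symm = T := by
  have h1 : (T.image σ).image σ.symm = T := by
    rw [Finset.image_image]; simp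
  rwa [hσ] at h1

theorem pickg_sym {n : ℕ} (T : Finset (Fin n)) (y y' : Fin n) (hy : y ∈ T) (hy' : y' ∈ T) :
    ∑ g ∈ ({g : Fin n → Fin n | im g = T} : Finset (Fin n → Fin n)), #{x | g x = y} =
    ∑ g ∈ ({g : Fin n → Fin n | im g = T} : Finset (Fin n → Fin n)), #{x | g x = y'} := by
  have hσ : T.image (Equiv.swap y y') = T := by
    ext z
    simp only [mem_image]
    constructor
    · rintro ⟨w, hw, rfl⟩
      by_cases h1 : w = y
      · subst h1; rw [Equiv.swap_apply_left]; exact hy'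
      by_cases h2 : w = y'
      · subst h2; rw [Equiv.swap_apply_right]; exact hy
      rw [Equiv.swap_apply_of_ne_of_ne h1 h2]; exact hw
    · intro hz
      refine ⟨Equiv.swap y y' z, ?_, by simp⟩
      by_cases h1 : z = y
      · subst h1; rw [Equiv.swap_apply_left]; exact hy'
      by_cases h2 : z = y'
      · subst h2; rw [Equiv.swap_apply_right]; exact hy
      rw [Equiv.swap_apply_of_ne_of_ne h1 h2]; exact hz
  apply Finset.sum_bij' (fun g _ => fun x => Equiv.swap y y' (g x)) (fun g _ => fun x => Equiv.swap y y' (g x))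
  · intro g hg
    rw [mem_filter] at hg ⊢
    exact ⟨mem_univ _, pickg_mem T g 1 (Equiv.swap y y') hσ hg.2⟩
  · intro g hg
    rw [mem_filter] at hg ⊢
    exact ⟨mem_univ _, pickg_mem T g 1 (Equiv.swap y y') hσ hg.2⟩
  · intro g _; funext x; simp
  · intro g _; funext x; simp
  · intro g _
    congr 1
    ext x
    simp only [mem_filter, mem_univ, true_and]
    constructor
    · intro h; rw [h]; simp
    · intro h
      have := congrArg (Equiv.swap y y') h
      simpa using this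

theorem pickg_J0 {n : ℕ} (T J0 : Finset (Fin n)) (hJ : J0 ⊆ T) (hT : T.Nonempty) :
    (#T : ℝ) * ∑ g ∈ ({g : Fin n → Fin n | im g = T} : Finset (Fin n → Fin n)), (#{x | g x ∈ J0} : ℝ) =
    #J0 * (n * #{g : Fin n → Fin n | im g = T}) := by
  classical
  set S := ({g : Fin n → Fin n | im g = T} : Finset (Fin n → Fin n)) with hS
  obtain ⟨y0, hy0⟩ := hT
  have hU : ∀ U : Finset (Fin n), U ⊆ T → ∑ g ∈ S, #{x | g x ∈ U} = #U * ∑ g ∈ S, #{x | g x = y0} := by
    intro U hU
    have h1 : ∀ g : Fin n → Fin n, #{x | g x ∈ U} = ∑ y ∈ U, #{x | g x = y} := by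
      intro g
      have h2 : ({x | g x ∈ U} : Finset (Fin n)) = U.biUnion (fun y => {x | g x = y}) := by
        ext x; simp
      rw [h2, Finset.card_biUnion]
      intro a _ b _ hab
      rw [Function.onFun, Finset.disjoint_left]
      intro x hx hx'
      simp only [mem_filter, mem_univ, true_and] at hx hx'
      exact hab (hx ▸ hx')
    simp_rw [h1]
    rw [Finset.sum_comm, Finset.card_eq_sum_ones, Finset.sum_mul]
    apply Finset.sum_congr rfl
    intro y hy
    rw [one_mul]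
    exact pickg_sym T y y0 (hU hy) hy0
  have hT' := hU T (Finset.Subset.refl _)
  have hJ' := hU J0 hJ
  have h3 : ∑ g ∈ S, #{x | g x ∈ T} = #S * n := by
    rw [Finset.card_eq_sum_ones, Finset.sum_mul]
    apply Finset.sum_congr rfl
    intro g hg
    rw [hS, mem_filter] at hg
    have h4 : ({x | g x ∈ T} : Finset (Fin n)) = univ := by
      ext x
      simp only [mem_filter, mem_univ, true_and, iff_true]
      rw [← hg.2]
      exact mem_image_of_mem _ (mem_univ _)
    rw [h4]; simp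
  have h5 : #T * ∑ g ∈ S, #{x | g x ∈ J0} = #J0 * (n * #S) := by
    rw [hJ', ← mul_assoc, mul_comm (#T), mul_assoc, ← hT', h3, mul_comm n]
  exact_mod_cast h5

theorem pickg {n : ℕ} (A : Finset (Fin n → Fin n)) (T J0 : Finset (Fin n)) (hJ : J0 ⊆ T)
    (δ C1 ε3 : ℝ) (hδ : 0 < δ) (hε3 : 0 < ε3) (hT : T.Nonempty)
    (hA : δ * #{g : Fin n → Fin n | im g = T} ≤ (#{g ∈ A | im g = T} : ℝ))
    (hc : (#{g : Fin n → Fin n | im g = T ∧ C1 * n < coll g} : ℝ) ≤
      δ / 8 * #{g : Fin n → Fin n | im g = T})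
    (hJ0 : 8 * (#J0 : ℝ) ≤ δ * ε3 * #T) :
    ∃ g0 : Fin n → Fin n, im g0 = T ∧ (coll g0 : ℝ) ≤ C1 * n ∧
      (#{x | g0 x ∈ J0} : ℝ) ≤ ε3 * n ∧
      3 * δ / 4 * ((n.factorial : ℝ) * (#(T \ J0)).factorial) ≤
        #{q : Equiv.Perm (Fin n) × Equiv.Perm {y // y ∈ T \ J0} |
          (fun x => Equiv.Perm.ofSubtype q.2 (g0 (q.1.symm x))) ∈ A} := by
  classical
  set S := ({g : Fin n → Fin n | im g = T} : Finset (Fin n → Fin n)) with hS
  set N : ℝ := (n.factorial : ℝ) * (#(T \ J0)).factorial with hN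
  have hN0 : 0 < N := by positivity
  have hn : 0 < n := by
    obtain ⟨y, _⟩ := hT
    exact y.pos
  have hn0 : (0 : ℝ) < n := by exact_mod_cast hn
  have hTc : (0 : ℝ) < #T := by exact_mod_cast hT.card_pos
  -- cardinality of pairs
  have hcardQ : (Fintype.card (Equiv.Perm (Fin n) × Equiv.Perm {y // y ∈ T \ J0}) : ℝ) = N := by
    rw [Fintype.card_prod, Fintype.card_perm, Fintype.card_perm, Fintype.card_fin, Fintype.card_coe]
    push_cast; rfl
  -- T preserved
  have hpres : ∀ τ : Equiv.Perm {y // y ∈ T \ J0}, T.image (Equiv.Perm.ofSubtype τ) = T := by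
    intro τ
    have hsub : T.image (Equiv.Perm.ofSubtype τ) ⊆ T := by
      intro z hz
      obtain ⟨w, hw, rfl⟩ := mem_image.1 hz
      by_cases h : w ∈ T \ J0
      · rw [Equiv.Perm.ofSubtype_apply_of_mem τ h]
        exact (mem_sdiff.1 (τ ⟨w, h⟩).2).1
      · rw [Equiv.Perm.ofSubtype_apply_of_not_mem τ h]
        exact hw
    apply Finset.eq_of_subset_of_card_le hsub
    rw [Finset.card_image_of_injective _ (Equiv.injective _)]
  set cnt : (Fin n → Fin n) → ℕ := fun g => #{q : Equiv.Perm (Fin n) × Equiv.Perm {y // y ∈ T \ J0} |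
          (fun x => Equiv.Perm.ofSubtype q.2 (g (q.1.symm x))) ∈ A} with hcnt
  -- nonempty
  have hSne : S.Nonempty := by
    obtain ⟨t0, ht0⟩ := hT
    refine ⟨fun x => if x ∈ T then x else t0, ?_⟩
    rw [hS, mem_filter]
    refine ⟨mem_univ _, ?_⟩
    unfold im
    ext y
    simp only [mem_image, mem_univ, true_and]
    constructor
    · rintro ⟨x, rfl⟩
      split_ifs with h
      · exact h
      · exact ht0
    · intro hy
      exact ⟨y, by rw [if_pos hy]⟩
  have hSpos : (0 : ℝ) < #S := by exact_mod_cast hSne.card_pos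
  -- double counting
  have hdc : ∑ g ∈ S, (cnt g : ℝ) = N * #{g ∈ A | im g = T} := by
    have h1 : ∑ g ∈ S, cnt g = ∑ q : Equiv.Perm (Fin n) × Equiv.Perm {y // y ∈ T \ J0},
        #{g ∈ A | im g = T} := by
      rw [hcnt]
      simp_rw [Finset.card_filter]
      rw [Finset.sum_comm]
      apply Finset.sum_congr rfl
      intro q _
      rw [← Finset.card_filter, ← Finset.card_filter]
      apply Finset.card_bij (fun g _ => fun x => Equiv.Perm.ofSubtype q.2 (g (q.1.symm x)))
      · intro g hg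
        rw [mem_filter, hS, mem_filter] at hg
        rw [mem_filter]
        exact ⟨hg.2, pickg_mem T g q.1 _ (hpres q.2) hg.1.2⟩
      · intro g _ g' _ h
        funext x
        have h2 := congrFun h (q.1 x)
        simp only [Equiv.symm_apply_apply] at h2
        exact (Equiv.injective _) h2
      · intro g hg
        rw [mem_filter] at hg
        refine ⟨fun x => (Equiv.Perm.ofSubtype q.2).symm (g (q.1 x)), ?_, ?_⟩
        · rw [mem_filter, hS, mem_filter]
          refine ⟨⟨mem_univ _, ?_⟩, ?_⟩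
          · have h3 : T.image (Equiv.Perm.ofSubtype q.2).symm = T := pickg_symm T _ (hpres q.2)
            have := pickg_mem T g q.1.symm _ h3 hg.2
            simpa using this
          · simp only [Equiv.apply_symm_apply]
            exact hg.1
        · funext x
          simp
    rw [Finset.sum_const, Finset.card_univ, smul_eq_mul] at h1
    rw [← hcardQ]
    exact_mod_cast h1
  -- bad sets
  set B1 := S.filter (fun g => C1 * n < coll g) with hB1
  set B2 := S.filter (fun g => ε3 * n < (#{x | g x ∈ J0} : ℝ)) with hB2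
  have hb1 : (#B1 : ℝ) ≤ δ / 8 * #S := by
    have h1 : B1 = ({g : Fin n → Fin n | im g = T ∧ C1 * n < coll g} : Finset (Fin n → Fin n)) := by
      rw [hB1, hS, Finset.filter_filter]
    rw [h1]; exact hc
  have hb2 : (#B2 : ℝ) ≤ δ / 8 * #S := by
    have h1 := pickg_J0 T J0 hJ hT
    rw [← hS] at h1
    have h2 : ε3 * n * #B2 ≤ ∑ g ∈ S, (#{x | g x ∈ J0} : ℝ) := by
      calc ε3 * n * #B2 = ∑ g ∈ B2, ε3 * (n : ℝ) := by rw [Finset.sum_const, nsmul_eq_mul]; ring
        _ ≤ ∑ g ∈ B2, (#{x | g x ∈ J0} : ℝ) := by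
            apply Finset.sum_le_sum
            intro g hg
            rw [hB2, mem_filter] at hg
            exact hg.2.le
        _ ≤ _ := Finset.sum_le_sum_of_subset_of_nonneg (Finset.filter_subset _ _) (fun _ _ _ => Nat.cast_nonneg _)
    have h3 : (#T : ℝ) * (ε3 * n * #B2) ≤ #J0 * (n * #S) := by
      rw [← h1]; exact mul_le_mul_of_nonneg_left h2 hTc.le
    have h4 : (#J0 : ℝ) * (n * #S) ≤ (δ * ε3 * #T / 8) * (n * #S) :=
      mul_le_mul_of_nonneg_right (by linarith) (by positivity)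
    have h5 : (#T : ℝ) * ε3 * n * #B2 ≤ (#T : ℝ) * ε3 * n * (δ / 8 * #S) := by
      calc (#T : ℝ) * ε3 * n * #B2 = (#T : ℝ) * (ε3 * n * #B2) := by ring
        _ ≤ (δ * ε3 * #T / 8) * (n * #S) := h3.trans h4
        _ = _ := by ring
    exact le_of_mul_le_mul_left h5 (by positivity)
  -- contradiction
  by_contra hcon
  push Not at hcon
  set Gd := S.filter (fun g => ¬ (C1 * n < coll g) ∧ ¬ (ε3 * n < (#{x | g x ∈ J0} : ℝ))) with hGd
  have hgood : ∀ g ∈ Gd, (cnt g : ℝ) < 3 * δ / 4 * N := by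
    intro g hg
    rw [hGd, mem_filter, hS, mem_filter] at hg
    exact hcon g hg.1.2 (not_lt.1 hg.2.1) (not_lt.1 hg.2.2)
  have hcntN : ∀ g, (cnt g : ℝ) ≤ N := by
    intro g
    rw [← hcardQ]
    exact_mod_cast Finset.card_le_univ _
  have hsub : S ⊆ Gd ∪ (B1 ∪ B2) := by
    intro g hg
    rw [mem_union, mem_union]
    by_cases ha : C1 * n < coll g
    · exact Or.inr (Or.inl (mem_filter.2 ⟨hg, ha⟩))
    by_cases hb : ε3 * n < (#{x | g x ∈ J0} : ℝ)
    · exact Or.inr (Or.inr (mem_filter.2 ⟨hg, hb⟩))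
    · exact Or.inl (mem_filter.2 ⟨hg, ha, hb⟩)
  have hGsub : Gd ⊆ S := Finset.filter_subset _ _
  have h1 : ∑ g ∈ S, (cnt g : ℝ) ≤ ∑ g ∈ Gd, (cnt g : ℝ) + N * (#B1 + #B2) := by
    have h2 : ∑ g ∈ S, (cnt g : ℝ) = ∑ g ∈ Gd, (cnt g : ℝ) + ∑ g ∈ S \ Gd, (cnt g : ℝ) := by
      rw [add_comm]; exact (Finset.sum_sdiff hGsub).symm
    rw [h2]
    apply add_le_add le_rfl
    have h3 : ∑ g ∈ S \ Gd, (cnt g : ℝ) ≤ ∑ g ∈ S \ Gd, N := Finset.sum_le_sum (fun g _ => hcntN g)
    refine h3.trans ?_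
    rw [Finset.sum_const, nsmul_eq_mul, mul_comm]
    apply mul_le_mul_of_nonneg_left _ hN0.le
    have h4 : S \ Gd ⊆ B1 ∪ B2 := by
      intro g hg
      rw [mem_sdiff] at hg
      have := hsub hg.1
      rw [mem_union] at this
      exact this.resolve_left hg.2
    have h5 := (Finset.card_le_card h4).trans (Finset.card_union_le _ _)
    exact_mod_cast h5
  have hGcard : (#Gd : ℝ) ≤ #S := by exact_mod_cast Finset.card_le_card hGsub
  have h6 : δ * N * #S ≤ ∑ g ∈ S, (cnt g : ℝ) := by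
    rw [hdc]
    calc δ * N * #S = N * (δ * #S) := by ring
      _ ≤ _ := mul_le_mul_of_nonneg_left hA hN0.le
  have h7 : N * (#B1 + #B2) ≤ N * (δ / 4 * #S) := by
    apply mul_le_mul_of_nonneg_left _ hN0.le
    linarith
  rcases Finset.eq_empty_or_nonempty Gd with he | hne
  · rw [he, Finset.sum_empty] at h1
    have h8 : δ * N * #S ≤ N * (δ / 4 * #S) := by linarith
    have h9 : 0 < N * δ * #S := by positivity
    nlinarith
  · have h8 : ∑ g ∈ Gd, (cnt g : ℝ) < ∑ g ∈ Gd, 3 * δ / 4 * N := Finset.sum_lt_sum_of_nonempty hne hgood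
    rw [Finset.sum_const, nsmul_eq_mul] at h8
    have h9 : (#Gd : ℝ) * (3 * δ / 4 * N) ≤ #S * (3 * δ / 4 * N) :=
      mul_le_mul_of_nonneg_right hGcard (by positivity)
    have h10 : δ * N * #S = N * (δ / 4 * #S) + #S * (3 * δ / 4 * N) := by ring
    linarith

end H96.TN
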