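import Pool.Agent.H96.TN.Defs

/-!
Module PICKJ (~100 lines).

Double counting of the pairs `(J⁰, J)` with `J⁰ ⊆ T`, `#J⁰ = #T - r - j0`,
`J ⊆ T \ J⁰`, `#J = j0` and `(T \ J⁰) \ J ∈ B`: every `I ∈ B` with `I ⊆ T`, `#I = r` gives
`C(#T-r, j0)` such pairs (`J⁰ ∪ J = T \ I`), and `C(#T, r) C(#T-r, j0) =
C(#T, #T-r-j0) C(r+j0, j0)`, so some `J⁰` has at least the average number `θ C(r+j0, j0)`.
-/

namespace H96.TN

open Finset

theorem pickJ0 {n : ℕ} (B : Finset (Finset (Fin n))) (T : Finset (Fin n)) (r j0 : ℕ) (θ : ℝ)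
    (hr : r + j0 ≤ #T) (h : θ * (#T).choose r ≤ #{I ∈ B | #I = r ∧ I ⊆ T}) :
    ∃ J0 ⊆ T, #J0 = #T - r - j0 ∧
      θ * (r + j0).choose j0 ≤ #{J ∈ (T \ J0).powersetCard j0 | (T \ J0) \ J ∈ B} := by
  classical
  by_contra hcon
  push Not at hcon
  set m := #T - r - j0 with hm
  set Is := {I ∈ B | #I = r ∧ I ⊆ T} with hIs
  set R : Finset (Fin n) → Finset (Fin n) → Prop := fun J0 I => Disjoint J0 I with hR
  -- double counting
  have hdc := Finset.sum_card_bipartiteAbove_eq_sum_card_bipartiteBelow (s := T.powersetCard m)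
    (t := Is) R
  -- rows: a fixed `J0`
  have hrow : ∀ J0 ∈ T.powersetCard m, #(Is.bipartiteAbove R J0) ≤
      #{J ∈ (T \ J0).powersetCard j0 | (T \ J0) \ J ∈ B} := by
    intro J0 hJ0
    obtain ⟨hJT, hJc⟩ := mem_powersetCard.1 hJ0
    refine Finset.card_le_card_of_injOn (fun I => (T \ J0) \ I) ?_ ?_
    · intro I hI
      simp only [hIs, hR, Finset.bipartiteAbove, coe_filter, Set.mem_ofPred_eq, mem_filter] at hI
      obtain ⟨⟨hIB, hIc, hIT⟩, hd⟩ := hI
      have hIs' : I ⊆ T \ J0 := by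
        intro x hx
        rw [mem_sdiff]
        exact ⟨hIT hx, fun hxJ => (Finset.disjoint_left.1 hd hxJ) hx⟩
      simp only [coe_filter, Set.mem_ofPred_eq, mem_powersetCard]
      refine ⟨⟨sdiff_subset, ?_⟩, ?_⟩
      · rw [card_sdiff_of_subset hIs', card_sdiff_of_subset hJT, hIc, hJc]
        omega
      · rw [Finset.sdiff_sdiff_eq_self hIs']
        exact hIB
    · intro I hI I' hI' hII
      simp only [hIs, hR, Finset.bipartiteAbove, coe_filter, Set.mem_ofPred_eq, mem_filter] at hI hI'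
      have h1 : I ⊆ T \ J0 := by
        intro x hx
        rw [mem_sdiff]
        exact ⟨hI.1.2.2 hx, fun hxJ => (Finset.disjoint_left.1 hI.2 hxJ) hx⟩
      have h2 : I' ⊆ T \ J0 := by
        intro x hx
        rw [mem_sdiff]
        exact ⟨hI'.1.2.2 hx, fun hxJ => (Finset.disjoint_left.1 hI'.2 hxJ) hx⟩
      have hII' : (T \ J0) \ I = (T \ J0) \ I' := hII
      rw [← Finset.sdiff_sdiff_eq_self h1, ← Finset.sdiff_sdiff_eq_self h2, hII']
  -- columns: a fixed `I`
  have hcol : ∀ I ∈ Is, #((T.powersetCard m).bipartiteBelow R I) = (#T - r).choose j0 := by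
    intro I hI
    rw [hIs, mem_filter] at hI
    obtain ⟨hIB, hIc, hIT⟩ := hI
    have : (T.powersetCard m).bipartiteBelow R I = (T \ I).powersetCard m := by
      ext J
      simp only [Finset.bipartiteBelow, mem_filter, mem_powersetCard, hR]
      constructor
      · rintro ⟨⟨h1, h2⟩, h3⟩
        refine ⟨?_, h2⟩
        intro x hx
        rw [mem_sdiff]
        exact ⟨h1 hx, Finset.disjoint_left.1 h3 hx⟩
      · rintro ⟨h1, h2⟩
        refine ⟨⟨h1.trans sdiff_subset, h2⟩, ?_⟩
        rw [Finset.disjoint_left]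
        intro x hx
        exact (mem_sdiff.1 (h1 hx)).2
    rw [this, card_powersetCard, card_sdiff_of_subset hIT, hIc]
    rw [← Nat.choose_symm (by omega : j0 ≤ #T - r)]
  rw [Finset.sum_congr rfl hcol, sum_const, smul_eq_mul] at hdc
  -- the binomial identity
  have hbin : (#T).choose r * (#T - r).choose j0 = (#T).choose m * (r + j0).choose j0 := by
    have h1 := Nat.choose_mul (n := #T) (k := r + j0) (s := r) (by omega)
    have h2 : (#T).choose m = (#T).choose (r + j0) := by
      rw [← Nat.choose_symm (by omega : r + j0 ≤ #T)]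
      congr 1
      omega
    have h3 : (r + j0).choose j0 = (r + j0).choose r := by
      rw [← Nat.choose_symm (by omega : r ≤ r + j0)]
      congr 1
      omega
    rw [h2, h3, h1]
    congr 2
    omega
  -- contradiction
  have hne : (T.powersetCard m).Nonempty := by
    rw [powersetCard_nonempty]
    omega
  have hlt : ∑ J0 ∈ T.powersetCard m, (#(Is.bipartiteAbove R J0) : ℝ) <
      ∑ J0 ∈ T.powersetCard m, θ * (r + j0).choose j0 := by
    refine Finset.sum_lt_sum_of_nonempty hne fun J0 hJ0 => ?_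
    obtain ⟨hJT, hJc⟩ := mem_powersetCard.1 hJ0
    refine lt_of_le_of_lt ?_ (hcon J0 hJT hJc)
    exact_mod_cast hrow J0 hJ0
  rw [sum_const, card_powersetCard, nsmul_eq_mul] at hlt
  have hdc' : ∑ J0 ∈ T.powersetCard m, (#(Is.bipartiteAbove R J0) : ℝ) =
      (#Is : ℝ) * (#T - r).choose j0 := by
    exact_mod_cast hdc
  rw [hdc'] at hlt
  have h4 : θ * (#T).choose r * (#T - r).choose j0 ≤ (#Is : ℝ) * (#T - r).choose j0 :=
    mul_le_mul_of_nonneg_right h (by positivity)
  have h5 : ((#T).choose r : ℝ) * (#T - r).choose j0 = (#T).choose m * (r + j0).choose j0 := by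
    exact_mod_cast hbin
  have h6 : θ * (#T).choose r * (#T - r).choose j0 =
      (#T).choose m * (θ * (r + j0).choose j0) := by
    rw [mul_assoc, h5]; ring
  rw [h6] at h4
  exact absurd hlt (not_lt.2 h4)

end H96.TN
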