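import Pool.Agent.H96.TN.Defs

/-!
Module OCC (~150 lines): mean and variance of the number of empty boxes; mean of `coll`.

`Y(f) = n - #(im f) = #{y | y ∉ im f}`. `∑_f Y = n (n-1)^n`, `∑_f Y^2 = n (n-1)^n +
n(n-1)(n-2)^n`. With `q = (1-1/n)^n`: `(1-2/n)^n ≤ q^2`, so `E Y^2 - (E Y)^2 ≤ n q ≤ n`.
`q ≥ 1/4`: `(1-1/n)^(n/2) ≥ 1/2` by the Bernoulli inequality (real exponent `n/2 ≥ 1`),
`q ≤ 1/e ≤ 1/2` by `1 - x ≤ exp (-x)`.
`∑_f coll f = C(n,2) n^(n-1)`.
-/

namespace H96.TN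

open Finset

theorem occ_card_avoid {n : ℕ} (U : Finset (Fin n)) :
    #{f : Fin n → Fin n | ∀ x, f x ∉ U} = (n - #U) ^ n := by
  classical
  have h1 : ({f : Fin n → Fin n | ∀ x, f x ∉ U} : Finset (Fin n → Fin n)) =
      Fintype.piFinset (fun _ => Uᶜ) := by
    ext f
    simp
  rw [h1, Fintype.card_piFinset]
  simp [Finset.card_compl]

theorem occ_Y {n : ℕ} (f : Fin n → Fin n) :
    ((n : ℝ) - #(im f)) = ∑ y : Fin n, if (∀ x, f x ∉ ({y} : Finset (Fin n))) then (1 : ℝ) else 0 := by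
  classical
  have h1 : #(im f) + #((im f)ᶜ) = n := by
    rw [Finset.card_add_card_compl]; simp
  have h2 : (im f)ᶜ = ({y | ∀ x, f x ∉ ({y} : Finset (Fin n))} : Finset (Fin n)) := by
    ext y
    unfold im
    simp only [mem_compl, mem_image, mem_univ, true_and, not_exists, mem_filter, mem_singleton]
  have h3 : ((n : ℝ) - #(im f)) = #((im f)ᶜ) := by
    have : ((#(im f) + #((im f)ᶜ) : ℕ) : ℝ) = n := by exact_mod_cast h1
    push_cast at this
    linarith
  rw [h3, h2, Finset.card_filter]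
  push_cast
  rfl

theorem occ_var (n : ℕ) (hn : 2 ≤ n) :
    ∑ f : Fin n → Fin n, ((n : ℝ) - #(im f) - n * (1 - 1 / (n : ℝ)) ^ n) ^ 2 ≤
      n * (n : ℝ) ^ n := by
  classical
  have hn0 : (0 : ℝ) < n := by exact_mod_cast (by omega : 0 < n)
  have hn2 : (2 : ℝ) ≤ n := by exact_mod_cast hn
  set q : ℝ := (1 - 1 / (n : ℝ)) ^ n with hq
  have hq1 : (n : ℝ) ^ n * q = ((n : ℝ) - 1) ^ n := by
    rw [hq, ← mul_pow]; congr 1; field_simp
  have hbase0 : 0 ≤ 1 - 1 / (n : ℝ) := by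
    rw [sub_nonneg, div_le_one hn0]; linarith
  have hbase1 : 1 - 1 / (n : ℝ) ≤ 1 := by
    have : 0 < 1 / (n : ℝ) := by positivity
    linarith
  have hq0 : 0 ≤ q := pow_nonneg hbase0 n
  have hqle : q ≤ 1 := pow_le_one₀ hbase0 hbase1
  have hq2 : ((n : ℝ) - 2) ^ n ≤ (n : ℝ) ^ n * q ^ 2 := by
    have h1 : (n : ℝ) ^ n * q ^ 2 = ((n : ℝ) * (1 - 1 / (n : ℝ)) ^ 2) ^ n := by
      rw [hq, mul_pow, ← pow_mul, ← pow_mul, mul_comm n 2]
    rw [h1]
    apply pow_le_pow_left₀ (by linarith)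
    have h2 : (n : ℝ) * (1 - 1 / (n : ℝ)) ^ 2 = n - 2 + 1 / n := by field_simp; ring
    rw [h2]
    have : 0 < 1 / (n : ℝ) := by positivity
    linarith
  -- the sums
  set χ : (Fin n → Fin n) → Fin n → ℝ := fun f y =>
    if (∀ x, f x ∉ ({y} : Finset (Fin n))) then (1 : ℝ) else 0 with hχ
  have hY : ∀ f : Fin n → Fin n, ((n : ℝ) - #(im f)) = ∑ y, χ f y := occ_Y
  have hE1 : ∀ y, ∑ f : Fin n → Fin n, χ f y = ((n : ℝ) - 1) ^ n := by
    intro y
    have h1 := occ_card_avoid ({y} : Finset (Fin n))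
    rw [Finset.card_singleton, Finset.card_filter] at h1
    have h2 : ((∑ f : Fin n → Fin n, (if (∀ x, f x ∉ ({y} : Finset (Fin n))) then 1 else 0) : ℕ) : ℝ) =
      (((n - 1) ^ n : ℕ) : ℝ) := by rw [h1]
    push_cast [Nat.cast_sub (by omega : 1 ≤ n)] at h2
    exact h2
  have hS1 : ∑ f : Fin n → Fin n, ((n : ℝ) - #(im f)) = n * ((n : ℝ) - 1) ^ n := by
    simp_rw [hY]
    rw [Finset.sum_comm]
    simp_rw [hE1]
    rw [Finset.sum_const, Finset.card_univ, Fintype.card_fin, nsmul_eq_mul]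
  have hE2 : ∀ y y', y ≠ y' → ∑ f : Fin n → Fin n, χ f y * χ f y' = ((n : ℝ) - 2) ^ n := by
    intro y y' hyy
    have h1 := occ_card_avoid ({y, y'} : Finset (Fin n))
    rw [Finset.card_pair hyy, Finset.card_filter] at h1
    have h2 : ((∑ f : Fin n → Fin n, (if (∀ x, f x ∉ ({y, y'} : Finset (Fin n))) then 1 else 0) : ℕ) : ℝ) =
      (((n - 2) ^ n : ℕ) : ℝ) := by rw [h1]
    push_cast [Nat.cast_sub (by omega : 2 ≤ n)] at h2
    rw [← h2]
    apply Finset.sum_congr rfl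
    intro f _
    rw [hχ]
    simp only
    by_cases ha : ∀ x, f x ∉ ({y} : Finset (Fin n))
    · by_cases hb : ∀ x, f x ∉ ({y'} : Finset (Fin n))
      · rw [if_pos ha, if_pos hb, if_pos, mul_one]
        intro x
        have h3 := ha x
        have h4 := hb x
        simp only [mem_singleton, mem_insert] at h3 h4 ⊢
        tauto
      · rw [if_neg hb, mul_zero, if_neg]
        intro h
        apply hb
        intro x
        have := h x
        simp only [mem_singleton, mem_insert] at this ⊢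
        tauto
    · rw [if_neg ha, zero_mul, if_neg]
      intro h
      apply ha
      intro x
      have := h x
      simp only [mem_singleton, mem_insert] at this ⊢
      tauto
  have hχsq : ∀ f y, χ f y * χ f y = χ f y := by
    intro f y
    rw [hχ]; simp only
    split_ifs <;> norm_num
  have hS2 : ∑ f : Fin n → Fin n, ((n : ℝ) - #(im f)) ^ 2 =
      n * ((n : ℝ) - 1) ^ n + n * (n - 1) * ((n : ℝ) - 2) ^ n := by
    have h1 : ∀ f : Fin n → Fin n, ((n : ℝ) - #(im f)) ^ 2 = ∑ y, ∑ y', χ f y * χ f y' := by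
      intro f
      rw [hY, sq, Finset.sum_mul_sum]
    simp_rw [h1]
    rw [Finset.sum_comm]
    have h2 : ∀ y : Fin n, ∑ f : Fin n → Fin n, ∑ y', χ f y * χ f y' =
        ((n : ℝ) - 1) ^ n + (n - 1) * ((n : ℝ) - 2) ^ n := by
      intro y
      rw [Finset.sum_comm]
      rw [← Finset.add_sum_erase univ _ (mem_univ y)]
      congr 1
      · simp_rw [hχsq]; exact hE1 y
      · rw [Finset.sum_congr rfl (fun y' hy' => hE2 y y' (Ne.symm (Finset.ne_of_mem_erase hy')))]
        rw [Finset.sum_const, Finset.card_erase_of_mem (mem_univ y), Finset.card_univ, Fintype.card_fin,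
          nsmul_eq_mul, Nat.cast_sub (by omega), Nat.cast_one]
    simp_rw [h2]
    rw [Finset.sum_const, Finset.card_univ, Fintype.card_fin, nsmul_eq_mul]
    ring
  have hexp : ∑ f : Fin n → Fin n, ((n : ℝ) - #(im f) - n * q) ^ 2 =
      ∑ f : Fin n → Fin n, ((n : ℝ) - #(im f)) ^ 2 - 2 * (n * q) * ∑ f : Fin n → Fin n, ((n : ℝ) - #(im f)) +
        (n : ℝ) ^ n * (n * q) ^ 2 := by
    have h1 : ∀ f : Fin n → Fin n, ((n : ℝ) - #(im f) - n * q) ^ 2 =
        ((n : ℝ) - #(im f)) ^ 2 - 2 * (n * q) * ((n : ℝ) - #(im f)) + (n * q) ^ 2 := by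
      intro f; ring
    simp_rw [h1]
    rw [Finset.sum_add_distrib, Finset.sum_sub_distrib, ← Finset.mul_sum, Finset.sum_const, Finset.card_univ,
      Fintype.card_fun, Fintype.card_fin, nsmul_eq_mul]
    push_cast
    ring
  rw [hexp, hS1, hS2, ← hq1]
  have hnn : 0 < (n : ℝ) ^ n := by positivity
  have h3 : (n : ℝ) * (n - 1) * ((n : ℝ) - 2) ^ n ≤ n * (n - 1) * ((n : ℝ) ^ n * q ^ 2) := by
    apply mul_le_mul_of_nonneg_left hq2
    apply mul_nonneg hn0.le; linarith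
  have h4 : (n : ℝ) * ((n : ℝ) ^ n * q) ≤ n * (n : ℝ) ^ n := by
    have : (n : ℝ) ^ n * q ≤ (n : ℝ) ^ n * 1 := mul_le_mul_of_nonneg_left hqle hnn.le
    nlinarith
  have h5 : 0 ≤ (n : ℝ) * ((n : ℝ) ^ n * q ^ 2) := by positivity
  nlinarith

theorem occ_mean (n : ℕ) (hn : 2 ≤ n) :
    (n : ℝ) / 4 ≤ n * (1 - 1 / (n : ℝ)) ^ n ∧ n * (1 - 1 / (n : ℝ)) ^ n ≤ (n : ℝ) / 2 := by
  have hn0 : (0 : ℝ) < n := by exact_mod_cast (by omega : 0 < n)
  have hn2 : (2 : ℝ) ≤ n := by exact_mod_cast hn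
  have hbase0 : 0 ≤ 1 - 1 / (n : ℝ) := by
    rw [sub_nonneg, div_le_one hn0]; linarith
  constructor
  · have h1 : 1 + (n : ℝ) / 2 * (-(1 / (n : ℝ))) ≤ (1 + -(1 / (n : ℝ))) ^ ((n : ℝ) / 2) := by
      apply one_add_mul_self_le_rpow_one_add
      · linarith
      · linarith
    have h2 : 1 + (n : ℝ) / 2 * (-(1 / (n : ℝ))) = 1 / 2 := by field_simp; ring
    rw [h2, ← sub_eq_add_neg] at h1
    have h3 : ((1 - 1 / (n : ℝ)) ^ ((n : ℝ) / 2)) ^ 2 = (1 - 1 / (n : ℝ)) ^ n := by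
      rw [← Real.rpow_natCast, ← Real.rpow_mul hbase0, ← Real.rpow_natCast]
      congr 1
      push_cast; ring
    have h4 : (1 / 4 : ℝ) ≤ (1 - 1 / (n : ℝ)) ^ n := by
      rw [← h3]; nlinarith
    calc (n : ℝ) / 4 = n * (1 / 4) := by ring
      _ ≤ _ := mul_le_mul_of_nonneg_left h4 hn0.le
  · have h1 : 1 - 1 / (n : ℝ) ≤ Real.exp (-(1 / (n : ℝ))) := Real.one_sub_le_exp_neg _
    have h2 : (1 - 1 / (n : ℝ)) ^ n ≤ (Real.exp (-(1 / (n : ℝ)))) ^ n := pow_le_pow_left₀ hbase0 h1 n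
    have h3 : (Real.exp (-(1 / (n : ℝ)))) ^ n = Real.exp (-1) := by
      rw [← Real.exp_nat_mul]; congr 1; field_simp
    have h4 : Real.exp (-1) ≤ 1 / 2 := by
      rw [Real.exp_neg, inv_eq_one_div]
      apply one_div_le_one_div_of_le (by norm_num)
      have := Real.add_one_le_exp (1 : ℝ)
      linarith
    calc n * (1 - 1 / (n : ℝ)) ^ n ≤ n * (1 / 2) := by
          apply mul_le_mul_of_nonneg_left _ hn0.le
          rw [h3] at h2; linarith
      _ = _ := by ring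

theorem coll_sum (n : ℕ) (hn : 1 ≤ n) :
    ∑ f : Fin n → Fin n, (coll f : ℝ) ≤ n / 2 * (n : ℝ) ^ n := by
  classical
  have hn0 : (0 : ℝ) < n := by exact_mod_cast hn
  have h1 : ∀ x x' : Fin n, x ≠ x' → #{f : Fin n → Fin n | f x = f x'} ≤ n ^ (n - 1) := by
    intro x x' hxx
    have h2 : Fintype.card ({z : Fin n // z ≠ x} → Fin n) = n ^ (n - 1) := by
      rw [Fintype.card_fun, Fintype.card_fin, Fintype.card_subtype_compl, Fintype.card_fin,
        Fintype.card_subtype_eq]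
    rw [← h2, ← Finset.card_univ]
    apply Finset.card_le_card_of_injOn (fun f => fun z => f z.1)
    · intro f _; simp
    · intro f hf g hg hfg
      have hf' := (mem_filter.1 (Finset.mem_coe.1 hf)).2
      have hg' := (mem_filter.1 (Finset.mem_coe.1 hg)).2
      funext z
      by_cases hz : z = x
      · subst hz
        rw [hf', hg']
        exact congrFun hfg ⟨x', Ne.symm hxx⟩
      · exact congrFun hfg ⟨z, hz⟩
  have h2 : ∑ f : Fin n → Fin n, coll f ≤ #{p : Fin n × Fin n | p.1 < p.2} * n ^ (n - 1) := by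
    unfold coll
    simp_rw [Finset.card_filter]
    rw [Finset.sum_comm, ← Finset.card_filter]
    rw [Finset.card_filter, Finset.sum_mul]
    apply Finset.sum_le_sum
    intro p _
    by_cases hp : p.1 < p.2
    · simp only [hp, true_and, if_true, one_mul]
      rw [← Finset.card_filter]
      exact h1 p.1 p.2 (ne_of_lt hp)
    · simp [hp]
  have h3 : 2 * #{p : Fin n × Fin n | p.1 < p.2} ≤ n ^ 2 := by
    have h4 : #{p : Fin n × Fin n | p.1 < p.2} = #{p : Fin n × Fin n | p.2 < p.1} := by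
      apply Finset.card_bij (fun p _ => (p.2, p.1))
      · intro p hp
        rw [mem_filter] at hp ⊢
        exact ⟨mem_univ _, hp.2⟩
      · intro p _ p' _ h
        simp only [Prod.mk.injEq] at h
        exact Prod.ext h.2 h.1
      · intro p hp
        rw [mem_filter] at hp
        exact ⟨(p.2, p.1), by rw [mem_filter]; exact ⟨mem_univ _, hp.2⟩, rfl⟩
    have h5 : Disjoint ({p : Fin n × Fin n | p.1 < p.2} : Finset (Fin n × Fin n))
        ({p : Fin n × Fin n | p.2 < p.1} : Finset (Fin n × Fin n)) := by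
      rw [Finset.disjoint_left]
      intro p hp hp'
      simp only [mem_filter, mem_univ, true_and] at hp hp'
      exact absurd hp (not_lt.2 hp'.le)
    have h6 := Finset.card_le_univ (({p : Fin n × Fin n | p.1 < p.2} : Finset (Fin n × Fin n)) ∪
        ({p : Fin n × Fin n | p.2 < p.1} : Finset (Fin n × Fin n)))
    rw [Finset.card_union_of_disjoint h5, ← h4, Fintype.card_prod, Fintype.card_fin] at h6
    nlinarith
  have h4 : ((∑ f : Fin n → Fin n, coll f : ℕ) : ℝ) ≤ (#{p : Fin n × Fin n | p.1 < p.2} : ℝ) * (n : ℝ) ^ (n - 1) := by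
    exact_mod_cast h2
  have h5 : 2 * (#{p : Fin n × Fin n | p.1 < p.2} : ℝ) ≤ (n : ℝ) ^ 2 := by exact_mod_cast h3
  push_cast at h4
  refine h4.trans ?_
  have h6 : (n : ℝ) ^ n = (n : ℝ) ^ (n - 1) * n := by
    rw [← pow_succ]; congr 1; omega
  rw [h6]
  have h7 : 0 < (n : ℝ) ^ (n - 1) := by positivity
  nlinarith

end H96.TN
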