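import Pool.Agent.H96.TN.Anti
import Pool.Agent.H96.TN.Occ

/-!
Module RP (~150 lines): the good levels. Uses `anti`, `occ_var`, `occ_mean`, `coll_sum`.

`P` = uniform probability on `Fin n → Fin n`, `P_r = P(rank = r)`, `μ = n - n(1-1/n)^n ∈ [n/2, 3n/4]`.
`C1 := max 1 (1/(β ε2))`. `G` = set of `r ≤ n` with `|r - μ| ≤ min(ε1/2, 1/8) n` and
`#{rank = r, coll > C1 n} ≤ ε2 #{rank = r}`. Then `n/4 ≤ r`, `n - r ≥ n/8`, differences are
`≤ ε1 n`. By Chebyshev (`occ_var`) the `f` with rank off the window are at most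
`n/(t n)^2 · n^n` (`t = min(ε1/2,1/8)`), `≤ (β/2) n^n` for large `n`; by Markov (`coll_sum`)
`#{coll > C1 n} ≤ n^n/(2 C1) ≤ (β ε2/2) n^n`, so the levels violating the last condition have
total mass `≤ β/2`.
-/

namespace H96.TN

open Finset

/-- Markov: the maps with many collisions. -/
lemma rp_coll (n : ℕ) (hn : 1 ≤ n) (C1 : ℝ) (hC1 : 0 < C1) :
    C1 * (#{f : Fin n → Fin n | C1 * n < coll f} : ℝ) ≤ (n : ℝ) ^ n / 2 := by
  classical
  have hn0 : (0 : ℝ) < n := by exact_mod_cast hn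
  have h1 : ∑ f ∈ univ.filter (fun f : Fin n → Fin n => C1 * n < coll f), (C1 * n) ≤
      ∑ f : Fin n → Fin n, (coll f : ℝ) := by
    calc ∑ f ∈ univ.filter (fun f : Fin n → Fin n => C1 * n < coll f), (C1 * n)
        ≤ ∑ f ∈ univ.filter (fun f : Fin n → Fin n => C1 * n < coll f), (coll f : ℝ) :=
          Finset.sum_le_sum fun f hf => (Finset.mem_filter.1 hf).2.le
      _ ≤ ∑ f : Fin n → Fin n, (coll f : ℝ) :=
          Finset.sum_le_sum_of_subset_of_nonneg (Finset.filter_subset _ _)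
            fun f _ _ => Nat.cast_nonneg _
  rw [Finset.sum_const, nsmul_eq_mul] at h1
  have h2 := h1.trans (coll_sum n hn)
  have h3 : (n : ℝ) * (C1 * (#{f : Fin n → Fin n | C1 * n < coll f} : ℝ)) ≤
      (n : ℝ) * ((n : ℝ) ^ n / 2) := by
    nlinarith [h2]
  exact le_of_mul_le_mul_left h3 hn0

/-- Chebyshev: the maps with rank far from the mean. -/
lemma rp_cheb (n : ℕ) (hn : 2 ≤ n) (t : ℝ) (ht : 0 < t) :
    t ^ 2 * n * (#{f : Fin n → Fin n |
      ¬ |(#(im f) : ℝ) - (n - n * (1 - 1 / (n : ℝ)) ^ n)| ≤ t * n} : ℝ) ≤ (n : ℝ) ^ n := by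
  classical
  have hn0 : (0 : ℝ) < n := by exact_mod_cast (by omega : 0 < n)
  set μ : ℝ := n - n * (1 - 1 / (n : ℝ)) ^ n with hμ
  have h1 : ∑ f ∈ univ.filter (fun f : Fin n → Fin n => ¬ |(#(im f) : ℝ) - μ| ≤ t * n),
      ((t * n) ^ 2) ≤ n * (n : ℝ) ^ n := by
    refine le_trans ?_ (occ_var n hn)
    calc ∑ f ∈ univ.filter (fun f : Fin n → Fin n => ¬ |(#(im f) : ℝ) - μ| ≤ t * n),
          ((t * n) ^ 2)
        ≤ ∑ f ∈ univ.filter (fun f : Fin n → Fin n => ¬ |(#(im f) : ℝ) - μ| ≤ t * n),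
          ((n : ℝ) - #(im f) - n * (1 - 1 / (n : ℝ)) ^ n) ^ 2 := by
          refine Finset.sum_le_sum fun f hf => ?_
          have h2 := not_le.1 (Finset.mem_filter.1 hf).2
          have h3 : ((n : ℝ) - #(im f) - n * (1 - 1 / (n : ℝ)) ^ n) ^ 2 =
              |(#(im f) : ℝ) - μ| ^ 2 := by
            rw [sq_abs, hμ]; ring
          rw [h3]
          exact pow_le_pow_left₀ (by positivity) h2.le 2
      _ ≤ _ := Finset.sum_le_sum_of_subset_of_nonneg (Finset.filter_subset _ _)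
            fun f _ _ => sq_nonneg _
  rw [Finset.sum_const, nsmul_eq_mul] at h1
  have h3 : (n : ℝ) * (t ^ 2 * n *
      (#{f : Fin n → Fin n | ¬ |(#(im f) : ℝ) - μ| ≤ t * n} : ℝ)) ≤ (n : ℝ) * (n : ℝ) ^ n := by
    nlinarith [h1]
  exact le_of_mul_le_mul_left h3 hn0

/-- Mass of the levels with many maps with many collisions. -/
lemma rp_bad (n : ℕ) (B : Finset ℕ) (ε2 K : ℝ)
    (hB : ∀ r ∈ B, ε2 * (#{f : Fin n → Fin n | #(im f) = r} : ℝ) ≤
      #{f : Fin n → Fin n | #(im f) = r ∧ K < coll f}) :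
    ε2 * (#{f : Fin n → Fin n | #(im f) ∈ B} : ℝ) ≤
      #{f : Fin n → Fin n | K < coll f} := by
  classical
  have h1 : (#{f : Fin n → Fin n | #(im f) ∈ B}) =
      ∑ r ∈ B, #{f : Fin n → Fin n | #(im f) = r} := by
    rw [Finset.card_eq_sum_card_fiberwise (f := fun f : Fin n → Fin n => #(im f)) (t := B)]
    · refine Finset.sum_congr rfl fun r hr => ?_
      congr 1
      ext f
      simp only [Finset.mem_filter, Finset.mem_univ, true_and]
      exact ⟨fun h => h.2, fun h => ⟨h ▸ hr, h⟩⟩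
    · intro f hf
      simpa using hf
  have h2 : ∑ r ∈ B, #{f : Fin n → Fin n | #(im f) = r ∧ K < coll f} ≤
      #{f : Fin n → Fin n | K < coll f} := by
    rw [← Finset.card_biUnion]
    · refine Finset.card_le_card fun f hf => ?_
      obtain ⟨r, _, h⟩ := Finset.mem_biUnion.1 hf
      simp only [Finset.mem_filter, Finset.mem_univ, true_and] at h ⊢
      exact h.2
    · intro r _ r' _ hrr
      rw [Function.onFun, Finset.disjoint_left]
      intro f hf hf'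
      simp only [Finset.mem_filter, Finset.mem_univ, true_and] at hf hf'
      exact hrr (hf.1.symm.trans hf'.1)
  rw [h1]
  push_cast
  rw [Finset.mul_sum]
  calc ∑ r ∈ B, ε2 * (#{f : Fin n → Fin n | #(im f) = r} : ℝ)
      ≤ ∑ r ∈ B, (#{f : Fin n → Fin n | #(im f) = r ∧ K < coll f} : ℝ) :=
        Finset.sum_le_sum hB
    _ ≤ _ := by exact_mod_cast h2

theorem rankprob (β ε2 : ℝ) (hβ : 0 < β) (hε2 : 0 < ε2) : ∃ C1 : ℝ, 1 ≤ C1 ∧
    ∀ ε1 η : ℝ, 0 < ε1 → 0 < η → ∃ n0 : ℕ, ∀ n ≥ n0, ∃ G : Finset ℕ,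
      (∀ r ∈ G, n ≤ 4 * r ∧ 8 * r + n ≤ 8 * n) ∧
      (∀ r ∈ G, ∀ r' ∈ G, (r' : ℝ) ≤ r + ε1 * n) ∧
      (∀ r ∈ G, (#{f : Fin n → Fin n | #(im f) = r ∧ C1 * n < coll f} : ℝ) ≤
        ε2 * #{f : Fin n → Fin n | #(im f) = r}) ∧
      (#{f : Fin n → Fin n | #(im f) ∉ G} : ℝ) ≤ β * (n : ℝ) ^ n ∧
      (∀ r, (#{f : Fin n → Fin n | #(im f) = r} : ℝ) ≤ η * (n : ℝ) ^ n) := by
  classical
  refine ⟨max 1 (1 / (β * ε2)), le_max_left _ _, fun ε1 η hε1 hη => ?_⟩
  set C1 := max 1 (1 / (β * ε2)) with hC1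
  have hC1pos : 0 < C1 := lt_of_lt_of_le one_pos (le_max_left _ _)
  have hC1b : 1 ≤ C1 * (β * ε2) := by
    have h := le_max_right 1 (1 / (β * ε2))
    rw [← hC1] at h
    rwa [div_le_iff₀ (by positivity)] at h
  obtain ⟨n1, hn1⟩ := anti η hη
  set t := min (ε1 / 2) (1 / 8) with ht
  have ht0 : 0 < t := lt_min (by positivity) (by norm_num)
  have ht1 : t ≤ ε1 / 2 := min_le_left _ _
  have ht2 : t ≤ 1 / 8 := min_le_right _ _
  obtain ⟨n2, hn2⟩ := exists_nat_ge (2 / (β * t ^ 2))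
  refine ⟨max (max n1 n2) 2, fun n hn => ?_⟩
  have hnn1 : n1 ≤ n := (le_max_left _ _).trans ((le_max_left _ _).trans hn)
  have hnn2 : n2 ≤ n := (le_max_right _ _).trans ((le_max_left _ _).trans hn)
  have hn3 : 2 ≤ n := (le_max_right _ _).trans hn
  have hn0 : (0 : ℝ) < n := by exact_mod_cast (by omega : 0 < n)
  obtain ⟨hq1, hq2⟩ := occ_mean n hn3
  set μ : ℝ := n - n * (1 - 1 / (n : ℝ)) ^ n with hμ
  have hbig : 2 ≤ β * (t ^ 2 * n) := by
    have h1 : 2 / (β * t ^ 2) ≤ n := hn2.trans (by exact_mod_cast hnn2)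
    rw [div_le_iff₀ (by positivity)] at h1
    nlinarith [h1]
  set Good : ℕ → Prop := fun r => (#{f : Fin n → Fin n | #(im f) = r ∧ C1 * n < coll f} : ℝ) ≤
        ε2 * #{f : Fin n → Fin n | #(im f) = r} with hGood
  have htn : t * n ≤ n / 8 := by nlinarith
  obtain ⟨G, hG⟩ : ∃ G : Finset ℕ, ∀ r, r ∈ G ↔ r ∈ Finset.range (n + 1) ∧
      (|(r : ℝ) - μ| ≤ t * n ∧ Good r) :=
    ⟨(Finset.range (n + 1)).filter (fun r => |(r : ℝ) - μ| ≤ t * n ∧ Good r),
      fun r => Finset.mem_filter⟩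
  refine ⟨G, ?_, ?_, ?_, ?_, fun r => hn1 n hnn1 r⟩
  · intro r hr
    obtain ⟨_, h1, _⟩ := (hG r).1 hr
    obtain ⟨h2, h3⟩ := abs_le.1 h1
    constructor
    · have : (n : ℝ) ≤ 4 * r := by linarith
      exact_mod_cast this
    · have : 8 * (r : ℝ) + n ≤ 8 * n := by linarith
      exact_mod_cast this
  · intro r hr r' hr'
    obtain ⟨_, h1, _⟩ := (hG r).1 hr
    obtain ⟨_, h1', _⟩ := (hG r').1 hr'
    obtain ⟨h2, h3⟩ := abs_le.1 h1
    obtain ⟨h2', h3'⟩ := abs_le.1 h1'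
    have : 2 * (t * n) ≤ ε1 * n := by nlinarith
    linarith
  · intro r hr
    exact ((hG r).1 hr).2.2
  · set B : Finset ℕ := (Finset.range (n + 1)).filter fun r => ¬ Good r with hB
    have h1 : (#{f : Fin n → Fin n | #(im f) ∉ G} : ℝ) ≤
        (#{f : Fin n → Fin n | ¬ |(#(im f) : ℝ) - μ| ≤ t * n} : ℝ) +
        (#{f : Fin n → Fin n | #(im f) ∈ B} : ℝ) := by
      rw [← Nat.cast_add]
      refine Nat.cast_le.2 ((Finset.card_le_card ?_).trans (Finset.card_union_le _ _))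
      intro f hf
      simp only [Finset.mem_filter, Finset.mem_univ, true_and, Finset.mem_range, not_and,
        Finset.mem_union, hB, hG] at hf ⊢
      have h2 : #(im f) < n + 1 := by
        have : #(im f) ≤ Fintype.card (Fin n) := Finset.card_le_univ _
        rw [Fintype.card_fin] at this
        omega
      by_cases h3 : |(#(im f) : ℝ) - μ| ≤ t * n
      · right
        exact ⟨h2, hf h2 h3⟩
      · left
        exact h3
    have h2 := rp_cheb n hn3 t ht0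
    rw [← hμ] at h2
    have h3 := rp_coll n (by omega) C1 hC1pos
    have h4 := rp_bad n B ε2 (C1 * n) fun r hr => (not_le.1 (Finset.mem_filter.1 hr).2).le
    set X1 : ℝ := (#{f : Fin n → Fin n | ¬ |(#(im f) : ℝ) - μ| ≤ t * n} : ℝ)
    set X2 : ℝ := (#{f : Fin n → Fin n | #(im f) ∈ B} : ℝ)
    set X3 : ℝ := (#{f : Fin n → Fin n | C1 * n < coll f} : ℝ)
    have hX1 : 0 ≤ X1 := Nat.cast_nonneg _
    have hX2 : 0 ≤ X2 := Nat.cast_nonneg _
    have h5 : 2 * X1 ≤ β * (n : ℝ) ^ n := by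
      calc 2 * X1 ≤ β * (t ^ 2 * n) * X1 := mul_le_mul_of_nonneg_right hbig hX1
        _ = β * (t ^ 2 * n * X1) := by ring
        _ ≤ β * (n : ℝ) ^ n := mul_le_mul_of_nonneg_left h2 hβ.le
    have h6 : 2 * X2 ≤ β * (n : ℝ) ^ n := by
      calc 2 * X2 ≤ 2 * (C1 * (β * ε2) * X2) := by nlinarith
        _ = 2 * β * C1 * (ε2 * X2) := by ring
        _ ≤ 2 * β * C1 * X3 := mul_le_mul_of_nonneg_left h4 (by positivity)
        _ = 2 * β * (C1 * X3) := by ring
        _ ≤ 2 * β * ((n : ℝ) ^ n / 2) := mul_le_mul_of_nonneg_left h3 (by positivity)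
        _ = β * (n : ℝ) ^ n := by ring
    linarith

end H96.TN
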