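import Pool.Agent.H96.TN.Defs

/-!
Module SYM (~120 lines): symmetry of the number of maps with a given image.
Post-composition with a permutation `σ` of `Fin n` is a bijection of
`{f | im f = T, coll f > C}` onto `{f | im f = σ T, coll f > C}`; hence this number depends only
on `#T`, and there are `C(n, #T)` sets of this size.
-/

namespace H96.TN

open Finset

theorem sym_perm {n : ℕ} {T T' : Finset (Fin n)} (h : #T = #T') :
    ∃ σ : Equiv.Perm (Fin n), T.image σ = T' := by
  classical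
  let e : T ≃ T' := Finset.equivOfCardEq h
  let σ : Equiv.Perm (Fin n) := Equiv.extendSubtype (p := fun x => x ∈ T) (q := fun x => x ∈ T') e
  refine ⟨σ, ?_⟩
  refine Finset.eq_of_subset_of_card_le ?_ ?_
  · intro y hy
    obtain ⟨x, hx, rfl⟩ := Finset.mem_image.1 hy
    exact Equiv.extendSubtype_mem (p := fun x => x ∈ T) (q := fun x => x ∈ T') e x hx
  · rw [Finset.card_image_of_injective T σ.injective, h]

theorem sym_im_comp {n : ℕ} (σ : Equiv.Perm (Fin n)) (f : Fin n → Fin n) :
    im (σ ∘ f) = (im f).image σ := by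
  unfold im
  rw [Finset.image_image]

theorem sym_coll_comp {n : ℕ} (σ : Equiv.Perm (Fin n)) (f : Fin n → Fin n) :
    coll (σ ∘ f) = coll f := by
  unfold coll
  congr 1
  refine Finset.filter_congr fun p _ => ?_
  simp only [Function.comp_apply, EmbeddingLike.apply_eq_iff_eq]

/-- the number of maps with image `T` and an invariant property depends only on `#T`. -/
theorem sym_card_eq {n : ℕ} (p : (Fin n → Fin n) → Prop) [DecidablePred p]
    (hp : ∀ (σ : Equiv.Perm (Fin n)) f, p (σ ∘ f) ↔ p f) {T T' : Finset (Fin n)}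
    (h : #T = #T') :
    #{f : Fin n → Fin n | im f = T ∧ p f} = #{f : Fin n → Fin n | im f = T' ∧ p f} := by
  obtain ⟨σ, hσ⟩ := sym_perm h
  refine Finset.card_bij' (fun f _ => σ ∘ f) (fun f _ => σ.symm ∘ f) ?_ ?_ ?_ ?_
  · intro f hf
    rw [Finset.mem_filter] at hf ⊢
    refine ⟨Finset.mem_univ _, ?_, (hp σ f).2 hf.2.2⟩
    rw [sym_im_comp, hf.2.1, hσ]
  · intro f hf
    rw [Finset.mem_filter] at hf ⊢
    refine ⟨Finset.mem_univ _, ?_, (hp σ.symm f).2 hf.2.2⟩
    rw [sym_im_comp, hf.2.1, ← hσ, Finset.image_image]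
    simp
  · intro f _
    funext x
    simp
  · intro f _
    funext x
    simp

theorem sym_gen {n : ℕ} (p : (Fin n → Fin n) → Prop) [DecidablePred p]
    (hp : ∀ (σ : Equiv.Perm (Fin n)) f, p (σ ∘ f) ↔ p f) (T : Finset (Fin n)) :
    #{f : Fin n → Fin n | im f = T ∧ p f} * n.choose #T =
      #{f : Fin n → Fin n | #(im f) = #T ∧ p f} := by
  classical
  have h1 : #{f : Fin n → Fin n | #(im f) = #T ∧ p f} =
      ∑ T' ∈ (Finset.univ : Finset (Fin n)).powersetCard #T,
        #{f ∈ ({f : Fin n → Fin n | #(im f) = #T ∧ p f} : Finset (Fin n → Fin n)) | im f = T'} := by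
    refine Finset.card_eq_sum_card_fiberwise (f := im) ?_
    intro f hf
    rw [Finset.mem_coe, Finset.mem_filter] at hf
    rw [Finset.mem_coe, Finset.mem_powersetCard]
    exact ⟨Finset.subset_univ _, hf.2.1⟩
  have h2 : ∀ T' ∈ (Finset.univ : Finset (Fin n)).powersetCard #T,
      #{f ∈ ({f : Fin n → Fin n | #(im f) = #T ∧ p f} : Finset (Fin n → Fin n)) | im f = T'} =
        #{f : Fin n → Fin n | im f = T ∧ p f} := by
    intro T' hT'
    rw [Finset.mem_powersetCard] at hT'
    rw [sym_card_eq p hp hT'.2.symm]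
    congr 1
    rw [Finset.filter_filter]
    refine Finset.filter_congr fun f _ => ?_
    constructor
    · rintro ⟨⟨_, h4⟩, h5⟩
      exact ⟨h5, h4⟩
    · rintro ⟨h5, h4⟩
      exact ⟨⟨by rw [h5, hT'.2], h4⟩, h5⟩
  rw [h1, Finset.sum_congr rfl h2, Finset.sum_const, Finset.card_powersetCard, Finset.card_univ,
    Fintype.card_fin, smul_eq_mul, mul_comm]

theorem im_sym {n : ℕ} (T : Finset (Fin n)) :
    #{f : Fin n → Fin n | im f = T} * n.choose #T = #{f : Fin n → Fin n | #(im f) = #T} := by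
  have h := sym_gen (fun _ : Fin n → Fin n => True) (fun _ _ => Iff.rfl) T
  simpa using h

theorem coll_sym {n : ℕ} (T : Finset (Fin n)) (C : ℝ) :
    #{f : Fin n → Fin n | im f = T ∧ C < coll f} * n.choose #T =
      #{f : Fin n → Fin n | #(im f) = #T ∧ C < coll f} := by
  exact sym_gen (fun f : Fin n → Fin n => C < coll f)
    (fun σ f => by rw [sym_coll_comp]) T

/-- the density of `{f | im f ∈ B}` level by level. -/
theorem im_mem_sum {n : ℕ} (B : Finset (Finset (Fin n))) (G : Finset ℕ) (hG : ∀ r ∈ G, r ≤ n) :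
    (#{f : Fin n → Fin n | im f ∈ B ∧ #(im f) ∈ G} : ℝ) =
      ∑ r ∈ G, (#{f : Fin n → Fin n | #(im f) = r} : ℝ) *
        ((#{I ∈ B | #I = r} : ℝ) / n.choose r) := by
  classical
  have h1 : #{f : Fin n → Fin n | im f ∈ B ∧ #(im f) ∈ G} =
      ∑ r ∈ G, #{f ∈ ({f : Fin n → Fin n | im f ∈ B ∧ #(im f) ∈ G} :
        Finset (Fin n → Fin n)) | #(im f) = r} := by
    refine Finset.card_eq_sum_card_fiberwise (f := fun f => #(im f)) ?_
    intro f hf
    rw [Finset.mem_coe, Finset.mem_filter] at hf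
    exact hf.2.2
  rw [h1]
  push_cast
  refine Finset.sum_congr rfl fun r hr => ?_
  have h2 : #{f ∈ ({f : Fin n → Fin n | im f ∈ B ∧ #(im f) ∈ G} :
      Finset (Fin n → Fin n)) | #(im f) = r} =
      ∑ I ∈ B with #I = r, #{f ∈ ({f ∈ ({f : Fin n → Fin n | im f ∈ B ∧ #(im f) ∈ G} :
        Finset (Fin n → Fin n)) | #(im f) = r}) | im f = I} := by
    refine Finset.card_eq_sum_card_fiberwise (f := im) ?_
    intro f hf
    rw [Finset.mem_coe, Finset.mem_filter, Finset.mem_filter] at hf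
    rw [Finset.mem_coe, Finset.mem_filter]
    exact ⟨hf.1.2.1, hf.2⟩
  have hch : (n.choose r : ℝ) ≠ 0 := by
    have := Nat.choose_pos (hG r hr)
    positivity
  have h3 : ∀ I ∈ B.filter (fun I => #I = r),
      ((#{f ∈ ({f ∈ ({f : Fin n → Fin n | im f ∈ B ∧ #(im f) ∈ G} :
        Finset (Fin n → Fin n)) | #(im f) = r}) | im f = I} : ℕ) : ℝ) =
        (#{f : Fin n → Fin n | #(im f) = r} : ℝ) / n.choose r := by
    intro I hI
    rw [Finset.mem_filter] at hI
    rw [eq_div_iff hch]
    have h4 := im_sym I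
    rw [hI.2] at h4
    rw [← h4]
    push_cast
    congr 2
    congr 1
    ext f
    simp only [Finset.mem_filter, Finset.mem_univ, true_and]
    constructor
    · rintro ⟨_, h5⟩
      exact h5
    · intro h5
      rw [h5]
      exact ⟨⟨⟨hI.1, by rw [hI.2]; exact hr⟩, hI.2⟩, rfl⟩
  rw [h2]
  push_cast
  rw [Finset.sum_congr rfl h3, Finset.sum_const, nsmul_eq_mul]
  ring

end H96.TN
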