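import Pool.Agent.H96.TN.TLem

/-!
Module TLEM2 (~120 lines): `tlem` for a subset `V` of `Fin n` (type `{y // y ∈ V}`).

Apply `tlem` to the type `{y // y ∈ V}`, `J' = {S | #S = j0 ∧ V \ S.map val ∈ B}`,
`Q' = Q.subtype (· ∈ V)`, `Λ' = Λ.subtype (· ∈ V)`; `(Equiv.Perm.ofSubtype τ) (y : Fin n) = τ y`.
-/

namespace H96.TN

open Finset

theorem tlem2_card {n : ℕ} (V Λ : Finset (Fin n)) (hΛ : Λ ⊆ V) (k : ℕ)
    (P : Finset (Fin n) → Prop) [DecidablePred P] (P' : Finset {y // y ∈ V} → Prop)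
    [DecidablePred P'] (h : ∀ S : Finset {y // y ∈ V}, #S = k →
      S.map (Function.Embedding.subtype (· ∈ V)) ⊆ Λ →
      (P' S ↔ P (S.map (Function.Embedding.subtype (· ∈ V))))) :
    #{S ∈ (Λ.subtype (· ∈ V)).powersetCard k | P' S} = #{S ∈ Λ.powersetCard k | P S} := by
  have hsub : ∀ S : Finset {y // y ∈ V}, S ⊆ Λ.subtype (· ∈ V) →
      S.map (Function.Embedding.subtype (· ∈ V)) ⊆ Λ := by
    intro S hS x hx
    rw [mem_map] at hx
    obtain ⟨y, hy, rfl⟩ := hx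
    exact mem_subtype.1 (hS hy)
  refine card_bij (fun S _ => S.map (Function.Embedding.subtype (· ∈ V))) ?_ ?_ ?_
  · intro S hS
    rw [mem_filter, mem_powersetCard] at hS ⊢
    obtain ⟨⟨h1, h2⟩, h3⟩ := hS
    exact ⟨⟨hsub S h1, by rw [card_map, h2]⟩, (h S h2 (hsub S h1)).1 h3⟩
  · intro S _ S' _ hSS
    exact map_injective _ hSS
  · intro T hT
    rw [mem_filter, mem_powersetCard] at hT
    obtain ⟨⟨h1, h2⟩, h3⟩ := hT
    have hm : (T.subtype (· ∈ V)).map (Function.Embedding.subtype (· ∈ V)) = T :=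
      subtype_map_of_mem fun x hx => hΛ (h1 hx)
    have hc : #(T.subtype (· ∈ V)) = k := by
      rw [← card_map (Function.Embedding.subtype (· ∈ V)), hm, h2]
    have hs : T.subtype (· ∈ V) ⊆ Λ.subtype (· ∈ V) := by
      intro x hx
      rw [mem_subtype] at hx ⊢
      exact h1 hx
    refine ⟨T.subtype (· ∈ V), ?_, hm⟩
    rw [mem_filter, mem_powersetCard]
    exact ⟨⟨hs, hc⟩, (h _ hc (hsub _ hs)).2 (by rw [hm]; exact h3)⟩

theorem tlem2_image {n : ℕ} (V : Finset (Fin n)) (τ : Equiv.Perm {y // y ∈ V})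
    (S : Finset {y // y ∈ V}) :
    (S.image τ).map (Function.Embedding.subtype (· ∈ V)) =
      (S.map (Function.Embedding.subtype (· ∈ V))).image (Equiv.Perm.ofSubtype τ) := by
  rw [map_eq_image, map_eq_image, image_image, image_image]
  refine image_congr fun x _ => ?_
  simp [Equiv.Perm.ofSubtype_apply_coe]

theorem tlem2_card_sub {n : ℕ} (V Q : Finset (Fin n)) (hQ : Q ⊆ V) :
    #(Q.subtype (· ∈ V)) = #Q := by
  rw [← card_map (Function.Embedding.subtype (· ∈ V)), subtype_map_of_mem fun x hx => hQ hx]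

theorem tlem2 (θ ε c : ℝ) (hθ : 0 < θ) (hε : 0 < ε) (hc : 0 < c) (k0 : ℕ) :
    ∃ j1 : ℕ, k0 ≤ j1 ∧ ∀ j0 ≥ j1, ∃ v0 : ℕ, ∀ (n : ℕ) (V : Finset (Fin n)), v0 ≤ #V →
      ∀ B : Finset (Finset (Fin n)),
        θ * (#V).choose j0 ≤ #{J ∈ V.powersetCard j0 | V \ J ∈ B} →
        ∀ Q Λ : Finset (Fin n), Q ⊆ V → Λ ⊆ V → Disjoint Q Λ → #Q ≤ k0 → c * #V ≤ #Λ →
          (#{τ : Equiv.Perm {y // y ∈ V} |
            (#{Bl ∈ Λ.powersetCard (j0 - #Q) |
              V \ (Q ∪ Bl).image (Equiv.Perm.ofSubtype τ) ∈ B} : ℝ) <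
              θ / 2 * (#Λ).choose (j0 - #Q)} : ℝ) ≤ ε * (#V).factorial := by
  obtain ⟨j1, hj1, H⟩ := tlem θ ε c hθ hε hc k0
  refine ⟨j1, hj1, fun j0 hj0 => ?_⟩
  obtain ⟨v0, hv0⟩ := H j0 hj0
  refine ⟨v0, fun n V hV B hB Q Λ hQ hΛ hd hQk hcΛ => ?_⟩
  have hcard : Fintype.card {y // y ∈ V} = #V := Fintype.card_coe V
  set J' : Finset (Finset {y // y ∈ V}) :=
    {S ∈ (V.subtype (· ∈ V)).powersetCard j0 |
      V \ S.map (Function.Embedding.subtype (· ∈ V)) ∈ B} with hJ'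
  have hJc : #J' = #{J ∈ V.powersetCard j0 | V \ J ∈ B} :=
    tlem2_card V V (Subset.refl V) j0 _ _ fun S _ _ => Iff.rfl
  have hmemJ : ∀ S : Finset {y // y ∈ V}, #S = j0 →
      (S ∈ J' ↔ V \ S.map (Function.Embedding.subtype (· ∈ V)) ∈ B) := by
    intro S hS
    rw [hJ', mem_filter, mem_powersetCard]
    refine ⟨fun h => h.2, fun h => ⟨⟨fun x _ => ?_, hS⟩, h⟩⟩
    rw [mem_subtype]
    exact x.2
  have h1 := hv0 {y // y ∈ V} (by rw [hcard]; exact hV) J' (fun S hS => by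
    rw [hJ', mem_filter, mem_powersetCard] at hS
    exact hS.1.2) (by rw [hcard, hJc]; exact hB) (Q.subtype (· ∈ V)) (Λ.subtype (· ∈ V))
    (by
      rw [disjoint_left] at hd ⊢
      intro x hx hx'
      rw [mem_subtype] at hx hx'
      exact hd hx hx')
    (by rw [tlem2_card_sub V Q hQ]; exact hQk)
    (by rw [tlem2_card_sub V Λ hΛ, hcard]; exact hcΛ)
  rw [hcard, tlem2_card_sub V Q hQ, tlem2_card_sub V Λ hΛ] at h1
  refine le_trans (le_of_eq ?_) h1
  congr 1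
  refine congrArg card (filter_congr fun τ _ => ?_)
  have h2 : #{S ∈ (Λ.subtype (· ∈ V)).powersetCard (j0 - #Q) |
      (Q.subtype (· ∈ V) ∪ S).image τ ∈ J'} =
      #{Bl ∈ Λ.powersetCard (j0 - #Q) |
        V \ (Q ∪ Bl).image (Equiv.Perm.ofSubtype τ) ∈ B} := by
    refine tlem2_card V Λ hΛ (j0 - #Q) _ _ fun S hS hSΛ => ?_
    have hdis : Disjoint (Q.subtype (· ∈ V)) S := by
      rw [disjoint_left]
      intro x hx hx'
      rw [mem_subtype] at hx
      refine disjoint_left.1 hd hx (hSΛ ?_)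
      rw [mem_map]
      exact ⟨x, hx', rfl⟩
    have hc1 : #((Q.subtype (· ∈ V) ∪ S).image τ) = j0 := by
      rw [card_image_of_injective _ τ.injective, card_union_of_disjoint hdis,
        tlem2_card_sub V Q hQ, hS]
      omega
    rw [hmemJ _ hc1, tlem2_image, map_union, subtype_map_of_mem fun x hx => hQ hx]
  rw [h2]

end H96.TN
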