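import Pool.Agent.H96.TN.Count
import Pool.Agent.H96.TN.Height
import Pool.Agent.H96.TN.Chain
import Pool.Agent.H96.TN.Sym
import Pool.Agent.H96.TN.PickJ
import Pool.Agent.H96.TN.PickG
import Pool.Agent.H96.TN.RankProb
import Pool.Agent.H96.TN.Core1
import Pool.Agent.H96.TN.Core2
import Pool.Agent.H96.TN.TLem2
import Pool.Agent.H96.TN.Param

/-!
# MP_2b9fb5_al : assembly
-/

namespace H96.TN

open Finset

theorem im_post {n : ℕ} (σ : Equiv.Perm (Fin n)) (g : Fin n → Fin n) (π : Equiv.Perm (Fin n)) :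
    im (fun x => σ (g (π.symm x))) = (im g).image σ := by
  ext y
  simp only [im, mem_image, mem_univ, true_and]
  constructor
  · rintro ⟨x, rfl⟩
    exact ⟨g (π.symm x), ⟨_, rfl⟩, rfl⟩
  · rintro ⟨_, ⟨x, rfl⟩, rfl⟩
    exact ⟨π x, by simp⟩

theorem aux_final {δ F x : ℝ} (hδ : 0 < δ) (hF : 0 < F) (h : 3 * δ / 4 * F ≤ x)
    (h2 : x ≤ (δ / 4 + δ / 4) * F) : False := by
  have := mul_pos hδ hF
  nlinarith

open scoped Classical in
theorem irred_small (δ : ℝ) (hδ : 0 < δ) : ∃ n0 : ℕ, ∀ n ≥ n0, ∀ A : Finset (Fin n → Fin n),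
    Irred (S := Function.End (Fin n)) A → (#A : ℝ) ≤ 2 * δ * (n : ℝ) ^ n := by
  -- large δ is trivial
  by_cases hδ1 : 1 ≤ 2 * δ
  · refine ⟨0, fun n _ A _ => ?_⟩
    have h1 : (#A : ℝ) ≤ (n : ℝ) ^ n := by
      have h2 : #A ≤ Fintype.card (Fin n → Fin n) := card_le_univ A
      have h3 : Fintype.card (Fin n → Fin n) = n ^ n := by simp
      rw [h3] at h2
      exact_mod_cast h2
    have h0 : (0 : ℝ) ≤ (n : ℝ) ^ n := by positivity
    nlinarith
  push Not at hδ1
  set β : ℝ := δ ^ 3 / 2 with hβdef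
  have hβ : 0 < β := by positivity
  set θ0 : ℝ := β ^ 2 / 4 with hθdef
  have hθ0 : 0 < θ0 := by positivity
  have hβ1 : β ≤ 1 := by
    have : δ ^ 3 ≤ 1 := pow_le_one₀ hδ.le (by linarith)
    rw [hβdef]; linarith
  have hθ1 : θ0 ≤ 1 := by
    rw [hθdef]; nlinarith
  obtain ⟨C1, hC1, hRP⟩ := rankprob β (δ / 8) hβ (by positivity)
  obtain ⟨k0, hk0, ε3, hε3, hε3', hP⟩ := param C1 θ0 (θ0 / 4) (δ / 4) hC1 hθ0 hθ1 (by positivity)
    (by positivity)
  obtain ⟨j1, hkj1, hT⟩ := tlem2 θ0 (δ / 4) (1 / (512 * C1)) hθ0 (by positivity) (by positivity) k0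
  set j0 : ℕ := j1 + 1 with hj0
  obtain ⟨v0, hv0⟩ := hT j0 (by omega)
  obtain ⟨n1, hn1⟩ := hP j0
  have hj0pos : (0 : ℝ) < j0 := by rw [hj0]; positivity
  obtain ⟨n2, hn2⟩ := hRP (δ * ε3 / 32) (β ^ 2 / (4 * j0)) (by positivity) (by positivity)
  obtain ⟨n3, hn3⟩ := exists_nat_ge (512 * C1 * k0)
  refine ⟨n1 + n2 + n3 + 16 * (v0 + j0 + 1) + 1, fun n hn A hA => ?_⟩
  by_contra hcon
  push Not at hcon
  have hnpos : 0 < n := by omega
  have hnR : (0 : ℝ) < n := by exact_mod_cast hnpos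
  have hNpos : (0 : ℝ) < (n : ℝ) ^ n := by positivity
  obtain ⟨B, hB1, hB2, hB3⟩ := height A hA δ hδ hcon.le
  obtain ⟨G, hG1, hG2, hG3, hG4, hG5⟩ := hn2 n (by omega)
  have hGn : ∀ r ∈ G, r ≤ n := fun r hr => by have := (hG1 r hr).2; omega
  -- the chain
  set p : ℕ → ℝ := fun r => (#{f : Fin n → Fin n | #(im f) = r} : ℝ) / (n : ℝ) ^ n with hp
  have hp0 : ∀ r, 0 ≤ p r := fun r => by rw [hp]; positivity
  have hp1 : ∑ r ∈ range (n + 1), p r ≤ 1 := by
    rw [hp]
    rw [← Finset.sum_div]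
    rw [div_le_one hNpos]
    have h1 : ∑ r ∈ range (n + 1), #{f : Fin n → Fin n | #(im f) = r} =
        #(univ : Finset (Fin n → Fin n)) := by
      rw [Finset.card_eq_sum_card_fiberwise (f := fun f : Fin n → Fin n => #(im f))
        (t := range (n + 1))]
      intro f _
      simp only [coe_range, Set.mem_Iio]
      have : #(im f) ≤ n := by
        calc #(im f) ≤ #(univ : Finset (Fin n)) := card_image_le
          _ = n := by simp
      omega
    have h2 : #(univ : Finset (Fin n → Fin n)) = n ^ n := by simp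
    rw [h2] at h1
    have h3 : ((∑ r ∈ range (n + 1), #{f : Fin n → Fin n | #(im f) = r} : ℕ) : ℝ) =
        (n : ℝ) ^ n := by rw [h1]; push_cast; ring
    rw [← h3]
    push_cast
    exact le_rfl
  have hpη : ∀ r, p r ≤ β ^ 2 / (4 * j0) := fun r => by
    rw [hp]
    simp only
    rw [div_le_iff₀ hNpos]
    exact hG5 r
  have hBG : β ≤ ∑ r ∈ G, p r * ((#{I ∈ B | #I = r} : ℝ) / n.choose r) := by
    have h1 := im_mem_sum B G hGn
    have h2 : ∑ r ∈ G, p r * ((#{I ∈ B | #I = r} : ℝ) / n.choose r) =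
        (#{f : Fin n → Fin n | im f ∈ B ∧ #(im f) ∈ G} : ℝ) / (n : ℝ) ^ n := by
      rw [h1, Finset.sum_div]
      refine Finset.sum_congr rfl fun r _ => ?_
      rw [hp]
      ring
    rw [h2, le_div_iff₀ hNpos]
    have h3 : #{f : Fin n → Fin n | im f ∈ B} ≤
        #{f : Fin n → Fin n | im f ∈ B ∧ #(im f) ∈ G} + #{f : Fin n → Fin n | #(im f) ∉ G} := by
      rw [← Finset.card_union_of_disjoint]
      · refine card_le_card fun f hf => ?_
        simp only [mem_filter, mem_univ, true_and, mem_union] at hf ⊢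
        by_cases h : #(im f) ∈ G
        · exact Or.inl ⟨hf, h⟩
        · exact Or.inr h
      · rw [Finset.disjoint_left]
        intro f hf hf'
        simp only [mem_filter, mem_univ, true_and] at hf hf'
        exact hf' hf.2
    have h4 : (#{f : Fin n → Fin n | im f ∈ B} : ℝ) ≤
        #{f : Fin n → Fin n | im f ∈ B ∧ #(im f) ∈ G} + #{f : Fin n → Fin n | #(im f) ∉ G} := by
      exact_mod_cast h3
    have h5 : δ ^ 3 * (n : ℝ) ^ n = 2 * (β * (n : ℝ) ^ n) := by rw [hβdef]; ring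
    linarith
  obtain ⟨r, hr, r', hr', hrr, hBr, T, hTB, hTr', hTd⟩ := chain p hp0 hp1 (β ^ 2 / (4 * j0)) β hpη
    B G hGn j0 (by omega) hβ (by field_simp; norm_num) hBG
  -- the sets `J0`, `V`
  obtain ⟨J0, hJ0T, hJ0c, hJ0d⟩ := pickJ0 B T r j0 θ0 (by omega) (by rw [hTr']; exact hTd)
  set V : Finset (Fin n) := T \ J0 with hVdef
  have hVc : #V = r + j0 := by
    have h := Finset.card_sdiff_add_card_eq_card hJ0T
    rw [hVdef]
    omega
  have hTpos : T.Nonempty := by
    rw [← Finset.card_pos]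
    omega
  have hTchoose : (0 : ℝ) < n.choose (#T) := by
    have : #T ≤ n := by rw [hTr']; exact hGn r' hr'
    exact_mod_cast Nat.choose_pos this
  have hcollT : (#{g : Fin n → Fin n | im g = T ∧ C1 * n < coll g} : ℝ) ≤
      δ / 8 * #{g : Fin n → Fin n | im g = T} := by
    have h1 : (#{f : Fin n → Fin n | im f = T} : ℝ) * n.choose (#T) =
        #{f : Fin n → Fin n | #(im f) = #T} := by exact_mod_cast im_sym T
    have h2 : (#{f : Fin n → Fin n | im f = T ∧ C1 * n < coll f} : ℝ) * n.choose (#T) =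
        #{f : Fin n → Fin n | #(im f) = #T ∧ C1 * n < coll f} := by
      exact_mod_cast coll_sym T (C1 * n)
    have h3 := hG3 r' hr'
    rw [← hTr', ← h1, ← h2] at h3
    have h4 : (#{f : Fin n → Fin n | im f = T ∧ C1 * n < coll f} : ℝ) * n.choose (#T) ≤
        (δ / 8 * #{g : Fin n → Fin n | im g = T}) * n.choose (#T) := by
      calc _ ≤ _ := h3
        _ = _ := by ring
    exact le_of_mul_le_mul_right h4 hTchoose
  have hJ0small : 8 * (#J0 : ℝ) ≤ δ * ε3 * #T := by
    have h1 : (#J0 : ℝ) ≤ (r' : ℝ) - r := by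
      have : #J0 + r ≤ r' := by omega
      have : ((#J0 + r : ℕ) : ℝ) ≤ r' := by exact_mod_cast this
      push_cast at this
      linarith
    have h2 := hG2 r hr r' hr'
    have h3 : (n : ℝ) ≤ 4 * r' := by exact_mod_cast (hG1 r' hr').1
    have h4 : δ * ε3 / 32 * n ≤ δ * ε3 / 32 * (4 * r') :=
      mul_le_mul_of_nonneg_left h3 (by positivity)
    rw [hTr']
    nlinarith
  obtain ⟨g0, hg0T, hg0c, hg0J, hg0A⟩ := pickg A T J0 hJ0T δ C1 ε3 hδ hε3 hTpos
    (hB1 T hTB) hcollT hJ0small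
  have hVim : V ⊆ im g0 := by
    rw [hg0T, hVdef]
    exact sdiff_subset
  have hnotV : (#{x | g0 x ∉ V} : ℝ) ≤ ε3 * n := by
    have : ({x | g0 x ∉ V} : Finset (Fin n)) ⊆ ({x | g0 x ∈ J0} : Finset (Fin n)) := by
      intro x hx
      simp only [mem_filter, mem_univ, true_and] at hx ⊢
      by_contra h
      refine hx ?_
      rw [hVdef, mem_sdiff]
      refine ⟨?_, h⟩
      rw [← hg0T]
      exact mem_image_of_mem _ (mem_univ _)
    calc (#{x | g0 x ∉ V} : ℝ) ≤ #{x | g0 x ∈ J0} := by exact_mod_cast card_le_card this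
      _ ≤ _ := hg0J
  have hC1pos : 0 < C1 := by linarith
  have him : #(im g0) = r' := by rw [hg0T, hTr']
  have hP2 : (n : ℝ) / (256 * C1) ≤ #(P2 g0 V) := by
    refine P2_card g0 V C1 hC1 hg0c ?_ ?_
    · rw [him]
      exact (hG1 r' hr').2
    · refine hnotV.trans ?_
      calc ε3 * n ≤ 1 / (256 * C1) * n := mul_le_mul_of_nonneg_right hε3' hnR.le
        _ = _ := by ring
  obtain ⟨w, Λ, hw, hΛ, hPar⟩ := hn1 n (by omega)
  set R : ℕ := ⌈Real.sqrt (2 * C1 * n) + 1⌉₊ with hRdef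
  have hRfib : ∀ y, #{x | g0 x = y} ≤ R := fun y => by
    have h := fiber_le g0 C1 hC1pos.le hg0c y
    have h2 : (#{x | g0 x = y} : ℝ) ≤ R := h.trans (Nat.le_ceil _)
    exact_mod_cast h2
  have hRle : (R : ℝ) ≤ Real.sqrt (2 * C1 * n) + 2 := by
    have h := Nat.ceil_lt_add_one (a := Real.sqrt (2 * C1 * n) + 1) (by positivity)
    rw [hRdef]
    linarith
  obtain ⟨hwm, hbig, hbound⟩ := hPar #(P2 g0 V) R #{x | g0 x ∉ V} hP2 hRle hnotV
  set B' : Finset (Finset (Fin n)) := {I ∈ B | #I = r} with hB'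
  have hB'r : ∀ I ∈ B', #I = r := fun I hI => (mem_filter.mp hI).2
  have h1 := core1 g0 V hVim B' r j0 k0 w #(P2 g0 V) R Λ θ0 (θ0 / 4) hB'r hVc.symm rfl hRfib
    hθ0 hBr (by positivity) hk0 (by omega) hw hΛ hwm hbig
  have h1' := h1.trans (mul_le_mul_of_nonneg_right hbound (by positivity))
  have hVn : (#V : ℝ) ≤ n := by
    have : #V ≤ n := by
      calc #V ≤ #(univ : Finset (Fin n)) := card_le_univ _
        _ = n := by simp
    exact_mod_cast this
  have hcV : 1 / (512 * C1) * (#V : ℝ) + k0 ≤ #(P2 g0 V) := by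
    have h3 : (512 * C1 * k0 : ℝ) ≤ n := by
      refine hn3.trans ?_
      have : n3 ≤ n := by omega
      exact_mod_cast this
    have h4 : (k0 : ℝ) ≤ n / (512 * C1) := by
      rw [le_div_iff₀ (by positivity)]
      linarith
    have h5 : 1 / (512 * C1) * (#V : ℝ) ≤ n / (512 * C1) := by
      rw [one_div, inv_mul_eq_div]
      exact div_le_div_of_nonneg_right hVn (by positivity)
    have h6 : (n : ℝ) / (256 * C1) = n / (512 * C1) + n / (512 * C1) := by
      field_simp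
      ring
    linarith
  have hv0V : v0 ≤ #V := by
    have := (hG1 r hr).1
    omega
  have hJd : θ0 * (#V).choose j0 ≤ (#{J ∈ V.powersetCard j0 | V \ J ∈ B'} : ℝ) := by
    rw [hVc]
    refine hJ0d.trans ?_
    have : #{J ∈ V.powersetCard j0 | V \ J ∈ B} ≤ #{J ∈ V.powersetCard j0 | V \ J ∈ B'} := by
      refine card_le_card fun J hJ => ?_
      rw [mem_filter] at hJ ⊢
      refine ⟨hJ.1, ?_⟩
      rw [hB', mem_filter]
      refine ⟨hJ.2, ?_⟩
      rw [mem_powersetCard] at hJ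
      have := Finset.card_sdiff_add_card_eq_card hJ.1.1
      omega
    exact_mod_cast this
  have h2 := core2 g0 V hVim B' j0 k0 (by omega) θ0 (δ / 4) (δ / 4) (1 / (512 * C1)) hθ0 hcV
    (by omega) h1' (hv0 n V hv0V B' hJd)
  -- combine with the elements of `A`
  have hfac : (0 : ℝ) < (n.factorial : ℝ) * (#V).factorial := by positivity
  have hex : ∃ q : Equiv.Perm (Fin n) × Equiv.Perm {y // y ∈ V},
      (fun x => Equiv.Perm.ofSubtype q.2 (g0 (q.1.symm x))) ∈ A ∧
      ∃ I ∈ B', ∃ T' ∈ B', I ≠ T' ∧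
        I.image (fun x => Equiv.Perm.ofSubtype q.2 (g0 (q.1.symm x))) = T' := by
    by_contra hno
    push Not at hno
    have hsub : #{q : Equiv.Perm (Fin n) × Equiv.Perm {y // y ∈ V} |
        (fun x => Equiv.Perm.ofSubtype q.2 (g0 (q.1.symm x))) ∈ A} ≤
        #{q : Equiv.Perm (Fin n) × Equiv.Perm {y // y ∈ V} |
      ¬ ∃ I ∈ B', ∃ T ∈ B', I ≠ T ∧
        I.image (fun x => Equiv.Perm.ofSubtype q.2 (g0 (q.1.symm x))) = T} := by
      refine card_le_card fun q hq => ?_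
      simp only [mem_filter, mem_univ, true_and] at hq ⊢
      rintro ⟨I, hI, T', hT', hne, heq⟩
      exact hno q hq I hI T' hT' hne heq
    have h3 : (#{q : Equiv.Perm (Fin n) × Equiv.Perm {y // y ∈ V} |
        (fun x => Equiv.Perm.ofSubtype q.2 (g0 (q.1.symm x))) ∈ A} : ℝ) ≤ _ :=
      (Nat.cast_le.mpr hsub).trans h2
    exact aux_final hδ hfac hg0A h3
  obtain ⟨q, hqA, I, hI, T', hT', hne, heq⟩ := hex
  have hIB := (mem_filter.mp hI)
  have hTB' := (mem_filter.mp hT')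
  refine hne (hB3 _ hqA I hIB.1 T' hTB'.1 ?_ (by rw [hIB.2, hTB'.2]) heq)
  rw [im_post, card_image_of_injective _ (Equiv.injective _), him, hIB.2]
  omega

theorem count_subsemigroups (c : ℝ) (hc : 1 < c) : ∃ n0 : ℕ, ∀ n ≥ n0,
    (Nat.card (Subsemigroup (Function.End (Fin n))) : ℝ) < c ^ (n ^ n) := by
  obtain ⟨δ, hδ, hcount⟩ := count c hc
  obtain ⟨n0, hn0⟩ := irred_small (δ / 2) (by positivity)
  refine ⟨n0 + 1, fun n hn => ?_⟩
  letI : Fintype (Function.End (Fin n)) := inferInstanceAs (Fintype (Fin n → Fin n))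
  have hcard : Fintype.card (Function.End (Fin n)) = n ^ n := by
    have : Fintype.card (Fin n → Fin n) = n ^ n := by simp
    exact this
  have hpos : 0 < Fintype.card (Function.End (Fin n)) := by
    rw [hcard]
    have : 0 < n := by omega
    positivity
  have h := hcount (Function.End (Fin n)) hpos fun A hA => by
    have h1 := hn0 n (by omega) A hA
    rw [hcard]
    push_cast
    calc (#A : ℝ) ≤ 2 * (δ / 2) * (n : ℝ) ^ n := h1
      _ = _ := by ring
  rwa [hcard] at h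

end H96.TN
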