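import Pool.Agent.H96.TN.Level

/-!
Module STEP (~200 lines). Uses `level1`, `dn_in_sum`, `dn_out_sum`, `dn_split`.

`u = #U`, `p = s/u`, `L = -log φ ≥ 0`, `κ = 16 n / w^2`, `a z` as in LEVEL:
`dn_in z / φ = 1 + a z / p`, `dn_out z / φ = 1 - a z/(1-p)` (`dn_split`), `∑ a z = 0`,
`∑ a z^2 ≤ 4 L`, and `p^2 u = s^2/u ≥ w^2/n`, `(1-p)^2 u ≥ w^2/n`.
`step_in`: `Bad = {z | dn_in z < φ/2} = {z | a z/p < -1/2}`: `#Bad p^2/4 ≤ ∑ a^2 ≤ 4L`, so
`#Bad ≤ 16 L/(p^2 u) u ≤ κ L u`; for `z ∈ Bad`, `a z < 0` so `dn_out z ≥ φ`; and for `z ∉ Bad`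
`-log (dn_in z) = L - log (1 + a z/p) ≤ L - a z/p + (a z/p)^2` (`-log (1+x) ≤ -x + x^2` for
`x ≥ -1/2`), `-∑_{z ∉ Bad} a z/p = ∑_{z∈Bad} a z/p ≤ 0`, so the sum is
`≤ u L + ∑ a^2/p^2 ≤ u L + 4 L u/(p^2 u) ≤ u (1+κ) L`.
`step_out`: the same with `x = -a z/(1-p)`.
-/

namespace H96.TN

open Finset

variable {X : Type*} [DecidableEq X]

/-- `log (1 + x) ≥ x - x^2` for `x ≥ -1/2`. -/
theorem step_log (x : ℝ) (hx : -(1 / 2) ≤ x) : -Real.log (1 + x) ≤ -x + x ^ 2 := by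
  rcases le_or_gt 0 x with h0 | h0
  · have h1 : 1 - (1 + x)⁻¹ ≤ Real.log (1 + x) := Real.one_sub_inv_le_log_of_pos (by linarith)
    have h2 : x - x ^ 2 ≤ 1 - (1 + x)⁻¹ := by
      have hpos : 0 < 1 + x := by linarith
      have : 1 - (1 + x)⁻¹ - (x - x ^ 2) = x ^ 3 / (1 + x) := by
        field_simp
        ring
      have h3 : 0 ≤ x ^ 3 / (1 + x) := by positivity
      linarith
    linarith
  · let g : ℝ → ℝ := fun y => Real.log (1 + y) - y + y ^ 2
    have hder : ∀ y, -(1 / 2 : ℝ) ≤ y → HasDerivAt g (1 / (1 + y) - 1 + 2 * y) y := by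
      intro y hy
      have hpos : (1 + y) ≠ 0 := by
        intro h
        linarith
      have h1 : HasDerivAt (fun y : ℝ => 1 + y) 1 y := by
        simpa using (hasDerivAt_id y).const_add 1
      have h2 : HasDerivAt (fun y : ℝ => Real.log (1 + y)) (1 / (1 + y)) y := h1.log hpos
      have h3 : HasDerivAt (fun y : ℝ => y ^ 2) (2 * y) y := by
        simpa using hasDerivAt_pow 2 y
      exact (h2.sub (hasDerivAt_id y)).add h3
    have hanti : AntitoneOn g (Set.Icc (-(1 / 2)) 0) := by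
      refine antitoneOn_of_deriv_nonpos (convex_Icc _ _) ?_ ?_ ?_
      · intro y hy
        exact (hder y hy.1).continuousAt.continuousWithinAt
      · intro y hy
        rw [interior_Icc] at hy
        exact (hder y hy.1.le).differentiableAt.differentiableWithinAt
      · intro y hy
        rw [interior_Icc] at hy
        rw [(hder y hy.1.le).deriv]
        have hpos : 0 < 1 + y := by linarith [hy.1]
        have e : 1 / (1 + y) - 1 + 2 * y = y * (1 + 2 * y) / (1 + y) := by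
          field_simp
          ring
        rw [e]
        apply div_nonpos_of_nonpos_of_nonneg _ hpos.le
        exact mul_nonpos_of_nonpos_of_nonneg hy.2.le (by linarith [hy.1])
    have h := hanti (a := x) (b := 0) ⟨hx, h0.le⟩ ⟨by norm_num, le_rfl⟩ h0.le
    have h0' : g 0 = 0 := by simp [g]
    rw [h0'] at h
    have : g x = Real.log (1 + x) - x + x ^ 2 := rfl
    linarith

/-- The common part of `step_in` and `step_out`. -/
theorem step_abs (U : Finset X) (D1 D2 x : X → ℝ) (φ K c : ℝ) (hφ : 0 < φ) (hφ1 : φ ≤ 1)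
    (h1 : ∀ z ∈ U, D1 z = φ * (1 + x z)) (h2 : ∀ z ∈ U, D2 z = φ * (1 - c * x z))
    (hc : 0 ≤ c) (hK : 0 ≤ K) (hx0 : ∑ z ∈ U, x z = 0)
    (hx2 : ∑ z ∈ U, x z ^ 2 ≤ #U * (K / 4 * (-Real.log φ))) : ∃ Bad ⊆ U,
      (#Bad : ℝ) ≤ #U * (K * (-Real.log φ)) ∧
      (∀ z ∈ Bad, φ ≤ D2 z) ∧ (∀ z ∈ U \ Bad, φ / 2 ≤ D1 z) ∧
      ∑ z ∈ U \ Bad, (-Real.log (D1 z)) + ∑ z ∈ Bad, (-Real.log (D2 z)) ≤
        #U * ((1 + K) * (-Real.log φ)) := by
  classical
  have hL : 0 ≤ -Real.log φ := by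
    have := Real.log_nonpos hφ.le hφ1
    linarith
  obtain ⟨L, hLdef⟩ : ∃ L, L = -Real.log φ := ⟨_, rfl⟩
  rw [← hLdef] at hL hx2 ⊢
  have hsub : U.filter (fun z => D1 z < φ / 2) ⊆ U := filter_subset _ _
  have hbadx : ∀ z ∈ U.filter (fun z => D1 z < φ / 2), x z < -(1 / 2) := by
    intro z hz
    rw [mem_filter] at hz
    have e := h1 z hz.1
    have h := hz.2
    rw [e] at h
    nlinarith
  have hgoodx : ∀ z ∈ U \ U.filter (fun z => D1 z < φ / 2), φ / 2 ≤ D1 z := by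
    intro z hz
    rw [mem_sdiff, mem_filter] at hz
    by_contra hcon
    exact hz.2 ⟨hz.1, lt_of_not_ge hcon⟩
  have hgoodx' : ∀ z ∈ U \ U.filter (fun z => D1 z < φ / 2), -(1 / 2) ≤ x z := by
    intro z hz
    have h := hgoodx z hz
    rw [h1 z (mem_sdiff.1 hz).1] at h
    nlinarith
  have hbadD : ∀ z ∈ U.filter (fun z => D1 z < φ / 2), φ ≤ D2 z := by
    intro z hz
    have h := hbadx z hz
    rw [h2 z (hsub hz)]
    have : c * x z ≤ 0 := mul_nonpos_of_nonneg_of_nonpos hc (by linarith)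
    nlinarith
  set Bad := U.filter (fun z => D1 z < φ / 2) with hBad
  refine ⟨Bad, hsub, ?_, hbadD, hgoodx, ?_⟩
  · have hb : (#Bad : ℝ) * (1 / 4) ≤ ∑ z ∈ Bad, x z ^ 2 := by
      have : ∑ z ∈ Bad, (1 / 4 : ℝ) ≤ ∑ z ∈ Bad, x z ^ 2 := by
        refine sum_le_sum fun z hz => ?_
        have := hbadx z hz
        nlinarith
      simpa [sum_const, nsmul_eq_mul] using this
    have hb2 : ∑ z ∈ Bad, x z ^ 2 ≤ ∑ z ∈ U, x z ^ 2 :=
      sum_le_sum_of_subset_of_nonneg hsub fun z _ _ => sq_nonneg _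
    have e : (#U : ℝ) * (K / 4 * L) = #U * (K * L) * (1 / 4) := by ring
    linarith
  · have hA : ∑ z ∈ U \ Bad, (-Real.log (D1 z)) ≤
        ∑ z ∈ U \ Bad, (L + (-x z + x z ^ 2)) := by
      refine sum_le_sum fun z hz => ?_
      have hz1 := hgoodx' z hz
      have hpos : 0 < 1 + x z := by linarith
      rw [h1 z (mem_sdiff.1 hz).1, Real.log_mul hφ.ne' hpos.ne']
      have := step_log (x z) hz1
      linarith
    have hB : ∑ z ∈ Bad, (-Real.log (D2 z)) ≤ ∑ z ∈ Bad, L := by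
      refine sum_le_sum fun z hz => ?_
      have := Real.log_le_log hφ (hbadD z hz)
      linarith
    have hsplit : ∀ F : X → ℝ, ∑ z ∈ U \ Bad, F z = ∑ z ∈ U, F z - ∑ z ∈ Bad, F z := by
      intro F
      have := sum_sdiff (f := F) hsub
      linarith
    have hC : ∑ z ∈ U \ Bad, (L + (-x z + x z ^ 2)) + ∑ z ∈ Bad, L =
        #U * L + ∑ z ∈ Bad, x z + ∑ z ∈ U \ Bad, x z ^ 2 := by
      rw [sum_add_distrib, sum_add_distrib, hsplit (fun _ => L), hsplit (fun z => -x z),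
        sum_neg_distrib, sum_neg_distrib, hx0]
      simp only [sum_const, nsmul_eq_mul]
      ring
    have hD : ∑ z ∈ Bad, x z ≤ 0 := sum_nonpos fun z hz => by linarith [hbadx z hz]
    have hE : ∑ z ∈ U \ Bad, x z ^ 2 ≤ ∑ z ∈ U, x z ^ 2 :=
      sum_le_sum_of_subset_of_nonneg sdiff_subset fun z _ _ => sq_nonneg _
    have hF : (#U : ℝ) * (K / 4 * L) ≤ #U * (K * L) := by
      apply mul_le_mul_of_nonneg_left _ (Nat.cast_nonneg _)
      apply mul_le_mul_of_nonneg_right _ hL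
      linarith
    have e : (#U : ℝ) * ((1 + K) * L) = #U * L + #U * (K * L) := by ring
    linarith

/-- `4 L (u/s)^2 ≤ u (K/4) L`. -/
theorem step_num (u s n w L : ℝ) (hw : 0 < w) (h1 : w ≤ s) (hu : 0 ≤ u) (hn : u ≤ n)
    (hL : 0 ≤ L) : (u / s) ^ 2 * (4 * L) ≤ u * (16 * n / w ^ 2 / 4 * L) := by
  have hs : 0 < s := lt_of_lt_of_le hw h1
  have h2 : u / s ^ 2 ≤ n / w ^ 2 := by
    have hn0 : 0 ≤ n := hu.trans hn
    calc u / s ^ 2 ≤ n / s ^ 2 := by gcongr
      _ ≤ n / w ^ 2 := by gcongr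
  have h3 : 0 ≤ u * (4 * L) := by positivity
  have h4 := mul_le_mul_of_nonneg_left h2 h3
  have e1 : (u / s) ^ 2 * (4 * L) = u * (4 * L) * (u / s ^ 2) := by
    field_simp
  have e2 : u * (16 * n / w ^ 2 / 4 * L) = u * (4 * L) * (n / w ^ 2) := by
    ring
  rw [e1, e2]
  exact h4

theorem step_in (U : Finset X) (s : ℕ) (f : Finset X → ℝ) (hf0 : ∀ S, 0 ≤ f S)
    (hf1 : ∀ S, f S ≤ 1) (n w : ℕ) (hw : 1 ≤ w) (h1 : w ≤ s) (h2 : s + w ≤ #U) (hn : #U ≤ n)
    (hφ : 0 < dn U s f) : ∃ Bad ⊆ U,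
      (#Bad : ℝ) ≤ #U * (16 * n / (w : ℝ) ^ 2 * (-Real.log (dn U s f))) ∧
      (∀ z ∈ Bad, dn U s f ≤ dn (U.erase z) s f) ∧
      (∀ z ∈ U \ Bad, dn U s f / 2 ≤ dn (U.erase z) (s - 1) (inn z f)) ∧
      ∑ z ∈ U \ Bad, (-Real.log (dn (U.erase z) (s - 1) (inn z f))) +
          ∑ z ∈ Bad, (-Real.log (dn (U.erase z) s f)) ≤
        #U * ((1 + 16 * n / (w : ℝ) ^ 2) * (-Real.log (dn U s f))) := by
  have hφ1 : dn U s f ≤ 1 := dn_le_one U s f hf1
  have hL : 0 ≤ -Real.log (dn U s f) := by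
    have := Real.log_nonpos hφ.le hφ1
    linarith
  have hwR : (0 : ℝ) < w := by exact_mod_cast hw
  have hwsR : (w : ℝ) ≤ s := by exact_mod_cast h1
  have hsR : (0 : ℝ) < s := lt_of_lt_of_le hwR hwsR
  have hsuR : (s : ℝ) + w ≤ #U := by exact_mod_cast h2
  have huR : (0 : ℝ) < #U := by linarith
  have husR : (0 : ℝ) < (#U : ℝ) - s := by linarith
  have hnR : (#U : ℝ) ≤ n := by exact_mod_cast hn
  have hlev := level1 U s f hf0 hf1 (hw.trans h1) (by omega) hφ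
  refine step_abs U (fun z => dn (U.erase z) (s - 1) (inn z f)) (fun z => dn (U.erase z) s f)
    (fun z => dn (U.erase z) (s - 1) (inn z f) / dn U s f - 1) (dn U s f)
    (16 * n / (w : ℝ) ^ 2) (s / ((#U : ℝ) - s)) hφ hφ1 ?_ ?_ (by positivity) (by positivity)
    ?_ ?_
  · intro z _
    field_simp
    ring
  · intro z hz
    have hsp := dn_split U s (hw.trans h1) (by omega) f z hz
    have hne : (#U : ℝ) - s ≠ 0 := husR.ne'
    have e : dn (U.erase z) s f = (#U * dn U s f - s * dn (U.erase z) (s - 1) (inn z f)) /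
        ((#U : ℝ) - s) := by
      rw [eq_div_iff hne]
      linarith
    rw [e]
    field_simp
    ring
  · have hin := dn_in_sum U s (hw.trans h1) (by omega) f
    rw [sum_sub_distrib, ← sum_div, hin]
    simp only [sum_const, nsmul_eq_mul, mul_one]
    field_simp
    ring
  · have e : ∀ z ∈ U, ((s : ℝ) / #U * (dn (U.erase z) (s - 1) (inn z f) / dn U s f - 1)) ^ 2 =
        (s / #U) ^ 2 * (dn (U.erase z) (s - 1) (inn z f) / dn U s f - 1) ^ 2 := by
      intro z _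
      ring
    rw [sum_congr rfl e, ← mul_sum] at hlev
    have e2 : ∑ z ∈ U, (dn (U.erase z) (s - 1) (inn z f) / dn U s f - 1) ^ 2 =
        ((#U : ℝ) / s) ^ 2 * (((s : ℝ) / #U) ^ 2 *
          ∑ z ∈ U, (dn (U.erase z) (s - 1) (inn z f) / dn U s f - 1) ^ 2) := by
      rw [← mul_assoc, ← mul_pow]
      have : (#U : ℝ) / s * (s / #U) = 1 := by
        rw [div_mul_div_cancel₀ hsR.ne', div_self huR.ne']
      rw [this]
      ring
    rw [e2]
    refine le_trans (mul_le_mul_of_nonneg_left hlev (sq_nonneg _)) ?_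
    exact step_num _ _ _ _ _ hwR hwsR huR.le hnR hL

theorem step_out (U : Finset X) (s : ℕ) (f : Finset X → ℝ) (hf0 : ∀ S, 0 ≤ f S)
    (hf1 : ∀ S, f S ≤ 1) (n w : ℕ) (hw : 1 ≤ w) (h1 : w ≤ s) (h2 : s + w ≤ #U) (hn : #U ≤ n)
    (hφ : 0 < dn U s f) : ∃ Bad ⊆ U,
      (#Bad : ℝ) ≤ #U * (16 * n / (w : ℝ) ^ 2 * (-Real.log (dn U s f))) ∧
      (∀ z ∈ Bad, dn U s f ≤ dn (U.erase z) (s - 1) (inn z f)) ∧
      (∀ z ∈ U \ Bad, dn U s f / 2 ≤ dn (U.erase z) s f) ∧
      ∑ z ∈ U \ Bad, (-Real.log (dn (U.erase z) s f)) +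
          ∑ z ∈ Bad, (-Real.log (dn (U.erase z) (s - 1) (inn z f))) ≤
        #U * ((1 + 16 * n / (w : ℝ) ^ 2) * (-Real.log (dn U s f))) := by
  have hφ1 : dn U s f ≤ 1 := dn_le_one U s f hf1
  have hL : 0 ≤ -Real.log (dn U s f) := by
    have := Real.log_nonpos hφ.le hφ1
    linarith
  have hwR : (0 : ℝ) < w := by exact_mod_cast hw
  have hwsR : (w : ℝ) ≤ s := by exact_mod_cast h1
  have hsR : (0 : ℝ) < s := lt_of_lt_of_le hwR hwsR
  have hsuR : (s : ℝ) + w ≤ #U := by exact_mod_cast h2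
  have huR : (0 : ℝ) < #U := by linarith
  have husR : (0 : ℝ) < (#U : ℝ) - s := by linarith
  have hwusR : (w : ℝ) ≤ (#U : ℝ) - s := by linarith
  have hnR : (#U : ℝ) ≤ n := by exact_mod_cast hn
  have hlev := level1 U s f hf0 hf1 (hw.trans h1) (by omega) hφ
  have hsplit : ∀ z ∈ U, dn (U.erase z) (s - 1) (inn z f) =
      (#U * dn U s f - ((#U : ℝ) - s) * dn (U.erase z) s f) / s := by
    intro z hz
    have hsp := dn_split U s (hw.trans h1) (by omega) f z hz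
    rw [eq_div_iff hsR.ne']
    linarith
  refine step_abs U (fun z => dn (U.erase z) s f) (fun z => dn (U.erase z) (s - 1) (inn z f))
    (fun z => dn (U.erase z) s f / dn U s f - 1) (dn U s f)
    (16 * n / (w : ℝ) ^ 2) (((#U : ℝ) - s) / s) hφ hφ1 ?_ ?_ (by positivity) (by positivity)
    ?_ ?_
  · intro z _
    field_simp
    ring
  · intro z hz
    rw [hsplit z hz]
    field_simp
    ring
  · have hout := dn_out_sum U s (by omega) f
    rw [sum_sub_distrib, ← sum_div, hout]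
    simp only [sum_const, nsmul_eq_mul, mul_one]
    field_simp
    ring
  · have e : ∀ z ∈ U, ((s : ℝ) / #U * (dn (U.erase z) (s - 1) (inn z f) / dn U s f - 1)) ^ 2 =
        (((#U : ℝ) - s) / #U) ^ 2 * (dn (U.erase z) s f / dn U s f - 1) ^ 2 := by
      intro z hz
      have hin : (s : ℝ) / #U * (dn (U.erase z) (s - 1) (inn z f) / dn U s f - 1) =
          -((((#U : ℝ) - s) / #U) * (dn (U.erase z) s f / dn U s f - 1)) := by
        rw [hsplit z hz]
        generalize dn U s f = a at hφ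
        generalize dn (U.erase z) s f = b
        generalize (s : ℝ) = s' at hsR
        generalize (#U : ℝ) = u at huR
        field_simp
        ring
      rw [hin, neg_sq, mul_pow]
    rw [sum_congr rfl e, ← mul_sum] at hlev
    have e2 : ∑ z ∈ U, (dn (U.erase z) s f / dn U s f - 1) ^ 2 =
        (#U / ((#U : ℝ) - s)) ^ 2 * ((((#U : ℝ) - s) / #U) ^ 2 *
          ∑ z ∈ U, (dn (U.erase z) s f / dn U s f - 1) ^ 2) := by
      rw [← mul_assoc, ← mul_pow]
      have : (#U : ℝ) / ((#U : ℝ) - s) * (((#U : ℝ) - s) / #U) = 1 := by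
        rw [div_mul_div_cancel₀ husR.ne', div_self huR.ne']
      rw [this]
      ring
    rw [e2]
    refine le_trans (mul_le_mul_of_nonneg_left hlev (sq_nonneg _)) ?_
    exact step_num _ _ _ _ _ hwR hwusR huR.le hnR hL

end H96.TN
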