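import Pool.Agent.H96.TN.TZ

/-!
Module TLEM (~200 lines). Uses `tz`, `uni`.

Let `h` = indicator of `𝓙`, `θ' = dn univ j0 h ≥ θ`, `k = #Q ≤ k0 ≤ j1 ≤ j0`, `b = j0 - k`,
`D(τ) = dn Λ b (fun B => h (τ(Q ∪ B)))`. `E` = average over `τ`.
`E D = θ'` (`uni` for each `B`). `E D^2` = average over `(B,B')` of
`E h(τQ ∪ τB) h(τQ ∪ τB')`. For `B ∩ B' ≠ ∅` bound by `1`; the fraction of such pairs is
`1 - C(λ-b,b)/C(λ,b) → 0` as `λ = #Λ ≥ c v → ∞`. For disjoint `B, B'`, by `uni` it is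
`dn univ k (Q1 ↦ dn (univ∖Q1) b (B1 ↦ dn (univ∖Q1∖B1) b (B2 ↦ h(Q1∪B1) h(Q1∪B2))))
 ≤ (C(v-k,b)/C(v-k-b,b)) dn univ k Z^2 ≤ (1 + o(1)) (θ'^2 + ε')` by `tz`.
So `E (D - θ')^2 ≤ ε' + o(1)`, and Chebyshev: `#{τ | D(τ) < θ/2} ≤ 4/θ^2 (ε' + o(1)) v!`.
-/

namespace H96.TN

open Finset

theorem tlem_choose (b : ℕ) (δ : ℝ) (hδ : 0 < δ) : ∃ m0 : ℕ, ∀ m ≥ m0,
    2 * b ≤ m ∧ ((m.choose b : ℕ) : ℝ) ≤ (1 + δ) * (((m - b).choose b : ℕ) : ℝ) := by
  obtain ⟨M, hM⟩ := exists_nat_ge (2 * (b : ℝ) ^ 2 * (1 + δ) / δ)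
  refine ⟨max (max M (2 * b)) 1, ?_⟩
  intro m hm
  have hmM : M ≤ m := le_trans (le_max_left _ _) (le_trans (le_max_left _ _) hm)
  have hm2b : 2 * b ≤ m := le_trans (le_max_right _ _) (le_trans (le_max_left _ _) hm)
  have hm1 : 1 ≤ m := le_trans (le_max_right _ _) hm
  refine ⟨hm2b, ?_⟩
  have hm0 : (0 : ℝ) < m := by exact_mod_cast hm1
  have hm2b' : 2 * (b : ℝ) ≤ m := by exact_mod_cast hm2b
  have h1 : (b.factorial : ℝ) * (m.choose b : ℕ) ≤ (m : ℝ) ^ b := by
    have := Nat.descFactorial_le_pow m b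
    rw [Nat.descFactorial_eq_factorial_mul_choose] at this
    exact_mod_cast this
  have h2 : ((m : ℝ) - 2 * b) ^ b ≤ (b.factorial : ℝ) * ((m - b).choose b : ℕ) := by
    have h3 := Nat.pow_sub_le_descFactorial (m - b) b
    rw [Nat.descFactorial_eq_factorial_mul_choose] at h3
    have h4 : (m - 2 * b) ^ b ≤ (m - b + 1 - b) ^ b := Nat.pow_le_pow_left (by omega) b
    have h5 := h4.trans h3
    have h6 : (((m - 2 * b) ^ b : ℕ) : ℝ) ≤ ((b.factorial * (m - b).choose b : ℕ) : ℝ) := by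
      exact_mod_cast h5
    push_cast [Nat.cast_sub hm2b] at h6
    exact h6
  have h3 : (m : ℝ) ^ b ≤ (1 + δ) * ((m : ℝ) - 2 * b) ^ b := by
    have h4 : 1 + (b : ℝ) * (-(2 * b / m)) ≤ (1 + (-(2 * b / m))) ^ b := by
      apply one_add_mul_le_pow
      have : 2 * (b : ℝ) / m ≤ 1 := by rw [div_le_one hm0]; exact hm2b'
      linarith
    have h5 : 1 / (1 + δ) ≤ 1 + (b : ℝ) * (-(2 * b / m)) := by
      have h6 : 2 * (b : ℝ) ^ 2 * (1 + δ) / δ ≤ m := hM.trans (by exact_mod_cast hmM)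
      have h7 : 2 * (b : ℝ) ^ 2 * (1 + δ) ≤ m * δ := by rwa [div_le_iff₀ hδ] at h6
      have h8 : 1 + (b : ℝ) * (-(2 * b / m)) = (m - 2 * b ^ 2) / m := by field_simp; ring
      rw [h8, div_le_div_iff₀ (by linarith) hm0]
      nlinarith
    have h6 : (1 : ℝ) ≤ (1 + δ) * (1 + (-(2 * b / m))) ^ b := by
      have h7 := h5.trans h4
      rw [div_le_iff₀ (by linarith)] at h7
      linarith
    have h7 : ((m : ℝ) - 2 * b) ^ b = (m : ℝ) ^ b * (1 + (-(2 * b / m))) ^ b := by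
      rw [← mul_pow]; congr 1; field_simp; ring
    rw [h7]
    have h8 : 0 < (m : ℝ) ^ b := by positivity
    calc (m : ℝ) ^ b = (m : ℝ) ^ b * 1 := by ring
      _ ≤ (m : ℝ) ^ b * ((1 + δ) * (1 + (-(2 * b / m))) ^ b) := mul_le_mul_of_nonneg_left h6 h8.le
      _ = _ := by ring
  have h4 : (0 : ℝ) < b.factorial := by exact_mod_cast Nat.factorial_pos b
  have h5 : (b.factorial : ℝ) * (m.choose b : ℕ) ≤ (b.factorial : ℝ) * ((1 + δ) * ((m - b).choose b : ℕ)) := by
    calc (b.factorial : ℝ) * (m.choose b : ℕ) ≤ (m : ℝ) ^ b := h1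
      _ ≤ (1 + δ) * ((m : ℝ) - 2 * b) ^ b := h3
      _ ≤ (1 + δ) * ((b.factorial : ℝ) * ((m - b).choose b : ℕ)) :=
          mul_le_mul_of_nonneg_left h2 (by linarith)
      _ = _ := by ring
  exact le_of_mul_le_mul_left h5 h4

/-- uniform version -/
theorem tlem_choose' (j0 : ℕ) (δ : ℝ) (hδ : 0 < δ) : ∃ m0 : ℕ, ∀ m ≥ m0, ∀ b ≤ j0,
    2 * b ≤ m ∧ ((m.choose b : ℕ) : ℝ) ≤ (1 + δ) * (((m - b).choose b : ℕ) : ℝ) := by
  choose M hM using fun b : ℕ => tlem_choose b δ hδ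
  refine ⟨(range (j0 + 1)).sup M, ?_⟩
  intro m hm b hb
  apply hM b m
  exact (Finset.le_sup (f := M) (mem_range.2 (by omega))).trans hm

theorem tlem_dn_sub {X : Type*} [DecidableEq X] (U W : Finset X) (hW : W ⊆ U) (b : ℕ) (δ : ℝ)
    (hb : b ≤ #W) (hc : ((#U).choose b : ℝ) ≤ (1 + δ) * ((#W).choose b : ℝ)) (f : Finset X → ℝ)
    (hf : ∀ S, 0 ≤ f S) : dn W b f ≤ (1 + δ) * dn U b f := by
  unfold dn
  have hcW : (0 : ℝ) < ((#W).choose b : ℝ) := by exact_mod_cast Nat.choose_pos hb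
  have hcU : (0 : ℝ) < ((#U).choose b : ℝ) := by
    exact_mod_cast Nat.choose_pos (hb.trans (Finset.card_le_card hW))
  have h1 : ∑ S ∈ W.powersetCard b, f S ≤ ∑ S ∈ U.powersetCard b, f S :=
    Finset.sum_le_sum_of_subset_of_nonneg (Finset.powersetCard_mono hW) (fun S _ _ => hf S)
  have h2 : 0 ≤ ∑ S ∈ U.powersetCard b, f S := Finset.sum_nonneg (fun S _ => hf S)
  rw [mul_div_assoc', div_le_div_iff₀ hcW hcU]
  calc (∑ S ∈ W.powersetCard b, f S) * ((#U).choose b : ℝ)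
      ≤ (∑ S ∈ U.powersetCard b, f S) * ((1 + δ) * ((#W).choose b : ℝ)) :=
        mul_le_mul h1 hc hcU.le h2
    _ = _ := by ring

theorem tlem_ind_le (P : Prop) : ind P ≤ 1 := by
  unfold ind; split_ifs <;> norm_num

theorem tlem_ind_eq (P : Prop) [Decidable P] : ind P = if P then (1 : ℝ) else 0 := by
  unfold ind; by_cases h : P <;> simp [h]

theorem tlem_ind_nonneg (P : Prop) : 0 ≤ ind P := by
  unfold ind; split_ifs <;> norm_num

/-- the mean -/
theorem tlem_mean {V : Type} [Fintype V] [DecidableEq V] (h : Finset V → ℝ) (Q B : Finset V)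
    (hQB : Disjoint Q B) :
    ∑ τ : Equiv.Perm V, h ((Q ∪ B).image τ) = (Fintype.card V).factorial * dn univ (#Q + #B) h := by
  have h1 := uni Q B ∅ hQB (Finset.disjoint_empty_right _) (Finset.disjoint_empty_right _)
    (fun Q1 B1 _ => h (Q1 ∪ B1))
  have h2 : ∀ Q1 : Finset V, dn (univ \ Q1) (#B) (fun B1 => dn ((univ \ Q1) \ B1) (#(∅ : Finset V))
        (fun _ => h (Q1 ∪ B1))) = dn (univ \ Q1) (#B) (fun B1 => h (Q1 ∪ B1)) := by
    intro Q1
    apply dn_congr
    intro S _ _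
    rw [Finset.card_empty]
    exact dn_const _ _ (Nat.zero_le _) _
  simp_rw [h2] at h1
  rw [dn_dn univ (#Q) (#B) (by rw [← Finset.card_union_of_disjoint hQB]; exact Finset.card_le_card (Finset.subset_univ _)) h] at h1
  have h3 : (0 : ℝ) < ((Fintype.card V).factorial : ℝ) := by exact_mod_cast Nat.factorial_pos _
  rw [div_eq_iff h3.ne'] at h1
  rw [mul_comm, ← h1]
  apply Finset.sum_congr rfl
  intro τ _
  rw [Finset.image_union]

/-- the second moment for disjoint pairs -/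
theorem tlem_pair {V : Type} [Fintype V] [DecidableEq V] (h : Finset V → ℝ) (h0 : ∀ S, 0 ≤ h S)
    (Q B B' : Finset V) (hQB : Disjoint Q B) (hQB' : Disjoint Q B') (hBB' : Disjoint B B')
    (b : ℕ) (hb : #B = b) (hb' : #B' = b) (δ : ℝ) (hδ : 0 < δ)
    (hv : #Q + 2 * b ≤ Fintype.card V)
    (hc : ((Fintype.card V - #Q).choose b : ℝ) ≤ (1 + δ) * ((Fintype.card V - #Q - b).choose b : ℝ)) :
    ∑ τ : Equiv.Perm V, h ((Q ∪ B).image τ) * h ((Q ∪ B').image τ) ≤
      (Fintype.card V).factorial * ((1 + δ) * dn univ (#Q)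
        (fun Q1 => (dn (univ \ Q1) b (fun B1 => h (Q1 ∪ B1))) ^ 2)) := by
  have h1 := uni Q B B' hQB hQB' hBB' (fun Q1 B1 B2 => h (Q1 ∪ B1) * h (Q1 ∪ B2))
  have h3 : (0 : ℝ) < ((Fintype.card V).factorial : ℝ) := by exact_mod_cast Nat.factorial_pos _
  rw [div_eq_iff h3.ne'] at h1
  have h4 : ∑ τ : Equiv.Perm V, h ((Q ∪ B).image τ) * h ((Q ∪ B').image τ) =
      ∑ τ : Equiv.Perm V, h (Q.image τ ∪ B.image τ) * h (Q.image τ ∪ B'.image τ) := by
    apply Finset.sum_congr rfl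
    intro τ _
    rw [Finset.image_union, Finset.image_union]
  rw [h4, h1, mul_comm]
  apply mul_le_mul_of_nonneg_left _ h3.le
  rw [hb, hb', ← dn_mul]
  apply dn_mono
  intro Q1 _ hQ1
  set Z := dn (univ \ Q1) b (fun B1 => h (Q1 ∪ B1)) with hZ
  have hZ0 : 0 ≤ Z := dn_nonneg _ _ _ (fun S => h0 _)
  have hcardU : #(univ \ Q1) = Fintype.card V - #Q := by
    rw [Finset.card_sdiff_of_subset (Finset.subset_univ _), Finset.card_univ, hQ1]
  have h5 : dn (univ \ Q1) b (fun B1 => dn ((univ \ Q1) \ B1) b (fun B2 => h (Q1 ∪ B1) * h (Q1 ∪ B2))) ≤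
      dn (univ \ Q1) b (fun B1 => ((1 + δ) * Z) * h (Q1 ∪ B1)) := by
    apply dn_mono
    intro B1 hB1 hB1c
    rw [dn_mul, mul_comm]
    apply mul_le_mul_of_nonneg_right _ (h0 _)
    have hcardW : #((univ \ Q1) \ B1) = Fintype.card V - #Q - b := by
      rw [Finset.card_sdiff_of_subset hB1, hcardU, hB1c]
    apply tlem_dn_sub (univ \ Q1) ((univ \ Q1) \ B1) Finset.sdiff_subset b δ
    · rw [hcardW]; omega
    · rw [hcardU, hcardW]; exact hc
    · intro S; exact h0 _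
  refine h5.trans ?_
  rw [dn_mul, ← hZ]
  apply le_of_eq
  ring

theorem tlem (θ ε c : ℝ) (hθ : 0 < θ) (hε : 0 < ε) (hc : 0 < c) (k0 : ℕ) :
    ∃ j1 : ℕ, k0 ≤ j1 ∧ ∀ j0 ≥ j1, ∃ v0 : ℕ,
      ∀ (V : Type) [Fintype V] [DecidableEq V], v0 ≤ Fintype.card V →
        ∀ J : Finset (Finset V), (∀ S ∈ J, #S = j0) →
          θ * (Fintype.card V).choose j0 ≤ #J →
          ∀ Q Λ : Finset V, Disjoint Q Λ → #Q ≤ k0 → c * Fintype.card V ≤ #Λ →
            (#{τ : Equiv.Perm V |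
              (#{B ∈ Λ.powersetCard (j0 - #Q) | (Q ∪ B).image τ ∈ J} : ℝ) <
                θ / 2 * (#Λ).choose (j0 - #Q)} : ℝ) ≤ ε * (Fintype.card V).factorial := by
  set η : ℝ := ε * (θ / 2) ^ 2 with hη
  have hη0 : 0 < η := by positivity
  obtain ⟨j1', hj1'⟩ := tz (η / 4) (by positivity) k0
  refine ⟨max j1' k0, le_max_right _ _, ?_⟩
  intro j0 hj0
  have hj0' : j1' ≤ j0 := (le_max_left _ _).trans hj0
  have hj0k : k0 ≤ j0 := (le_max_right _ _).trans hj0
  obtain ⟨v0', hv0'⟩ := hj1' j0 hj0'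
  set δ : ℝ := min 1 (η / 4) with hδ
  have hδ0 : 0 < δ := lt_min one_pos (by positivity)
  have hδ1 : δ ≤ 1 := min_le_left _ _
  have hδη : δ ≤ η / 4 := min_le_right _ _
  obtain ⟨m0, hm0⟩ := tlem_choose' j0 δ hδ0
  obtain ⟨M, hM⟩ := exists_nat_ge ((m0 : ℝ) / c)
  refine ⟨max (max v0' (m0 + k0)) M, ?_⟩
  intro V _ _ hV J hJ hJθ Q Λ hQΛ hQ hΛ
  have hV1 : v0' ≤ Fintype.card V := (le_max_left _ _).trans ((le_max_left _ _).trans hV)
  have hV2 : m0 + k0 ≤ Fintype.card V := (le_max_right _ _).trans ((le_max_left _ _).trans hV)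
  have hV3 : M ≤ Fintype.card V := (le_max_right _ _).trans hV
  set v := Fintype.card V with hv
  set k := #Q with hk
  set b := j0 - k with hb
  have hkb : k + b = j0 := by omega
  have hbj : b ≤ j0 := by omega
  have hΛm : m0 ≤ #Λ := by
    have h1 : (m0 : ℝ) / c ≤ v := hM.trans (by exact_mod_cast hV3)
    rw [div_le_iff₀ hc] at h1
    have h2 : (m0 : ℝ) ≤ #Λ := by linarith
    exact_mod_cast h2
  obtain ⟨hΛb, hΛc⟩ := hm0 (#Λ) hΛm b hbj
  obtain ⟨hvb, hvc⟩ := hm0 (v - k) (by omega) b hbj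
  have hkv : k ≤ v := by rw [hk, hv]; exact Finset.card_le_univ _
  have hf0 : (0 : ℝ) < (v.factorial : ℝ) := by exact_mod_cast Nat.factorial_pos _
  -- h
  set h : Finset V → ℝ := fun S => ind (S ∈ J) with hh
  have h0 : ∀ S, 0 ≤ h S := fun S => tlem_ind_nonneg _
  have h1 : ∀ S, h S ≤ 1 := fun S => tlem_ind_le _
  set θ' : ℝ := dn univ j0 h with hθ'
  have hj0v : j0 ≤ v := by omega
  have hcv : (0 : ℝ) < (v.choose j0 : ℝ) := by exact_mod_cast Nat.choose_pos hj0v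
  have hθθ' : θ ≤ θ' := by
    have h2 : ∑ S ∈ (univ : Finset V).powersetCard j0, h S = #J := by
      have h3 : ∀ S : Finset V, h S = if S ∈ J then (1 : ℝ) else 0 := by
        intro S; exact tlem_ind_eq _
      simp_rw [h3]
      rw [← Finset.sum_filter, Finset.sum_const, nsmul_eq_mul, mul_one]
      congr 2
      ext S
      rw [mem_filter, mem_powersetCard]
      constructor
      · intro h; exact h.2
      · intro h; exact ⟨⟨Finset.subset_univ _, hJ S h⟩, h⟩
    rw [hθ']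
    unfold dn
    rw [h2, Finset.card_univ, ← hv, le_div_iff₀ hcv]
    exact hJθ
  have hθ'1 : θ' ≤ 1 := dn_le_one _ _ _ h1
  have hθ'0 : 0 ≤ θ' := hθ.le.trans hθθ'
  -- Z
  have htz := hv0' V (by rw [← hv]; exact hV1) h h0 h1 k hQ
  rw [← hθ', ← hb] at htz
  set Z : Finset V → ℝ := fun Q1 => dn (univ \ Q1) b (fun B => h (Q1 ∪ B)) with hZ
  have hZmean : dn univ k Z = θ' := by
    rw [hZ, dn_dn univ k b (by rw [Finset.card_univ, ← hv]; omega) h, hkb]
  have hZ2 : dn univ k (fun Q1 => (Z Q1) ^ 2) ≤ θ' ^ 2 + η / 4 := by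
    have h2 : dn univ k (fun Q1 => (Z Q1) ^ 2) =
        dn univ k (fun Q1 => (Z Q1 - θ') ^ 2) + (2 * θ') * dn univ k Z + (- θ' ^ 2) := by
      have h3 : dn univ k (fun _ : Finset V => (- θ' ^ 2 : ℝ)) = - θ' ^ 2 :=
        dn_const _ _ (by rw [Finset.card_univ, ← hv]; exact hkv) _
      rw [← dn_mul, ← dn_add, ← h3, ← dn_add]
      congr 1
      funext Q1
      ring
    rw [h2, hZmean]
    have := htz
    nlinarith
  set P : ℝ := (1 + δ) * (θ' ^ 2 + η / 4) with hP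
  have hP0 : 0 ≤ P := by positivity
  -- D
  set CΛ : ℝ := ((#Λ).choose b : ℝ) with hCΛ
  have hCΛ0 : 0 < CΛ := by rw [hCΛ]; exact_mod_cast Nat.choose_pos (by omega)
  set D : Equiv.Perm V → ℝ := fun τ => dn Λ b (fun B => h ((Q ∪ B).image τ)) with hD
  have hdisj : ∀ B ∈ Λ.powersetCard b, Disjoint Q B := by
    intro B hB
    exact Finset.disjoint_of_subset_right (mem_powersetCard.1 hB).1 hQΛ
  have hcardB : ∀ B ∈ Λ.powersetCard b, #B = b := fun B hB => (mem_powersetCard.1 hB).2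
  have hDsum : ∑ τ, D τ = v.factorial * θ' := by
    rw [hD]
    unfold dn
    rw [← Finset.sum_div, Finset.sum_comm]
    have h2 : ∀ B ∈ Λ.powersetCard b, ∑ τ : Equiv.Perm V, h ((Q ∪ B).image τ) = v.factorial * θ' := by
      intro B hB
      rw [tlem_mean h Q B (hdisj B hB), hcardB B hB, ← hk, hkb]
    rw [Finset.sum_congr rfl h2, Finset.sum_const, Finset.card_powersetCard, nsmul_eq_mul, ← hCΛ]
    field_simp
  have hD2 : ∑ τ, (D τ) ^ 2 ≤ v.factorial * (P + δ) := by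
    have h2 : ∀ τ, (D τ) ^ 2 = (∑ B ∈ Λ.powersetCard b, ∑ B' ∈ Λ.powersetCard b,
        h ((Q ∪ B).image τ) * h ((Q ∪ B').image τ)) / CΛ ^ 2 := by
      intro τ
      rw [hD]
      simp only [dn]
      rw [div_pow, sq (∑ B ∈ Λ.powersetCard b, h ((Q ∪ B).image τ)), Finset.sum_mul_sum]
    simp_rw [h2]
    rw [← Finset.sum_div, div_le_iff₀ (by positivity), Finset.sum_comm]
    have h3 : ∀ B ∈ Λ.powersetCard b, ∑ τ : Equiv.Perm V, ∑ B' ∈ Λ.powersetCard b,
        h ((Q ∪ B).image τ) * h ((Q ∪ B').image τ) ≤ v.factorial * ((P + δ) * CΛ) := by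
      intro B hB
      rw [Finset.sum_comm]
      rw [← Finset.sum_filter_add_sum_filter_not (Λ.powersetCard b) (fun B' => Disjoint B B')]
      have h4 : ∑ B' ∈ (Λ.powersetCard b).filter (fun B' => Disjoint B B'),
          ∑ τ : Equiv.Perm V, h ((Q ∪ B).image τ) * h ((Q ∪ B').image τ) ≤ v.factorial * (P * CΛ) := by
        have h5 : ∀ B' ∈ (Λ.powersetCard b).filter (fun B' => Disjoint B B'),
            ∑ τ : Equiv.Perm V, h ((Q ∪ B).image τ) * h ((Q ∪ B').image τ) ≤ v.factorial * P := by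
          intro B' hB'
          rw [mem_filter] at hB'
          refine (tlem_pair h h0 Q B B' (hdisj B hB) (hdisj B' hB'.1) hB'.2 b (hcardB B hB)
            (hcardB B' hB'.1) δ hδ0 (by rw [← hv, ← hk]; omega) (by rw [← hv, ← hk]; exact hvc)).trans ?_
          rw [← hv]
          apply mul_le_mul_of_nonneg_left _ hf0.le
          rw [hP]
          apply mul_le_mul_of_nonneg_left _ (by linarith)
          exact hZ2
        refine (Finset.sum_le_card_nsmul _ _ _ h5).trans ?_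
        rw [nsmul_eq_mul]
        have h6 : (#((Λ.powersetCard b).filter (fun B' => Disjoint B B')) : ℝ) ≤ CΛ := by
          have h7 := Finset.card_filter_le (Λ.powersetCard b) (fun B' => Disjoint B B')
          rw [Finset.card_powersetCard] at h7
          rw [hCΛ]; exact_mod_cast h7
        calc (#((Λ.powersetCard b).filter (fun B' => Disjoint B B')) : ℝ) * (v.factorial * P)
            ≤ CΛ * (v.factorial * P) := mul_le_mul_of_nonneg_right h6 (by positivity)
          _ = _ := by ring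
      have h5 : ∑ B' ∈ (Λ.powersetCard b).filter (fun B' => ¬ Disjoint B B'),
          ∑ τ : Equiv.Perm V, h ((Q ∪ B).image τ) * h ((Q ∪ B').image τ) ≤ v.factorial * (δ * CΛ) := by
        have h6 : ∀ B' ∈ (Λ.powersetCard b).filter (fun B' => ¬ Disjoint B B'),
            ∑ τ : Equiv.Perm V, h ((Q ∪ B).image τ) * h ((Q ∪ B').image τ) ≤ v.factorial := by
          intro B' _
          have h7 : ∑ τ : Equiv.Perm V, h ((Q ∪ B).image τ) * h ((Q ∪ B').image τ) ≤
              ∑ _τ : Equiv.Perm V, (1 : ℝ) := by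
            apply Finset.sum_le_sum
            intro τ _
            exact mul_le_one₀ (h1 _) (h0 _) (h1 _)
          refine h7.trans ?_
          rw [Finset.sum_const, nsmul_eq_mul, mul_one, Finset.card_univ, Fintype.card_perm]
        refine (Finset.sum_le_card_nsmul _ _ _ h6).trans ?_
        rw [nsmul_eq_mul]
        have h7 : (#((Λ.powersetCard b).filter (fun B' => ¬ Disjoint B B')) : ℝ) ≤ δ * CΛ := by
          have h8 : #((Λ.powersetCard b).filter (fun B' => Disjoint B B')) = (#Λ - b).choose b := by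
            have h9 : (Λ.powersetCard b).filter (fun B' => Disjoint B B') = (Λ \ B).powersetCard b := by
              ext S
              rw [mem_filter, mem_powersetCard, mem_powersetCard]
              constructor
              · rintro ⟨⟨ha, hb'⟩, hd⟩
                refine ⟨?_, hb'⟩
                intro x hx
                rw [mem_sdiff]
                exact ⟨ha hx, fun hxB => (Finset.disjoint_left.1 hd hxB) hx⟩
              · rintro ⟨ha, hb'⟩
                refine ⟨⟨ha.trans Finset.sdiff_subset, hb'⟩, ?_⟩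
                rw [Finset.disjoint_left]
                intro x hxB hx
                exact (mem_sdiff.1 (ha hx)).2 hxB
            rw [h9, Finset.card_powersetCard, Finset.card_sdiff_of_subset (mem_powersetCard.1 hB).1, hcardB B hB]
          have h9 := Finset.card_filter_add_card_filter_not (s := Λ.powersetCard b) (fun B' => Disjoint B B')
          rw [h8, Finset.card_powersetCard] at h9
          have h10 : (((#Λ - b).choose b : ℕ) : ℝ) + (#((Λ.powersetCard b).filter (fun B' => ¬ Disjoint B B')) : ℝ) = CΛ := by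
            rw [hCΛ]; exact_mod_cast h9
          have h11 : CΛ ≤ (1 + δ) * (((#Λ - b).choose b : ℕ) : ℝ) := hΛc
          have h12 : (0 : ℝ) ≤ (((#Λ - b).choose b : ℕ) : ℝ) := Nat.cast_nonneg _
          have h13 : (((#Λ - b).choose b : ℕ) : ℝ) ≤ CΛ := by
            rw [← h10]
            have : (0 : ℝ) ≤ (#((Λ.powersetCard b).filter (fun B' => ¬ Disjoint B B')) : ℝ) := Nat.cast_nonneg _
            linarith
          nlinarith
        calc (#((Λ.powersetCard b).filter (fun B' => ¬ Disjoint B B')) : ℝ) * v.factorial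
            ≤ (δ * CΛ) * v.factorial := mul_le_mul_of_nonneg_right h7 hf0.le
          _ = _ := by ring
      calc _ ≤ v.factorial * (P * CΛ) + v.factorial * (δ * CΛ) := add_le_add h4 h5
        _ = _ := by ring
    refine (Finset.sum_le_card_nsmul _ _ _ h3).trans ?_
    rw [nsmul_eq_mul, Finset.card_powersetCard, ← hCΛ]
    apply le_of_eq; ring
  -- variance
  have hvar : ∑ τ, (D τ - θ') ^ 2 ≤ v.factorial * η := by
    have h2 : ∑ τ, (D τ - θ') ^ 2 = ∑ τ, (D τ) ^ 2 - 2 * θ' * ∑ τ, D τ + v.factorial * θ' ^ 2 := by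
      have h3 : ∀ τ, (D τ - θ') ^ 2 = (D τ) ^ 2 - 2 * θ' * D τ + θ' ^ 2 := by intro τ; ring
      simp_rw [h3]
      rw [Finset.sum_add_distrib, Finset.sum_sub_distrib, ← Finset.mul_sum, Finset.sum_const,
        Finset.card_univ, Fintype.card_perm, nsmul_eq_mul]
    rw [h2, hDsum]
    have h3 : P + δ - θ' ^ 2 ≤ η := by
      rw [hP]
      have h4 : θ' ^ 2 ≤ 1 := by nlinarith
      have h5 : δ * θ' ^ 2 ≤ δ := by nlinarith
      have h6 : δ * (η / 4) ≤ η / 4 := mul_le_of_le_one_left (by positivity) hδ1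
      have h7 : (1 + δ) * (θ' ^ 2 + η / 4) + δ - θ' ^ 2 = δ * θ' ^ 2 + η / 4 + δ * (η / 4) + δ := by ring
      rw [h7]
      linarith
    have h4 := mul_le_mul_of_nonneg_left h3 hf0.le
    have h5 : (v.factorial : ℝ) * (P + δ - θ' ^ 2) = v.factorial * (P + δ) - 2 * θ' * (v.factorial * θ') +
        v.factorial * θ' ^ 2 := by ring
    linarith
  -- Chebyshev
  set Bad : Finset (Equiv.Perm V) := {τ : Equiv.Perm V |
              (#{B ∈ Λ.powersetCard b | (Q ∪ B).image τ ∈ J} : ℝ) < θ / 2 * (#Λ).choose b} with hBad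
  have hbad : ∀ τ ∈ Bad, (θ / 2) ^ 2 ≤ (D τ - θ') ^ 2 := by
    intro τ hτ
    rw [hBad, mem_filter] at hτ
    have h2 : D τ = (#{B ∈ Λ.powersetCard b | (Q ∪ B).image τ ∈ J} : ℝ) / CΛ := by
      rw [hD]
      simp only [dn]
      have h3 : ∀ S : Finset V, h S = if S ∈ J then (1 : ℝ) else 0 := by
        intro S; exact tlem_ind_eq _
      simp_rw [h3]
      rw [← Finset.sum_filter, Finset.sum_const, nsmul_eq_mul, mul_one]
    have h3 : D τ < θ / 2 := by
      rw [h2, div_lt_iff₀ hCΛ0]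
      exact hτ.2
    have h4 : θ / 2 ≤ θ' - D τ := by linarith
    have h5 : (D τ - θ') ^ 2 = (θ' - D τ) ^ 2 := by ring
    rw [h5]
    exact pow_le_pow_left₀ (by linarith) h4 2
  have hfin : (#Bad : ℝ) * (θ / 2) ^ 2 ≤ v.factorial * η := by
    calc (#Bad : ℝ) * (θ / 2) ^ 2 = ∑ τ ∈ Bad, (θ / 2) ^ 2 := by rw [Finset.sum_const, nsmul_eq_mul]
      _ ≤ ∑ τ ∈ Bad, (D τ - θ') ^ 2 := Finset.sum_le_sum hbad
      _ ≤ ∑ τ, (D τ - θ') ^ 2 := Finset.sum_le_sum_of_subset_of_nonneg (Finset.subset_univ _)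
          (fun _ _ _ => sq_nonneg _)
      _ ≤ _ := hvar
  have h9 : (#Bad : ℝ) * (θ / 2) ^ 2 ≤ (ε * v.factorial) * (θ / 2) ^ 2 := by
    rw [hη] at hfin; linarith
  exact le_of_mul_le_mul_right h9 (by positivity)

end H96.TN
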