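import Pool.Agent.H96.TN.Perm

/-!
Module TZ (~200 lines). Uses `uni` (module PERM), `dn_dn` etc. (module DNB).

`v = card V`, `h : Finset V → [0,1]`, `θ' = dn univ j0 h`, for `#Q = k`:
`Z Q = dn (univ \ Q) (j0 - k) (fun B => h (Q ∪ B))`. Then `dn univ k Z = θ'` (`dn_dn`).
Claim: `dn univ k (Z - θ')^2` is small if `j0/k` is large and then `v` is large.
`k = 0`: `Z ∅ = θ'`. Let `k ≥ 1`, `w = ⌊j0/k⌋`; fix `J ⊆ V` of size `j0` and disjoint
`Q_1..Q_w ⊆ J` of size `k`. `E` = average over permutations `τ` of `V`. By `uni`: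
 * `E h(τJ) Z(τQ_i) = dn univ k Z^2` (`B = J \ Q_i`), `E h(τJ) = θ'`, so
   `E [h(τJ) ∑_i (Z(τQ_i) - θ')] = w (dn univ k Z^2 - θ'^2) = w Var`, `Var = dn univ k (Z-θ')^2`;
 * `E (Z(τQ_i) - θ')^2 = Var`;
 * `i ≠ l`: `E (Z(τQ_i)-θ')(Z(τQ_l)-θ') = E Z(τQ_i)Z(τQ_l) - θ'^2 ≤ θ'^2 (C(v,k)/C(v-k,k) - 1)
   =: ρ` since the sum over disjoint pairs `(Q,Q')` of `Z Q Z Q'` is at most the sum over all pairs.
Cauchy-Schwarz: `(w Var)^2 ≤ θ' (w Var + w^2 ρ)`, with `θ' ≤ 1`, `Var ≤ 1`: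
`Var^2 ≤ 1/w + ρ`. `ρ ≤ C(v,k)/C(v-k,k) - 1 → 0` as `v → ∞` for fixed `k ≤ k0`.
-/

namespace H96.TN

open Finset

theorem tz_dn_zero {X : Type*} [DecidableEq X] (U : Finset X) (f : Finset X → ℝ) :
    dn U 0 f = f ∅ := by
  simp [dn]

section

variable {V : Type} [Fintype V] [DecidableEq V]

theorem tz_uni1 (Q : Finset V) (F : Finset V → ℝ) :
    ∑ τ : Equiv.Perm V, F (Q.image τ) = ((Fintype.card V).factorial : ℝ) * dn univ (#Q) F := by
  have h := uni Q ∅ ∅ (disjoint_empty_right _) (disjoint_empty_right _) (disjoint_empty_right _)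
    (fun Q1 _ _ => F Q1)
  simp only [card_empty, tz_dn_zero] at h
  rw [← h, mul_div_cancel₀]
  exact_mod_cast (Nat.factorial_pos _).ne'

theorem tz_uni2 (Q B : Finset V) (hQB : Disjoint Q B) (F : Finset V → Finset V → ℝ) :
    ∑ τ : Equiv.Perm V, F (Q.image τ) (B.image τ) = ((Fintype.card V).factorial : ℝ) *
      dn univ (#Q) (fun Q1 => dn (univ \ Q1) (#B) (fun B1 => F Q1 B1)) := by
  have h := uni Q B ∅ hQB (disjoint_empty_right _) (disjoint_empty_right _)
    (fun Q1 B1 _ => F Q1 B1)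
  simp only [card_empty, tz_dn_zero] at h
  rw [← h, mul_div_cancel₀]
  exact_mod_cast (Nat.factorial_pos _).ne'

/-- disjoint blocks in a `j0`-set -/
theorem tz_blocks (k w j0 : ℕ) (hw : w * k ≤ j0) (hj : j0 ≤ Fintype.card V) :
    ∃ (J : Finset V) (Q : ℕ → Finset V), #J = j0 ∧ (∀ i < w, Q i ⊆ J) ∧ (∀ i < w, #(Q i) = k) ∧
      ∀ i < w, ∀ l < w, i ≠ l → Disjoint (Q i) (Q l) := by
  rcases Nat.eq_zero_or_pos (Fintype.card V) with h0 | h0
  · have hj0 : j0 = 0 := by omega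
    subst hj0
    refine ⟨∅, fun _ => ∅, by simp, by simp, ?_, by simp⟩
    intro i hi
    have : k = 0 := by
      rcases Nat.mul_eq_zero.1 (Nat.le_zero.1 hw) with h | h
      · omega
      · exact h
    simp [this]
  · let φ : ℕ → V := fun n => (Fintype.equivFin V).symm ⟨n % Fintype.card V, Nat.mod_lt _ h0⟩
    have hφ : ∀ a < Fintype.card V, ∀ b < Fintype.card V, φ a = φ b → a = b := by
      intro a ha b hb hab
      have h1 := (Fintype.equivFin V).symm.injective hab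
      have h2 := congrArg Fin.val h1
      simpa [Nat.mod_eq_of_lt ha, Nat.mod_eq_of_lt hb] using h2
    have hb : ∀ i < w, ∀ a ∈ Ico (i * k) (i * k + k), a < j0 := by
      intro i hi a ha
      rw [mem_Ico] at ha
      have h1 : (i + 1) * k ≤ w * k := Nat.mul_le_mul_right k hi
      have h2 : (i + 1) * k = i * k + k := by ring
      omega
    refine ⟨(range j0).image φ, fun i => (Ico (i * k) (i * k + k)).image φ, ?_, ?_, ?_, ?_⟩
    · rw [card_image_of_injOn, card_range]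
      intro a ha b hb' hab
      have ha' : a < j0 := by simpa using ha
      have hb'' : b < j0 := by simpa using hb'
      exact hφ a (by omega) b (by omega) hab
    · intro i hi
      refine image_subset_image ?_
      intro a ha
      exact mem_range.2 (hb i hi a ha)
    · intro i hi
      rw [card_image_of_injOn]
      · simp
      · intro a ha b hb' hab
        have h1 := hb i hi a (by simpa using ha)
        have h2 := hb i hi b (by simpa using hb')
        exact hφ a (by omega) b (by omega) hab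
    · intro i hi l hl hil
      rw [disjoint_left]
      intro x hx hx'
      rw [mem_image] at hx hx'
      obtain ⟨a, ha, rfl⟩ := hx
      obtain ⟨b, hb', hab⟩ := hx'
      have h1 := hb i hi a ha
      have h2 := hb l hl b hb'
      have h3 := hφ b (by omega) a (by omega) hab
      subst h3
      rw [mem_Ico] at ha hb'
      rcases lt_or_gt_of_ne hil with h4 | h4
      · have h5 : (i + 1) * k ≤ l * k := Nat.mul_le_mul_right k h4
        have h6 : (i + 1) * k = i * k + k := by ring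
        omega
      · have h5 : (l + 1) * k ≤ i * k := Nat.mul_le_mul_right k h4
        have h6 : (l + 1) * k = l * k + k := by ring
        omega

/-- average of `Z Q Z Q'` over disjoint pairs. -/
theorem tz_pair (k : ℕ) (hk : 2 * k ≤ Fintype.card V) (Z : Finset V → ℝ) (hZ : ∀ S, 0 ≤ Z S) :
    dn univ k (fun Q1 => dn (univ \ Q1) k (fun B1 => Z Q1 * Z B1)) ≤
      (dn univ k Z) ^ 2 * (((Fintype.card V).choose k : ℝ) / ((Fintype.card V - k).choose k)) := by
  have hN : (0 : ℝ) < ((Fintype.card V).choose k : ℝ) := by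
    exact_mod_cast Nat.choose_pos (by omega)
  have hD : (0 : ℝ) < ((Fintype.card V - k).choose k : ℝ) := by
    exact_mod_cast Nat.choose_pos (by omega)
  have h1 : dn univ k (fun Q1 => dn (univ \ Q1) k (fun B1 => Z Q1 * Z B1)) ≤
      dn univ k (fun Q1 => ((∑ S ∈ (univ : Finset V).powersetCard k, Z S) /
        ((Fintype.card V - k).choose k)) * Z Q1) := by
    refine dn_mono _ _ _ _ ?_
    intro Q1 hQ1 hcard
    unfold dn
    rw [card_sdiff_of_subset (subset_univ _), hcard, card_univ, div_mul_eq_mul_div]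
    refine div_le_div_of_nonneg_right ?_ hD.le
    rw [← mul_sum, mul_comm]
    refine mul_le_mul_of_nonneg_right ?_ (hZ _)
    refine sum_le_sum_of_subset_of_nonneg ?_ (fun S _ _ => hZ S)
    exact powersetCard_mono (subset_univ _)
  refine h1.trans (le_of_eq ?_)
  rw [dn_mul]
  unfold dn
  rw [card_univ]
  field_simp


theorem tz_core (h : Finset V → ℝ) (h0 : ∀ S, 0 ≤ h S) (h1 : ∀ S, h S ≤ 1) (k w j0 : ℕ)
    (hw0 : 1 ≤ w) (hw : w * k ≤ j0) (hj : j0 ≤ Fintype.card V) (hk2 : 2 * k ≤ Fintype.card V) :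
    (dn univ k (fun Q => (dn (univ \ Q) (j0 - k) (fun B => h (Q ∪ B)) - dn univ j0 h) ^ 2)) ^ 2 ≤
      1 / w + (((Fintype.card V).choose k : ℝ) / ((Fintype.card V - k).choose k) - 1) := by
  have hkj : k ≤ j0 := by
    calc k = 1 * k := (one_mul k).symm
      _ ≤ w * k := Nat.mul_le_mul_right k hw0
      _ ≤ j0 := hw
  obtain ⟨J, Q, hJ, hQJ, hQk, hdis⟩ := tz_blocks (V := V) k w j0 hw hj
  set Z : Finset V → ℝ := fun Q => dn (univ \ Q) (j0 - k) (fun B => h (Q ∪ B)) with hZdef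
  set θ : ℝ := dn univ j0 h with hθ
  set M : ℝ := ((Fintype.card V).factorial : ℝ) with hM
  set Var : ℝ := dn univ k (fun Q => (Z Q - θ) ^ 2) with hVar
  set ρ : ℝ := ((Fintype.card V).choose k : ℝ) / ((Fintype.card V - k).choose k) - 1 with hρ
  have hMpos : 0 < M := by
    rw [hM]
    exact_mod_cast Nat.factorial_pos _
  have hN : (0 : ℝ) < ((Fintype.card V).choose k : ℝ) := by
    exact_mod_cast Nat.choose_pos (by omega)
  have hD : (0 : ℝ) < ((Fintype.card V - k).choose k : ℝ) := by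
    exact_mod_cast Nat.choose_pos (by omega)
  have hρ0 : 0 ≤ ρ := by
    rw [hρ, sub_nonneg, le_div_iff₀ hD, one_mul]
    exact_mod_cast Nat.choose_le_choose k (by omega)
  have hZ0 : ∀ S, 0 ≤ Z S := fun S => dn_nonneg _ _ _ fun B => h0 _
  have hZ1 : ∀ S, Z S ≤ 1 := fun S => dn_le_one _ _ _ fun B => h1 _
  have hθ0 : 0 ≤ θ := dn_nonneg _ _ _ h0
  have hθ1 : θ ≤ 1 := dn_le_one _ _ _ h1
  have hEZ : dn univ k Z = θ := by
    have h2 := dn_dn (univ : Finset V) k (j0 - k) (by rw [card_univ]; omega) h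
    rw [hZdef, h2, hθ]
    congr 1
    omega
  have hV0 : 0 ≤ Var := dn_nonneg _ _ _ fun S => sq_nonneg _
  have hV1 : Var ≤ 1 := by
    refine dn_le_one _ _ _ fun S => ?_
    rw [sq_le_one_iff_abs_le_one, abs_le]
    constructor
    · linarith [hZ0 S]
    · linarith [hZ1 S]
  -- the second moment
  have hkc : k ≤ #(univ : Finset V) := by rw [card_univ]; omega
  have hEZ2 : dn univ k (fun S => Z S * (Z S - θ)) = Var := by
    have e1 : ∀ S, Z S * (Z S - θ) = (Z S - θ) ^ 2 + θ * (Z S + (-θ)) := fun S => by ring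
    rw [hVar]
    simp only [e1]
    rw [dn_add, dn_mul, dn_add, dn_const _ _ hkc, hEZ]
    ring
  -- correlation with `h`
  have hcor : ∀ i < w, ∑ τ : Equiv.Perm V, h (J.image τ) * (Z ((Q i).image τ) - θ) = M * Var := by
    intro i hi
    have h2 := tz_uni2 (Q i) (J \ Q i) disjoint_sdiff (fun Q1 B1 => h (Q1 ∪ B1) * (Z Q1 - θ))
    have h3 : ∀ τ : Equiv.Perm V, (Q i).image τ ∪ (J \ Q i).image τ = J.image τ := by
      intro τ
      rw [← image_union, union_sdiff_of_subset (hQJ i hi)]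
    simp only [h3] at h2
    rw [h2, hQk i hi, card_sdiff_of_subset (hQJ i hi), hQk i hi, hJ, ← hEZ2]
    congr 1
    refine dn_congr _ _ _ _ ?_
    intro S _ _
    have h4 : (fun B1 => h (S ∪ B1) * (Z S - θ)) = fun B1 => (Z S - θ) * h (S ∪ B1) := by
      funext B1
      ring
    rw [h4, dn_mul, mul_comm]
  have hmean : ∀ i < w, ∑ τ : Equiv.Perm V, Z ((Q i).image τ) = M * θ := by
    intro i hi
    rw [tz_uni1 (Q i) Z, hQk i hi, hEZ]
  have hdiag : ∀ i < w, ∑ τ : Equiv.Perm V, (Z ((Q i).image τ) - θ) *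
      (Z ((Q i).image τ) - θ) = M * Var := by
    intro i hi
    have h2 := tz_uni1 (Q i) (fun S => (Z S - θ) ^ 2)
    rw [hQk i hi] at h2
    rw [hVar, ← h2]
    refine sum_congr rfl fun τ _ => ?_
    ring
  have hcardM : ∑ _τ : Equiv.Perm V, (1 : ℝ) = M := by
    rw [sum_const, card_univ, Fintype.card_perm, nsmul_eq_mul, mul_one]
  have hoff : ∀ i < w, ∀ l < w, i ≠ l → ∑ τ : Equiv.Perm V, (Z ((Q i).image τ) - θ) *
      (Z ((Q l).image τ) - θ) ≤ M * ρ := by
    intro i hi l hl hil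
    have h2 := tz_uni2 (Q i) (Q l) (hdis i hi l hl hil) (fun Q1 B1 => Z Q1 * Z B1)
    rw [hQk i hi, hQk l hl] at h2
    have h3 := tz_pair k hk2 Z hZ0
    have h4 : ∑ τ : Equiv.Perm V, (Z ((Q i).image τ) - θ) * (Z ((Q l).image τ) - θ) =
        ∑ τ : Equiv.Perm V, Z ((Q i).image τ) * Z ((Q l).image τ) -
          θ * ∑ τ : Equiv.Perm V, Z ((Q i).image τ) - θ * ∑ τ : Equiv.Perm V, Z ((Q l).image τ) +
          θ ^ 2 * ∑ _τ : Equiv.Perm V, (1 : ℝ) := by
      rw [mul_sum, mul_sum, mul_sum, ← sum_sub_distrib, ← sum_sub_distrib, ← sum_add_distrib]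
      refine sum_congr rfl fun τ _ => ?_
      ring
    rw [h4, h2, hmean i hi, hmean l hl, hcardM]
    have h5 : ((Fintype.card V).choose k : ℝ) / ((Fintype.card V - k).choose k) = ρ + 1 := by
      rw [hρ]; ring
    rw [h5, hEZ] at h3
    have h6 : M * dn univ k (fun Q1 => dn (univ \ Q1) k fun B1 => Z Q1 * Z B1) ≤
        M * (θ ^ 2 * (ρ + 1)) := mul_le_mul_of_nonneg_left h3 hMpos.le
    have h7 : θ ^ 2 * ρ ≤ ρ := by
      have : θ ^ 2 ≤ 1 := by nlinarith
      nlinarith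
    nlinarith
  -- Cauchy-Schwarz
  have hCS := sum_mul_sq_le_sq_mul_sq (univ : Finset (Equiv.Perm V)) (fun τ => h (J.image τ))
    (fun τ => ∑ i ∈ range w, (Z ((Q i).image τ) - θ))
  have hL : ∑ τ : Equiv.Perm V, h (J.image τ) * ∑ i ∈ range w, (Z ((Q i).image τ) - θ) =
      w * (M * Var) := by
    simp only [mul_sum]
    rw [sum_comm]
    have : ∀ i ∈ range w, ∑ τ : Equiv.Perm V, h (J.image τ) * (Z ((Q i).image τ) - θ) = M * Var :=
      fun i hi => hcor i (mem_range.1 hi)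
    rw [sum_congr rfl this, sum_const, card_range, nsmul_eq_mul]
  have hh2 : ∑ τ : Equiv.Perm V, (h (J.image τ)) ^ 2 ≤ M := by
    rw [← hcardM]
    refine sum_le_sum fun τ _ => ?_
    have := h0 (J.image τ)
    have := h1 (J.image τ)
    nlinarith
  have hX2 : ∑ τ : Equiv.Perm V, (∑ i ∈ range w, (Z ((Q i).image τ) - θ)) ^ 2 ≤
      M * (w * Var + w ^ 2 * ρ) := by
    have e1 : ∀ τ : Equiv.Perm V, (∑ i ∈ range w, (Z ((Q i).image τ) - θ)) ^ 2 =
        ∑ i ∈ range w, ∑ l ∈ range w, (Z ((Q i).image τ) - θ) * (Z ((Q l).image τ) - θ) := by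
      intro τ
      rw [sq, sum_mul_sum]
    simp only [e1]
    rw [sum_comm]
    have e2 : ∀ i ∈ range w, ∑ τ : Equiv.Perm V, ∑ l ∈ range w,
        (Z ((Q i).image τ) - θ) * (Z ((Q l).image τ) - θ) ≤ M * Var + w * (M * ρ) := by
      intro i hi
      rw [sum_comm]
      have e3 : ∀ l ∈ range w, ∑ τ : Equiv.Perm V,
          (Z ((Q i).image τ) - θ) * (Z ((Q l).image τ) - θ) ≤
            (if l = i then M * Var else 0) + M * ρ := by
        intro l hl
        by_cases hli : l = i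
        · rw [if_pos hli, hli, hdiag i (mem_range.1 hi)]
          have : 0 ≤ M * ρ := mul_nonneg hMpos.le hρ0
          linarith
        · rw [if_neg hli, zero_add]
          exact hoff i (mem_range.1 hi) l (mem_range.1 hl) (fun h => hli h.symm)
      refine (sum_le_sum e3).trans (le_of_eq ?_)
      rw [sum_add_distrib, sum_ite_eq', if_pos hi, sum_const, card_range, nsmul_eq_mul]
    refine (sum_le_sum e2).trans (le_of_eq ?_)
    rw [sum_const, card_range, nsmul_eq_mul]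
    ring
  rw [hL] at hCS
  have hX0 : 0 ≤ M * (w * Var + w ^ 2 * ρ) := by positivity
  have hfin : (w * (M * Var)) ^ 2 ≤ M * (M * (w * Var + w ^ 2 * ρ)) :=
    hCS.trans (mul_le_mul hh2 hX2 (sum_nonneg fun τ _ => sq_nonneg _) hMpos.le)
  have hw1 : (0 : ℝ) < w := by exact_mod_cast hw0
  have h8 : (w : ℝ) ^ 2 * Var ^ 2 ≤ w * Var + w ^ 2 * ρ := by
    have h9 : M ^ 2 * ((w : ℝ) ^ 2 * Var ^ 2) ≤ M ^ 2 * (w * Var + w ^ 2 * ρ) := by
      calc M ^ 2 * ((w : ℝ) ^ 2 * Var ^ 2) = (w * (M * Var)) ^ 2 := by ring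
        _ ≤ _ := hfin
        _ = _ := by ring
    exact le_of_mul_le_mul_left h9 (by positivity)
  have h10 : (w : ℝ) ^ 2 * Var ^ 2 ≤ w + w ^ 2 * ρ := by nlinarith
  have h11 : Var ^ 2 ≤ 1 / w + ρ := by
    have h12 : (w : ℝ) ^ 2 * Var ^ 2 ≤ w ^ 2 * (1 / w + ρ) := by
      refine h10.trans (le_of_eq ?_)
      field_simp
    exact le_of_mul_le_mul_left h12 (by positivity)
  exact h11

end

/-- the ratio of binomial coefficients tends to one -/
theorem tz_ratio (δ : ℝ) (hδ : 0 < δ) (k0 : ℕ) : ∃ v0 : ℕ, ∀ v ≥ v0, ∀ k ≤ k0,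
    ((v.choose k : ℝ) / ((v - k).choose k)) - 1 ≤ δ := by
  have hlim : Filter.Tendsto (fun v : ℕ => ((v : ℝ) / (v - 2 * k0)) ^ k0) Filter.atTop
      (nhds 1) := by
    have h1 : Filter.Tendsto (fun v : ℕ => (v : ℝ) / (v - 2 * k0)) Filter.atTop (nhds 1) := by
      have h2 : Filter.Tendsto (fun v : ℕ => (1 : ℝ) + (2 * k0) / ((v : ℝ) - 2 * k0))
          Filter.atTop (nhds (1 + 0)) := by
        refine Filter.Tendsto.const_add _ ?_
        refine Filter.Tendsto.div_atTop tendsto_const_nhds ?_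
        exact Filter.tendsto_atTop_add_const_right _ _ tendsto_natCast_atTop_atTop
      rw [add_zero] at h2
      refine h2.congr' ?_
      filter_upwards [Filter.eventually_gt_atTop (2 * k0)] with v hv
      have hv' : (0 : ℝ) < (v : ℝ) - 2 * k0 := by
        have : ((2 * k0 : ℕ) : ℝ) < v := by exact_mod_cast hv
        push_cast at this
        linarith
      field_simp
      ring
    have h3 := h1.pow k0
    rwa [one_pow] at h3
  have hev := hlim.eventually (gt_mem_nhds (show (1 : ℝ) < 1 + δ by linarith))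
  obtain ⟨v1, hv1⟩ := Filter.eventually_atTop.1 hev
  refine ⟨max v1 (2 * k0 + 1), fun v hv k hk => ?_⟩
  have hv1' : v1 ≤ v := (le_max_left _ _).trans hv
  have hv2 : 2 * k0 + 1 ≤ v := (le_max_right _ _).trans hv
  have h4 := hv1 v hv1'
  have hpos : (0 : ℝ) < (v : ℝ) - 2 * k0 := by
    have : ((2 * k0 : ℕ) : ℝ) < v := by exact_mod_cast hv2
    push_cast at this
    linarith
  have hD : (0 : ℝ) < ((v - k).choose k : ℝ) := by
    exact_mod_cast Nat.choose_pos (by omega)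
  have hk' : (k.factorial : ℝ) ≠ 0 := by exact_mod_cast (Nat.factorial_pos k).ne'
  have h5 : (v.choose k : ℝ) / ((v - k).choose k) =
      (v.descFactorial k : ℝ) / ((v - k).descFactorial k) := by
    rw [Nat.descFactorial_eq_factorial_mul_choose, Nat.descFactorial_eq_factorial_mul_choose]
    push_cast
    field_simp
  have h6 : (v.descFactorial k : ℝ) ≤ (v : ℝ) ^ k := by exact_mod_cast Nat.descFactorial_le_pow v k
  have h7 : ((v : ℝ) - 2 * k0) ^ k ≤ ((v - k).descFactorial k : ℝ) := by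
    have h8 : ((v - k + 1 - k) ^ k : ℕ) ≤ (v - k).descFactorial k :=
      Nat.pow_sub_le_descFactorial (v - k) k
    have h9 : (v : ℝ) - 2 * k0 ≤ ((v - k + 1 - k : ℕ) : ℝ) := by
      have h10 : v ≤ (v - k + 1 - k) + 2 * k0 := by omega
      have h11 : (v : ℝ) ≤ ((v - k + 1 - k : ℕ) : ℝ) + 2 * k0 := by exact_mod_cast h10
      linarith
    calc ((v : ℝ) - 2 * k0) ^ k ≤ ((v - k + 1 - k : ℕ) : ℝ) ^ k :=
          pow_le_pow_left₀ hpos.le h9 k
      _ ≤ _ := by exact_mod_cast h8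
  have h12 : (v : ℝ) / (v - 2 * k0) ≥ 1 := by
    rw [ge_iff_le, le_div_iff₀ hpos]
    have : (0 : ℝ) ≤ k0 := Nat.cast_nonneg _
    linarith
  have h13 : (v.choose k : ℝ) / ((v - k).choose k) ≤ ((v : ℝ) / (v - 2 * k0)) ^ k0 := by
    rw [h5]
    calc (v.descFactorial k : ℝ) / ((v - k).descFactorial k)
        ≤ (v : ℝ) ^ k / ((v : ℝ) - 2 * k0) ^ k :=
          div_le_div₀ (by positivity) h6 (by positivity) h7
      _ = ((v : ℝ) / (v - 2 * k0)) ^ k := by rw [div_pow]
      _ ≤ _ := pow_le_pow_right₀ h12 hk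
  linarith

theorem tz (ε : ℝ) (hε : 0 < ε) (k0 : ℕ) : ∃ j1 : ℕ, ∀ j0 ≥ j1, ∃ v0 : ℕ,
    ∀ (V : Type) [Fintype V] [DecidableEq V], v0 ≤ Fintype.card V →
      ∀ h : Finset V → ℝ, (∀ S, 0 ≤ h S) → (∀ S, h S ≤ 1) → ∀ k ≤ k0,
        dn univ k (fun Q => (dn (univ \ Q) (j0 - k) (fun B => h (Q ∪ B)) - dn univ j0 h) ^ 2) ≤
          ε := by
  obtain ⟨w, hw⟩ := exists_nat_gt (2 / ε ^ 2)
  have hw0 : (0 : ℝ) < w := lt_trans (by positivity) hw
  have hw1 : 1 ≤ w := by exact_mod_cast hw0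
  refine ⟨w * k0, fun j0 hj0 => ?_⟩
  obtain ⟨v1, hv1⟩ := tz_ratio (ε ^ 2 / 2) (by positivity) k0
  refine ⟨max v1 (max j0 (2 * k0)), fun V _ _ hV h h0 h1 k hk => ?_⟩
  have hV1 : v1 ≤ Fintype.card V := (le_max_left _ _).trans hV
  have hV2 : j0 ≤ Fintype.card V := ((le_max_left _ _).trans (le_max_right _ _)).trans hV
  have hV3 : 2 * k0 ≤ Fintype.card V := ((le_max_right _ _).trans (le_max_right _ _)).trans hV
  have hcore := tz_core h h0 h1 k w j0 hw1 ((Nat.mul_le_mul_left w hk).trans hj0) hV2 (by omega)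
  have hr := hv1 (Fintype.card V) hV1 k hk
  have h2 : (1 : ℝ) / w ≤ ε ^ 2 / 2 := by
    rw [div_le_div_iff₀ hw0 (by norm_num)]
    rw [div_lt_iff₀ (by positivity)] at hw
    linarith
  have h3 : (dn univ k (fun Q => (dn (univ \ Q) (j0 - k) (fun B => h (Q ∪ B)) -
      dn univ j0 h) ^ 2)) ^ 2 ≤ ε ^ 2 := by linarith
  exact le_of_sq_le_sq h3 hε.le

end H96.TN
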